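import Pool.Agent.Lib.MP_755cca_al.Cnt.Fin

set_option maxRecDepth 100000

namespace Pool.Agent.Lib.MP_755cca_al.Cnt.T48

def RR_aaaa : RT :=
  (.node ([2, 15], [5, 10], [3, 12]) (.node ([75], [3], [4, 48]) (.node ([2, 15], [3, 6, 42], [10, 101]) (.node ([6, 17], [12, 14, 33], [11, 74]) (.node ([1, 10], [6, 16], [7, 13]) (.node ([0, 7], [47, 126], [72, 75]) (.node ([18, 33], [1, 11, 20], [8, 96]) (.node ([28, 60], [29], [27, 58]) .nil .nil) (.node ([35, 54], [22], [38, 56]) .nil .nil)) (.node ([3, 38], [43, 89], [47, 115]) (.node ([47], [107], [13, 53]) .nil .nil) .nil)) (.node ([0, 6, 33], [68, 103], [71, 97]) (.node ([3, 66], [76], [19, 127]) (.node ([99, 112], [47], [96, 114]) .nil .nil) .nil) (.node ([48, 101], [28, 70], [15, 58]) (.node ([57], [21, 99], [22, 102]) .nil .nil) .nil))) (.node ([2, 18], [127], [64, 103]) (.node ([12, 92], [17, 102], [15, 98]) (.node ([15, 90], [16], [14, 88]) (.node ([32, 36, 48], [19, 41, 75], [53, 87]) .nil .nil) .nil) (.node ([13,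 33, 47], [18, 35], [45, 71]) (.node ([41], [55, 65], [53, 67]) .nil .nil) .nil)) (.node ([8, 44, 69], [6, 9], [67, 73]) (.node ([57, 77], [79], [46, 123]) (.node ([0], [22, 78], [26, 86]) .nil .nil) .nil) (.node ([18, 19, 30], [27, 86], [20, 76]) (.node ([19, 50], [22], [38, 61]) .nil .nil) .nil)))) (.node ([3, 30], [5, 27], [4, 28]) (.node ([14, 23], [75, 104], [4, 114]) (.node ([5, 67], [44], [9, 77]) (.node ([118], [102], [44, 114]) (.node ([41, 42], [34, 48], [37, 46]) .nil .nil) .nil) (.node ([44, 120], [9], [61, 67]) (.node ([32, 36], [20, 41, 75], [53, 85]) .nil .nil) .nil)) (.node ([24, 75], [4, 32], [27, 77]) (.node ([95], [111], [44, 89]) (.node ([26, 28], [29, 42], [23, 58]) .nil .nil) .nil) (.node ([82], [18, 26], [47, 78]) (.node ([41, 61, 79], [32, 42], [57, 108]) .nil .nil) .nil))) (.node ([6, 75], [2, 14, 49], [63, 103]) (.node ([27, 74], [5, 14, 36], [92, 103]) (.node ([2, 62, 71], [0, 74], [103, 119]) (.node ([35, 42], [46], [34, 43]) .nil .nil)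 .nil) (.node ([0, 42], [23, 94], [25, 99]) (.node ([31, 35, 44], [26, 33], [45, 56]) .nil .nil) .nil)) (.node ([3, 66, 97], [0, 17], [91, 127]) (.node ([9, 36, 48], [7, 41], [37, 65]) (.node ([33, 60], [62, 71], [49, 113]) .nil .nil) .nil) (.node ([0, 45], [40, 81, 93], [95, 105]) (.node ([26, 34, 48], [32, 35, 42], [46, 58]) .nil .nil) .nil))))) (.node ([17, 36], [8], [14, 39]) (.node ([5, 10, 19], [15, 23], [3, 102]) (.node ([6, 18], [1, 11], [8, 13]) (.node ([3, 4], [83, 89], [81, 91]) (.node ([12, 24], [17, 25], [44, 84]) (.node ([1, 104], [8, 59], [18, 120]) .nil .nil) (.node ([32, 35, 36], [22, 49], [41, 60]) .nil .nil)) (.node ([36, 75], [14, 53], [27, 65]) (.node ([42, 54], [32], [37, 52]) .nil .nil) .nil)) (.node ([61], [102], [17, 57]) (.node ([2, 52], [43, 83], [23, 117]) (.node ([0, 21, 34], [25, 122], [62, 94]) .nil .nil) .nil) (.node ([25, 48], [32, 42], [28, 46]) (.node ([39, 52], [61], [30, 50]) .nil .nil) .nil))) (.node ([5, 104], [4, 61], [17, 123])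 (.node ([], [70], [16, 34]) (.node ([2, 116], [0, 15], [80, 103]) (.node ([20, 44, 102], [17, 21], [61, 98]) .nil .nil) .nil) (.node ([11, 55, 75], [24], [77, 112]) (.node ([32, 42], [21, 23, 46], [25, 57]) .nil .nil) .nil)) (.node ([0, 10], [4, 72, 79], [81, 126]) (.node ([39, 42], [34], [37, 44]) (.node ([59], [20, 99], [22, 104]) .nil .nil) .nil) (.node ([0, 27, 33], [18, 30, 60], [31, 113]) (.node ([0, 46], [13, 22, 25], [26, 94]) .nil .nil) .nil)))) (.node ([6, 48], [63], [10, 49]) (.node ([0, 10, 19], [16, 23], [3, 99]) (.node ([42], [46], [44, 48]) (.node ([74], [1, 12, 92], [9, 128]) (.node ([29, 66], [0, 38], [16, 54]) .nil .nil) .nil) (.node ([10, 47], [63, 99], [13, 114]) (.node ([0, 35, 36], [22, 71], [1, 60]) .nil .nil) .nil)) (.node ([3, 47, 93], [0, 48, 103], [75, 100]) (.node ([57], [48], [19, 46]) (.node ([23, 43], [0, 10, 57], [79, 99]) .nil .nil) .nil) (.node ([0, 18, 35], [16, 60, 68], [71, 106]) (.node ([41, 44], [35, 39, 42], [34, 50]) .nil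 .nil) .nil))) (.node ([65], [36], [14, 41]) (.node ([18], [36, 127], [66, 103]) (.node ([90], [18, 19], [16, 20]) (.node ([43, 44, 95], [2, 35], [45, 117]) .nil .nil) .nil) (.node ([90], [27, 71], [36, 82]) (.node ([26, 42],
  [13, 25, 48], [46, 80]) .nil .nil) .nil)) (.node ([5, 19], [3, 30, 37], [28, 91]) (.node ([36], [1, 92], [9, 90]) (.node ([32, 61], [21, 23], [30, 57]) .nil .nil) .nil) (.node ([0, 25], [26, 30], [32, 78]) (.node ([22, 31], [29, 36, 56], [54, 60]) .nil .nil) .nil)))))) (.node ([12, 14], [11], [17, 63]) (.node ([5, 6], [97], [17, 93]) (.node ([0, 44], [77], [5, 45]) (.node ([75], [4, 87], [3, 85]) (.node ([16, 36], [7, 47], [14, 38]) (.node ([12, 48], [63, 102], [10, 109]) (.node ([7, 41], [1, 37], [9, 38]) .nil .nil) (.node ([1, 21, 46], [22, 34], [41, 94]) .nil .nil)) (.node ([3, 38, 95], [0, 47], [89, 100]) (.node ([56], [34, 60], [33, 58]) .nil .nil) .nil)) (.node ([44, 81], [83, 95], [2, 111]) (.node ([3, 31], [19, 81], [23, 89]) (.node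 ([], [15, 122], [74, 88]) .nil .nil) .nil) (.node ([23, 42], [5, 10, 57], [79, 102]) (.node ([0, 43, 61], [22, 23, 64], [52, 99]) .nil .nil) .nil))) (.node ([95], [18], [6, 31]) (.node ([23], [48, 84], [15, 51]) (.node ([47], [48, 71], [16, 49]) (.node ([43, 108], [41, 79], [42, 105]) .nil .nil) .nil) (.node ([44, 99], [118], [45, 102]) (.node ([45], [46, 96], [13, 55]) .nil .nil) .nil)) (.node ([44, 72], [6], [45, 73]) (.node ([35, 97], [33, 93], [34, 95]) (.node ([22, 23], [29], [19, 26]) .nil .nil) .nil) (.node ([3, 52], [2, 29, 30], [23, 124]) (.node ([30, 37, 68], [34, 86], [39, 110]) .nil .nil) .nil)))) (.node ([0, 17, 101], [3, 97], [5, 127]) (.node ([84], [5], [12, 27]) (.node ([10], [12, 99], [13, 102]) (.node ([30, 33], [20, 44], [24, 39]) (.node ([3, 38, 93], [0, 48], [87, 100]) .nil .nil) .nil) (.node ([109], [], [12, 53]) (.node ([1, 48], [16, 35, 37], [38, 70]) .nil .nil) .nil)) (.node ([5, 6, 49], [34, 103], [74, 93]) (.node ([57, 104], [114], [19,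 118]) (.node ([0], [101, 106], [58, 127]) .nil .nil) .nil) (.node ([0, 19], [29], [3, 22]) (.node ([21, 49], [41], [34, 53]) .nil .nil) .nil))) (.node ([79], [43, 83], [42, 81]) (.node ([13, 17], [2, 68], [6, 78]) (.node ([16, 68], [1, 64], [13, 66]) (.node ([35, 64], [1, 43, 44], [13, 50]) .nil .nil) .nil) (.node ([62], [21], [25, 36]) (.node ([55], [21, 96], [22, 98]) .nil .nil) .nil)) (.node ([0, 7], [18, 115], [64, 89]) (.node ([72, 85], [40], [8, 105]) (.node ([0, 44], [56, 64], [52, 68]) .nil .nil) .nil) (.node ([5, 53], [32], [21, 75]) (.node ([21, 99], [22, 61], [57, 86]) .nil .nil) .nil))))) (.node ([5, 7], [91], [17, 87]) (.node ([16], [47], [18, 48]) (.node ([23], [0, 102], [5, 99]) (.node ([], [7, 108], [73, 87]) (.node ([18], [33, 82], [24, 71]) (.node ([40], [8, 59], [20, 72]) .nil .nil) (.node ([46, 53, 96], [22], [55, 107]) .nil .nil)) (.node ([41], [49], [36, 46]) (.node ([86], [0, 39], [1, 30]) .nil .nil) .nil)) (.node ([4, 61], [30], [20, 83])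 (.node ([0, 30, 33], [31, 97], [4, 56]) (.node ([35], [34, 48, 71], [49, 70]) .nil .nil) .nil) (.node ([37, 97, 100], [93], [101, 121]) (.node ([31, 39], [36, 56], [33, 54]) .nil .nil) .nil))) (.node ([3, 32], [23, 75], [27, 79]) (.node ([42, 127], [2], [64, 101]) (.node ([48, 92], [19], [15, 53]) (.node ([1], [49, 128], [74, 107]) .nil .nil) .nil) (.node ([0, 93], [45, 79, 85], [77, 105]) (.node ([44, 86], [39, 64], [61, 68]) .nil .nil) .nil)) (.node ([1, 14, 48], [7, 47], [16, 65]) (.node ([7, 39], [1, 17, 37], [9, 66]) (.node ([125], [23, 86], [24, 88]) .nil .nil) .nil) (.node ([6, 50, 83], [44, 64], [73, 117]) (.node ([31, 35], [22, 45], [26, 40]) .nil .nil) .nil)))) (.node ([19, 73], [], [7, 61]) (.node ([5, 6], [15, 34, 103], [74, 101]) (.node ([114], [75], [23, 65]) (.node ([13, 15, 25], [2, 42], [12, 80]) (.node ([0, 39], [121], [35, 91]) .nil .nil) .nil) (.node ([25], [24, 46], [44, 51]) (.node ([32, 47], [19, 105], [59, 87]) .nil .nil) .nil)) (.node ([46,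 75], [48, 93], [49, 79]) (.node ([51], [32], [27, 46]) (.node ([58], [32], [29, 34]) .nil .nil) .nil) (.node ([0, 6, 38], [16, 35], [1, 100]) (.node ([0, 35, 39], [22, 68], [1, 56]) .nil .nil) .nil))) (.node ([4, 36], [14, 20], [8, 27]) (.node ([0, 14, 20], [18, 27], [4, 90]) (.node ([113], [18], [27, 68]) (.node
  ([], [11, 55, 114], [112, 118]) .nil .nil) .nil) (.node ([29], [16, 28], [48, 76]) (.node ([26, 28, 70], [0, 42, 48], [58, 80]) .nil .nil) .nil)) (.node ([108], [42], [41, 83]) (.node ([36, 48], [38], [37, 47]) (.node ([57], [46, 53], [48, 55]) .nil .nil) .nil) (.node ([30, 36], [21, 27, 33], [20, 62]) (.node ([22, 27, 49], [32, 36, 47], [53, 60]) .nil .nil) .nil)))))))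

def RR_aaab : RT :=
  (.node ([], [103], [2, 36]) (.node ([14], [3, 6, 36], [7, 103]) (.node ([2, 27], [4, 23], [3, 24]) (.node ([11, 47], [18], [14, 45]) (.node ([4, 7, 47], [3, 18, 36], [14, 89]) (.node ([15, 19], [3, 37], [7, 28]) (.node ([0, 67], [45], [1, 77]) (.node ([93], [44, 105], [45, 108]) .nil .nil) (.node ([32, 38], [22, 48], [29, 41]) .nil .nil)) (.node ([0, 17, 39], [66, 97], [68, 91]) (.node ([62, 86], [30, 36], [21, 113]) .nil .nil) .nil)) (.node ([30, 127], [0, 17], [76, 97]) (.node ([18, 23], [4, 10, 59], [81, 104]) (.node ([45, 69], [1, 46], [43, 67]) .nil .nil) .nil) (.node ([42, 100], [43, 93], [48, 117]) (.node ([35, 37], [41], [34, 38]) .nil .nil) .nil))) (.node ([3, 18, 30], [0, 17, 27], [4, 76]) (.node ([13, 74], [1, 12, 14], [6, 128]) (.node ([80], [23], [16, 25]) (.node ([38, 39], [36, 41], [37, 40]) .nil .nil) .nil) (.node ([24], [31, 44], [30, 45]) (.node ([21, 33, 46], [41, 44], [34, 55]) .nil .nil) .nil)) (.node ([1, 17, 36], [7,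 18, 39], [8, 66]) (.node ([33, 103], [17, 62, 71], [74, 113]) (.node ([26, 47], [29, 35], [43, 60]) .nil .nil) .nil) (.node ([59], [31], [23, 40]) (.node ([0, 19, 50], [38, 52], [22, 115]) .nil .nil) .nil)))) (.node ([3, 36], [27], [19, 103]) (.node ([2], [11, 46, 75], [63, 77]) (.node ([14, 98], [17], [11, 92]) (.node ([20], [112], [14, 55]) (.node ([16, 37, 68], [1], [66, 70]) .nil .nil) .nil) (.node ([], [77, 120], [67, 123]) (.node ([21], [9, 57], [41, 102]) .nil .nil) .nil)) (.node ([32, 81], [0, 23], [31, 79]) (.node ([45, 79], [2, 43], [46, 81]) (.node ([48, 71], [60, 70], [35, 116]) .nil .nil) .nil) (.node ([26, 71], [0, 35], [13, 60]) (.node ([5, 46, 53], [21, 51], [32, 109]) .nil .nil) .nil))) (.node ([0, 103], [4, 47, 93], [75, 95]) (.node ([3, 37], [28], [19, 101]) (.node ([42, 97, 100], [2, 93], [101, 117]) (.node ([96], [13, 86], [18, 94]) .nil .nil) .nil) (.node ([0, 34], [119], [13, 62]) (.node ([96], [11, 47, 55], [45, 112]) .nil .nil) .nil)) (.node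 ([39, 64], [73], [17, 50]) (.node ([1, 10], [18, 43, 73], [64, 72]) (.node ([18, 29, 56], [0, 60], [31, 106]) .nil .nil) .nil) (.node ([57, 65, 104], [19], [114, 120]) (.node ([21, 48, 99], [19, 22, 42], [57, 88]) .nil .nil) .nil))))) (.node ([0, 7], [16], [1, 3]) (.node ([2], [101], [42, 103]) (.node ([102], [5], [9, 23]) (.node ([5, 36], [4, 39, 87], [85, 91]) (.node ([44], [25, 33], [24, 34]) (.node ([18, 50], [0, 40, 73], [1, 111]) .nil .nil) (.node ([22, 48], [46, 53, 99], [57, 107]) .nil .nil)) (.node ([32], [19, 108], [61, 87]) (.node ([8, 41, 61], [9, 20], [39, 120]) .nil .nil) .nil)) (.node ([75], [123], [19, 77]) (.node ([68], [34, 71], [33, 70]) (.node ([0, 88], [23, 90, 94], [99, 125]) .nil .nil) .nil) (.node ([32], [48, 62], [28, 49]) (.node ([29, 56, 64], [0, 26], [52, 106]) .nil .nil) .nil))) (.node ([24], [84], [17, 51]) (.node ([16, 17, 28], [3], [15, 76]) (.node ([0, 6, 48], [100], [16, 93]) (.node ([12, 14, 107], [13], [63, 128]) .nil .nil) .nil)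 (.node ([33, 77], [11, 55], [24, 67]) (.node ([86], [20, 44, 99], [61, 96]) .nil .nil) .nil)) (.node ([9, 19], [92], [36, 102]) (.node ([10, 46, 47], [13, 48], [43, 63]) (.node ([52], [0, 61], [22, 83]) .nil .nil) .nil) (.node ([33, 47, 93], [35, 103], [49, 95]) (.node ([13, 22], [107], [47, 94]) .nil .nil) .nil)))) (.node ([73], [9, 10], [17, 69]) (.node ([2, 28], [5, 23], [3, 25]) (.node ([0, 11, 20], [18, 24], [4, 96]) (.node ([14], [128], [13, 92]) (.node ([54], [38, 91], [19, 121]) .nil .nil) .nil) (.node ([13, 34], [42, 68], [44, 70]) (.node ([3, 38, 52], [0, 19, 43], [29, 115]) .nil .nil) .nil)) (.node ([0, 2, 42], [43, 83, 93], [79, 117]) (.node ([14, 24, 53], [20, 75], [27, 112]) (.node ([0, 34, 36], [122], [1, 62]) .nil .nil) .nil) (.node ([0, 16], [29, 35, 127], [100, 106]) (.node ([19, 41], [20, 57, 65], [53, 120]) .nil .nil) .nil))) (.node ([18, 36], [8, 47], [14, 40]) (.node ([16, 103], [18, 100], [47, 127]) (.node ([0, 47], [18, 29], [16, 31]) (.node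 ([31, 44], [26, 30, 33], [24, 56]) .nil .nil) .nil) (.node ([16, 35, 42], [13, 48], [43, 70]) (.node
  ([23, 26], [25, 48, 82], [51, 80]) .nil .nil) .nil)) (.node ([0, 7, 37], [38, 91], [66, 87]) (.node ([90], [1, 19], [36, 99]) (.node ([22, 30], [20, 32], [21, 31]) .nil .nil) .nil) (.node ([23, 44], [42, 78], [25, 64]) (.node ([22, 27], [21, 51, 90], [53, 125]) .nil .nil) .nil)))))) (.node ([2, 14], [11, 75], [4, 63]) (.node ([2, 14, 48], [10, 75], [3, 63]) (.node ([6], [74], [14, 34]) (.node ([83, 87], [3, 5], [79, 91]) (.node ([64], [0, 73], [1, 83]) (.node ([0, 33], [96], [1, 24]) (.node ([5, 39], [17, 21], [9, 30]) .nil .nil) (.node ([22, 46], [32, 35], [26, 41]) .nil .nil)) (.node ([0], [95, 115], [89, 117]) (.node ([61, 69], [9, 57], [42, 120]) .nil .nil) .nil)) (.node ([72], [45], [6, 59]) (.node ([0, 24], [2, 31], [4, 26]) (.node ([25, 88], [23, 94], [42, 125]) .nil .nil) .nil) (.node ([27], [125], [21, 82]) (.node ([59], [1, 57, 104], [99, 120]) .nil .nil)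 .nil))) (.node ([2, 64], [6, 43, 83], [10, 117]) (.node ([71], [1, 14], [6, 90]) (.node ([16, 28], [27, 80], [23, 116]) (.node ([11, 55, 65], [33], [67, 112]) .nil .nil) .nil) (.node ([96], [112], [47, 98]) (.node ([25, 86], [24, 94], [44, 125]) .nil .nil) .nil)) (.node ([8, 61], [39], [20, 73]) (.node ([124], [32, 103], [31, 101]) (.node ([16, 60], [18, 29, 35], [47, 106]) .nil .nil) .nil) (.node ([38, 95], [36, 100], [47, 121]) (.node ([9, 46, 53], [21, 49], [41, 109]) .nil .nil) .nil)))) (.node ([97], [44], [2, 39]) (.node ([2, 15, 34], [5, 6, 42], [12, 101]) (.node ([2, 44], [12, 24], [11, 25]) (.node ([2, 34], [44, 93], [46, 97]) (.node ([1, 47], [16, 35, 36], [38, 71]) .nil .nil) .nil) (.node ([33, 109], [9], [49, 98]) (.node ([38, 93], [0, 41], [35, 87]) .nil .nil) .nil)) (.node ([93], [2, 49], [46, 103]) (.node ([19, 30], [21, 27], [20, 28]) (.node ([61], [17, 21, 99], [86, 102]) .nil .nil) .nil) (.node ([31, 43], [29], [47, 52]) (.node ([32, 33, 35], [34,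 60], [49, 56]) .nil .nil) .nil))) (.node ([79], [46, 75], [48, 77]) (.node ([0, 17, 23], [2, 76], [3, 78]) (.node ([2, 43], [13, 23], [10, 26]) (.node ([47], [49, 82], [51, 71]) .nil .nil) .nil) (.node ([13, 88], [0, 70], [1, 80]) (.node ([35, 39], [33, 41], [34, 40]) .nil .nil) .nil)) (.node ([18, 47], [7, 40, 81], [72, 89]) (.node ([39, 87], [5, 36, 41], [37, 85]) (.node ([38, 117], [0, 50], [35, 115]) .nil .nil) .nil) (.node ([69, 123], [57], [79, 120]) (.node ([31, 43, 61], [22, 23], [52, 59]) .nil .nil) .nil))))) (.node ([104], [], [10, 20]) (.node ([2, 18], [6, 81], [10, 95]) (.node ([13, 17], [10, 18, 44], [11, 64]) (.node ([69, 75], [48], [65, 79]) (.node ([17, 96], [11, 20], [18, 98]) (.node ([1, 15, 21], [37], [9, 88]) .nil .nil) .nil) (.node ([42], [41, 73, 79], [69, 108]) (.node ([31, 39], [20], [30, 40]) .nil .nil) .nil)) (.node ([24, 92], [5, 20], [27, 98]) (.node ([0, 103], [31, 97, 100], [95, 124]) (.node ([0, 42], [28, 70, 78], [80, 110]) .nil .nil)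 .nil) (.node ([43], [99], [10, 22]) (.node ([0, 50], [35, 52], [22, 117]) .nil .nil) .nil))) (.node ([36, 97], [33], [39, 103]) (.node ([23, 92], [15, 27], [19, 84]) (.node ([82], [84, 90], [14, 125]) (.node ([51, 128], [0], [84, 107]) .nil .nil) .nil) (.node ([42], [15, 94], [12, 88]) (.node ([26], [31, 43, 44], [45, 52]) .nil .nil) .nil)) (.node ([16, 17, 19], [3, 66], [7, 76]) (.node ([120], [65], [19, 67]) (.node ([30, 64], [23, 44, 86], [61, 78]) .nil .nil) .nil) (.node ([31, 44], [111], [61, 95]) (.node ([20, 32, 45], [22, 24], [31, 55]) .nil .nil) .nil)))) (.node ([4], [126], [10, 85]) (.node ([64], [13], [16, 44]) (.node ([2, 30, 33], [4, 44], [24, 97]) (.node ([0, 12, 21], [25], [5, 94]) (.node ([0], [38, 91, 117], [115, 121]) .nil .nil) .nil) (.node ([68], [1, 44], [13, 39]) (.node ([0, 41], [50, 87], [38, 108]) .nil .nil) .nil)) (.node ([65, 104], [8, 19], [14, 120]) (.node ([52], [32], [31, 42]) (.node ([47, 99], [16, 22], [43, 90]) .nil .nil) .nil) (.node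 ([2, 35, 47], [43, 95], [45, 100]) (.node ([86], [37, 68, 76], [66, 110]) .nil .nil) .nil))) (.node ([5, 36], [85], [39, 75]) (.node ([3, 30, 64], [0, 17, 23], [76, 83]) (.node
  ([0, 17, 18], [68, 76, 103], [113, 127]) (.node ([32], [23, 55], [24, 57]) .nil .nil) .nil) (.node ([70, 113], [71], [68, 116]) (.node ([48, 62, 71], [60], [49, 116]) .nil .nil) .nil)) (.node ([7, 41, 79], [48], [69, 87]) (.node ([1, 18], [16, 36, 68], [66, 71]) (.node ([24, 46, 53], [32], [51, 55]) .nil .nil) .nil) (.node ([0, 27, 49], [32, 47, 103], [60, 75]) (.node ([22], [0, 41], [1, 32]) .nil .nil) .nil)))))))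

def RR_aaba : RT :=
  (.node ([3, 18], [0, 14], [4, 16]) (.node ([17], [5, 8], [4, 9]) (.node ([18, 83], [4, 10], [17, 81]) (.node ([5, 63], [2], [12, 75]) (.node ([16, 17, 36], [7, 18], [14, 66]) (.node ([9, 10, 48], [7, 42], [15, 69]) (.node ([44, 123], [5], [61, 77]) (.node ([39, 42], [9, 61], [21, 73]) .nil .nil) (.node ([19, 41, 47], [22, 36, 48], [38, 53]) .nil .nil)) (.node ([4, 19], [31, 91], [30, 89]) (.node ([20, 57, 77], [32], [55, 123]) .nil .nil) .nil)) (.node ([18, 97], [68, 103], [33, 127]) (.node ([0, 2, 6], [64, 97, 100], [117, 127]) (.node ([41, 77], [55], [32, 67]) .nil .nil) .nil) (.node ([3, 48], [29, 101], [28, 100]) (.node ([58], [32, 35], [48, 56]) .nil .nil) .nil))) (.node ([2, 16], [3, 6, 43], [10, 100]) (.node ([12, 92], [5, 74], [9, 84]) (.node ([1, 42], [70], [13, 37]) (.node ([19, 41, 79], [32, 48], [57, 87]) .nil .nil) .nil) (.node ([45], [35], [33, 43]) (.node ([21], [55, 102], [57, 98]) .nil .nil) .nil)) (.node ([41, 73], [9], [39,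 69]) (.node ([6, 36], [9, 14, 49], [65, 74]) (.node ([68, 76], [64, 86], [66, 78]) .nil .nil) .nil) (.node ([61, 81], [31, 83], [23, 111]) (.node ([29, 35, 36], [22, 47], [38, 60]) .nil .nil) .nil)))) (.node ([23, 44], [83], [2, 61]) (.node ([2, 33], [6, 77], [11, 93]) (.node ([4], [77, 104], [11, 123]) (.node ([20, 44], [98], [17, 55]) (.node ([36, 88], [1, 19], [37, 90]) .nil .nil) .nil) (.node ([8, 41, 44], [9, 33], [39, 67]) (.node ([34, 36, 88], [1, 21], [37, 122]) .nil .nil) .nil)) (.node ([3, 32], [5, 27, 48], [28, 75]) (.node ([0, 2, 30], [3, 52, 97], [83, 124]) (.node ([0], [62, 71, 80], [116, 119]) .nil .nil) .nil) (.node ([43], [26], [23, 35]) (.node ([53], [92, 107], [90, 109]) .nil .nil) .nil))) (.node ([0, 101], [3, 93], [5, 100]) (.node ([2, 62], [5], [25, 103]) (.node ([37, 97], [34], [39, 101]) (.node ([46], [25, 49], [34, 51]) .nil .nil) .nil) (.node ([0, 74], [119], [2, 122]) (.node ([45, 57, 104], [99], [59, 118]) .nil .nil) .nil)) (.node ([39,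 89], [36], [40, 91]) (.node ([1, 17, 33], [6, 18, 39], [8, 68]) (.node ([60, 68], [18, 56], [33, 106]) .nil .nil) .nil) (.node ([14, 53], [20, 114], [19, 112]) (.node ([48, 125], [22, 23], [51, 88]) .nil .nil) .nil))))) (.node ([5, 8, 10], [4, 73], [17, 126]) (.node ([0, 74], [103], [5, 71]) (.node ([8, 44], [17, 33], [11, 39]) (.node ([14, 48], [10, 19, 65], [7, 114]) (.node ([12, 51], [5, 63], [2, 109]) (.node ([18, 38, 39], [1, 36], [40, 66]) .nil .nil) (.node ([41, 59], [1, 20, 57], [22, 120]) .nil .nil)) (.node ([32, 91], [0, 30, 37], [5, 54]) (.node ([47, 120], [1, 19], [59, 65]) .nil .nil) .nil)) (.node ([10, 123], [23], [79, 104]) (.node ([36, 95], [33, 47], [40, 103]) (.node ([47, 99], [13, 48, 90], [16, 107]) .nil .nil) .nil) (.node ([74, 90], [14, 36], [71, 92]) (.node ([22, 82], [51, 90], [47, 125]) .nil .nil) .nil))) (.node ([83], [10, 61], [23, 73]) (.node ([10, 47], [13, 14, 48], [16, 63]) (.node ([0, 15], [28, 70, 103], [101, 116]) (.node ([46], [109],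 [21, 63]) .nil .nil) .nil) (.node ([75], [24, 53, 63], [51, 112]) (.node ([5, 41], [32, 34], [21, 93]) .nil .nil) .nil)) (.node ([72, 85], [0, 8], [40, 126]) (.node ([48, 65], [53, 63], [49, 114]) (.node ([0, 20, 47], [18, 22, 27], [31, 90]) .nil .nil) .nil) (.node ([56], [], [30, 35]) (.node ([12, 21, 107], [46], [94, 109]) .nil .nil) .nil)))) (.node ([0, 3], [4, 47, 79], [75, 81]) (.node ([10, 48], [16, 42], [15, 43]) (.node ([13, 17, 33], [6, 18, 44], [11, 68]) (.node ([21, 74], [9], [34, 92]) (.node ([54], [19], [30, 38]) .nil .nil) .nil) (.node ([0, 17], [24, 128], [84, 96]) (.node ([30, 66], [86], [39, 76]) .nil .nil) .nil)) (.node ([39, 83, 93], [5, 44], [97, 108]) (.node ([123], [4, 32], [23, 85]) (.node ([2, 32, 43], [0, 23, 46], [26, 79]) .nil .nil) .nil) (.node ([16], [106], [35, 76]) (.node ([41], [1, 21], [9, 22]) .nil .nil) .nil))) (.node ([6, 65], [8, 69], [7, 67]) (.node ([76, 103], [0, 17, 27], [3, 113]) (.node ([0, 18, 23], [16, 27, 78], [76, 82])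 (.node ([20, 23, 45], [31], [24, 59]) .nil .nil) .nil) (.node ([34, 71, 80], [13], [70, 119]) (.node
  ([48, 90], [16, 22], [47, 88]) .nil .nil) .nil)) (.node ([48], [19, 69], [7, 57]) (.node ([15, 21], [5, 37], [9, 28]) (.node ([0, 57], [59, 79], [43, 123]) .nil .nil) .nil) (.node ([26, 28], [23, 32], [25, 29]) (.node ([1, 57], [59, 69], [43, 120]) .nil .nil) .nil)))))) (.node ([4, 6], [2, 14, 33], [11, 103]) (.node ([3, 97], [83], [2, 91]) (.node ([12, 14, 23], [2, 15], [10, 84]) (.node ([39, 83], [5, 73], [17, 108]) (.node ([89], [0, 7], [18, 87]) (.node ([9, 10, 46], [6, 42], [12, 69]) (.node ([120], [20], [41, 104]) .nil .nil) (.node ([22, 46], [45, 57], [43, 55]) .nil .nil)) (.node ([0, 73], [18, 50, 83], [64, 111]) (.node ([48, 60], [32, 47], [29, 49]) .nil .nil) .nil)) (.node ([3, 117], [0, 2], [83, 100]) (.node ([0, 24], [27, 78], [30, 82]) (.node ([94], [34, 88], [42, 122]) .nil .nil) .nil) (.node ([21, 23], [19, 30, 42], [28, 61]) (.node ([22, 23, 47],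 [19, 31, 43], [29, 59]) .nil .nil) .nil))) (.node ([44, 81], [2], [45, 83]) (.node ([5, 34], [25, 74], [12, 62]) (.node ([15, 90], [14, 19], [16, 92]) (.node ([], [57, 67, 104], [118, 120]) .nil .nil) .nil) (.node ([0, 118], [23, 45], [77, 99]) (.node ([1, 44], [13, 34, 86], [68, 94]) .nil .nil) .nil)) (.node ([8, 10, 123], [4], [104, 126]) (.node ([76], [28, 113], [27, 110]) (.node ([27, 71, 86], [0, 18, 36], [90, 113]) .nil .nil) .nil) (.node ([33, 90], [18, 36], [20, 71]) (.node ([1, 21, 44], [34, 86], [39, 94]) .nil .nil) .nil)))) (.node ([48, 103], [75], [3, 49]) (.node ([2, 42], [12, 23], [10, 25]) (.node ([10, 44], [13, 17, 42], [12, 64]) (.node ([17, 34], [5, 6, 39], [9, 97]) (.node ([0, 66], [16, 86], [1, 76]) .nil .nil) .nil) (.node ([44], [46, 98], [12, 55]) (.node ([32, 37], [21, 48], [28, 41]) .nil .nil) .nil)) (.node ([30, 34, 103], [5, 33], [62, 97]) (.node ([47, 123], [0, 19], [59, 75]) (.node ([29, 101], [32, 100], [48, 124]) .nil .nil) .nil) (.node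 ([26, 27], [29], [23, 60]) (.node ([86], [36, 110], [37, 113]) .nil .nil) .nil))) (.node ([63], [2, 49], [6, 51]) (.node ([0, 6, 64], [2, 16, 68], [13, 127]) (.node ([78], [2], [17, 26]) (.node ([18, 26], [0, 45], [13, 31]) .nil .nil) .nil) (.node ([88], [99], [42, 90]) (.node ([46, 99], [10, 45, 57], [43, 118]) .nil .nil) .nil)) (.node ([4], [39, 83, 89], [91, 111]) (.node ([85], [20], [8, 32]) (.node ([0, 6, 50], [35, 64], [1, 117]) .nil .nil) .nil) (.node ([57, 75], [23, 53], [32, 114]) (.node ([22, 68], [56, 66], [39, 106]) .nil .nil) .nil))))) (.node ([10, 75], [4, 7, 79], [3, 126]) (.node ([18, 97], [4, 6], [17, 95]) (.node ([33, 63], [6], [11, 49]) (.node ([83, 87], [0, 42, 91], [5, 115]) (.node ([13, 33], [6, 45], [11, 35]) (.node ([5, 33, 41], [39, 93], [34, 85]) .nil .nil) .nil) (.node ([1, 10, 42], [43, 73], [64, 69]) (.node ([18, 35, 39], [1, 33], [40, 68]) .nil .nil) .nil)) (.node ([114], [48], [10, 53]) (.node ([0, 103], [18, 124], [31, 127]) (.node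 ([42, 68, 76], [78], [64, 110]) .nil .nil) .nil) (.node ([16, 86], [18, 99], [64, 90]) (.node ([4, 40, 61], [31, 39], [20, 111]) .nil .nil) .nil))) (.node ([2, 32], [79], [23, 93]) (.node ([5, 19], [23, 92], [27, 102]) (.node ([28], [21, 23], [19, 25]) (.node ([6, 43], [1, 10, 46], [13, 69]) .nil .nil) .nil) (.node ([34], [1, 12, 21], [9, 94]) (.node ([13, 22, 24], [0, 45], [26, 96]) .nil .nil) .nil)) (.node ([5, 48], [42, 87], [37, 79]) (.node ([], [10, 120], [69, 104]) (.node ([0, 51], [26, 27], [32, 82]) .nil .nil) .nil) (.node ([52, 97], [0, 30, 44], [56, 83]) (.node ([0, 55], [22, 24], [32, 96]) .nil .nil) .nil)))) (.node ([8, 75], [4, 36], [14, 85]) (.node ([101], [0, 15, 34], [5, 70]) (.node ([11, 75], [24, 63], [2, 112]) (.node ([2, 34], [13, 25, 74], [12, 119]) (.node ([0, 40], [38, 95], [35, 89]) .nil .nil) .nil) (.node ([13, 17, 90], [14, 96], [18, 128]) (.node ([37, 86], [19, 39], [21, 66]) .nil .nil) .nil)) (.node ([79, 85], [75, 93], [77, 87]) (.node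 ([29, 30], [0, 28], [32, 76]) (.node ([37], [34, 88], [21, 70]) .nil .nil) .nil) (.node ([2, 35], [117], [44, 100]) (.node ([32, 40], [0, 20, 41], [22, 85]) .nil .nil) .nil))) (.node
  ([33], [39], [36, 44]) (.node ([3, 31], [0, 27], [4, 29]) (.node ([35, 103], [71], [6, 60]) (.node ([21, 24], [5, 55], [32, 98]) .nil .nil) .nil) (.node ([23, 48], [29, 42], [28, 43]) (.node ([16, 22, 28], [0, 19, 48], [29, 88]) .nil .nil) .nil)) (.node ([115], [0, 7, 42], [64, 87]) (.node ([43], [0, 69], [1, 79]) (.node ([0, 53], [51, 90], [27, 107]) .nil .nil) .nil) (.node ([5, 49], [32, 34, 103], [62, 93]) (.node ([13, 22, 49], [1, 46, 47], [35, 107]) .nil .nil) .nil)))))))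

def RR_aabb : RT :=
  (.node ([83], [2], [3, 44]) (.node ([8, 10], [11], [6, 104]) (.node ([5, 14, 33], [17, 103], [4, 74]) (.node ([24], [], [23, 33]) (.node ([91], [0, 17, 37], [5, 66]) (.node ([0, 7], [3, 66], [16, 91]) (.node ([12], [63, 98], [11, 109]) (.node ([57], [41, 79], [32, 69]) .nil .nil) (.node ([22, 34], [37, 56], [39, 58]) .nil .nil)) (.node ([0], [3, 121], [91, 100]) (.node ([49], [34, 60], [35, 62]) .nil .nil) .nil)) (.node ([0, 30, 103], [3, 31, 97], [4, 124]) (.node ([14, 20], [17, 90], [18, 92]) (.node ([12, 21, 48], [46, 102], [42, 109]) .nil .nil) .nil) (.node ([14, 53, 102], [19], [92, 114]) (.node ([60], [22], [26, 36]) .nil .nil) .nil))) (.node ([17, 71], [14, 33], [18, 74]) (.node ([12, 23, 92], [5, 15], [84, 102]) (.node ([71, 80], [82], [16, 119]) (.node ([50], [1, 42], [41, 64]) .nil .nil) .nil) (.node ([39, 95], [33], [40, 97]) (.node ([12, 92, 107], [], [109, 128]) .nil .nil) .nil)) (.node ([4, 7, 40], [18, 36], [8, 89]) (.node ([62],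 [32, 33], [30, 49]) (.node ([99], [18, 43, 61], [59, 64]) .nil .nil) .nil) (.node ([23, 78], [25, 82], [24, 80]) (.node ([35, 54, 97], [0, 39], [56, 121]) .nil .nil) .nil)))) (.node ([5, 33], [97], [4, 34]) (.node ([9], [74], [12, 36]) (.node ([5, 33], [98], [9, 24]) (.node ([5, 24], [4, 32, 44], [30, 77]) (.node ([3, 38, 42], [43, 87], [48, 115]) .nil .nil) .nil) (.node ([33], [8, 41, 77], [67, 85]) (.node ([21, 90], [36, 88], [19, 122]) .nil .nil) .nil)) (.node ([4, 36, 93], [33, 75], [85, 103]) (.node ([20, 102], [61], [21, 104]) (.node ([0, 35], [16, 58, 68], [70, 106]) .nil .nil) .nil) (.node ([0, 19, 64], [16, 23, 86], [76, 99]) (.node ([26, 32], [29, 42, 56], [52, 58]) .nil .nil) .nil))) (.node ([39, 83], [97], [44, 91]) (.node ([82], [18, 23], [16, 24]) (.node ([13, 90], [18, 99], [16, 96]) (.node ([45, 99], [18, 43], [13, 59]) .nil .nil) .nil) (.node ([42], [12, 21, 99], [94, 102]) (.node ([0, 40], [31, 35], [22, 95]) .nil .nil) .nil)) (.node ([111], [0,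 73], [18, 108]) (.node ([18, 33], [4, 6, 40], [8, 95]) (.node ([61, 64], [50, 83], [52, 73]) .nil .nil) .nil) (.node ([0, 21], [32], [5, 22]) (.node ([22, 23, 48], [19, 32, 43], [29, 57]) .nil .nil) .nil))))) (.node ([6, 91], [17], [7, 97]) (.node ([0, 10], [3, 64], [16, 83]) (.node ([9, 63], [6], [12, 65]) (.node ([48], [87], [3, 41]) (.node ([18], [14, 96], [11, 90]) (.node ([8, 59], [18, 20], [40, 104]) .nil .nil) (.node ([22, 34, 36], [1, 21, 49], [41, 122]) .nil .nil)) (.node ([0, 6, 37], [121], [66, 93]) (.node ([41], [9, 53], [21, 65]) .nil .nil) .nil)) (.node ([27], [20, 75], [4, 53]) (.node ([30, 68, 103], [0, 17, 33], [97, 113]) (.node ([80], [26], [48, 78]) .nil .nil) .nil) (.node ([0, 28, 34], [32, 101], [5, 58]) (.node ([35, 36], [1, 49], [41, 71]) .nil .nil) .nil))) (.node ([3, 30], [0, 17, 28], [5, 76]) (.node ([70, 103], [0, 6], [71, 101]) (.node ([0, 15, 42], [2, 28, 70], [80, 101]) (.node ([63], [12, 107], [13, 109]) .nil .nil) .nil) (.node ([6,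 41, 77], [33, 46], [67, 93]) (.node ([1, 47], [13, 49, 90], [71, 107]) .nil .nil) .nil)) (.node ([9], [15, 34, 36], [37, 74]) (.node ([69, 123], [79], [57, 126]) (.node ([0, 59], [31, 43], [22, 81]) .nil .nil) .nil) (.node ([0], [35, 124], [56, 100]) (.node ([22, 71], [49, 90], [47, 122]) .nil .nil) .nil)))) (.node ([7, 18], [1, 14], [8, 16]) (.node ([74], [5, 6, 36], [9, 103]) (.node ([10, 14], [11, 114], [63, 104]) (.node ([0, 74], [128], [1, 84]) (.node ([52, 91], [19, 83], [30, 115]) .nil .nil) .nil) (.node ([12, 21, 24], [5, 44], [25, 98]) (.node ([54], [0, 19, 39], [22, 91]) .nil .nil) .nil)) (.node ([10, 46, 65], [6, 48], [63, 69]) (.node ([25, 27], [5, 51], [32, 84]) (.node ([28, 60], [0, 48, 62], [32, 116]) .nil .nil) .nil) (.node ([0, 17, 66], [68, 76], [86, 127]) (.node ([22, 36], [19, 40], [20, 38]) .nil .nil) .nil))) (.node ([7], [72], [47, 73]) (.node ([43], [100], [2, 38]) (.node ([3, 43], [2, 29], [23, 100]) (.node ([0, 6, 40], [18, 35], [1, 95])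 .nil .nil) .nil) (.node ([14, 48, 99], [10, 19, 47], [16, 114]) (.node ([26], [42, 106], [58, 64]) .nil
  .nil) .nil)) (.node ([47, 87], [0, 36, 48], [38, 75]) (.node ([1], [36, 70], [37, 71]) (.node ([42, 99], [43, 61], [57, 64]) .nil .nil) .nil) (.node ([57, 77], [32, 46], [55, 79]) (.node ([21, 107], [46, 53], [22, 109]) .nil .nil) .nil)))))) (.node ([16, 17], [14], [15, 18]) (.node ([9, 14], [8], [17, 65]) (.node ([6, 16], [13, 14], [10, 71]) (.node ([9, 104], [17], [8, 102]) (.node ([64, 91], [0, 17], [66, 83]) (.node ([13, 42], [10, 46], [12, 43]) (.node ([20, 65], [14, 33, 53], [36, 112]) .nil .nil) (.node ([32, 35, 37], [22, 34, 48], [41, 58]) .nil .nil)) (.node ([0], [105], [40, 79]) (.node ([32, 39], [61, 85], [20, 108]) .nil .nil) .nil)) (.node ([3, 43], [47, 79], [48, 81]) (.node ([0, 17, 23, 44], [2, 30, 64], [78, 83]) (.node ([13, 25, 122], [0, 34], [94, 119]) .nil .nil) .nil) (.node ([28], [62, 80], [25, 116]) (.node ([20, 22], [21, 90], [53, 86])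 .nil .nil) .nil))) (.node ([10, 45], [6, 81], [2, 72]) (.node ([16], [82], [23, 71]) (.node ([0], [116], [28, 71]) (.node ([40], [20, 45], [33, 59]) .nil .nil) .nil) (.node ([98], [11, 55], [44, 112]) (.node ([26, 42], [23, 46], [25, 43]) .nil .nil) .nil)) (.node ([85], [39, 87], [36, 108]) (.node ([44, 69], [6, 42], [46, 73]) (.node ([35, 43], [38, 117], [50, 100]) .nil .nil) .nil) (.node ([34, 71], [33, 35], [49, 68]) (.node ([46, 99], [13, 22, 42], [43, 94]) .nil .nil) .nil)))) (.node ([0, 42], [79], [5, 43]) (.node ([14], [15, 71], [16, 74]) (.node ([6], [12, 14, 49], [63, 74]) (.node ([112], [65], [33, 114]) (.node ([40, 43], [38], [47, 50]) .nil .nil) .nil) (.node ([128], [96], [17, 107]) (.node ([1, 19], [22, 66], [38, 86]) .nil .nil) .nil)) (.node ([0, 6, 101], [97, 100], [93, 127]) (.node ([23, 53], [27, 48], [19, 51]) (.node ([57], [21, 48], [42, 53]) .nil .nil) .nil) (.node ([0, 47], [16, 60], [29, 71]) (.node ([0, 42, 61], [32, 50, 83], [52, 108]) .nil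 .nil) .nil))) (.node ([65], [1], [9, 47]) (.node ([76], [3], [17, 29]) (.node ([18, 35], [71], [47, 68]) (.node ([45], [26, 33], [24, 35]) .nil .nil) .nil) (.node ([25, 82], [80], [23, 119]) (.node ([41], [33, 46, 53], [49, 55]) .nil .nil) .nil)) (.node ([40, 81], [89], [47, 111]) (.node ([85], [40, 108], [39, 105]) (.node ([35, 47], [40, 43], [38, 45]) .nil .nil) .nil) (.node ([24], [17, 125], [84, 86]) (.node ([0, 54], [29, 56], [22, 124]) .nil .nil) .nil))))) (.node ([12], [9, 10], [6, 102]) (.node ([4, 19], [27], [3, 20]) (.node ([4, 45], [0, 11], [18, 77]) (.node ([65, 104], [14], [8, 114]) (.node ([11, 20, 114], [14], [104, 112]) (.node ([9, 10, 57], [42], [69, 102]) .nil .nil) .nil) (.node ([46, 65], [6, 41, 48], [49, 69]) (.node ([59, 85], [0, 20], [40, 123]) .nil .nil) .nil)) (.node ([23, 30], [25, 27], [24, 28]) (.node ([18, 44], [6, 111], [73, 95]) (.node ([19, 43], [48, 99], [16, 57]) .nil .nil) .nil) (.node ([16, 35], [1, 43], [13, 38]) (.node ([20,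 57], [41, 123], [32, 120]) .nil .nil) .nil))) (.node ([103], [5, 14, 49], [74, 75]) (.node ([15, 25, 27], [5, 23], [28, 84]) (.node ([25], [30, 42], [28, 44]) (.node ([13, 34], [35, 44], [46, 68]) .nil .nil) .nil) (.node ([1, 74], [34, 71], [6, 122]) (.node ([86], [33, 125], [24, 122]) .nil .nil) .nil)) (.node ([38], [47], [36, 43]) (.node ([33, 92], [9, 20], [36, 98]) (.node ([35, 36, 97], [39, 95], [33, 121]) .nil .nil) .nil) (.node ([115], [52], [19, 117]) (.node ([25, 49, 82], [26], [51, 119]) .nil .nil) .nil)))) (.node ([15], [9, 10, 19], [7, 102]) (.node ([0, 17], [127], [3, 68]) (.node ([4, 45, 79], [0, 2], [77, 81]) (.node ([28, 34], [25], [42, 62]) (.node ([54], [32, 36], [31, 37]) .nil .nil) .nil) (.node ([0, 44], [78], [13, 30]) (.node ([21, 33], [9, 55], [41, 98]) .nil .nil) .nil)) (.node ([6, 36], [33, 65], [8, 49]) (.node ([46, 114], [48], [57, 63]) (.node ([1], [22, 68], [35, 86]) .nil .nil) .nil) (.node ([18, 20, 23], [4, 59], [31, 104]) (.node ([32,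 38], [0, 19, 41], [22, 87]) .nil .nil) .nil))) (.node ([39], [73, 85], [8, 108]) (.node ([31, 83], [4, 23], [30, 81]) (.node ([0, 76], [29, 127], [3, 106]) (.node ([55, 75], [32], [53, 77])
  .nil .nil) .nil) (.node ([], [110], [28, 68]) (.node ([16, 58], [29, 35], [48, 106]) .nil .nil) .nil)) (.node ([67, 104], [11], [8, 118]) (.node ([36, 76], [18, 19], [27, 66]) (.node ([25, 27, 49], [32], [51, 62]) .nil .nil) .nil) (.node ([32, 35, 97], [0, 34], [56, 93]) (.node ([22, 36], [1, 53], [41, 90]) .nil .nil) .nil)))))))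

def RR_abaa : RT :=
  (.node ([15], [10], [14, 42]) (.node ([10, 75], [3], [14, 79]) (.node ([10, 18], [16, 17], [14, 64]) (.node ([12], [44], [17, 46]) (.node ([5, 7], [3, 17, 37], [15, 91]) (.node ([6, 37], [9], [7, 34]) (.node ([45, 104], [18], [11, 59]) (.node ([56, 101], [32, 97], [34, 124]) .nil .nil) (.node ([22, 37], [1, 21, 48], [41, 88]) .nil .nil)) (.node ([3, 30, 66], [0, 17, 19], [76, 91]) (.node ([53, 63], [107], [47, 109]) .nil .nil) .nil)) (.node ([33, 47], [71], [18, 49]) (.node ([2, 68], [64, 97], [44, 127]) (.node ([45, 85], [40, 93], [33, 105]) .nil .nil) .nil) (.node ([0, 17], [68, 76, 101], [110, 127]) (.node ([32, 43], [0, 57], [22, 79]) .nil .nil) .nil))) (.node ([16, 103], [3, 6, 47], [14, 100]) (.node ([92], [], [14, 21]) (.node ([0, 71], [13, 90], [1, 82]) (.node ([53], [57, 65], [41, 114]) .nil .nil) .nil) (.node ([13, 33], [18, 35, 44], [45, 68]) (.node ([35, 39], [40, 44], [33, 50]) .nil .nil) .nil)) (.node ([42], [5, 69], [9, 79])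 (.node ([33, 92], [17, 36], [20, 74]) (.node ([86], [113], [36, 78]) .nil .nil) .nil) (.node ([20, 23, 47], [19, 31], [27, 59]) (.node ([36, 106], [18, 22], [60, 66]) .nil .nil) .nil)))) (.node ([30], [5], [17, 32]) (.node ([4, 44], [17, 24], [11, 30]) (.node ([1, 104], [18], [8, 99]) (.node ([0, 114], [23, 47], [75, 99]) (.node ([6, 41, 42], [9, 46], [34, 69]) .nil .nil) .nil) (.node ([33], [9, 112], [65, 98]) (.node ([43], [41, 72, 79], [69, 105]) .nil .nil) .nil)) (.node ([28], [32], [30, 48]) (.node ([0, 97], [91, 117], [83, 121]) (.node ([0, 16, 36], [27, 71, 88], [90, 116]) .nil .nil) .nil) (.node ([13, 23], [26, 64], [43, 78]) (.node ([53, 99], [47, 57], [22, 114]) .nil .nil) .nil))) (.node ([75], [32, 103], [27, 93]) (.node ([5], [15, 62], [28, 74]) (.node ([93], [34, 48, 103], [49, 101]) (.node ([], [96, 109], [98, 107]) .nil .nil) .nil) (.node ([84, 94], [0, 12], [25, 128]) (.node ([56, 64], [26, 68], [44, 106]) .nil .nil) .nil)) (.node ([0, 36, 97], [91,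 95], [4, 121]) (.node ([67], [6, 41], [33, 69]) (.node ([27, 49], [60], [47, 62]) .nil .nil) .nil) (.node ([61, 99], [57, 104], [59, 102]) (.node ([13, 22, 48], [46, 47, 99], [43, 107]) .nil .nil) .nil))))) (.node ([4, 73], [17], [8, 83]) (.node ([15, 27], [3], [14, 28]) (.node ([17], [44, 104], [11, 61]) (.node ([3, 30, 36], [4, 19], [27, 91]) (.node ([5, 44], [17, 25], [12, 30]) (.node ([1, 20], [33, 90], [36, 96]) .nil .nil) (.node ([0, 41, 59], [32, 40, 43], [22, 105]) .nil .nil)) (.node ([53], [36, 48], [19, 49]) (.node ([41, 48], [46, 53], [49, 57]) .nil .nil) .nil)) (.node ([114], [19], [14, 57]) (.node ([4, 23, 45], [2, 31], [24, 81]) (.node ([1, 88], [90, 94], [99, 122]) .nil .nil) .nil) (.node ([5, 23, 46], [2, 32, 42], [25, 79]) (.node ([0, 59], [32, 40, 81], [31, 105]) .nil .nil) .nil))) (.node ([20, 23], [27], [19, 24]) (.node ([70], [13], [42, 71]) (.node ([17, 70], [68, 101], [6, 110]) (.node ([12, 21], [46, 98], [44, 109]) .nil .nil) .nil) (.node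 ([2, 32, 44], [5, 24, 46], [25, 77]) (.node ([32, 44], [26, 30, 34], [25, 56]) .nil .nil) .nil)) (.node ([0, 8, 69], [72], [1, 126]) (.node ([108], [32, 44], [61, 93]) (.node ([20, 23], [31, 61], [30, 59]) .nil .nil) .nil) (.node ([30, 60], [31], [27, 56]) (.node ([26, 34], [32, 35, 44], [46, 56]) .nil .nil) .nil)))) (.node ([2, 48], [79], [3, 46]) (.node ([16, 101], [0, 15], [3, 70]) (.node ([11, 99], [10, 18], [13, 104]) (.node ([12, 48, 92], [102], [15, 109]) (.node ([19, 31], [29, 30, 36], [27, 54]) .nil .nil) .nil) (.node ([13, 49], [1, 63], [6, 107]) (.node ([16, 22, 68], [0, 35, 66], [1, 106]) .nil .nil) .nil)) (.node ([6, 108], [44], [73, 93]) (.node ([57, 75], [19, 79], [48, 123]) (.node ([62, 88], [0, 21], [28, 122]) .nil .nil) .nil) (.node ([18, 29], [60, 76], [27, 106]) (.node ([41, 43, 44], [35, 42], [46, 50]) .nil .nil) .nil))) (.node ([], [69], [10, 41]) (.node ([0, 6, 18], [16, 68, 103], [71, 127]) (.node ([76], [0, 17, 19], [3, 86]) (.node ([0, 20,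 44], [24, 86], [30, 96]) .nil .nil) .nil) (.node ([70, 78], [13], [68, 80]) (.node ([32, 42], [26, 28, 34],
  [25, 58]) .nil .nil) .nil)) (.node ([19, 65], [36, 48], [7, 53]) (.node ([15, 21], [9, 19, 42], [37, 102]) (.node ([4, 32, 59], [0, 20, 23], [31, 123]) .nil .nil) .nil) (.node ([2, 32, 47], [0, 51], [26, 75]) (.node ([22, 39, 64], [1, 61], [50, 86]) .nil .nil) .nil)))))) (.node ([11, 23], [4, 10], [2, 104]) (.node ([10, 44], [6, 83], [2, 73]) (.node ([6, 75], [63], [2, 65]) (.node ([5, 73], [17, 42], [9, 83]) (.node ([18], [6, 89], [7, 95]) (.node ([9, 44], [17, 34], [12, 39]) (.node ([41, 73], [1, 39, 42], [9, 50]) .nil .nil) (.node ([22], [55, 99], [57, 96]) .nil .nil)) (.node ([3, 38], [47, 87], [48, 89]) (.node ([60, 110], [0], [58, 113]) .nil .nil) .nil)) (.node ([64], [117], [6, 52]) (.node ([18, 27], [24, 90], [20, 82]) (.node ([1], [74, 90, 94], [122, 128]) .nil .nil) .nil) (.node ([10, 57], [48, 102], [42, 114]) (.node ([59], [22], [20, 43]) .nil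 .nil) .nil))) (.node ([3, 95], [2, 4, 47], [81, 103]) (.node ([25], [42], [23, 34]) (.node ([43], [13, 48], [16, 46]) (.node ([0, 41], [105], [43, 85]) .nil .nil) .nil) (.node ([44, 57, 104], [102], [61, 118]) (.node ([42, 86], [94], [44, 88]) .nil .nil) .nil)) (.node ([8], [40, 73], [39, 72]) (.node ([28, 113], [27, 30], [62, 76]) (.node ([52], [26], [29, 44]) .nil .nil) .nil) (.node ([0, 23, 44], [2, 52], [26, 83]) (.node ([35, 37], [38, 39, 93], [41, 121]) .nil .nil) .nil)))) (.node ([], [93], [6, 32]) (.node ([15], [84], [23, 74]) (.node ([13, 33], [1, 11], [6, 96]) (.node ([30], [25, 27, 33], [24, 62]) (.node ([16, 86], [1, 19, 64], [66, 99]) .nil .nil) .nil) (.node ([], [102, 112], [98, 114]) (.node ([28, 86], [37, 76], [19, 110]) .nil .nil) .nil)) (.node ([0, 17, 62], [30, 103], [5, 113]) (.node ([57, 104], [123], [23, 120]) (.node ([58, 76], [29], [28, 106]) .nil .nil) .nil) (.node ([16, 26, 27], [0, 23, 47], [29, 82]) (.node ([32, 36], [22, 62], [21, 60])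 .nil .nil) .nil))) (.node ([91, 93], [5], [87, 97]) (.node ([68], [6], [17, 35]) (.node ([82], [16, 78], [18, 80]) (.node ([18, 26], [13, 24, 47], [45, 82]) .nil .nil) .nil) (.node ([17, 88], [], [15, 86]) (.node ([47], [53, 63, 96], [107, 112]) .nil .nil) .nil)) (.node ([115], [0], [38, 83]) (.node ([8, 123], [4, 20], [85, 104]) (.node ([50, 83], [44, 52], [61, 117]) .nil .nil) .nil) (.node ([28, 86], [0, 21], [30, 88]) (.node ([22, 28, 34], [32, 37], [21, 58]) .nil .nil) .nil))))) (.node ([7, 79], [3], [10, 87]) (.node ([0, 14, 33], [18, 103], [4, 71]) (.node ([12, 14, 24], [2, 17], [11, 84]) (.node ([108], [5], [39, 79]) (.node ([0, 6, 44], [2, 68], [13, 97]) (.node ([0, 120], [59], [1, 123]) .nil .nil) .nil) (.node ([40, 87], [47, 85], [36, 105]) (.node ([8, 59, 69], [1], [72, 120]) .nil .nil) .nil)) (.node ([3, 32], [19, 79], [23, 87]) (.node ([3, 31], [29, 30, 103], [27, 124]) (.node ([0], [78, 116], [80, 113]) .nil .nil) .nil) (.node ([0, 46], [43, 93], [35,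 79]) (.node ([1, 61], [50], [22, 73]) .nil .nil) .nil))) (.node ([3, 30, 42], [5, 23], [28, 83]) (.node ([0, 10, 48], [3, 43], [16, 79]) (.node ([19, 42], [48, 102], [15, 57]) (.node ([33, 94], [1, 44], [34, 96]) .nil .nil) .nil) (.node ([69], [57, 67], [46, 120]) (.node ([35], [40, 43, 44], [45, 50]) .nil .nil) .nil)) (.node ([], [42, 66], [37, 64]) (.node ([1, 42], [69], [9, 43]) (.node ([25, 82, 86], [0, 24], [78, 125]) .nil .nil) .nil) (.node ([39, 64], [68], [44, 66]) (.node ([53, 96], [20, 22], [55, 90]) .nil .nil) .nil)))) (.node ([7, 39], [8], [36, 73]) (.node ([5, 27], [28, 103], [3, 62]) (.node ([14, 24], [11, 20, 75], [4, 112]) (.node ([74, 82], [2, 71], [14, 119]) (.node ([0, 30], [3, 54, 97], [91, 124]) .nil .nil) .nil) (.node ([12, 51], [2, 46], [25, 63]) (.node ([0, 6, 39], [35, 66, 97], [68, 121]) .nil .nil) .nil)) (.node ([77], [6, 79, 85], [93, 126]) (.node ([23, 30], [28, 78], [25, 76]) (.node ([0, 34, 48], [32, 35, 101], [58, 93]) .nil .nil) .nil)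 (.node ([100], [38, 117], [43, 121]) (.node ([22, 30, 36], [19, 31, 39], [20, 54]) .nil .nil) .nil))) (.node ([19, 126], [75], [7, 123]) (.node ([14, 24], [17, 82], [18, 84]) (.node ([103],
  [113], [17, 60]) (.node ([17, 21, 96], [20, 44], [86, 98]) .nil .nil) .nil) (.node ([29], [27, 48], [28, 47]) (.node ([48, 90], [53, 99], [19, 107]) .nil .nil) .nil)) (.node ([81, 108], [0, 83], [79, 111]) (.node ([28, 36], [21, 27], [19, 62]) (.node ([41, 123], [32], [57, 85]) .nil .nil) .nil) (.node ([17, 119], [2, 33], [74, 78]) (.node ([0, 49], [22, 119], [26, 122]) .nil .nil) .nil)))))))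

def RR_abab : RT :=
  (.node ([14], [103], [6, 27]) (.node ([7, 83], [10], [3, 73]) (.node ([17, 27], [4], [14, 30]) (.node ([24], [4], [2, 20]) (.node ([10, 47], [7, 81], [3, 72]) (.node ([1, 10], [7, 64], [16, 73]) (.node ([12, 92], [98], [17, 109]) (.node ([9, 53, 63], [49], [65, 109]) .nil .nil) (.node ([32, 38, 39], [22, 37], [41, 54]) .nil .nil)) (.node ([18, 121], [0, 6, 36], [66, 95]) (.node ([41, 75], [32, 49], [53, 93]) .nil .nil) .nil)) (.node ([18, 97, 100], [0, 6, 103], [95, 127]) (.node ([19], [59], [47, 61]) (.node ([45], [1, 118], [67, 99]) .nil .nil) .nil) (.node ([19, 42], [15, 21, 99], [88, 102]) (.node ([1, 46], [6, 41, 43], [35, 69]) .nil .nil) .nil))) (.node ([18, 27], [4, 47], [14, 31]) (.node ([13, 84], [2], [12, 82]) (.node ([0, 42], [80], [13, 28]) (.node ([1, 36, 48], [7, 41, 47], [38, 65]) .nil .nil) .nil) (.node ([4, 45], [2, 31, 33], [24, 95]) (.node ([17, 90, 94], [96], [86, 128]) .nil .nil) .nil)) (.node ([1, 10], [72], [18, 69])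 (.node ([5, 49], [62], [32, 74]) (.node ([23, 86], [0, 61], [30, 99]) .nil .nil) .nil) (.node ([24, 86], [18, 30], [20, 78]) (.node ([0, 19, 39], [22, 30, 66], [54, 86]) .nil .nil) .nil)))) (.node ([74], [33], [17, 49]) (.node ([102], [15], [12, 19]) (.node ([9], [98], [33, 102]) (.node ([20, 77], [24], [4, 55]) (.node ([16, 28, 36], [27, 88], [19, 116]) .nil .nil) .nil) (.node ([20, 77], [85], [33, 123]) (.node ([19, 41, 42], [21, 48], [37, 57]) .nil .nil) .nil)) (.node ([23, 77], [2, 32], [24, 79]) (.node ([45, 79], [81, 93], [2, 105]) (.node ([70], [58, 68], [35, 110]) .nil .nil) .nil) (.node ([16, 26, 68], [0, 35, 64], [13, 106]) (.node ([42, 86], [21, 44, 99], [61, 94]) .nil .nil) .nil))) (.node ([42, 97], [5, 44], [34, 83]) (.node ([2, 28, 34], [5, 42], [25, 101]) (.node ([42, 93], [5, 46], [34, 79]) (.node ([13, 86], [18, 44, 99], [64, 96]) .nil .nil) .nil) (.node ([34, 80], [42], [25, 70]) (.node ([56], [0, 39], [22, 97]) .nil .nil) .nil)) (.node ([18], [7,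 111], [73, 89]) (.node ([18], [8, 10, 59], [72, 104]) (.node ([52, 97], [2, 56], [44, 124]) .nil .nil) .nil) (.node ([14, 53], [90], [47, 92]) (.node ([57], [22, 42], [21, 43]) .nil .nil) .nil))))) (.node ([15], [7, 42], [10, 37]) (.node ([5, 10, 48], [3, 42], [15, 79]) (.node ([11, 102], [12], [10, 98]) (.node ([3, 37], [87], [48, 91]) (.node ([33, 46], [34], [44, 49]) (.node ([8, 45, 69], [1, 6], [67, 72]) .nil .nil) (.node ([0, 22], [51, 90, 94], [107, 125]) .nil .nil)) (.node ([19, 69], [57, 65], [48, 120]) (.node ([21], [5, 41], [9, 32]) .nil .nil) .nil)) (.node ([5, 20], [30], [4, 21]) (.node ([18, 30], [113], [33, 76]) (.node ([0], [80, 86], [78, 88]) .nil .nil) .nil) (.node ([35, 101], [0, 6, 34, 48], [70, 93]) (.node ([49, 90], [36, 47], [53, 71]) .nil .nil) .nil))) (.node ([30], [24], [27, 44]) (.node ([2, 27, 71], [0, 14], [82, 103]) (.node ([70], [0, 6, 37], [1, 101]) (.node ([44], [17, 94], [12, 86]) .nil .nil) .nil) (.node ([39, 93], [34], [41, 97])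 (.node ([13, 22], [45, 99], [43, 96]) .nil .nil) .nil)) (.node ([15, 36], [92], [19, 74]) (.node ([46], [6, 41, 79], [69, 93]) (.node ([4, 61], [31, 39, 83], [30, 111]) .nil .nil) .nil) (.node ([0, 97], [56, 127], [68, 124]) (.node ([46, 47, 96], [13, 22], [45, 107]) .nil .nil) .nil)))) (.node ([5, 65], [], [9, 75]) (.node ([28], [23], [27, 42]) (.node ([17], [11, 20, 102], [98, 104]) (.node ([13], [128], [14, 94]) (.node ([4, 19, 40], [31, 36], [20, 89]) .nil .nil) .nil) (.node ([12, 92, 96], [17], [98, 128]) (.node ([29], [54, 100], [38, 124]) .nil .nil) .nil)) (.node ([65], [14, 49], [36, 63]) (.node ([2, 24], [17, 25, 82], [78, 84]) (.node ([62, 88], [28, 36], [21, 116]) .nil .nil) .nil) (.node ([31, 100], [29, 103], [47, 124]) (.node ([1, 20, 47], [18, 22, 36], [40, 90]) .nil .nil) .nil))) (.node ([0, 8, 10], [4, 72], [18, 126]) (.node ([2, 47], [100], [43, 103]) (.node ([29, 64], [16, 23], [43, 76]) (.node ([2, 56], [0, 44], [26, 97]) .nil .nil) .nil) (.node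 ([88], [19], [16, 21]) (.node ([26], [48, 119], [49, 80]) .nil .nil) .nil)) (.node ([89, 93], [0], [87, 95])
  (.node ([16, 36], [90], [19, 71]) (.node ([19, 32], [22, 28], [21, 29]) .nil .nil) .nil) (.node ([0, 53, 63], [47, 51], [75, 107]) (.node ([0, 46, 53], [22, 51], [32, 107]) .nil .nil) .nil)))))) (.node ([12, 14], [6, 15], [10, 74]) (.node ([7, 17], [9, 14], [8, 15]) (.node ([12], [6, 42], [10, 34]) (.node ([10, 65], [6, 14, 48], [7, 63]) (.node ([73, 81], [18, 83], [10, 111]) (.node ([0], [23, 96], [24, 99]) (.node ([120], [41], [20, 69]) .nil .nil) (.node ([49, 125], [22], [51, 122]) .nil .nil)) (.node ([10, 43], [72, 79], [69, 81]) (.node ([39, 42, 93], [5, 41, 44], [34, 108]) .nil .nil) .nil)) (.node ([95], [45], [2, 40]) (.node ([0, 27], [18, 29, 30], [31, 76]) (.node ([90], [82, 122], [71, 125]) .nil .nil) .nil) (.node ([25, 88], [28], [21, 80]) (.node ([22, 30], [31, 61], [20, 52]) .nil .nil) .nil))) (.node ([2, 4], [83, 95], [81, 97]) (.node ([0],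 [82], [13, 27]) (.node ([42, 76], [23], [28, 64]) (.node ([9, 33, 46], [6, 41, 44], [34, 67]) .nil .nil) .nil) (.node ([55], [], [20, 46]) (.node ([26, 44], [24, 46], [25, 45]) .nil .nil) .nil)) (.node ([33], [6, 85], [8, 93]) (.node ([17, 42], [9, 10, 61], [73, 102]) (.node ([106], [0, 66], [22, 127]) .nil .nil) .nil) (.node ([0, 33, 47], [18, 60], [31, 71]) (.node ([22, 44], [94], [46, 86]) .nil .nil) .nil)))) (.node ([2, 5], [4, 44, 79], [77, 83]) (.node ([2, 16], [13, 14, 23], [10, 82]) (.node ([33, 84], [17], [24, 74]) (.node ([0, 2, 33], [4, 45, 93], [77, 95]) (.node ([1], [38, 39, 64], [50, 66]) .nil .nil) .nil) (.node ([9, 46], [34], [12, 41]) (.node ([1, 19, 43], [16, 22], [38, 99]) .nil .nil) .nil)) (.node ([97], [68, 101], [34, 127]) (.node ([19, 75], [14, 23, 53], [27, 114]) (.node ([19, 21], [53, 102], [57, 92]) .nil .nil) .nil) (.node ([0], [2, 60], [26, 103]) (.node ([32, 35], [34, 48, 60], [49, 58]) .nil .nil) .nil))) (.node ([77], [4, 93], [2, 85])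 (.node ([27], [76], [18, 28]) (.node ([71, 78], [0, 68], [13, 113]) (.node ([35], [13, 49], [46, 71]) .nil .nil) .nil) (.node ([82, 88], [0, 16], [80, 90]) (.node ([1, 33, 46], [6, 41, 45], [35, 67]) .nil .nil) .nil)) (.node ([0, 47], [43, 89], [38, 81]) (.node ([40], [0, 8, 41], [1, 85]) (.node ([6, 40, 43], [1, 45], [35, 72]) .nil .nil) .nil) (.node ([5, 53], [51, 92], [27, 109]) (.node ([19, 39, 52], [22, 30], [54, 61]) .nil .nil) .nil))))) (.node ([8], [33], [6, 20]) (.node ([2, 47], [81], [3, 45]) (.node ([18, 23], [0, 104], [4, 99]) (.node ([75], [7, 79, 85], [87, 126]) (.node ([2, 33], [44, 95], [45, 97]) (.node ([1, 21, 74], [34, 36], [9, 122]) .nil .nil) .nil) (.node ([93, 115], [0, 42], [87, 117]) (.node ([38], [50, 89], [40, 115]) .nil .nil) .nil)) (.node ([51], [23], [24, 48]) (.node ([47, 93], [100], [48, 95]) (.node ([88], [21, 99], [19, 94]) .nil .nil) .nil) (.node ([0, 68], [13, 86], [1, 78]) (.node ([1, 59], [40, 43], [22, 72]) .nil .nil) .nil)))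 (.node ([5, 6, 33], [17, 34, 103], [74, 97]) (.node ([28], [5, 19], [3, 21]) (.node ([2, 23], [15, 25, 82], [80, 84]) (.node ([42, 78], [13, 25], [44, 80]) .nil .nil) .nil) (.node ([13, 74, 90], [1, 14], [71, 128]) (.node ([119], [26, 33], [49, 78]) .nil .nil) .nil)) (.node ([18, 38], [16, 36], [47, 66]) (.node ([20, 65], [36], [8, 53]) (.node ([18, 35, 36], [1, 33, 47], [40, 71]) .nil .nil) .nil) (.node ([0, 6], [64, 121], [66, 117]) (.node ([32, 45], [22, 24, 46], [26, 55]) .nil .nil) .nil)))) (.node ([6, 75], [126], [7, 77]) (.node ([3, 18], [16, 17, 27], [14, 76]) (.node ([33, 63], [11, 65], [6, 112]) (.node ([25, 27, 74], [5], [62, 84]) (.node ([32, 36], [53], [27, 41]) .nil .nil) .nil) (.node ([13, 24, 90], [0, 18], [82, 96]) (.node ([45, 120], [1], [59, 67]) .nil .nil) .nil)) (.node ([8, 19, 69], [65], [7, 120]) (.node ([23, 53, 63], [48, 75], [51, 114]) (.node ([1, 43], [13, 22], [35, 99]) .nil .nil) .nil) (.node ([10, 59], [99], [43, 104]) (.node ([32, 38],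 [29, 37], [48, 54]) .nil .nil) .nil))) (.node ([6, 39], [8, 44], [33, 73]) (.node ([23, 64], [43, 83], [10, 52]) (.node ([35, 127], [0, 6], [68, 100]) (.node ([24, 45], [0, 11, 55], [77, 96])
  .nil .nil) .nil) (.node ([0, 27], [16, 28, 113], [76, 116]) (.node ([29, 35], [48, 60], [47, 58]) .nil .nil) .nil)) (.node ([1, 44], [67], [9, 45]) (.node ([18, 38], [1, 47], [16, 40]) (.node ([23, 46, 53], [32, 48], [51, 57]) .nil .nil) .nil) (.node ([0, 34], [56], [32, 68]) (.node ([41], [22, 34], [21, 35]) .nil .nil) .nil)))))))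

def RR_abba : RT :=
  (.node ([3], [23], [2, 19]) (.node ([15], [5, 7], [3, 9]) (.node ([3, 18], [4, 10, 47], [14, 81]) (.node ([10, 18], [13, 14], [11, 16]) (.node ([18, 91], [0, 17, 36], [4, 66]) (.node ([6, 16, 36], [1, 14], [7, 71]) (.node ([44, 85], [5, 33], [39, 77]) (.node ([44, 93], [35, 42, 97], [34, 117]) .nil .nil) (.node ([37, 106], [22], [58, 66]) .nil .nil)) (.node ([19, 66], [38, 91], [7, 54]) (.node ([9, 53], [49, 92], [36, 109]) .nil .nil) .nil)) (.node ([2, 33, 47], [95], [45, 103]) (.node ([18, 19], [14, 20, 99], [90, 104]) (.node ([1, 112], [33, 47], [65, 96]) .nil .nil) .nil) (.node ([48], [37, 100], [38, 101]) (.node ([1, 34, 48], [35, 37], [41, 70]) .nil .nil) .nil))) (.node ([3, 18, 43], [0, 10, 47], [16, 81]) (.node ([15, 34], [9, 42], [12, 37]) (.node ([80], [0, 15], [2, 88]) (.node ([32, 121], [0, 37], [54, 93]) .nil .nil) .nil) (.node ([45, 104], [11, 99], [18, 118]) (.node ([44, 57], [55, 102], [21, 118]) .nil .nil) .nil)) (.node ([67],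 [8, 69], [6, 120]) (.node ([39], [34, 36], [33, 37]) (.node ([18, 26], [106], [60, 64]) .nil .nil) .nil) (.node ([18, 23, 43], [0, 10, 59], [81, 99]) (.node ([31, 38], [22, 47], [29, 40]) .nil .nil) .nil)))) (.node ([23], [79], [10, 32]) (.node ([10, 65], [63], [6, 114]) (.node ([], [67, 75], [65, 77]) (.node ([], [112], [11, 53]) (.node ([16, 37], [88], [19, 70]) .nil .nil) .nil) (.node ([], [44, 59], [45, 61]) (.node ([41], [38, 39, 42], [37, 50]) .nil .nil) .nil)) (.node ([5, 23, 44], [2, 30, 42], [25, 83]) (.node ([31], [89], [19, 95]) (.node ([0, 35], [60, 70], [58, 71]) .nil .nil) .nil) (.node ([26, 71], [13, 47], [35, 82]) (.node ([0, 21, 51], [22, 25, 27], [32, 125]) .nil .nil) .nil))) (.node ([5], [32, 97], [30, 93]) (.node ([28, 34, 103], [5], [62, 101]) (.node ([3, 37, 93], [5, 48], [87, 101]) (.node ([5, 46], [2, 32, 34], [25, 93]) .nil .nil) .nil) (.node ([13], [119], [34, 82]) (.node ([20, 47], [14, 53, 96], [90, 112]) .nil .nil) .nil)) (.node ([18,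 38, 91], [0, 7, 36], [66, 89]) (.node ([1], [40], [18, 41]) (.node ([32, 33, 47], [60], [31, 49]) .nil .nil) .nil) (.node ([61, 79], [5, 57], [42, 123]) (.node ([19, 22], [21, 48, 90], [53, 88]) .nil .nil) .nil))))) (.node ([4, 7], [8, 10, 75], [14, 126]) (.node ([5, 6], [17, 101], [15, 97]) (.node ([11], [8, 77], [4, 67]) (.node ([5], [3, 37, 97], [91, 101]) (.node ([34], [12, 49], [46, 74]) (.node ([18, 50], [1], [40, 64]) .nil .nil) (.node ([41, 61], [22, 39, 42], [21, 50]) .nil .nil)) (.node ([14, 53], [19, 65], [36, 114]) (.node ([6, 41], [1, 34], [9, 35]) .nil .nil) .nil)) (.node ([123], [0, 61], [5, 59]) (.node ([113], [0, 33], [30, 71]) (.node ([70, 86], [1], [68, 88]) .nil .nil) .nil) (.node ([21, 27, 74], [5, 36], [62, 92]) (.node ([2, 29, 56], [0, 52], [26, 124]) .nil .nil) .nil))) (.node ([14, 23, 48], [10, 19, 75], [3, 114]) (.node ([0, 14, 19], [16, 27], [3, 90]) (.node ([16, 101], [100], [48, 127]) (.node ([21, 44], [39, 42], [34, 61]) .nil .nil) .nil)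 (.node ([24, 46, 75], [2, 32], [51, 77]) (.node ([90, 94], [86, 99], [88, 96]) .nil .nil) .nil)) (.node ([6, 85], [8, 77], [33, 126]) (.node ([49], [46, 65], [41, 63]) (.node ([22, 27], [19, 31], [20, 29]) .nil .nil) .nil) (.node ([31, 97], [56, 103], [33, 124]) (.node ([22, 96], [90, 94], [86, 107]) .nil .nil) .nil)))) (.node ([1, 17], [8], [9, 18]) (.node ([15, 27], [5, 14, 19], [3, 92]) (.node ([45], [13], [18, 46]) (.node ([], [128], [12, 90]) (.node ([3, 54], [0, 19], [29, 91]) .nil .nil) .nil) (.node ([13, 51], [0, 63], [2, 107]) (.node ([29, 66], [22, 76], [19, 106]) .nil .nil) .nil)) (.node ([117], [0, 6, 42], [64, 93]) (.node ([27], [24, 53], [20, 51]) (.node ([0, 36], [27, 122], [62, 90]) .nil .nil) .nil) (.node ([0, 35], [106], [16, 56]) (.node ([1, 21, 33], [34, 36, 86], [39, 122]) .nil .nil) .nil))) (.node ([1, 14], [8, 47], [18, 65]) (.node ([0], [100], [3, 35]) (.node ([0, 23], [2, 29], [3, 26]) (.node ([20, 45], [31, 33], [24, 40]) .nil .nil) .nil)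 (.node ([70, 78], [0, 42, 68], [13, 110]) (.node ([22, 70], [1, 48], [35, 88]) .nil .nil) .nil)) (.node
  ([91, 93], [0, 37, 97], [5, 121]) (.node ([5, 34, 36], [21, 74], [9, 62]) (.node ([53], [21, 90], [22, 92]) .nil .nil) .nil) (.node ([30, 42], [21, 23, 44], [25, 61]) (.node ([59, 85], [32, 40], [20, 105]) .nil .nil) .nil)))))) (.node ([4, 10, 44], [2, 17], [11, 83]) (.node ([2], [6, 79], [10, 93]) (.node ([17], [74], [15, 33]) (.node ([5, 10], [4, 73, 79], [83, 126]) (.node ([47], [89], [3, 40]) (.node ([12, 96], [11], [13, 98]) (.node ([9, 14, 53], [36], [65, 92]) .nil .nil) (.node ([22, 33, 46], [41, 45], [35, 55]) .nil .nil)) (.node ([0], [43, 111], [50, 81]) (.node ([56], [58, 68], [34, 106]) .nil .nil) .nil)) (.node ([4], [91, 95], [89, 97]) (.node ([82], [24, 47], [18, 51]) (.node ([0], [13, 125], [82, 94]) .nil .nil) .nil) (.node ([0], [125], [25, 90]) (.node ([0, 36], [22, 113], [60, 86]) .nil .nil) .nil))) (.node ([64, 97], [6, 83], [17, 117]) (.node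 ([16], [14, 99], [10, 90]) (.node ([16, 28], [0, 15, 19], [3, 88]) (.node ([33, 44], [9, 11, 55], [67, 98]) .nil .nil) .nil) (.node ([53, 98], [92], [20, 109]) (.node ([35], [1, 46], [13, 41]) .nil .nil) .nil)) (.node ([17, 20], [4, 39], [8, 30]) (.node ([93], [35, 101], [34, 100]) (.node ([60, 68, 76], [0, 18], [106, 113]) .nil .nil) .nil) (.node ([36, 68], [18, 39], [33, 66]) (.node ([46, 53, 98], [21], [55, 109]) .nil .nil) .nil)))) (.node ([73], [44], [6, 61]) (.node ([15, 34], [12], [42, 74]) (.node ([23, 98], [5], [24, 102]) (.node ([5, 33], [4, 39, 93], [85, 97]) (.node ([1, 19], [38], [7, 22]) .nil .nil) .nil) (.node ([9, 48], [109], [49, 102]) (.node ([32, 37], [5, 19, 41], [21, 87]) .nil .nil) .nil)) (.node ([33, 93], [34, 103], [49, 97]) (.node ([19], [53], [20, 48]) (.node ([2, 58], [0, 42], [26, 101]) .nil .nil) .nil) (.node ([29, 30, 64], [0, 23], [52, 76]) (.node ([0, 49], [26, 62, 71], [60, 119]) .nil .nil) .nil))) (.node ([47, 79], [0, 48], [43,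 75]) (.node ([13, 47], [18, 43], [16, 45]) (.node ([16, 78], [0, 64], [13, 76]) (.node ([26, 64], [0, 43, 44], [13, 52]) .nil .nil) .nil) (.node ([90], [71, 88], [16, 122]) (.node ([39], [34, 86], [21, 68]) .nil .nil) .nil)) (.node ([18, 43], [0, 72], [1, 81]) (.node ([], [8, 69, 123], [120, 126]) (.node ([54, 64], [0], [52, 66]) .nil .nil) .nil) (.node ([57], [32], [23, 41]) (.node ([22, 61], [20, 57], [21, 59]) .nil .nil) .nil))))) (.node ([104], [4], [8, 23]) (.node ([0], [81], [4, 43]) (.node ([12], [11, 46], [44, 63]) (.node ([0, 3], [81, 87], [79, 89]) (.node ([18], [11, 20, 99], [96, 104]) (.node ([40, 87], [0, 36, 41], [38, 85]) .nil .nil) .nil) (.node ([43, 108], [0, 42], [50, 79]) (.node ([0, 41, 72], [40, 43], [1, 105]) .nil .nil) .nil)) (.node ([10, 123], [4, 79], [23, 126]) (.node ([0], [124], [29, 97]) (.node ([0, 35, 42], [26, 70], [13, 58]) .nil .nil) .nil) (.node ([47], [90], [14, 22]) (.node ([39, 52], [56], [44, 54]) .nil .nil) .nil))) (.node ([23,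 77], [4, 79], [2, 123]) (.node ([17, 19, 42], [102], [15, 61]) (.node ([14, 27], [84, 90], [82, 92]) (.node ([24, 107], [0], [51, 96]) .nil .nil) .nil) (.node ([15, 94], [12, 99], [42, 128]) (.node ([13, 51], [26], [46, 82]) .nil .nil) .nil)) (.node ([66], [1], [16, 39]) (.node ([5, 120], [61], [9, 123]) (.node ([26, 27], [24, 32, 47], [31, 51]) .nil .nil) .nil) (.node ([117], [50, 83], [44, 115]) (.node ([47, 55], [53, 96], [22, 112]) .nil .nil) .nil)))) (.node ([10], [126], [4, 69]) (.node ([71], [18], [16, 33]) (.node ([63], [11, 114], [10, 112]) (.node ([12, 21, 23], [5, 42], [25, 102]) (.node ([50, 83, 89], [0], [111, 115]) .nil .nil) .nil) (.node ([44, 99], [64], [13, 61]) (.node ([39, 93], [35, 37, 97], [34, 121]) .nil .nil) .nil)) (.node ([8, 69], [1, 73], [9, 72]) (.node ([0, 27, 48], [3, 32, 47], [29, 75]) (.node ([38, 93], [37, 100], [48, 121]) .nil .nil) .nil) (.node ([52, 100], [0, 43], [29, 117]) (.node ([16, 22, 37], [1, 19, 48], [38, 88]) .nil .nil)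 .nil))) (.node ([85], [], [4, 41]) (.node ([31], [27], [30, 47]) (.node ([29, 103], [0, 27], [3, 60]) (.node ([53, 98], [55], [21, 112]) .nil .nil) .nil) (.node ([48, 103], [116], [15,
  60]) (.node ([0, 36], [86, 116], [88, 113]) .nil .nil) .nil)) (.node ([43, 83, 87], [0, 3, 42], [79, 115]) (.node ([42, 87], [41, 79], [48, 108]) (.node ([32], [21, 51], [25, 53]) .nil .nil) .nil) (.node ([0, 25, 33], [62, 78], [30, 119]) (.node ([22, 39], [1, 21], [41, 86]) .nil .nil) .nil)))))))

def RR_abbb : RT :=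
  (.node ([2, 17], [6, 83], [10, 97]) (.node ([10, 17], [12, 14], [11, 15]) (.node ([97], [17], [6, 30]) (.node ([10, 77], [2], [11, 79]) (.node ([0, 91], [4, 87], [5, 89]) (.node ([18], [66], [36, 64]) (.node ([17, 42], [44, 102], [12, 61]) (.node ([120], [1, 61], [9, 59]) .nil .nil) (.node ([1, 55], [22, 33], [41, 96]) .nil .nil)) (.node ([0, 36], [38, 91, 95], [89, 121]) (.node ([25, 49], [32, 34], [46, 62]) .nil .nil) .nil)) (.node ([97, 100], [2, 95], [103, 117]) (.node ([23, 64], [0, 10, 61], [83, 99]) (.node ([1], [13, 122], [71, 94]) .nil .nil) .nil) (.node ([17, 21, 23], [5, 61], [30, 102]) (.node ([29, 35], [22, 43], [26, 38]) .nil .nil) .nil))) (.node ([3, 95], [0, 103], [4, 100]) (.node ([5], [25], [2, 21]) (.node ([0, 70], [71, 80], [13, 116]) (.node ([41], [50], [40, 42]) .nil .nil) .nil) (.node ([44, 95], [35, 97], [33, 117]) (.node ([94], [46], [12, 22]) .nil .nil) .nil)) (.node ([40], [36], [39, 47]) (.node ([0, 6, 34], [35, 97], [68, 93]) (.node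 ([16, 22, 27], [0, 19, 47], [29, 90]) .nil .nil) .nil) (.node ([18, 26, 30], [0, 24], [31, 78]) (.node ([22, 30, 37], [19, 32, 39], [21, 54]) .nil .nil) .nil)))) (.node ([103], [33, 75], [4, 49]) (.node ([13, 74], [6], [12, 71]) (.node ([9, 11, 46], [6, 44], [12, 67]) (.node ([46], [118], [10, 55]) (.node ([5, 19, 48], [3, 32, 37], [28, 87]) .nil .nil) .nil) (.node ([17, 21], [98], [44, 92]) (.node ([70, 86], [0, 37, 68], [1, 110]) .nil .nil) .nil)) (.node ([71], [14, 49], [47, 74]) (.node ([5, 57, 104], [23, 61], [102, 123]) (.node ([16, 58], [0, 48], [29, 70]) .nil .nil) .nil) (.node ([16, 27, 86], [0, 18, 19], [76, 90]) (.node ([49], [122], [22, 74]) .nil .nil) .nil))) (.node ([0, 10, 42], [43, 83], [64, 79]) (.node ([2, 64], [13, 17, 23], [10, 78]) (.node ([64], [17, 99], [10, 86]) (.node ([1, 18, 44], [13, 33, 86], [68, 96]) .nil .nil) .nil) (.node ([23, 46], [25, 48], [42, 51]) (.node ([55, 114], [53], [57, 112]) .nil .nil) .nil)) (.node ([], [111], [40, 83])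 (.node ([4, 40], [39, 89], [36, 111]) (.node ([50, 83, 95], [0, 44], [111, 117]) .nil .nil) .nil) (.node ([27, 47], [0, 14, 53], [75, 90]) (.node ([22, 110], [0, 37], [58, 86]) .nil .nil) .nil))))) (.node ([91], [5, 36], [4, 37]) (.node ([3, 6, 64], [2, 16, 17], [10, 127]) (.node ([13, 23], [0, 10], [2, 99]) (.node ([0, 3, 36], [4, 47, 87], [75, 89]) (.node ([1, 10, 44], [6, 64], [13, 73]) (.node ([20, 47], [19, 40], [36, 59]) .nil .nil) (.node ([22, 49], [1, 46, 53], [41, 107]) .nil .nil)) (.node ([38, 91, 93], [0, 37], [87, 121]) (.node ([36, 86], [1, 20], [39, 90]) .nil .nil) .nil)) (.node ([5, 10, 61], [17, 23, 42], [83, 102]) (.node ([18, 35, 97], [0, 6, 33], [68, 95]) (.node ([16, 26, 42], [13, 23, 48], [43, 80]) .nil .nil) .nil) (.node ([0, 48], [32, 100], [29, 93]) (.node ([21, 33, 90], [36, 86], [20, 122]) .nil .nil) .nil))) (.node ([5, 27], [4, 32], [30, 75]) (.node ([16, 28, 103], [0, 15, 27], [3, 116]) (.node ([92, 99], [19], [90, 102]) (.node ([10, 45],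 [11, 46, 99], [13, 118]) .nil .nil) .nil) (.node ([11, 55], [67], [33, 118]) (.node ([33, 90, 94], [1, 86], [96, 122]) .nil .nil) .nil)) (.node ([1, 14, 19], [16, 36], [7, 90]) (.node ([93], [41, 77], [46, 85]) (.node ([27, 86], [21, 24, 90], [20, 125]) .nil .nil) .nil) (.node ([1, 10, 61], [64], [73, 99]) (.node ([22, 45], [40, 43], [35, 59]) .nil .nil) .nil)))) (.node ([8, 10, 47], [7, 18], [14, 72]) (.node ([5, 14], [2, 27, 74], [84, 103]) (.node ([104], [11, 114], [14, 118]) (.node ([23, 128], [0, 15], [84, 99]) (.node ([31], [19, 111], [61, 89]) .nil .nil) .nil) (.node ([12, 51], [25], [46, 84]) (.node ([38, 52, 91], [0, 19], [54, 115]) .nil .nil) .nil)) (.node ([69], [46], [6, 57]) (.node ([25, 27], [24, 32], [30, 51]) (.node ([0, 34, 48], [58], [32, 70]) .nil .nil) .nil) (.node ([2, 106], [0, 64], [26, 127]) (.node ([0, 38, 39], [22, 66], [1, 54]) .nil .nil) .nil))) (.node ([8, 19], [14, 20], [36, 104]) (.node ([104], [18, 61], [17, 59]) (.node ([16, 113],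 [0, 18], [71, 76]) (.node ([45, 93], [2, 35], [46, 95]) .nil .nil) .nil) (.node ([16,
  28], [23, 88], [19, 80]) (.node ([26, 110], [0, 42], [58, 78]) .nil .nil) .nil)) (.node ([36, 93], [85], [33, 87]) (.node ([38], [16, 37], [48, 66]) (.node ([14, 53, 99], [19, 47], [90, 114]) .nil .nil) .nil) (.node ([34, 36], [9, 49], [41, 74]) (.node ([1, 49], [22, 34, 71], [35, 122]) .nil .nil) .nil)))))) (.node ([15, 103], [3, 6], [14, 101]) (.node ([14], [8, 10, 19], [7, 104]) (.node ([10], [16, 17, 42], [15, 64]) (.node ([6, 14], [11, 65], [8, 63]) (.node ([3, 64], [7, 43, 83], [10, 115]) (.node ([98, 99], [], [96, 102]) (.node ([34, 36], [33, 41], [39, 49]) .nil .nil) (.node ([31, 50], [22], [40, 52]) .nil .nil)) (.node ([105], [87], [47, 108]) (.node ([34, 78], [30, 42, 68], [44, 110]) .nil .nil) .nil)) (.node ([17, 19], [14, 20, 102], [92, 104]) (.node ([52], [23], [30, 43]) (.node ([13, 34, 48], [35, 42], [46, 70]) .nil .nil) .nil) (.node ([25, 27, 48], [23, 32], [28,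 51]) (.node ([22], [53], [21, 47]) .nil .nil) .nil))) (.node ([61], [], [19, 44]) (.node ([2, 16, 42], [13, 15, 23], [10, 80]) (.node ([116], [27], [16, 62]) (.node ([49], [1, 109], [9, 107]) .nil .nil) .nil) (.node ([77], [11, 23, 55], [24, 118]) (.node ([12, 21, 51], [5, 46], [25, 109]) .nil .nil) .nil)) (.node ([47, 85], [0, 36], [40, 75]) (.node ([42, 68], [44], [34, 64]) (.node ([38, 52], [29], [43, 54]) .nil .nil) .nil) (.node ([35, 103], [0, 6, 49], [71, 93]) (.node ([13, 22, 34], [1, 46], [35, 94]) .nil .nil) .nil)))) (.node ([2, 5], [83, 93], [79, 97]) (.node ([6, 16], [15, 71], [14, 70]) (.node ([34], [44], [33, 42]) (.node ([45, 79], [0, 46], [43, 77]) (.node ([29, 36], [19, 47], [27, 38]) .nil .nil) .nil) (.node ([63, 96], [13], [11, 107]) (.node ([22], [38], [19, 35]) .nil .nil) .nil)) (.node ([93, 103], [97, 100], [95, 101]) (.node ([61, 79], [23, 42], [57, 83]) (.node ([21, 27, 48], [19, 32], [28, 53]) .nil .nil) .nil) (.node ([113], [68, 76], [18,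 110]) (.node ([50, 93], [0, 41, 44], [35, 108]) .nil .nil) .nil))) (.node ([9, 36], [7, 39], [8, 37]) (.node ([2, 76], [3, 64], [23, 127]) (.node ([13], [35, 64], [43, 68]) (.node ([26, 68], [0, 35, 44], [13, 56]) .nil .nil) .nil) (.node ([48, 82], [23, 47], [16, 51]) (.node ([46, 99], [48, 94], [42, 107]) .nil .nil) .nil)) (.node ([19, 75], [3, 32, 36], [27, 87]) (.node ([0, 69], [72, 79], [43, 126]) (.node ([20, 57], [19, 21], [53, 61]) .nil .nil) .nil) (.node ([30], [25, 86], [21, 78]) (.node ([22, 33], [36, 56], [39, 60]) .nil .nil) .nil))))) (.node ([13, 17], [11], [12, 18]) (.node ([19, 83], [23], [3, 61]) (.node ([104], [14, 102], [17, 114]) (.node ([6], [67], [8, 46]) (.node ([], [118], [11, 57]) (.node ([28, 34, 36], [21], [37, 62]) .nil .nil) .nil) (.node ([47, 67], [1], [45, 65]) (.node ([32, 39], [5, 20, 41], [21, 85]) .nil .nil) .nil)) (.node ([51], [75], [2, 53]) (.node ([43, 44], [117], [2, 50]) (.node ([0, 19], [16, 28, 86], [76, 88]) .nil .nil) .nil)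 (.node ([0, 18], [82, 86], [78, 90]) (.node ([19, 32, 47], [22, 27, 48], [29, 53]) .nil .nil) .nil))) (.node ([34, 103], [97], [33, 101]) (.node ([25, 27], [28], [23, 62]) (.node ([5, 36], [62], [21, 103]) (.node ([33, 46], [35, 44], [34, 45]) .nil .nil) .nil) (.node ([94], [0, 34], [1, 25]) (.node ([26, 30, 68], [0, 44], [56, 78]) .nil .nil) .nil)) (.node ([3, 38, 64], [0, 7, 43], [16, 115]) (.node ([5, 7, 41], [37], [9, 87]) (.node ([35], [121], [39, 100]) .nil .nil) .nil) (.node ([18, 59], [40, 81], [31, 72]) (.node ([41, 45], [1, 55], [22, 67]) .nil .nil) .nil)))) (.node ([7, 17, 42], [9, 10], [15, 73]) (.node ([127], [103], [18, 101]) (.node ([2, 45], [0, 11, 46], [13, 77]) (.node ([14, 99], [13, 15, 90], [16, 128]) (.node ([41, 75], [53], [32, 65]) .nil .nil) .nil) (.node ([13, 24], [2, 45], [11, 26]) (.node ([41, 44], [9, 55], [21, 67]) .nil .nil) .nil)) (.node ([8, 41], [9, 36], [39, 65]) (.node ([46, 75], [51], [32, 63]) (.node ([13, 22, 23], [0, 43], [26,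 99]) .nil .nil) .nil) (.node ([20], [86], [18, 21]) (.node ([1, 59], [18, 22], [40, 99]) .nil .nil) .nil))) (.node ([47], [0, 65], [1, 75]) (.node ([23, 45], [81], [2,
  59]) (.node ([0, 100], [29, 127], [16, 124]) (.node ([2, 32, 45], [0, 24, 46], [26, 77]) .nil .nil) .nil) (.node ([101], [110], [17, 58]) (.node ([0, 37], [28, 70, 86], [88, 110]) .nil .nil) .nil)) (.node ([14, 33], [11, 20, 65], [8, 112]) (.node ([66, 100], [0, 6, 38], [16, 121]) (.node ([23, 32, 44], [26, 30, 42], [25, 52]) .nil .nil) .nil) (.node ([30], [28, 34, 113], [62, 110]) (.node ([31, 38, 39], [22, 36], [40, 54]) .nil .nil) .nil)))))))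

def RR_baaa : RT :=
  (.node ([3], [0, 15], [5, 16]) (.node ([75], [0], [5, 47]) (.node ([5, 14, 48], [3], [15, 75]) (.node ([10, 44], [12], [11, 42]) (.node ([15], [3, 6, 37], [7, 101]) (.node ([9, 14, 19], [15, 36], [7, 92]) (.node ([8, 45], [1, 11], [18, 67]) (.node ([0, 34], [56, 101], [58, 97]) .nil .nil) (.node ([22], [32, 40], [31, 41]) .nil .nil)) (.node ([4, 19, 47], [3, 31, 36], [27, 89]) (.node ([14, 107], [47], [63, 90]) .nil .nil) .nil)) (.node ([68], [33], [18, 34]) (.node ([66, 100], [16], [38, 127]) (.node ([55], [32, 33], [24, 41]) .nil .nil) .nil) (.node ([16, 35, 101], [0, 6, 48], [70, 100]) (.node ([0, 21, 48], [22, 28], [32, 88]) .nil .nil) .nil))) (.node ([127], [3, 6], [17, 100]) (.node ([9, 15], [12, 92], [74, 102]) (.node ([15, 99], [16, 42], [10, 88]) (.node ([0, 19, 42], [32, 115], [52, 87]) .nil .nil) .nil) (.node ([18, 44], [33, 78], [24, 68]) (.node ([1, 20, 44], [33, 86], [39, 96]) .nil .nil) .nil)) (.node ([9], [7, 39, 42], [37, 73])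 (.node ([23, 46], [10, 57, 77], [79, 118]) (.node ([0, 47], [26, 27, 71], [60, 82]) .nil .nil) .nil) (.node ([31], [0, 20], [4, 22]) (.node ([19, 40, 43], [22, 47], [38, 59]) .nil .nil) .nil)))) (.node ([4, 23], [3, 30], [27, 83]) (.node ([5, 11, 20], [17, 24], [4, 98]) (.node ([9], [67], [44, 65]) (.node ([77], [118], [23, 67]) (.node ([39, 42, 87], [5, 41], [37, 108]) .nil .nil) .nil) (.node ([65, 118], [], [67, 114]) (.node ([40, 93], [0, 33, 41], [35, 85]) .nil .nil) .nil)) (.node ([0, 28], [3, 32], [5, 29]) (.node ([83], [91, 117], [97, 115]) (.node ([29, 42], [32, 43], [48, 52]) .nil .nil) .nil) (.node ([16, 26], [13, 23, 47], [43, 82]) (.node ([61, 105], [32], [59, 108]) .nil .nil) .nil))) (.node ([2, 33, 75], [4, 93], [77, 103]) (.node ([15, 34, 71], [6], [70, 74]) (.node ([30, 101], [0, 17, 28, 34], [5, 110]) (.node ([48], [99, 109], [102, 107]) .nil .nil) .nil) (.node ([13, 84, 90], [0, 14], [82, 128]) (.node ([31, 35], [26, 33, 47], [45, 60]) .nil .nil)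 .nil)) (.node ([66, 97], [6, 91], [17, 121]) (.node ([5, 41, 73], [39, 42], [9, 108]) (.node ([0, 49], [60], [32, 71]) .nil .nil) .nil) (.node ([40, 81], [31, 45], [59, 95]) (.node ([22, 99], [48, 90, 94], [88, 107]) .nil .nil) .nil))))) (.node ([73], [6], [7, 44]) (.node ([2, 15, 27], [5, 14, 23], [3, 84]) (.node ([11, 20], [8], [33, 104]) (.node ([83, 89], [81], [3, 111]) (.node ([12, 14, 51], [2], [63, 84]) (.node ([1, 17, 20], [18, 39], [8, 86]) .nil .nil) (.node ([35, 39, 52], [22, 44], [50, 56]) .nil .nil)) (.node ([20, 75], [4, 32, 36], [27, 85]) (.node ([47, 49], [1, 53, 63], [65, 107]) .nil .nil) .nil)) (.node ([10, 19], [114], [48, 104]) (.node ([31, 43, 83], [0, 23], [52, 81]) (.node ([30, 42], [28, 34, 78], [25, 110]) .nil .nil) .nil) (.node ([23, 32], [29, 30, 42], [28, 52]) (.node ([22, 30, 64], [0, 61], [52, 86]) .nil .nil) .nil))) (.node ([4, 19], [75, 104], [14, 123]) (.node ([13, 15], [2, 70], [6, 80]) (.node ([16, 68, 101], [0, 6], [70, 127]) (.node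 ([11, 55, 102], [44], [98, 118]) .nil .nil) .nil) (.node ([25], [32, 44], [30, 46]) (.node ([21, 46], [32, 34], [25, 41]) .nil .nil) .nil)) (.node ([5], [73, 79, 85], [108, 126]) (.node ([43, 44], [46], [42, 45]) (.node ([47, 57, 104], [19, 99], [59, 114]) .nil .nil) .nil) (.node ([60], [31], [29, 33]) (.node ([13, 25, 49], [26, 34], [46, 119]) .nil .nil) .nil)))) (.node ([0, 14, 48], [3, 47], [16, 75]) (.node ([2, 16, 27], [0, 14, 23], [3, 82]) (.node ([10, 46], [12, 48], [42, 63]) (.node ([102], [15, 21], [42, 92]) (.node ([20, 47], [31, 36], [27, 40]) .nil .nil) .nil) (.node ([1, 17], [33, 128], [74, 96]) (.node ([18, 86], [36, 68, 76], [66, 113]) .nil .nil) .nil)) (.node ([39, 83], [17, 61], [30, 73]) (.node ([10, 57, 75], [23, 48], [79, 114]) (.node ([32, 42], [5, 57], [21, 79]) .nil .nil) .nil) (.node ([0, 27], [60, 76], [29, 113]) (.node ([42, 56], [26, 34], [44, 58]) .nil .nil) .nil))) (.node ([5, 8, 69], [73], [9, 126]) (.node ([18, 103], [17, 27, 71], [14,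 113]) (.node ([19, 64], [99], [16, 61]) (.node ([99], [47, 118], [45, 114]) .nil .nil) .nil) (.node
  ([0, 16], [27, 71, 80], [82, 116]) (.node ([25, 82, 122], [0], [119, 125]) .nil .nil) .nil)) (.node ([5, 19], [32, 91], [30, 87]) (.node ([1, 15, 34], [6, 37], [9, 70]) (.node ([32, 61], [5, 20, 57], [21, 123]) .nil .nil) .nil) (.node ([26, 30], [24, 32], [25, 31]) (.node ([26, 49], [32, 35], [46, 60]) .nil .nil) .nil)))))) (.node ([0, 11], [2, 18], [4, 13]) (.node ([103], [6, 75], [14, 93]) (.node ([5], [77], [44, 75]) (.node ([75], [87], [36, 79]) (.node ([7, 43], [16], [10, 38]) (.node ([9, 17], [12, 33, 92], [74, 98]) (.node ([8, 41, 47], [1, 36], [40, 65]) .nil .nil) (.node ([21, 46, 96], [22, 44], [55, 94]) .nil .nil)) (.node ([18, 38], [0, 7, 40], [1, 89]) (.node ([28, 34, 60], [32], [58, 62]) .nil .nil) .nil)) (.node ([18, 117], [0, 6], [64, 95]) (.node ([10, 59], [81], [23, 72]) (.node ([13, 122], [0, 34, 71], [1, 119]) .nil .nil) .nil) (.node ([57], [19,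 42], [48, 61]) (.node ([18, 22, 23], [0, 59], [31, 99]) .nil .nil) .nil))) (.node ([95], [103], [47, 97]) (.node ([5, 42], [15, 25], [12, 28]) (.node ([13], [16, 42, 68], [64, 70]) (.node ([40, 108], [50], [41, 111]) .nil .nil) .nil) (.node ([20, 118], [], [55, 104]) (.node ([13, 46], [12, 107], [63, 94]) .nil .nil) .nil)) (.node ([4, 40, 73], [18, 39], [8, 111]) (.node ([47, 93], [0, 49], [35, 75]) (.node ([23, 86], [19, 30, 64], [61, 76]) .nil .nil) .nil) (.node ([29], [32, 47], [31, 48]) (.node ([32, 39], [37, 56], [34, 54]) .nil .nil) .nil)))) (.node ([4, 93], [0, 97], [5, 95]) (.node ([17, 23], [84], [15, 24]) (.node ([11, 99], [13], [10, 96]) (.node ([33, 75], [112], [24, 65]) (.node ([0, 7, 41], [38], [1, 87]) .nil .nil) .nil) (.node ([109], [102], [48, 98]) (.node ([38, 42], [41, 43], [48, 50]) .nil .nil) .nil)) (.node ([62], [30], [28, 33]) (.node ([123], [20, 23], [32, 104]) (.node ([58, 76], [0, 28], [29, 110]) .nil .nil) .nil) (.node ([19, 43], [29],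 [23, 38]) (.node ([32, 34, 36], [21, 49], [41, 62]) .nil .nil) .nil))) (.node ([91], [30], [19, 97]) (.node ([16, 68], [13, 18], [64, 71]) (.node ([78], [0, 17], [2, 86]) (.node ([0, 18, 44], [13, 24, 86], [78, 96]) .nil .nil) .nil) (.node ([21, 42], [28, 34], [25, 37]) (.node ([0, 55], [32, 45], [22, 77]) .nil .nil) .nil)) (.node ([115], [3], [43, 91]) (.node ([6, 40], [8, 45], [33, 72]) (.node ([0, 44], [35, 52, 97], [56, 117]) .nil .nil) .nil) (.node ([28, 86], [19, 30], [21, 76]) (.node ([32, 43], [22, 23, 46], [26, 57]) .nil .nil) .nil))))) (.node ([3, 36], [7, 75], [14, 87]) (.node ([10, 47], [16], [14, 43]) (.node ([5, 11], [12, 24], [2, 98]) (.node ([0, 39, 83], [4, 108], [5, 111]) (.node ([13, 33], [68], [44, 71]) (.node ([61, 85], [5, 20], [39, 123]) .nil .nil) .nil) (.node ([36, 48, 93], [41, 75], [49, 87]) (.node ([40], [1, 20], [8, 22]) .nil .nil) .nil)) (.node ([5, 23], [4, 61, 79], [83, 123]) (.node ([35, 103], [95], [33, 100]) (.node ([88], [116],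 [36, 80]) .nil .nil) .nil) (.node ([42, 124], [2, 32], [52, 101]) (.node ([54, 97], [56], [39, 124]) .nil .nil) .nil))) (.node ([2, 30], [4, 23, 44], [24, 83]) (.node ([16, 42], [43], [48, 64]) (.node ([15, 21, 23], [5, 19, 42], [28, 102]) (.node ([33, 107], [1], [49, 96]) .nil .nil) .nil) (.node ([46], [10, 57, 67], [69, 118]) (.node ([1, 44], [35, 39, 64], [50, 68]) .nil .nil) .nil)) (.node ([16, 37], [7, 48], [15, 38]) (.node ([1, 39], [8, 41], [9, 40]) (.node ([27, 47], [51, 90], [53, 82]) .nil .nil) .nil) (.node ([111], [18, 61], [31, 73]) (.node ([22, 43, 44], [35, 52], [26, 50]) .nil .nil) .nil)))) (.node ([4, 7, 39], [17, 36], [8, 91]) (.node ([34, 103], [74], [6, 62]) (.node ([14, 98], [11, 20], [17, 112]) (.node ([74, 82], [14], [71, 84]) (.node ([91], [54, 97], [30, 121]) .nil .nil) .nil) (.node ([51], [0, 109], [5, 107]) (.node ([0, 30, 39], [54, 97], [56, 91]) .nil .nil) .nil)) (.node ([6, 79], [69, 77], [46, 126]) (.node ([5, 51], [2, 32], [25, 75])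 (.node ([30, 58], [32], [28, 56]) .nil .nil) .nil) (.node ([0, 43], [3, 38, 117], [100, 115]) (.node ([38, 39, 95], [35, 36], [40, 121]) .nil .nil) .nil))) (.node ([36], [20], [19, 33])
  (.node ([23, 47], [19, 81], [3, 59]) (.node ([0, 17], [2, 113], [78, 103]) (.node ([20, 21], [53, 98], [55, 92]) .nil .nil) .nil) (.node ([29], [0, 48], [16, 32]) (.node ([26, 48], [29, 35, 42], [43, 58]) .nil .nil) .nil)) (.node ([81, 108], [79], [83, 105]) (.node ([38, 42], [48], [37, 43]) (.node ([19, 43], [47, 57], [48, 59]) .nil .nil) .nil) (.node ([33, 41, 75], [36, 93], [49, 85]) (.node ([36, 58], [22], [37, 60]) .nil .nil) .nil)))))))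

def RR_baab : RT :=
  (.node ([4], [103], [3, 33]) (.node ([3, 17, 36], [4, 7], [14, 91]) (.node ([2, 27], [3], [23, 103]) (.node ([17, 23], [5, 104], [4, 102]) (.node ([3, 18], [7, 81], [10, 89]) (.node ([3, 37], [5, 7, 48], [15, 87]) (.node ([1, 98], [33], [9, 96]) (.node ([42, 121], [93], [37, 117]) .nil .nil) (.node ([29, 56, 66], [0, 22], [54, 106]) .nil .nil)) (.node ([121], [], [38, 97]) (.node ([62, 86], [0, 21, 33], [30, 122]) .nil .nil) .nil)) (.node ([3, 97], [30, 127], [17, 124]) (.node ([0, 104], [4, 59], [18, 123]) (.node ([57, 67], [41, 46], [55, 69]) .nil .nil) .nil) (.node ([10, 61], [17, 42, 99], [64, 102]) (.node ([43], [1, 10, 57], [69, 99]) .nil .nil) .nil))) (.node ([4], [18, 30], [17, 31]) (.node ([0, 12, 14], [13, 84], [2, 128]) (.node ([13, 23], [80], [42, 82]) (.node ([6, 36, 47], [1, 14, 49], [65, 71]) .nil .nil) .nil) (.node ([27, 33, 78], [18, 30], [24, 113]) (.node ([21, 46], [41, 42], [34, 57]) .nil .nil) .nil)) (.node ([72], [1],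 [8, 43]) (.node ([34, 71], [6, 49], [35, 74]) (.node ([20, 99], [19, 86], [61, 90]) .nil .nil) .nil) (.node ([4, 59], [31], [20, 81]) (.node ([22, 30], [54], [19, 56]) .nil .nil) .nil)))) (.node ([3, 36, 97], [4], [91, 103]) (.node ([47, 77], [0], [45, 75]) (.node ([98], [17], [12, 20]) (.node ([30], [20, 23, 44], [24, 61]) (.node ([1, 48], [38], [16, 41]) .nil .nil) .nil) (.node ([0], [45, 123], [59, 77]) (.node ([21, 36, 48], [19, 41], [37, 53]) .nil .nil) .nil)) (.node ([23, 46], [79], [2, 57]) (.node ([0, 45], [43, 95], [35, 81]) (.node ([0, 27, 48], [16, 28, 60], [29, 116]) .nil .nil) .nil) (.node ([18, 78], [68, 76], [64, 113]) (.node ([26, 27, 49], [32, 47], [51, 60]) .nil .nil) .nil))) (.node ([17, 44], [6, 39, 83], [73, 97]) (.node ([42, 97], [2, 34], [44, 101]) (.node ([2, 43], [0, 10, 46], [13, 79]) (.node ([13, 90], [47, 96], [18, 107]) .nil .nil) .nil) (.node ([25, 74, 82], [2], [84, 119]) (.node ([32, 45], [26], [31, 46]) .nil .nil) .nil)) (.node ([43,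 73], [64], [10, 50]) (.node ([1, 39], [40, 73], [8, 50]) (.node ([29, 56, 127], [0, 0], [106, 124]) .nil .nil) .nil) (.node ([20], [17, 21, 90], [86, 92]) (.node ([22, 23], [0, 57], [32, 99]) .nil .nil) .nil))))) (.node ([7], [15, 36], [14, 37]) (.node ([101], [42], [2, 37]) (.node ([11, 102], [10, 17], [12, 104]) (.node ([0, 37], [87], [5, 38]) (.node ([5, 6, 46], [2, 34], [12, 93]) (.node ([1], [40, 43, 73], [50, 72]) .nil .nil) (.node ([21, 107], [22], [53, 94]) .nil .nil)) (.node ([48], [10, 57, 65], [69, 114]) (.node ([9, 53], [21, 36], [41, 92]) .nil .nil) .nil)) (.node ([92], [20], [17, 53]) (.node ([18, 35, 103], [0, 6, 33, 47], [71, 95]) (.node ([88], [125], [23, 122]) .nil .nil) .nil) (.node ([0, 34], [110], [30, 70]) (.node ([22, 23, 45], [31, 43], [26, 59]) .nil .nil) .nil))) (.node ([2, 30], [5, 24], [4, 25]) (.node ([71], [0, 6, 36], [1, 103]) (.node ([48, 103], [100], [47, 101]) (.node ([99], [107], [48, 96]) .nil .nil) .nil) (.node ([5, 39], [30,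 34], [21, 97]) (.node ([18, 22, 44], [96], [45, 86]) .nil .nil) .nil)) (.node ([92], [5, 36], [9, 27]) (.node ([46, 47], [43], [45, 48]) (.node ([43, 61], [52], [23, 50]) .nil .nil) .nil) (.node ([0, 33, 47], [31, 35, 103], [60, 95]) (.node ([18, 22], [20, 45, 99], [59, 96]) .nil .nil) .nil)))) (.node ([7], [65], [8, 48]) (.node ([5], [17, 28], [15, 30]) (.node ([2, 18, 33], [4, 6, 45], [11, 95]) (.node ([128], [1, 15], [74, 99]) (.node ([31, 38, 91], [0, 19, 36], [54, 89]) .nil .nil) .nil) (.node ([23, 109], [5, 48], [51, 102]) (.node ([54, 100], [0, 38], [29, 121]) .nil .nil) .nil)) (.node ([32], [87], [19, 93]) (.node ([51, 92], [27], [53, 84]) (.node ([21, 74, 90], [36], [92, 122]) .nil .nil) .nil) (.node ([29, 35, 103], [0, 47], [60, 100]) (.node ([20, 57, 67], [41], [55, 120]) .nil .nil) .nil))) (.node ([18], [4, 72], [8, 81]) (.node ([0, 6, 47], [18, 100], [16, 95]) (.node ([29], [23, 47], [27, 43]) (.node ([30, 68], [0, 17, 39], [86, 97]) .nil .nil) .nil)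 (.node ([92, 99], [15, 90], [19, 128]) (.node ([26, 48], [23, 46, 47], [43, 51]) .nil .nil) .nil)) (.node
  ([36, 87], [38, 91], [37, 89]) (.node ([90], [0, 36], [1, 27]) (.node ([0, 53], [32, 47], [22, 75]) .nil .nil) .nil) (.node ([48], [53, 63, 102], [109, 114]) (.node ([51, 94], [22, 25], [46, 125]) .nil .nil) .nil)))))) (.node ([11, 75], [4], [14, 77]) (.node ([2, 75], [4, 79], [3, 77]) (.node ([12], [17, 42], [15, 44]) (.node ([83, 87], [79], [3, 108]) (.node ([18, 39, 83], [4, 73], [17, 111]) (.node ([6, 47], [1, 63], [13, 65]) (.node ([8, 19, 41], [20, 65], [36, 120]) .nil .nil) (.node ([22], [20, 45, 57], [55, 59]) .nil .nil)) (.node ([0], [87, 111], [89, 108]) (.node ([0, 42, 44], [50, 83, 93], [108, 117]) .nil .nil) .nil)) (.node ([2, 18, 43], [0, 10, 45], [13, 81]) (.node ([24, 47], [31], [27, 45]) (.node ([82, 122], [0, 71], [90, 119]) .nil .nil) .nil) (.node ([0, 21], [125], [27, 94]) (.node ([18, 22, 61], [20, 99], [59, 86]) .nil .nil) .nil))) (.node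 ([83, 95], [0, 97], [4, 117]) (.node ([0, 14], [82], [2, 90]) (.node ([3, 48], [16, 28], [15, 29]) (.node ([41, 44], [34], [39, 46]) .nil .nil) .nil) (.node ([5, 20, 44], [17, 21, 24], [30, 98]) (.node ([26, 44], [13, 25], [46, 78]) .nil .nil) .nil)) (.node ([5], [61, 126], [73, 123]) (.node ([32, 97, 100], [0, 101], [93, 124]) (.node ([0], [30, 106], [56, 76]) .nil .nil) .nil) (.node ([62, 71], [113], [33, 116]) (.node ([90, 94], [107], [22, 128]) .nil .nil) .nil)))) (.node ([97], [4, 44], [33, 83]) (.node ([42], [12, 48], [15, 46]) (.node ([24, 63], [2], [11, 51]) (.node ([5, 33, 46], [44, 93], [34, 77]) (.node ([35, 66], [1], [38, 68]) .nil .nil) .nil) (.node ([9, 44], [12, 21, 33], [34, 98]) (.node ([1, 61], [86], [39, 99]) .nil .nil) .nil)) (.node ([5, 49], [93], [34, 75]) (.node ([0, 17, 21], [30], [5, 86]) (.node ([10, 57], [42, 99], [43, 102]) .nil .nil) .nil) (.node ([0, 17, 36], [113], [86, 103]) (.node ([26, 62], [0, 25, 49], [32, 119]) .nil .nil) .nil)))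 (.node ([77], [126], [6, 123]) (.node ([76], [0], [16, 30]) (.node ([13, 18], [71, 78], [68, 82]) (.node ([13, 33], [34, 71, 78], [68, 119]) .nil .nil) .nil) (.node ([13, 23, 88], [0, 16, 42], [80, 99]) (.node ([41, 45], [35], [40, 46]) .nil .nil) .nil)) (.node ([40, 81], [0, 72], [18, 105]) (.node ([0, 36], [4, 40, 87], [85, 89]) (.node ([18, 43], [1, 10, 59], [72, 99]) .nil .nil) .nil) (.node ([17, 90], [92, 96], [20, 128]) (.node ([22, 23], [32, 59], [31, 57]) .nil .nil) .nil))))) (.node ([8], [14, 33], [11, 36]) (.node ([3], [81], [47, 83]) (.node ([13, 14], [11, 47], [18, 63]) (.node ([69, 75], [7, 79], [48, 126]) (.node ([4, 45], [18, 24], [11, 31]) (.node ([74, 90], [1, 92], [36, 128]) .nil .nil) .nil) (.node ([73, 105], [], [72, 108]) (.node ([50, 89], [0, 40], [38, 111]) .nil .nil) .nil)) (.node ([5, 24], [17, 25, 27], [30, 84]) (.node ([97, 100], [117], [2, 121]) (.node ([46, 47], [35, 48], [43, 49]) .nil .nil) .nil) (.node ([1, 18], [71, 86], [68, 90])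 (.node ([43], [59, 69], [57, 72]) .nil .nil) .nil))) (.node ([3, 36, 93], [75], [87, 103]) (.node ([0, 92], [27], [5, 90]) (.node ([25, 82], [0, 84], [2, 125]) (.node ([2, 46], [13, 25], [12, 26]) .nil .nil) .nil) (.node ([1, 42], [94], [34, 99]) (.node ([86, 119], [0, 33], [78, 122]) .nil .nil) .nil)) (.node ([3, 6, 38], [16], [7, 100]) (.node ([39], [9, 20], [8, 21]) (.node ([0, 23, 44], [26, 30, 64], [52, 78]) .nil .nil) .nil) (.node ([52, 91], [0, 30], [54, 83]) (.node ([22, 30, 68], [0, 39], [56, 86]) .nil .nil) .nil)))) (.node ([126], [5, 7], [73, 75]) (.node ([6, 64], [13, 17], [10, 68]) (.node ([2, 5, 33], [4, 44, 93], [77, 97]) (.node ([27, 74], [92], [36, 84]) (.node ([105], [43], [41, 81]) .nil .nil) .nil) (.node ([6, 18, 43], [1, 10, 45], [13, 72]) (.node ([38, 42], [50, 87], [41, 115]) .nil .nil) .nil)) (.node ([9, 14, 20], [17, 36], [8, 92]) (.node ([0, 23, 42], [32, 43, 83], [52, 79]) (.node ([99], [22, 64], [43, 86]) .nil .nil) .nil) (.node ([18,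 61], [17, 20, 99], [86, 104]) (.node ([29, 37], [22, 28], [19, 58]) .nil .nil) .nil))) (.node ([8, 75], [7, 85], [36, 126]) (.node ([83], [30, 64], [17, 52]) (.node ([68, 76], [127], [17,
  106]) (.node ([32, 44], [5, 55], [21, 77]) .nil .nil) .nil) (.node ([], [34, 116], [62, 70]) (.node ([0, 48], [28, 60, 70], [58, 116]) .nil .nil) .nil)) (.node ([0, 87], [47, 79, 85], [75, 105]) (.node ([6, 38], [1], [7, 35]) (.node ([26, 62], [32], [25, 60]) .nil .nil) .nil) (.node ([30, 68], [34, 113], [33, 110]) (.node ([22, 37], [19, 41], [21, 38]) .nil .nil) .nil)))))))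

def RR_baba : RT :=
  (.node ([14], [18], [17, 47]) (.node ([7, 17], [8, 10], [14, 73]) (.node ([4, 47], [0, 14], [18, 75]) (.node ([], [63], [14, 46]) (.node ([7, 64], [16, 17], [10, 66]) (.node ([1, 10, 19], [16], [7, 99]) (.node ([20, 44], [39], [33, 61]) (.node ([61, 69], [42], [57, 73]) .nil .nil) (.node ([19, 41, 43], [22, 48], [38, 57]) .nil .nil)) (.node ([0, 30, 36], [31, 91], [4, 54]) (.node ([17, 122], [33], [74, 86]) .nil .nil) .nil)) (.node ([0, 33], [95], [4, 35]) (.node ([43, 95], [100], [47, 117]) (.node ([55], [41], [33, 57]) .nil .nil) .nil) (.node ([0, 15, 37], [28, 70], [88, 101]) (.node ([0, 58], [29, 56], [32, 106]) .nil .nil) .nil))) (.node ([18, 43], [16], [47, 64]) (.node ([34], [9], [6, 21]) (.node ([0, 16], [13, 23, 90], [82, 99]) (.node ([39], [37, 68], [34, 66]) .nil .nil) .nil) (.node ([2, 35, 64], [0, 6, 43, 44], [13, 117]) (.node ([21, 46], [44, 57], [42, 55]) .nil .nil) .nil)) (.node ([69], [9, 48], [42, 65]) (.node ([36, 75], [27,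 49], [53, 103]) (.node ([0, 64], [26, 68, 76], [78, 106]) .nil .nil) .nil) (.node ([3, 52], [19, 43, 83], [23, 115]) (.node ([54], [22], [29, 39]) .nil .nil) .nil)))) (.node ([83], [2, 30], [23, 97]) (.node ([11, 46], [6, 77], [2, 67]) (.node ([4, 33], [8, 77], [11, 85]) (.node ([14], [112], [20, 63]) (.node ([88], [0, 37], [1, 28]) .nil .nil) .nil) (.node ([44, 69], [9, 46], [42, 67]) (.node ([1, 21, 42], [34, 88], [37, 94]) .nil .nil) .nil)) (.node ([4, 32, 47], [0, 27], [31, 75]) (.node ([31, 117], [0], [52, 95]) (.node ([27, 48, 71], [16, 60], [47, 116]) .nil .nil) .nil) (.node ([27, 71, 78], [0, 18], [82, 113]) (.node ([0, 51], [22, 25, 82], [26, 125]) .nil .nil) .nil))) (.node ([93], [101], [48, 97]) (.node ([0, 15, 62], [28, 103], [5, 116]) (.node ([28, 34], [5, 37], [21, 101]) (.node ([21, 44], [30, 34], [25, 39]) .nil .nil) .nil) (.node ([], [119], [25, 71]) (.node ([86], [21, 96], [20, 94]) .nil .nil) .nil)) (.node ([66], [6, 38, 91], [7, 121]) (.node ([7,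 40], [1, 36], [8, 38]) (.node ([31, 35], [60], [47, 56]) .nil .nil) .nil) (.node ([5, 20, 23], [4, 32, 61], [30, 123]) (.node ([22, 42], [58], [26, 37]) .nil .nil) .nil))))) (.node ([14], [8, 75], [4, 65]) (.node ([101], [5], [3, 34]) (.node ([4, 6], [8, 10, 77], [11, 126]) (.node ([36, 97], [4, 39], [33, 91]) (.node ([49, 84], [], [51, 74]) (.node ([38, 39], [40], [36, 50]) .nil .nil) (.node ([32, 50], [22, 42], [41, 52]) .nil .nil)) (.node ([0, 19], [32, 89], [31, 87]) (.node ([1, 17, 21], [39], [9, 86]) .nil .nil) .nil)) (.node ([123], [23], [4, 57]) (.node ([36, 97, 100], [95], [103, 121]) (.node ([16, 42, 86], [99], [64, 88]) .nil .nil) .nil) (.node ([0, 36, 74], [62, 71], [103, 122]) (.node ([26, 31], [29, 56], [52, 60]) .nil .nil) .nil))) (.node ([19, 83], [3, 30], [23, 91]) (.node ([10, 19], [15, 99], [16, 102]) (.node ([3], [76, 101], [28, 127]) (.node ([10, 44, 57], [46, 102], [42, 118]) .nil .nil) .nil) (.node ([], [46, 112], [55, 63]) (.node ([2, 32,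 35], [0, 46], [26, 93]) .nil .nil) .nil)) (.node ([6], [8, 69, 77], [67, 126]) (.node ([53, 63], [49, 75], [51, 65]) (.node ([0, 20], [18, 22, 30], [31, 86]) .nil .nil) .nil) (.node ([0, 33], [56, 103], [60, 97]) (.node ([0, 41], [32, 35], [22, 93]) .nil .nil) .nil)))) (.node ([4, 6, 79], [10, 77], [2, 126]) (.node ([14, 102], [10, 17, 19], [15, 104]) (.node ([10, 45], [13], [11, 43]) (.node ([12, 21], [5, 34], [9, 25]) (.node ([18, 54], [0, 36], [31, 66]) .nil .nil) .nil) (.node ([13, 17, 25], [2, 44], [12, 78]) (.node ([0, 19], [29, 30, 66], [54, 76]) .nil .nil) .nil)) (.node ([108], [93], [44, 87]) (.node ([123], [32], [20, 79]) (.node ([122], [36], [21, 71]) .nil .nil) .nil) (.node ([103, 106], [0, 18], [60, 127]) (.node ([37, 86], [1, 21], [39, 88]) .nil .nil) .nil))) (.node ([18, 73], [1, 17], [8, 64]) (.node ([76, 103], [3, 18], [27, 127]) (.node ([27, 78], [76], [23, 113]) (.node ([23, 31, 44], [26, 30], [24, 52]) .nil .nil) .nil) (.node ([16, 35], [48, 71],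 [47, 70]) (.node ([16, 22, 42], [48, 99], [43, 88]) .nil .nil) .nil)) (.node ([37, 97], [5, 39], [34,
  91]) (.node ([21], [37], [19, 34]) (.node ([61, 79, 85], [5, 32], [108, 123]) .nil .nil) .nil) (.node ([27, 49], [53], [36, 51]) (.node ([40, 43, 93], [0, 41, 45], [35, 105]) .nil .nil) .nil)))))) (.node ([11], [2, 33], [6, 24]) (.node ([0, 83], [4, 79], [5, 81]) (.node ([2, 74], [5, 6], [12, 103]) (.node ([73, 79], [83], [10, 108]) (.node ([89], [3, 36], [47, 91]) (.node ([13, 17], [12, 14, 96], [11, 128]) (.node ([17, 21, 36], [9, 20], [39, 92]) .nil .nil) (.node ([49, 94], [22, 34], [46, 122]) .nil .nil)) (.node ([50], [], [39, 43]) (.node ([0, 34], [30, 58, 68], [56, 110]) .nil .nil) .nil)) (.node ([43, 83], [3, 117], [2, 115]) (.node ([24], [78], [18, 25]) (.node ([84, 90, 94], [0], [125, 128]) .nil .nil) .nil) (.node ([27], [21, 84, 90], [92, 125]) (.node ([0, 36, 47], [22, 27, 71], [60, 90]) .nil .nil) .nil))) (.node ([3, 64, 97], [0, 2, 17], [83, 127])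 (.node ([99], [16], [13, 19]) (.node ([23, 90], [16, 27], [19, 82]) (.node ([17, 21, 33], [9, 20, 44], [39, 98]) .nil .nil) .nil) (.node ([20], [92, 96], [90, 98]) (.node ([33, 94], [34, 86], [44, 122]) .nil .nil) .nil)) (.node ([104], [8, 123], [4, 120]) (.node ([0, 17, 34], [30, 68, 101], [97, 110]) (.node ([0, 36], [60], [22, 103]) .nil .nil) .nil) (.node ([1, 33], [36, 68], [39, 71]) (.node ([1, 20, 45], [18, 22, 33], [40, 96]) .nil .nil) .nil)))) (.node ([2, 75], [3, 93], [79, 103]) (.node ([12], [2, 34], [6, 25]) (.node ([11, 46], [13, 44], [12, 45]) (.node ([4, 39], [30, 33], [20, 97]) (.node ([66], [86], [19, 68]) .nil .nil) .nil) (.node ([46, 102], [42], [12, 57]) (.node ([29, 30, 37], [19, 32], [28, 54]) .nil .nil) .nil)) (.node ([0, 34], [93], [5, 35]) (.node ([17, 21, 27], [5, 20], [30, 92]) (.node ([110], [0, 17, 37], [86, 101]) .nil .nil) .nil) (.node ([78], [30, 64], [44, 76]) (.node ([35, 36, 48], [41, 47], [38, 49]) .nil .nil) .nil))) (.node ([10,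 46, 75], [2, 48], [63, 79]) (.node ([6, 43], [13], [10, 35]) (.node ([82], [2, 47], [14, 26]) (.node ([26], [23, 45], [24, 43]) .nil .nil) .nil) (.node ([1, 16, 42], [13, 88], [70, 99]) (.node ([45], [11, 55, 99], [96, 118]) .nil .nil) .nil)) (.node ([43, 83, 89], [0, 3], [81, 115]) (.node ([19, 85], [20, 75], [36, 123]) (.node ([2, 35, 52], [0, 43, 44], [26, 117]) .nil .nil) .nil) (.node ([46, 114], [10, 57], [48, 118]) (.node ([38, 39, 117], [35], [50, 121]) .nil .nil) .nil))))) (.node ([6, 17], [9, 11], [8, 12]) (.node ([4, 6, 47], [18, 103], [14, 95]) (.node ([5, 11, 46], [2, 44], [12, 77]) (.node ([5], [39, 83, 87], [91, 108]) (.node ([18, 43, 44], [13], [45, 64]) (.node ([0, 33], [4, 40, 93], [85, 95]) .nil .nil) .nil) (.node ([108], [50, 83], [42, 111]) (.node ([0, 6, 38, 39], [35, 66], [1, 121]) .nil .nil) .nil)) (.node ([23, 48], [19, 79], [3, 57]) (.node ([124], [3], [30, 100]) (.node ([110], [78], [42, 113]) .nil .nil) .nil) (.node ([86], [], [17, 22])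 (.node ([50, 95], [0, 40, 44], [35, 111]) .nil .nil) .nil))) (.node ([2, 48], [23, 63], [10, 51]) (.node ([92], [17, 19], [15, 20]) (.node ([28], [0, 15, 21], [5, 88]) (.node ([0, 48], [23, 107], [51, 99]) .nil .nil) .nil) (.node ([], [94], [13, 21]) (.node ([0, 47], [13, 51, 90], [82, 107]) .nil .nil) .nil)) (.node ([1, 17], [6, 66], [7, 68]) (.node ([120], [], [8, 57]) (.node ([51], [26], [25, 47]) .nil .nil) .nil) (.node ([0, 6, 44], [35, 64, 97], [68, 117]) (.node ([55], [22, 44], [21, 45]) .nil .nil) .nil)))) (.node ([], [126], [8, 79]) (.node ([101], [5, 6, 48], [15, 93]) (.node ([10, 77], [11, 23, 46], [2, 118]) (.node ([12, 92, 99], [15], [102, 128]) (.node ([40, 87], [38], [41, 89]) .nil .nil) .nil) (.node ([18, 44], [17, 96], [11, 86]) (.node ([36, 47], [1, 14, 53], [65, 90]) .nil .nil) .nil)) (.node ([73], [1, 17, 42], [9, 64]) (.node ([29, 30], [27, 32], [28, 31]) (.node ([37, 124], [32], [54, 101]) .nil .nil) .nil) (.node ([2, 29, 35], [0, 43], [26,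 100]) (.node ([40, 43, 108], [0, 41], [50, 105]) .nil .nil) .nil))) (.node ([36], [7, 85], [8, 87]) (.node ([0], [31], [18, 32]) (.node ([0, 6, 47], [16, 35, 103], [71, 100]) (.node ([55],
  [21], [44, 53]) .nil .nil) .nil) (.node ([0, 15, 36], [116], [88, 103]) (.node ([32, 43], [26, 48], [29, 46]) .nil .nil) .nil)) (.node ([115], [87], [42, 89]) (.node ([0, 48], [43, 87], [38, 79]) (.node ([51], [125], [22, 84]) .nil .nil) .nil) (.node ([30, 60], [0, 62], [32, 113]) (.node ([1, 20], [8, 41, 59], [40, 120]) .nil .nil) .nil)))))))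

def RR_babb : RT :=
  (.node ([83], [5], [4, 42]) (.node ([5, 6], [12], [2, 9]) (.node ([5, 103], [3, 97], [4, 101]) (.node ([4, 6, 44], [2, 17, 33], [11, 97]) (.node ([], [6, 87], [7, 93]) (.node ([66], [36], [18, 37]) (.node ([11], [63, 98], [12, 112]) (.node ([32, 46], [41, 79], [57, 93]) .nil .nil) (.node ([41, 47], [22, 49], [35, 53]) .nil .nil)) (.node ([121], [95], [36, 117]) (.node ([30, 34, 60], [32, 33], [56, 62]) .nil .nil) .nil)) (.node ([4], [31, 97], [30, 95]) (.node ([0, 17, 20], [18, 30], [4, 86]) (.node ([15, 90, 94], [99], [88, 128]) .nil .nil) .nil) (.node ([48, 92], [53, 102], [19, 109]) (.node ([106], [22, 64], [26, 66]) .nil .nil) .nil))) (.node ([18, 97], [0, 17, 33], [4, 68]) (.node ([84], [0, 12, 92], [5, 128]) (.node ([13, 16], [71, 80], [70, 82]) (.node ([0, 42], [50, 83, 87], [108, 115]) .nil .nil) .nil) (.node ([0, 17, 44], [2, 30, 68], [78, 97]) (.node ([94], [12, 107], [46, 128]) .nil .nil) .nil)) (.node ([0, 8], [4, 40], [18, 85])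 (.node ([32, 103], [5, 27, 49], [62, 75]) (.node ([16, 22, 23], [0, 19, 43], [29, 99]) .nil .nil) .nil) (.node ([18, 26, 27], [0, 24, 47], [31, 82]) (.node ([0, 38, 39], [35, 54], [22, 121]) .nil .nil) .nil)))) (.node ([97], [2, 33], [44, 103]) (.node ([74], [9, 14], [6, 92]) (.node ([9, 10, 44], [6, 17, 42], [12, 73]) (.node ([24, 46], [77], [2, 55]) (.node ([30, 37], [21], [28, 39]) .nil .nil) .nil) (.node ([45, 85], [0, 33], [40, 77]) (.node ([16, 37, 86], [1, 19], [66, 88]) .nil .nil) .nil)) (.node ([6, 33], [17, 34, 71], [68, 74]) (.node ([20, 114], [19], [53, 104]) (.node ([58], [28, 70], [48, 110]) .nil .nil) .nil) (.node ([47, 99], [18, 19, 43], [16, 59]) (.node ([46, 47], [107], [22, 63]) .nil .nil) .nil))) (.node ([44, 79], [83, 93], [2, 108]) (.node ([17, 82], [2, 18], [14, 78]) (.node ([17, 90], [18], [14, 86]) (.node ([71, 86], [33, 90], [18, 122]) .nil .nil) .nil) (.node ([21, 128], [], [92, 94]) (.node ([21], [20, 44, 57], [55, 61]) .nil .nil) .nil))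 (.node ([111], [4], [39, 81]) (.node ([40], [33, 47], [36, 45]) (.node ([1, 44], [6, 50], [35, 73]) .nil .nil) .nil) (.node ([20, 32], [21, 27], [30, 53]) (.node ([22, 116], [0, 36, 48], [60, 88]) .nil .nil) .nil))))) (.node ([91], [], [3, 39]) (.node ([64], [], [18, 42]) (.node ([1, 10], [13], [6, 99]) (.node ([87], [5, 36, 48], [37, 75]) (.node ([96], [18], [13, 20]) (.node ([18, 20], [4, 40], [8, 31]) .nil .nil) (.node ([49, 90, 94], [1, 22], [107, 122]) .nil .nil)) (.node ([36, 93], [121], [37, 95]) (.node ([33, 53], [20, 41], [36, 55]) .nil .nil) .nil)) (.node ([19, 75], [27, 48], [3, 53]) (.node ([97], [30, 68], [17, 56]) (.node ([16, 26], [48, 82], [47, 80]) .nil .nil) .nil) (.node ([3, 32], [29, 30, 101], [28, 124]) (.node ([33, 86], [30, 36, 68], [39, 113]) .nil .nil) .nil))) (.node ([4, 32], [0, 30], [5, 31]) (.node ([15, 71], [70, 103], [6, 116]) (.node ([2, 48], [42, 100], [43, 101]) (.node ([63, 96], [11, 47], [13, 112]) .nil .nil) .nil) (.node ([45,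 93], [0, 33, 46], [35, 77]) (.node ([1, 33], [34, 71, 86], [68, 122]) .nil .nil) .nil)) (.node ([37], [9, 48], [15, 41]) (.node ([79, 85], [123], [32, 126]) (.node ([59, 79], [32, 81], [23, 105]) .nil .nil) .nil) (.node ([52], [124], [2, 54]) (.node ([22, 44], [50], [35, 61]) .nil .nil) .nil)))) (.node ([18, 73], [8, 10], [17, 72]) (.node ([36, 101], [], [37, 103]) (.node ([5, 114], [23], [75, 102]) (.node ([13, 34], [1, 12], [6, 94]) (.node ([0, 19], [31, 115], [52, 89]) .nil .nil) .nil) (.node ([12, 51, 92], [5], [84, 109]) (.node ([0, 19, 40], [31, 38], [22, 89]) .nil .nil) .nil)) (.node ([2, 49], [6, 46, 75], [63, 93]) (.node ([2, 32], [0, 25], [5, 26]) (.node ([0, 34, 35], [58, 68], [56, 70]) .nil .nil) .nil) (.node ([0, 6], [66, 97, 100], [121, 127]) (.node ([18, 22], [0, 40], [1, 31]) .nil .nil) .nil))) (.node ([6, 47], [72], [7, 45]) (.node ([64, 100], [0, 6, 43], [16, 117]) (.node ([47], [36, 100], [38, 103]) (.node ([4, 40], [31, 33], [20, 95]) .nil .nil)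 .nil) (.node ([27, 88], [0, 19], [28, 90]) (.node ([42, 86], [110], [37, 78]) .nil .nil) .nil)) (.node
  ([41, 75], [87], [48, 85]) (.node ([1, 10, 48], [7, 43], [16, 69]) (.node ([57], [43, 61], [42, 59]) .nil .nil) .nil) (.node ([49, 92], [36], [53, 74]) (.node ([22, 62, 71], [0, 36, 49], [60, 122]) .nil .nil) .nil)))))) (.node ([15, 103], [5, 14], [3, 74]) (.node ([0, 8], [18], [1, 4]) (.node ([16, 103], [0, 14], [3, 71]) (.node ([9, 11], [8, 44], [17, 67]) (.node ([7, 83], [64, 91], [17, 115]) (.node ([11, 46, 47], [13], [45, 63]) (.node ([5, 6, 41], [34], [9, 93]) .nil .nil) (.node ([40, 43, 61], [22], [50, 59]) .nil .nil)) (.node ([0], [4, 105], [81, 85]) (.node ([2, 35, 42], [43, 44, 93], [46, 117]) .nil .nil) .nil)) (.node ([3, 43, 95], [0, 2, 47], [81, 100]) (.node ([18, 52], [0], [31, 64]) (.node ([94], [25, 122], [34, 125]) .nil .nil) .nil) (.node ([0, 25], [62, 80], [28, 119]) (.node ([0, 53], [22, 27], [32, 90]) .nil .nil) .nil))) (.node ([14, 20, 23],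 [4, 19], [27, 104]) (.node ([15, 82], [2, 16], [14, 80]) (.node ([103], [17, 116], [15, 113]) (.node ([4, 40, 44], [39, 95], [33, 111]) .nil .nil) .nil) (.node ([20, 23, 77], [4, 32], [24, 123]) (.node ([46], [26, 34], [25, 35]) .nil .nil) .nil)) (.node ([8, 41, 75], [36], [65, 85]) (.node ([61], [108], [32, 73]) (.node ([29, 35], [0, 38], [22, 100]) .nil .nil) .nil) (.node ([0, 33, 35], [60, 68], [56, 71]) (.node ([1, 46], [49, 94], [34, 107]) .nil .nil) .nil)))) (.node ([3, 42], [79], [48, 83]) (.node ([2, 71], [13, 14], [6, 82]) (.node ([2, 17, 34], [5, 6, 44], [12, 97]) (.node ([33, 46, 75], [93], [49, 77]) (.node ([36, 76], [27, 86], [19, 113]) .nil .nil) .nil) (.node ([12, 96], [13, 44], [11, 94]) (.node ([0, 38], [16, 22], [1, 29]) .nil .nil) .nil)) (.node ([3, 32, 97], [0, 30, 101], [5, 124]) (.node ([30, 42], [5, 61], [21, 83]) (.node ([57], [53, 102], [21, 114]) .nil .nil) .nil) (.node ([47], [60], [27, 35]) (.node ([32, 39, 42], [5, 41, 61], [21, 108])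 .nil .nil) .nil))) (.node ([9, 14, 33], [6, 17, 36], [8, 74]) (.node ([3, 47], [16, 27], [14, 29]) (.node ([13, 47], [16, 35], [43, 71]) (.node ([33, 78], [30, 68], [44, 113]) .nil .nil) .nil) (.node ([2, 48], [80], [15, 26]) (.node ([41, 45, 79], [43, 93], [46, 105]) .nil .nil) .nil)) (.node ([20], [30, 36], [27, 39]) (.node ([4, 40, 108], [0, 39], [85, 111]) (.node ([32, 45], [105], [59, 93]) .nil .nil) .nil) (.node ([2, 51], [25, 82], [26, 84]) (.node ([22, 30, 44], [39, 52], [56, 61]) .nil .nil) .nil))))) (.node ([0, 6], [13], [1, 2]) (.node ([19], [27], [23, 36]) (.node ([], [45], [44, 47]) (.node ([17, 33], [9, 11, 20], [8, 98]) (.node ([10], [118], [46, 104]) (.node ([21], [19, 39, 42], [37, 61]) .nil .nil) .nil) (.node ([7, 43], [47, 69], [48, 72]) (.node ([32, 39], [21], [30, 41]) .nil .nil) .nil)) (.node ([2, 30], [0, 17, 25], [5, 78]) (.node ([117], [0, 44], [35, 83]) (.node ([21, 23, 90], [27, 88], [19, 125]) .nil .nil) .nil) (.node ([13, 23, 86], [0,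 64], [78, 99]) (.node ([0, 32], [59, 79, 85], [105, 123]) .nil .nil) .nil))) (.node ([5, 27, 33], [30, 103], [4, 62]) (.node ([2, 28], [0, 15, 25], [5, 80]) (.node ([3, 32, 42], [5, 23, 48], [28, 79]) (.node ([34, 78], [13, 25, 33], [44, 119]) .nil .nil) .nil) (.node ([74, 94], [1, 12], [34, 128]) (.node ([30, 68], [44, 86], [39, 78]) .nil .nil) .nil)) (.node ([16], [38, 64], [43, 66]) (.node ([33, 65], [8, 41], [36, 67]) (.node ([40], [35, 36], [33, 38]) .nil .nil) .nil) (.node ([45], [6, 105], [72, 93]) (.node ([32, 39], [22, 30, 34], [21, 56]) .nil .nil) .nil)))) (.node ([9, 14], [6, 15, 36], [7, 74]) (.node ([127], [0, 6], [16, 97]) (.node ([10, 67], [11, 46], [6, 118]) (.node ([34, 48], [46], [42, 49]) (.node ([32, 38, 91], [0, 19, 37], [54, 87]) .nil .nil) .nil) (.node ([18, 23, 44], [78], [24, 64]) (.node ([21, 33], [20, 41, 44], [39, 55]) .nil .nil) .nil)) (.node ([5, 8, 41], [39], [9, 85]) (.node ([5, 53, 63], [51], [75, 109]) (.node ([0, 35], [13, 22],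 [1, 26]) .nil .nil) .nil) (.node ([0, 20], [27, 86], [30, 90]) (.node ([22, 64], [1, 43, 61], [50, 99]) .nil .nil) .nil))) (.node ([73, 85], [5, 8], [39, 126]) (.node ([2, 31], [81], [23, 95])
  (.node ([3, 16], [29, 127], [76, 100]) (.node ([0, 21, 44], [25, 86], [30, 94]) .nil .nil) .nil) (.node ([103, 110], [0, 17], [101, 113]) (.node ([0, 37], [58], [22, 101]) .nil .nil) .nil)) (.node ([67, 104], [8], [11, 120]) (.node ([3, 38], [16, 19], [7, 29]) (.node ([13, 42, 86], [44, 99], [64, 94]) .nil .nil) .nil) (.node ([2, 32, 49], [46, 75], [51, 93]) (.node ([20, 41, 47], [22, 36], [40, 53]) .nil .nil) .nil)))))))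

def RR_bbaa : RT :=
  (.node ([15], [], [17, 48]) (.node ([6, 14], [8, 10], [7, 11]) (.node ([18, 83], [0, 17], [4, 64]) (.node ([63], [10], [11, 48]) (.node ([], [37], [36, 42]) (.node ([17, 37], [9], [15, 39]) (.node ([18, 33], [8, 45], [11, 40]) (.node ([47, 93], [35, 48, 103], [49, 100]) .nil .nil) (.node ([1, 57], [22], [41, 99]) .nil .nil)) (.node ([91], [30, 66], [17, 54]) (.node ([2, 46, 47], [13, 51], [26, 63]) .nil .nil) .nil)) (.node ([0, 17, 27, 33], [18, 30, 103], [4, 113]) (.node ([2, 68, 76], [0, 17, 64], [78, 127]) (.node ([32, 33, 46], [41, 77], [55, 93]) .nil .nil) .nil) (.node ([0, 28], [29, 101], [3, 58]) (.node ([21, 90], [27, 122], [36, 125]) .nil .nil) .nil))) (.node ([64], [127], [2, 66]) (.node ([102], [42], [10, 21]) (.node ([70], [1, 15], [6, 88]) (.node ([41, 48], [57, 65], [53, 69]) .nil .nil) .nil) (.node ([2, 18, 35], [0, 6, 45], [13, 95]) (.node ([20, 41, 77], [32, 33], [55, 85]) .nil .nil) .nil)) (.node ([69], [7, 42], [48, 73])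 (.node ([17, 34, 36], [9, 33], [39, 74]) (.node ([26, 113], [0], [60, 78]) .nil .nil) .nil) (.node ([30, 64], [0, 17, 61], [83, 86]) (.node ([29, 35, 66], [16, 22], [38, 106]) .nil .nil) .nil)))) (.node ([27], [75], [14, 32]) (.node ([10, 75], [23, 63], [2, 114]) (.node ([8, 10, 45], [6, 18], [11, 72]) (.node ([23], [75, 118], [77, 114]) (.node ([88], [1, 19, 42], [37, 99]) .nil .nil) .nil) (.node ([20, 67], [33], [8, 55]) (.node ([122], [1, 21], [36, 94]) .nil .nil) .nil)) (.node ([51], [48], [23, 49]) (.node ([52, 97], [83], [30, 117]) (.node ([116], [60], [48, 113]) .nil .nil) .nil) (.node ([0, 43], [16, 26], [13, 29]) (.node ([92, 107], [90], [53, 128]) .nil .nil) .nil))) (.node ([30, 101], [5], [28, 97]) (.node ([62], [], [27, 34]) (.node ([5, 48], [32, 101], [28, 93]) (.node ([44], [12, 21, 96], [94, 98]) .nil .nil) .nil) (.node ([84, 94], [25], [12, 125]) (.node ([26], [35, 52], [43, 56]) .nil .nil) .nil)) (.node ([66], [0, 7, 39], [1, 91]) (.node ([1, 14,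 20], [18, 36], [8, 90]) (.node ([30, 60, 68], [0, 33], [56, 113]) .nil .nil) .nil) (.node ([61], [9, 57, 104], [102, 120]) (.node ([48, 122], [22], [49, 88]) .nil .nil) .nil))))) (.node ([73], [17], [10, 39]) (.node ([3, 42], [15, 23], [10, 28]) (.node ([11, 20], [4, 33], [8, 24]) (.node ([19], [87], [7, 32]) (.node ([23, 44], [25], [24, 42]) (.node ([6, 40], [1, 33], [8, 35]) .nil .nil) (.node ([41, 59], [22], [40, 57]) .nil .nil)) (.node ([30, 37], [5, 19, 39], [21, 91]) (.node ([32, 49], [46, 53], [41, 51]) .nil .nil) .nil)) (.node ([4, 61], [17, 20, 23], [30, 104]) (.node ([0, 23, 47], [3, 31, 43], [29, 81]) (.node ([48], [88], [15, 22]) .nil .nil) .nil) (.node ([0, 23, 48], [3, 32, 43], [29, 79]) (.node ([125], [22, 24], [51, 86]) .nil .nil) .nil))) (.node ([5, 14, 20], [17, 27], [4, 92]) (.node ([0, 6, 42], [2, 70], [13, 101]) (.node ([101], [17, 28, 70], [15, 110]) (.node ([53, 63, 98], [], [109, 112]) .nil .nil) .nil) (.node ([0, 24], [4, 32, 45], [31, 77])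 (.node ([0, 6, 41], [35], [1, 93]) .nil .nil) .nil)) (.node ([41, 126], [], [69, 85]) (.node ([32, 117], [0, 42], [52, 93]) (.node ([19, 86], [21, 90], [20, 88]) .nil .nil) .nil) (.node ([18, 56], [0, 33], [31, 68]) (.node ([22, 25], [0, 21, 46], [32, 94]) .nil .nil) .nil)))) (.node ([79], [5, 48], [42, 75]) (.node ([16, 17, 101], [3, 6], [15, 127]) (.node ([2, 18], [13, 14, 24], [11, 82]) (.node ([9, 42], [12, 21], [34, 102]) (.node ([0, 17, 19, 39], [30, 66], [86, 91]) .nil .nil) .nil) (.node ([6, 45], [1, 11, 46], [13, 67]) (.node ([29, 36], [22, 27], [19, 60]) .nil .nil) .nil)) (.node ([39, 83], [30, 44], [61, 97]) (.node ([79], [10, 57], [23, 69]) (.node ([26, 28], [0, 25, 48], [32, 80]) .nil .nil) .nil) (.node ([0], [106], [29, 68]) (.node ([26, 49], [46, 47], [35, 51]) .nil .nil) .nil))) (.node ([7, 9], [8, 69], [65, 73]) (.node ([68, 103], [17, 71], [6, 113]) (.node ([19, 64], [76], [23, 66]) (.node ([20, 45], [96], [18, 55]) .nil .nil) .nil) (.node ([70],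 [35], [48, 68]) (.node ([88], [22], [48, 86]) .nil .nil) .nil)) (.node ([19, 39, 83], [30], [61, 91]) (.node
  ([15, 21, 36], [9, 19], [37, 92]) (.node ([19, 32], [20, 57, 75], [53, 123]) .nil .nil) .nil) (.node ([30], [62, 78], [25, 113]) (.node ([31, 50], [0, 40, 61], [22, 111]) .nil .nil) .nil)))))) (.node ([2], [11, 23], [10, 24]) (.node ([0, 17, 42], [83], [5, 64]) (.node ([13, 15], [10], [12, 16]) (.node ([7, 39, 83], [17], [73, 91]) (.node ([89], [0, 36], [4, 38]) (.node ([9, 63], [12, 49], [6, 109]) (.node ([1], [41, 72], [40, 69]) .nil .nil) (.node ([21, 46, 99], [22, 42], [57, 94]) .nil .nil)) (.node ([64], [7, 50, 83], [73, 115]) (.node ([32, 60], [29, 56], [31, 58]) .nil .nil) .nil)) (.node ([2], [117], [43, 97]) (.node ([24, 90], [0, 20], [27, 96]) (.node ([1, 42], [13, 34, 88], [70, 94]) .nil .nil) .nil) (.node ([19], [15, 21, 90], [88, 92]) (.node ([22, 23], [19, 52], [29, 61]) .nil .nil) .nil))) (.node ([2, 64], [0, 10, 44], [13, 83]) (.node ([12],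 [25, 74], [34, 84]) (.node ([0, 19], [23, 90], [27, 99]) (.node ([43, 87], [41, 47, 79], [48, 105]) .nil .nil) .nil) (.node ([23], [57, 77, 104], [118, 123]) (.node ([46, 99], [43], [13, 57]) .nil .nil) .nil)) (.node ([8, 61], [17, 20], [39, 104]) (.node ([28, 113], [0, 62], [30, 116]) (.node ([26, 47], [31, 43], [29, 45]) .nil .nil) .nil) (.node ([0, 23, 45], [2, 31, 43], [26, 81]) (.node ([1, 53], [49, 90], [36, 107]) .nil .nil) .nil)))) (.node ([5, 103], [4, 93], [75, 97]) (.node ([84], [2], [14, 25]) (.node ([13, 24], [0, 11], [2, 96]) (.node ([2, 32, 33], [77], [24, 93]) (.node ([1, 18, 19], [16, 36, 86], [66, 90]) .nil .nil) .nil) (.node ([44, 102], [12, 21], [42, 98]) (.node ([29, 37], [19, 48], [28, 38]) .nil .nil) .nil)) (.node ([75], [2, 27, 49], [51, 103]) (.node ([57, 75, 104], [19, 23], [114, 123]) (.node ([29, 35, 101], [0, 48], [58, 100]) .nil .nil) .nil) (.node ([26, 76], [0, 23], [29, 78]) (.node ([35, 36], [33, 41, 47], [40, 49]) .nil .nil) .nil)))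 (.node ([81, 93], [0, 2], [79, 95]) (.node ([6, 47], [71], [14, 35]) (.node ([16, 78], [13, 18, 23], [64, 82]) (.node ([18, 26, 44], [13, 24], [45, 78]) .nil .nil) .nil) (.node ([99], [13, 88], [16, 94]) (.node ([43], [45, 57], [46, 59]) .nil .nil) .nil)) (.node ([43], [115], [3, 50]) (.node ([19], [75, 120], [65, 123]) (.node ([35], [50], [38, 44]) .nil .nil) .nil) (.node ([32, 39, 83], [5, 61], [30, 108]) (.node ([41, 43], [1, 57], [22, 69]) .nil .nil) .nil))))) (.node ([14, 48], [7, 75], [3, 65]) (.node ([0, 17, 103], [3, 18, 97], [4, 127]) (.node ([12, 33], [6, 44], [11, 34]) (.node ([5], [4, 108], [83, 85]) (.node ([68], [18, 44], [33, 64]) (.node ([5, 20], [4, 32, 39], [30, 85]) .nil .nil) .nil) (.node ([50, 83], [0, 42, 73], [64, 108]) (.node ([33, 86], [18, 39], [20, 68]) .nil .nil) .nil)) (.node ([14, 48], [114], [19, 63]) (.node ([0, 30], [124], [3, 56]) (.node ([13, 48], [26, 70], [35, 80]) .nil .nil) .nil) (.node ([90], [16, 86], [18, 88]) (.node ([31,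 50, 83], [0, 61], [52, 111]) .nil .nil) .nil))) (.node ([32, 83], [5, 23], [30, 79]) (.node ([43], [48], [42, 47]) (.node ([5, 19], [15, 21, 27], [28, 92]) (.node ([0, 49], [107], [1, 51]) .nil .nil) .nil) (.node ([1, 114], [47], [65, 99]) (.node ([24, 90, 94], [0, 86], [96, 125]) .nil .nil) .nil)) (.node ([28, 36], [19], [27, 37]) (.node ([8, 47, 69], [1, 7], [65, 72]) (.node ([24, 26], [25, 82], [51, 78]) .nil .nil) .nil) (.node ([39, 117], [44], [50, 97]) (.node ([20, 22, 44], [21, 96], [55, 86]) .nil .nil) .nil)))) (.node ([4, 39], [5, 8], [17, 85]) (.node ([28, 103], [3], [27, 101]) (.node ([24], [77], [11, 32]) (.node ([2, 34, 71], [13, 74], [6, 119]) (.node ([0, 36], [31, 121], [54, 95]) .nil .nil) .nil) (.node ([25, 33], [30, 34], [44, 62]) (.node ([0], [54, 97, 100], [121, 124]) .nil .nil) .nil)) (.node ([46], [69, 77], [67, 79]) (.node ([0, 25], [28, 78], [30, 80]) (.node ([1, 34], [37, 68], [39, 70]) .nil .nil) .nil) (.node ([29], [3, 38], [19, 100]) (.node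 ([22, 30, 33], [31, 39], [20, 56]) .nil .nil) .nil))) (.node ([17, 33], [4, 6, 39], [8, 97]) (.node ([0, 17, 24], [2, 18, 30], [4, 78]) (.node ([47, 103], [27, 71], [14, 60]) (.node ([44,
  96], [11, 55], [45, 98]) .nil .nil) .nil) (.node ([28, 78], [42, 76], [23, 110]) (.node ([21, 99], [19, 42, 86], [61, 88]) .nil .nil) .nil)) (.node ([79, 85], [0, 108], [5, 105]) (.node ([87], [38, 42, 91], [37, 115]) (.node ([90], [53, 96], [20, 107]) .nil .nil) .nil) (.node ([62, 71], [49, 103], [60, 74]) (.node ([0, 41, 61], [32, 50], [22, 108]) .nil .nil) .nil)))))))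

def RR_bbab : RT :=
  (.node ([17, 103], [4, 6], [14, 97]) (.node ([3, 17], [7, 83], [10, 91]) (.node ([83], [17, 23], [10, 30]) (.node ([14, 24], [4], [11, 27]) (.node ([17, 19], [91], [7, 30]) (.node ([16, 17], [3, 6, 66], [7, 127]) (.node ([44], [98], [11, 21]) (.node ([6, 46, 47], [13, 49], [35, 63]) .nil .nil) (.node ([29, 37, 56], [22, 32], [54, 58]) .nil .nil)) (.node ([66], [121], [6, 54]) (.node ([2, 49], [119], [26, 74]) .nil .nil) .nil)) (.node ([127], [97, 100], [6, 124]) (.node ([47], [59], [19, 45]) (.node ([55], [57, 67], [41, 118]) .nil .nil) .nil) (.node ([17, 19, 21], [20, 102], [61, 92]) (.node ([35, 48], [41, 43], [38, 46]) .nil .nil) .nil))) (.node ([18, 23], [81], [10, 31]) (.node ([13, 15, 34], [6, 42], [12, 70]) (.node ([80], [16, 42], [23, 70]) (.node ([41, 47], [38], [40, 48]) .nil .nil) .nil) (.node ([0, 6, 39], [68], [1, 97]) (.node ([14, 107], [13, 90], [47, 128]) .nil .nil) .nil)) (.node ([47], [19, 72], [7, 59]) (.node ([0, 62], [32,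 103], [5, 60]) (.node ([86], [18, 61], [20, 64]) .nil .nil) .nil) (.node ([82, 86], [24, 90], [18, 125]) (.node ([0, 39], [56, 66], [54, 68]) .nil .nil) .nil)))) (.node ([4], [2, 27, 33], [24, 103]) (.node ([15], [14, 102], [10, 92]) (.node ([10], [63, 102], [12, 114]) (.node ([75], [23, 112], [24, 114]) (.node ([37, 76], [19], [28, 66]) .nil .nil) .nil) (.node ([39, 93], [44, 85], [33, 108]) (.node ([41, 42], [9, 57], [21, 69]) .nil .nil) .nil)) (.node ([6, 36, 75], [14, 49], [65, 103]) (.node ([40, 81], [47, 95], [45, 89]) (.node ([0], [58, 103], [60, 101]) .nil .nil) .nil) (.node ([90], [20, 99], [19, 96]) (.node ([32, 43, 44], [26, 42], [46, 52]) .nil .nil) .nil))) (.node ([44, 79], [2, 42], [46, 83]) (.node ([2, 5, 48], [3, 42, 93], [79, 101]) (.node ([0, 2, 48], [3, 43, 93], [79, 100]) (.node ([96], [45], [11, 22]) .nil .nil) .nil) (.node ([34, 80], [13, 25], [42, 119]) (.node ([35], [40, 93], [41, 95]) .nil .nil) .nil)) (.node ([111], [0, 39], [4, 50]) (.node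 ([], [61, 72], [59, 73]) (.node ([1, 17, 61], [39, 64], [73, 86]) .nil .nil) .nil) (.node ([5, 53], [21, 27], [32, 92]) (.node ([47, 57], [22, 48], [43, 53]) .nil .nil) .nil))))) (.node ([14, 19], [3, 36], [7, 27]) (.node ([3, 6, 18], [16, 17, 103], [14, 127]) (.node ([12, 33], [9, 11], [6, 98]) (.node ([6, 36, 48], [65], [7, 49]) (.node ([12, 49], [6, 46], [34, 63]) (.node ([1, 47], [7, 40, 43], [38, 72]) .nil .nil) (.node ([21, 49, 90], [22, 36], [53, 122]) .nil .nil)) (.node ([19, 79, 85], [32, 75], [87, 123]) (.node ([21, 36], [20, 41], [39, 53]) .nil .nil) .nil)) (.node ([19, 30], [20, 23], [27, 61]) (.node ([31, 103], [0, 27, 33], [4, 60]) (.node ([25, 82, 88], [0, 23], [80, 125]) .nil .nil) .nil) (.node ([30], [110], [34, 76]) (.node ([62, 71, 86], [0, 33, 36], [113, 122]) .nil .nil) .nil))) (.node ([2, 27], [24, 75], [4, 51]) (.node ([15, 27, 71], [16, 103], [14, 116]) (.node ([37, 127], [], [66, 101]) (.node ([44, 99], [94], [42, 96]) .nil .nil) .nil) (.node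 ([32, 33], [85], [20, 93]) (.node ([122], [86], [33, 88]) .nil .nil) .nil)) (.node ([9, 19], [37], [7, 21]) (.node ([48, 93], [41, 79], [46, 87]) (.node ([59, 79], [23, 43], [57, 81]) .nil .nil) .nil) (.node ([56, 127], [0, 68], [97, 106]) (.node ([22, 33], [122], [49, 86]) .nil .nil) .nil)))) (.node ([7], [10, 65], [14, 69]) (.node ([2, 28], [3, 42], [23, 101]) (.node ([11, 102], [44, 104], [17, 118]) (.node ([13, 42], [12, 99], [10, 94]) (.node ([0, 19, 47], [3, 31, 38], [29, 89]) .nil .nil) .nil) (.node ([24, 109], [5], [51, 98]) (.node ([29, 30], [3, 54], [19, 124]) .nil .nil) .nil)) (.node ([49], [65], [6, 53]) (.node ([14, 51], [82], [47, 84]) (.node ([25, 27, 122], [0, 21], [62, 125]) .nil .nil) .nil) (.node ([68], [66, 97], [39, 127]) (.node ([18, 22, 39], [1, 20], [40, 86]) .nil .nil) .nil))) (.node ([72], [18], [10, 40]) (.node ([64, 100], [2, 16], [43, 127]) (.node ([0, 43], [29, 64], [16, 52]) (.node ([31, 44], [56], [33, 52]) .nil .nil) .nil) (.node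 ([0, 19, 42], [23, 88], [28, 99]) (.node ([0, 48], [26, 116], [60, 80]) .nil .nil) .nil)) (.node ([7,
  41, 75], [36, 48], [65, 87]) (.node ([1, 15, 19], [16, 37], [7, 88]) (.node ([61], [42, 86], [21, 64]) .nil .nil) .nil) (.node ([13, 14, 51], [2, 47], [63, 82]) (.node ([0, 46, 47], [13, 22, 51], [26, 107]) .nil .nil) .nil)))))) (.node ([0, 10], [2, 16], [3, 13]) (.node ([0, 9], [], [1, 5]) (.node ([12, 14, 48], [10], [15, 63]) (.node ([7, 79], [10, 48], [3, 69]) (.node ([73, 81], [10], [72, 83]) (.node ([6, 44], [13, 17, 34], [12, 68]) (.node ([21, 33], [39], [20, 34]) .nil .nil) (.node ([32, 35, 39], [22, 34], [41, 56]) .nil .nil)) (.node ([7, 105], [47], [72, 87]) (.node ([0, 61], [32, 111], [31, 108]) .nil .nil) .nil)) (.node ([95], [4, 45], [33, 81]) (.node ([23, 31], [29, 30], [27, 52]) (.node ([], [74, 125], [84, 122]) .nil .nil) .nil) (.node ([0, 21, 23], [25, 27, 88], [28, 125]) (.node ([40, 61, 81], [31], [59, 111]) .nil .nil) .nil))) (.node ([81], [3,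 95], [2, 89]) (.node ([15, 82], [14, 23], [16, 84]) (.node ([0, 14, 36], [27, 71], [90, 103]) (.node ([33, 46, 65], [6, 41], [49, 67]) .nil .nil) .nil) (.node ([24, 44], [5, 11, 55], [77, 98]) (.node ([0, 46], [26], [13, 32]) .nil .nil) .nil)) (.node ([33, 75], [85], [36, 77]) (.node ([9, 44], [6, 39, 42], [34, 73]) (.node ([66, 124], [0], [54, 127]) .nil .nil) .nil) (.node ([33], [34, 113], [62, 68]) (.node ([13, 22, 44], [46, 96], [45, 94]) .nil .nil) .nil)))) (.node ([2, 5], [3, 42, 97], [83, 101]) (.node ([2, 71], [0, 6], [13, 103]) (.node ([17, 34], [12, 33], [44, 74]) (.node ([33, 46], [67], [6, 55]) (.node ([38, 64], [0, 7, 50], [1, 115]) .nil .nil) .nil) (.node ([5, 49], [109], [9, 51]) (.node ([1, 19, 47], [16, 22, 36], [38, 90]) .nil .nil) .nil)) (.node ([0, 6, 34], [68, 101], [70, 97]) (.node ([20, 23, 75], [4, 19, 32], [27, 123]) (.node ([5, 57], [21, 23], [32, 102]) .nil .nil) .nil) (.node ([27, 71], [18, 60], [47, 113]) (.node ([41, 61], [21], [39,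 57]) .nil .nil) .nil))) (.node ([93], [77], [33, 79]) (.node ([18, 23], [76], [27, 64]) (.node ([13], [2, 35], [6, 26]) (.node ([78], [25, 33, 82], [24, 119]) .nil .nil) .nil) (.node ([82, 88], [23, 90], [16, 125]) (.node ([1, 11, 55], [33, 45], [67, 96]) .nil .nil) .nil)) (.node ([47, 79], [81, 87], [3, 105]) (.node ([108], [5, 41], [42, 85]) (.node ([105], [59], [32, 72]) .nil .nil) .nil) (.node ([20, 32], [24, 53], [27, 55]) (.node ([22, 52], [29, 56], [26, 54]) .nil .nil) .nil))))) (.node ([6, 17], [8, 10, 44], [11, 73]) (.node ([17, 19], [104], [14, 61]) (.node ([2, 18], [4, 10, 45], [11, 81]) (.node ([5, 87], [79, 85], [75, 108]) (.node ([99], [114], [47, 102]) (.node ([9, 61], [17, 21], [39, 102]) .nil .nil) .nil) (.node ([1, 48], [47, 69], [43, 65]) (.node ([20], [8, 41, 123], [85, 120]) .nil .nil) .nil)) (.node ([2, 27], [5, 14, 51], [75, 84]) (.node ([31, 100], [0, 47], [29, 95]) (.node ([48, 90], [19, 47], [16, 53]) .nil .nil) .nil) (.node ([1], [35],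 [6, 22]) (.node ([0, 20, 57], [32, 59], [22, 123]) .nil .nil) .nil))) (.node ([49], [], [33, 48]) (.node ([19, 42], [28], [23, 37]) (.node ([0, 21, 84], [25, 27], [5, 125]) (.node ([44], [34, 78], [25, 68]) .nil .nil) .nil) (.node ([74, 90], [71], [14, 122]) (.node ([49, 82], [26, 71], [47, 119]) .nil .nil) .nil)) (.node ([0, 7, 47], [3, 18, 38], [16, 89]) (.node ([9], [8, 61, 69], [73, 120]) (.node ([18, 30, 36], [27, 33, 86], [20, 113]) .nil .nil) .nil) (.node ([0, 2], [52, 97, 100], [117, 124]) (.node ([45, 57], [55, 99], [22, 118]) .nil .nil) .nil)))) (.node ([7], [1, 15], [9, 16]) (.node ([16, 17, 23], [3, 64], [10, 76]) (.node ([44, 79], [5, 46], [42, 77]) (.node ([0, 25, 74], [2, 62], [5, 119]) (.node ([0, 37], [54], [32, 66]) .nil .nil) .nil) (.node ([13, 24], [78], [44, 82]) (.node ([8, 41, 45], [1, 33], [40, 67]) .nil .nil) .nil)) (.node ([9, 33], [6, 39], [8, 34]) (.node ([53, 63], [114], [48, 112]) (.node ([22, 71], [1, 47], [35, 90]) .nil .nil) .nil)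 (.node ([99], [59], [18, 57]) (.node ([40, 43, 87], [0, 41, 47], [38, 105]) .nil .nil) .nil))) (.node ([44, 126], [5, 6], [73, 77]) (.node ([31, 83], [0, 30], [4, 52]) (.node ([16, 68], [35,
  127], [6, 106]) (.node ([55, 75], [24, 53], [32, 112]) .nil .nil) .nil) (.node ([0], [16, 110], [70, 76]) (.node ([58, 68, 76], [0], [106, 110]) .nil .nil) .nil)) (.node ([], [9, 114], [65, 102]) (.node ([38, 64], [1, 43], [16, 50]) (.node ([23, 32, 47], [26, 27, 48], [29, 51]) .nil .nil) .nil) (.node ([56], [32, 33], [31, 34]) (.node ([22, 39], [40, 61], [20, 50]) .nil .nil) .nil)))))))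

def RR_bbba : RT :=
  (.node ([14, 23], [3], [10, 27]) (.node ([3], [10, 19], [7, 23]) (.node ([4, 10, 19], [14, 23], [3, 104]) (.node ([11], [18, 44], [17, 45]) (.node ([18, 91], [4, 7], [17, 89]) (.node ([7], [16, 17, 37], [15, 66]) (.node ([0, 6], [45, 126], [72, 77]) (.node ([42, 93], [41, 44, 79], [46, 108]) .nil .nil) (.node ([29, 35, 37], [22, 48], [38, 58]) .nil .nil)) (.node ([115], [19, 64], [7, 52]) (.node ([30, 34, 36], [21, 33], [39, 62]) .nil .nil) .nil)) (.node ([31, 103], [4, 47], [27, 95]) (.node ([17, 99], [10, 18, 61], [64, 104]) (.node ([45, 69], [6, 43], [46, 72]) .nil .nil) .nil) (.node ([0, 17, 42], [2, 110], [78, 101]) (.node ([30, 37], [28, 34, 86], [21, 110]) .nil .nil) .nil))) (.node ([0, 14, 24], [2, 18, 27], [4, 82]) (.node ([12, 14, 99], [13, 15], [10, 128]) (.node ([17, 80], [2], [15, 78]) (.node ([1, 37], [38, 39], [41, 66]) .nil .nil) .nil) (.node ([11, 20, 47], [14, 96], [18, 112]) (.node ([9, 46], [12, 21, 49], [34, 109]) .nil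 .nil) .nil)) (.node ([6, 18, 36], [1, 14, 33], [8, 71]) (.node ([49], [36, 93], [41, 103]) (.node ([16, 26], [29, 35, 64], [43, 106]) .nil .nil) .nil) (.node ([0, 23], [4, 59, 79], [81, 123]) (.node ([22, 43], [38, 52], [29, 50]) .nil .nil) .nil)))) (.node ([14, 33], [4, 6, 36], [8, 103]) (.node ([0, 63], [2, 47], [13, 75]) (.node ([1, 102], [], [9, 99]) (.node ([24], [5, 112], [75, 98]) (.node ([0, 36, 70], [71, 88], [1, 116]) .nil .nil) .nil) (.node ([40, 44], [33], [39, 45]) (.node ([7, 41, 43], [1, 48], [38, 69]) .nil .nil) .nil)) (.node ([0, 30, 42], [32, 83], [5, 52]) (.node ([6, 40, 81], [18, 45], [72, 95]) (.node ([28, 70, 113], [0], [110, 116]) .nil .nil) .nil) (.node ([13], [26, 68], [35, 78]) (.node ([22, 51], [32, 47], [26, 53]) .nil .nil) .nil))) (.node ([5, 48, 103], [3, 93], [75, 101]) (.node ([5, 6, 37], [15, 34], [9, 101]) (.node ([2, 34, 48], [42, 93], [46, 101]) (.node ([86], [96], [44, 90]) .nil .nil) .nil) (.node ([2], [15, 119], [74, 80]) (.node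 ([0, 20, 45], [18, 22, 24], [31, 96]) .nil .nil) .nil)) (.node ([38, 91], [89], [36, 115]) (.node ([1, 17], [7, 39, 64], [66, 73]) (.node ([29, 56, 103], [0, 31], [60, 124]) .nil .nil) .nil) (.node ([23, 59], [0, 57, 104], [99, 123]) (.node ([19, 22], [53, 99], [57, 90]) .nil .nil) .nil))))) (.node ([9, 10], [6, 15], [7, 12]) (.node ([15], [101], [6, 28]) (.node ([6], [1, 12], [9, 13]) (.node ([17, 37], [5, 7, 39], [9, 91]) (.node ([], [33, 51], [24, 49]) (.node ([1], [7, 50], [38, 73]) .nil .nil) (.node ([41, 43, 61], [22, 42], [50, 57]) .nil .nil)) (.node ([32, 36], [19, 85], [20, 87]) (.node ([1, 42], [41, 43, 73], [50, 69]) .nil .nil) .nil)) (.node ([123], [5, 19], [61, 75]) (.node ([113], [27, 33], [18, 62]) (.node ([1], [34, 71, 88], [70, 122]) .nil .nil) .nil) (.node ([27, 119], [0], [62, 82]) (.node ([52], [22, 23, 44], [26, 61]) .nil .nil) .nil))) (.node ([4, 19, 79], [23, 75], [3, 123]) (.node ([0, 15, 23], [2, 16, 28], [3, 80]) (.node ([0, 17, 28], [76,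 101], [3, 110]) (.node ([17, 94], [12, 96], [44, 128]) .nil .nil) .nil) (.node ([20, 77], [4, 32, 33], [24, 85]) (.node ([18, 22], [47, 96], [45, 90]) .nil .nil) .nil)) (.node ([1, 74], [6, 36], [9, 71]) (.node ([13, 14, 49], [6, 47], [63, 71]) (.node ([29, 30], [19, 52], [23, 54]) .nil .nil) .nil) (.node ([31, 35, 97], [0, 33], [56, 95]) (.node ([22], [107], [46, 90]) .nil .nil) .nil)))) (.node ([73], [9], [8, 42]) (.node ([0, 84], [2, 27], [5, 82]) (.node ([104], [17, 99], [18, 102]) (.node ([17, 99], [128], [15, 96]) (.node ([31], [54], [36, 52]) .nil .nil) .nil) (.node ([6, 46], [13, 34], [12, 35]) (.node ([31, 38], [29, 36], [47, 54]) .nil .nil) .nil)) (.node ([93], [117], [42, 95]) (.node ([21, 24], [30], [20, 25]) (.node ([62, 71], [122], [36, 119]) .nil .nil) .nil) (.node ([0, 3], [29, 30, 127], [76, 124]) (.node ([41, 61], [9, 20, 57], [21, 120]) .nil .nil) .nil))) (.node ([8], [18, 39], [17, 40]) (.node ([16], [100], [6, 29]) (.node ([16, 27], [18, 29],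 [47, 76]) (.node ([26, 27, 33], [31], [24, 60]) .nil .nil) .nil) (.node ([28, 70], [80], [42, 116]) (.node
  ([0, 48], [22, 80], [26, 88]) .nil .nil) .nil)) (.node ([37], [39, 87], [41, 91]) (.node ([9, 48], [7, 41, 42], [37, 69]) (.node ([0, 21], [22, 30], [32, 86]) .nil .nil) .nil) (.node ([42], [44, 57], [46, 61]) (.node ([22, 23, 42], [32, 43, 61], [52, 57]) .nil .nil) .nil)))))) (.node ([5, 11], [4, 44], [17, 77]) (.node ([4, 79], [3, 5], [75, 83]) (.node ([2, 74], [12, 14], [6, 84]) (.node ([5], [42, 91], [37, 83]) (.node ([4, 47], [89], [36, 81]) (.node ([1], [96], [33, 99]) (.node ([21, 36], [19, 39], [20, 37]) .nil .nil) (.node ([22, 46], [41, 43], [35, 57]) .nil .nil)) (.node ([], [39, 115], [50, 91]) (.node ([0, 32], [29, 56, 101], [58, 124]) .nil .nil) .nil)) (.node ([0, 2], [43, 83, 95], [81, 117]) (.node ([18, 23, 30], [27, 78], [24, 76]) (.node ([13, 25, 88], [0, 42], [80, 94]) .nil .nil) .nil) (.node ([15, 125], [23], [84, 88]) (.node ([0, 66], [22,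 68, 76], [86, 106]) .nil .nil) .nil))) (.node ([0, 10], [18, 43, 83], [64, 81]) (.node ([71], [1], [13, 36]) (.node ([0, 23], [27, 80], [28, 82]) (.node ([20, 67], [8, 41], [33, 120]) .nil .nil) .nil) (.node ([20], [14, 53, 98], [92, 112]) (.node ([0, 44], [13, 25, 86], [78, 94]) .nil .nil) .nil)) (.node ([19, 39], [20], [36, 61]) (.node ([124], [0, 101], [32, 127]) (.node ([60], [106], [18, 58]) .nil .nil) .nil) (.node ([31], [36, 124], [54, 103]) (.node ([46, 53, 102], [21, 48], [57, 109]) .nil .nil) .nil)))) (.node ([5, 10, 44], [2, 17, 42], [12, 83]) (.node ([], [48, 74], [15, 49]) (.node ([0, 98], [24], [5, 96]) (.node ([5, 44], [2, 30, 34], [25, 97]) (.node ([71, 86], [0, 36, 68], [1, 113]) .nil .nil) .nil) (.node ([12, 49, 92], [9], [74, 109]) (.node ([0, 19, 48], [3, 32, 38], [29, 87]) .nil .nil) .nil)) (.node ([47, 103], [0, 14, 49], [71, 75]) (.node ([27], [5, 14, 53], [75, 92]) (.node ([2, 35, 48], [43, 93], [46, 100]) .nil .nil) .nil) (.node ([29, 64],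 [26, 76], [23, 106]) (.node ([26, 34, 71], [13, 49], [35, 119]) .nil .nil) .nil))) (.node ([10, 46], [6, 79], [2, 69]) (.node ([14, 99], [10, 18, 19], [16, 104]) (.node ([64], [78], [23, 68]) (.node ([119], [78], [33, 80]) .nil .nil) .nil) (.node ([1, 16], [71, 88], [70, 90]) (.node ([35, 39], [1, 34], [41, 68]) .nil .nil) .nil)) (.node ([81], [72, 79], [10, 105]) (.node ([8, 123], [85], [20, 126]) (.node ([52, 121], [0], [54, 117]) .nil .nil) .nil) (.node ([57, 75], [32, 48], [53, 79]) (.node ([20, 47, 57], [19, 22], [53, 59]) .nil .nil) .nil))))) (.node ([104], [14], [11, 19]) (.node ([0, 10], [81], [18, 79]) (.node ([6, 18], [13, 14, 33], [11, 71]) (.node ([69], [6, 48], [7, 46]) (.node ([14, 99], [47, 104], [18, 114]) (.node ([40, 108], [0, 39, 41], [50, 85]) .nil .nil) .nil) (.node ([69], [43, 73], [42, 72]) (.node ([20], [40, 61], [39, 59]) .nil .nil) .nil)) (.node ([17, 27], [24, 92], [20, 84]) (.node ([124], [2, 31], [52, 103]) (.node ([42, 88], [28, 70],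 [37, 80]) .nil .nil) .nil) (.node ([1, 64], [13, 86], [68, 99]) (.node ([50, 95], [35], [40, 117]) .nil .nil) .nil))) (.node ([4, 36], [27, 33], [20, 103]) (.node ([14, 48, 102], [10, 19], [15, 114]) (.node ([84, 90], [0, 92], [27, 128]) (.node ([0, 44], [24, 94], [25, 96]) .nil .nil) .nil) (.node ([48, 128], [99], [15, 107]) (.node ([24, 46, 47], [26], [45, 51]) .nil .nil) .nil)) (.node ([1, 10, 47], [7, 18, 43], [16, 72]) (.node ([120], [9, 19], [61, 65]) (.node ([52], [26, 30], [23, 56]) .nil .nil) .nil) (.node ([93, 111], [0, 44], [95, 108]) (.node ([22], [47, 55], [45, 53]) .nil .nil) .nil)))) (.node ([0, 73], [126], [5, 72]) (.node ([17, 71], [6, 18], [14, 68]) (.node ([20], [27, 33], [24, 36]) (.node ([21, 84], [5], [25, 92]) (.node ([40, 81, 108], [0], [105, 111]) .nil .nil) .nil) (.node ([1, 18], [13, 33, 90], [71, 96]) (.node ([1, 49], [6, 41, 47], [35, 65]) .nil .nil) .nil)) (.node ([9, 104], [8, 61], [17, 120]) (.node ([0, 42], [52], [32, 64]) (.node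 ([90], [18, 22], [47, 86]) .nil .nil) .nil) (.node ([52, 100], [2, 29], [43, 124]) (.node ([22, 70], [0, 35, 37], [1, 58]) .nil .nil) .nil))) (.node ([85], [0, 39], [5, 40]) (.node ([3, 31], [4,
  23, 47], [27, 81]) (.node ([29, 103], [3, 47], [27, 100]) (.node ([21, 24], [20, 32, 44], [30, 55]) .nil .nil) .nil) (.node ([0, 68], [70, 113], [71, 110]) (.node ([0, 36], [62, 71, 88], [116, 122]) .nil .nil) .nil)) (.node ([69], [46, 65], [48, 67]) (.node ([1, 17, 19], [66], [7, 86]) (.node ([32], [22, 25], [21, 26]) .nil .nil) .nil) (.node ([27, 32, 33], [30, 60], [31, 62]) (.node ([22, 39], [20, 41], [21, 40]) .nil .nil) .nil)))))))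

def RR_bbbb : RT :=
  (.node ([83], [5, 10], [17, 79]) (.node ([2], [0, 12], [5, 13]) (.node ([3, 97], [2, 4], [83, 103]) (.node ([77], [2], [4, 46]) (.node ([4, 87], [3, 5, 36], [75, 91]) (.node ([7], [66], [17, 38]) (.node ([10, 44], [11, 46, 102], [12, 118]) (.node ([1, 17, 34], [6, 39], [9, 68]) .nil .nil) (.node ([20, 41, 45], [22, 33], [40, 55]) .nil .nil)) (.node ([36, 95], [4, 40], [33, 89]) (.node ([32, 35, 103], [0, 49], [60, 93]) .nil .nil) .nil)) (.node ([0, 17, 44], [64, 97], [68, 83]) (.node ([61, 81], [23], [59, 83]) (.node ([122], [1], [34, 90]) .nil .nil) .nil) (.node ([61], [21], [20, 42]) (.node ([20, 47, 99], [18, 19, 22], [59, 90]) .nil .nil) .nil))) (.node ([95], [0, 6], [18, 93]) (.node ([15, 25], [12, 23], [42, 84]) (.node ([70], [6, 48], [15, 35]) (.node ([0, 41, 73], [50], [1, 108]) .nil .nil) .nil) (.node ([95], [40, 44, 81], [45, 111]) (.node ([46, 96], [94], [44, 107]) .nil .nil) .nil)) (.node ([8, 47], [7, 40], [36, 72]) (.node ([0,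 30, 34], [32, 97], [5, 56]) (.node ([22, 76], [0, 19], [29, 86]) .nil .nil) .nil) (.node ([23, 31], [26, 27], [24, 29]) (.node ([1, 53], [41, 47], [22, 65]) .nil .nil) .nil)))) (.node ([4], [30, 103], [27, 97]) (.node ([5, 14], [84], [2, 92]) (.node ([0], [99], [1, 23]) (.node ([11, 46, 114], [10], [63, 118]) (.node ([5, 41], [37, 93], [34, 87]) .nil .nil) .nil) (.node ([], [14, 109], [63, 92]) (.node ([88], [28, 36, 70], [37, 116]) .nil .nil) .nil)) (.node ([17, 62], [5, 33], [30, 74]) (.node ([19, 102], [57, 104], [61, 114]) (.node ([58], [48], [28, 35]) .nil .nil) .nil) (.node ([76], [23, 86], [19, 78]) (.node ([21, 27, 49], [32, 36], [53, 62]) .nil .nil) .nil))) (.node ([0, 42, 97], [83, 93], [5, 117]) (.node ([16, 68], [71], [18, 70]) (.node ([1, 17], [68], [6, 86]) (.node ([18, 35], [1, 45], [13, 40]) .nil .nil) .nil) (.node ([62], [0, 21, 74], [5, 122]) (.node ([57], [55, 114], [53, 118]) .nil .nil) .nil)) (.node ([6, 115], [64], [7, 117]) (.node ([18], [40,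 73, 81], [72, 111]) (.node ([35, 97], [39, 117], [44, 121]) .nil .nil) .nil) (.node ([23, 53], [19, 32], [27, 57]) (.node ([0, 37, 48], [22, 28, 70], [58, 88]) .nil .nil) .nil))))) (.node ([4], [91], [36, 83]) (.node ([64], [10], [17, 43]) (.node ([63], [13], [12, 47]) (.node ([73, 79], [10, 42], [69, 83]) (.node ([13, 17, 24], [2, 18, 44], [11, 78]) (.node ([59, 126], [0], [72, 123]) .nil .nil) (.node ([22], [38, 39, 52], [50, 54]) .nil .nil)) (.node ([49], [6, 41, 75], [65, 93]) (.node ([36, 86], [18, 19, 39], [20, 66]) .nil .nil) .nil)) (.node ([61], [30], [23, 39]) (.node ([35, 97], [68], [6, 56]) (.node ([0], [88, 119], [80, 122]) .nil .nil) .nil) (.node ([34, 48], [37, 93], [41, 101]) (.node ([22, 27, 33], [31, 36], [20, 60]) .nil .nil) .nil))) (.node ([2, 27, 48], [23, 75], [3, 51]) (.node ([16, 101], [3, 6, 48], [15, 100]) (.node ([92], [20, 102], [19, 98]) (.node ([107], [1, 48], [49, 99]) .nil .nil) .nil) (.node ([65], [33, 53, 63], [49, 112]) (.node ([1,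 45], [13, 22, 33], [35, 96]) .nil .nil) .nil)) (.node ([6, 16, 37], [1, 15], [7, 70]) (.node ([79, 85], [32, 77], [93, 123]) (.node ([22, 24], [31], [20, 26]) .nil .nil) .nil) (.node ([1, 17, 44], [6, 39, 64], [68, 73]) (.node ([56], [22, 44], [26, 39]) .nil .nil) .nil)))) (.node ([36], [8, 19], [7, 20]) (.node ([103], [27, 74], [14, 62]) (.node ([11, 23], [77, 104], [4, 118]) (.node ([0, 12], [13, 25], [2, 94]) (.node ([31, 47], [19, 40, 81], [59, 89]) .nil .nil) .nil) (.node ([5, 46], [25], [12, 32]) (.node ([52], [19, 50, 83], [61, 115]) .nil .nil) .nil)) (.node ([46], [93], [2, 41]) (.node ([0, 14, 51], [2, 27, 47], [75, 82]) (.node ([30, 58], [0, 28, 34], [32, 110]) .nil .nil) .nil) (.node ([0, 2], [64, 124], [52, 127]) (.node ([40], [22, 33], [20, 35]) .nil .nil) .nil))) (.node ([8, 10, 61], [17], [73, 104]) (.node ([18, 19], [47, 104], [14, 59]) (.node ([16, 113], [27, 71], [18, 116]) (.node ([2, 31, 35], [0, 45], [26, 95]) .nil .nil) .nil) (.node ([0, 23],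 [16, 28, 78], [76, 80]) (.node ([58], [26], [42, 60]) .nil .nil) .nil)) (.node ([108], [0, 39, 42], [5,
  50]) (.node ([0, 7, 48], [3, 38], [16, 87]) (.node ([48, 99], [10, 47, 57], [43, 114]) .nil .nil) .nil) (.node ([33, 53], [36], [20, 49]) (.node ([22, 62], [0, 21, 49], [32, 122]) .nil .nil) .nil)))))) (.node ([5, 10], [3, 17, 42], [15, 83]) (.node ([6, 36], [8], [7, 33]) (.node ([14, 48], [16], [15, 47]) (.node ([11, 65], [8], [14, 67]) (.node ([0, 91], [83, 89], [4, 115]) (.node ([12, 24, 92], [5, 17], [84, 98]) (.node ([6, 41], [9, 49], [34, 65]) .nil .nil) (.node ([32, 43], [41, 59, 79], [57, 105]) .nil .nil)) (.node ([40, 81, 87], [0, 47], [89, 105]) (.node ([32, 44], [42, 56], [34, 52]) .nil .nil) .nil)) (.node ([102], [10, 61], [42, 104]) (.node ([0, 23], [3, 52], [29, 83]) (.node ([25, 122], [62], [21, 119]) .nil .nil) .nil) (.node ([0, 21, 42], [25, 88], [28, 94]) (.node ([20, 32, 47], [22, 27], [31, 53]) .nil .nil) .nil))) (.node ([4, 10, 61], [17,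 23], [83, 104]) (.node ([6], [17, 70], [15, 68]) (.node ([116], [16], [27, 70]) (.node ([21], [109], [46, 92]) .nil .nil) .nil) (.node ([24, 47], [0, 112], [75, 96]) (.node ([21, 24, 46], [32, 44], [25, 55]) .nil .nil) .nil)) (.node ([73, 79], [5, 69], [42, 126]) (.node ([13, 42], [43, 44], [46, 64]) (.node ([38, 95], [35, 47], [40, 100]) .nil .nil) .nil) (.node ([35], [49], [34, 47]) (.node ([51, 94], [0, 46], [25, 107]) .nil .nil) .nil)))) (.node ([79], [3, 93], [2, 87]) (.node ([13, 15], [6, 16, 42], [10, 70]) (.node ([2, 42], [5, 10, 46], [12, 79]) (.node ([5, 93], [44, 79, 85], [77, 108]) (.node ([16, 19], [29, 66], [38, 76]) .nil .nil) .nil) (.node ([63, 99], [13, 48], [10, 107]) (.node ([19, 39, 64], [86], [61, 66]) .nil .nil) .nil)) (.node ([32, 95], [0], [31, 93]) (.node ([61, 79], [32, 83], [23, 108]) (.node ([21, 23, 48], [19, 32, 42], [28, 57]) .nil .nil) .nil) (.node ([60, 68], [71], [35, 113]) (.node ([35, 42], [50, 93], [41, 117]) .nil .nil) .nil)))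 (.node ([9], [39], [17, 41]) (.node ([16, 23], [3, 43], [10, 29]) (.node ([0, 6, 43], [2, 16, 35], [13, 100]) (.node ([33, 46, 47], [35], [45, 49]) .nil .nil) .nil) (.node ([16, 42, 78], [13, 23], [64, 80]) (.node ([90, 94], [0, 122], [1, 125]) .nil .nil) .nil)) (.node ([4, 19, 39], [30, 36], [20, 91]) (.node ([72, 79, 85], [0], [105, 126]) (.node ([20, 57], [53], [19, 55]) .nil .nil) .nil) (.node ([25, 27, 86], [0, 21, 24], [30, 125]) (.node ([22, 33, 47], [31, 35, 36], [40, 60]) .nil .nil) .nil))))) (.node ([12, 23], [5, 10], [2, 102]) (.node ([5, 14, 24], [2, 17, 27], [4, 84]) (.node ([4], [11, 20, 23], [24, 104]) (.node ([10, 67], [6], [11, 69]) (.node ([5, 118], [23, 44], [77, 102]) (.node ([41], [34, 36, 48], [37, 49]) .nil .nil) .nil) (.node ([44], [9, 118], [67, 102]) (.node ([0, 20], [4, 32, 40], [31, 85]) .nil .nil) .nil)) (.node ([14, 51], [75], [27, 63]) (.node ([4, 44], [39, 83, 95], [97, 111]) (.node ([0, 23, 48], [16, 26, 28], [29, 80]) .nil .nil)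 .nil) (.node ([0], [26], [2, 22]) (.node ([32, 61], [22, 30, 42], [21, 52]) .nil .nil) .nil))) (.node ([0, 17, 34], [97], [5, 68]) (.node ([28], [5, 48], [15, 32]) (.node ([103], [15, 62, 71], [74, 116]) (.node ([0, 6, 46], [2, 35], [13, 93]) .nil .nil) .nil) (.node ([74, 94], [34], [12, 122]) (.node ([26, 33], [56], [44, 60]) .nil .nil) .nil)) (.node ([89], [18, 19], [7, 31]) (.node ([37], [41], [39, 48]) (.node ([62, 71, 78], [0, 33], [113, 119]) .nil .nil) .nil) (.node ([47, 93], [105], [45, 87]) (.node ([22, 42], [48, 94], [46, 88]) .nil .nil) .nil)))) (.node ([9, 14, 48], [7], [15, 65]) (.node ([127], [16, 17], [6, 76]) (.node ([6], [11, 46, 65], [63, 67]) (.node ([1, 16], [13, 90], [71, 99]) (.node ([53], [19, 41], [36, 57]) .nil .nil) .nil) (.node ([71, 78], [33, 82], [18, 119]) (.node ([55, 65], [33, 53], [41, 112]) .nil .nil) .nil)) (.node ([7, 41], [65], [36, 69]) (.node ([2, 32, 48], [23, 46, 75], [51, 79]) (.node ([0, 47], [22, 82], [26, 90]) .nil .nil)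 .nil) (.node ([90], [20, 47], [18, 53]) (.node ([0, 50], [22, 64], [1, 52]) .nil .nil) .nil))) (.node ([8, 69, 75], [7], [65, 126]) (.node ([3, 36, 95], [4, 47], [89, 103]) (.node ([0, 6, 66],
  [16, 68], [1, 127]) (.node ([23, 55], [57, 77], [32, 118]) .nil .nil) .nil) (.node ([35, 101], [70], [6, 58]) (.node ([38, 93], [35, 48], [41, 100]) .nil .nil) .nil)) (.node ([33], [67], [11, 41]) (.node ([38, 64, 91], [0, 7], [66, 115]) (.node ([53, 63, 99], [47, 48], [107, 114]) .nil .nil) .nil) (.node ([28, 60], [27, 32], [29, 62]) (.node ([31, 35, 39], [22, 33], [40, 56]) .nil .nil) .nil)))))))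

def RR : RT :=
  (.node ([10], [3, 6], [2, 7]) (.node ([2, 14], [4, 10], [3, 11]) (.node ([4], [0, 17], [5, 18]) (.node ([4], [5, 14], [17, 75]) RR_aaaa RR_aaab) (.node ([11], [4, 6], [2, 8]) RR_aaba RR_aabb)) (.node ([2, 14], [3, 6], [10, 103]) (.node ([7], [], [6, 19]) RR_abaa RR_abab) (.node ([6], [11], [10, 33]) RR_abba RR_abbb))) (.node ([3, 17], [5, 14], [4, 15]) (.node ([2], [10], [6, 23]) (.node ([4, 7], [14], [3, 8]) RR_baaa RR_baab) (.node ([5, 11], [2, 17], [4, 12]) RR_baba RR_babb)) (.node ([4, 10], [3, 17], [14, 83]) (.node ([14], [7], [10, 36]) RR_bbaa RR_bbab) (.node ([17], [11], [14, 44]) RR_bbba RR_bbbb))))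

end Pool.Agent.Lib.MP_755cca_al.Cnt.T48
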