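import Pool.Agent.Lib.MP_755cca_al.T48.Rels

set_option maxRecDepth 100000

namespace Pool.Agent.Lib.MP_755cca_al.Cnt.T48

def JJ_aaaa : JT :=
  (.node (.relax 1493 1) (.node (.relax 1053 2) (.node (.relax 1716 2) (.node (.relax 1294 0) (.node (.relax 23 1) (.node (.cut [16, 18, 23, 26, 28, 34] 100 197 false [.rel 361 2, .rel 729 1, .rel 671 1, .rel 1162 0, .rel 2347 2, .rel 1774 0, .rel 172 0, .rel 688 1, .rel 1238 2, .rel 1758 1, .rel 1245 1, .rel 1854 2, .rel 2428 2]) (.node (.cut [18, 30, 42, 43, 97, 103] 100 197 false [.rel 23 2, .rel 786 1, .rel 172 0, .rel 785 2, .rel 1346 1, .rel 383 1, .rel 27 2, .rel 404 1, .rel 1309 1, .rel 4 1, .rel 0 2, .rel 173 1, .rel 103 2]) .nil .nil) (.node (.relax 1262 2) .nil .nil)) (.node (.relax 1790 1) (.node (.cut [17, 22, 27, 33, 34, 42, 48] 100 197 false [.rel 706 0, .rel 1844 0, .rel 18 0, .rel 1745 0, .rel 605 1, .rel 152 0, .rel 1719 1, .rel 1716 2, .rel 1743 2, .rel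 442 0, .rel 2986 1, .rel 2335 0, .rel 2626 1]) .nil .nil) (.node (.relax 3 2) .nil .nil))) (.node (.relax 77 0) (.node (.cut [2, 18, 30, 36, 42, 58, 106] 100 197 false [.rel 2454 0, .rel 258 1, .rel 3056 1, .rel 172 0, .rel 2437 0, .rel 1854 0, .rel 1890 2, .rel 2456 2, .rel 524 0, .rel 3027 2, .rel 728 2, .rel 949 1]) (.node (.relax 2811 2) .nil .nil) (.node (.cut [2, 18, 36, 39, 42, 44, 47] 100 197 false [.rel 172 0, .rel 499 0, .rel 1074 0, .rel 215 0, .rel 23 1, .rel 400 0, .rel 399 2, .rel 721 2, .rel 1325 1, .rel 909 0, .rel 2611 1]) .nil .nil)) (.node (.cut [18, 19, 30, 33, 35, 36, 42] 100 197 false [.rel 258 1, .rel 524 0, .rel 496 1, .rel 988 2, .rel 2606 0, .rel 1955 0, .rel 1941 0, .rel 1844 2, .rel 3000 1, .rel 2427 0]) (.node (.cut [2, 17, 19, 24, 47, 48] 100 197 false [.rel 139 2, .rel 21 0, .rel 18 0, .rel 336 1, .rel 338 2, .rel 825 0, .rel 1386 1, .rel 158 1, .rel 22 2, .rel 352 1, .rel 38 2,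 .rel 103 2]) .nil .nil) (.node (.relax 241 2) .nil .nil)))) (.node (.relax 1085 2) (.node (.cut [6, 18, 23, 28, 33, 36] 100 197 false [.rel 139 0, .rel 361 2, .rel 630 0, .rel 121 0, .rel 188 0, .rel 9 0, .rel 258 1, .rel 524 0, .rel 526 2, .rel 95 2, .rel 495 0, .rel 259 0, .rel 106 1, .rel 19 1, .rel 903 0]) (.node (.relax 335 2) (.node (.cut [18, 19, 39, 42, 44, 103] 100 197 false [.rel 172 0, .rel 413 0, .rel 23 2, .rel 918 1, .rel 2442 0, .rel 215 0, .rel 383 1, .rel 499 0, .rel 771 1, .rel 1844 2, .rel 77 2, .rel 2280 1, .rel 1230 0]) .nil .nil) (.node (.relax 215 0) .nil .nil)) (.node (.cut [2, 17, 18, 30, 36, 42, 47] 100 197 false [.rel 172 0, .rel 23 1, .rel 383 1, .rel 20 0, .rel 25 2, .rel 73 1, .rel 77 0, .rel 24 2, .rel 178 0, .rel 198 2, .rel 92 2]) (.node (.cut [2, 28, 30, 33, 35, 36, 42] 100 197 false [.rel 848 0, .rel 23 1, .rel 167 1, .rel 706 2, .rel 709 1, .rel 1955 0, .rel 445 1, .rel 193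 2, .rel 1422 0, .rel 258 1, .rel 1413 0, .rel 2109 1, .rel 2071 2, .rel 90 2]) .nil .nil) (.node (.cut [2, 3, 32, 33, 39, 43, 47] 100 197 false [.rel 499 2, .rel 27 0, .rel 955 0, .rel 108 0, .rel 976 0, .rel 977 1, .rel 316 1, .rel 1667 1, .rel 909 0, .rel 215 0, .rel 23 1, .rel 400 0, .rel 862 2, .rel 2762 2, .rel 756 2, .rel 1477 0]) .nil .nil))) (.node (.cut [14, 22, 23, 33, 48, 78] 100 197 false [.rel 139 0, .rel 1300 2, .rel 20 2, .rel 1845 1, .rel 825 0, .rel 1301 0, .rel 1844 0, .rel 1853 0, .rel 442 0, .rel 769 1, .rel 665 2, .rel 1153 2]) (.node (.cut [16, 30, 42, 47, 58] 100 197 false [.rel 175 2, .rel 2382 2, .rel 833 1, .rel 2415 2, .rel 1776 1, .rel 690 0, .rel 2239 1, .rel 1169 1, .rel 2800 0, .rel 1854 2, .rel 2428 2]) (.node (.relax 688 1) .nil .nil) (.node (.cut [18, 30, 35, 36, 42, 100, 124] 100 197 false [.rel 1332 1, .rel 741 0, .rel 1333 2, .rel 258 1, .rel 524 0, .rel 2458 2, .rel 1955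 0, .rel 2864 2, .rel 1277 2, .rel 949 1]) .nil .nil)) (.node (.cut [18, 29, 35, 37, 39, 43] 100 197 false [.rel 1556 0, .rel 258 2, .rel 524 0, .rel 172 0, .rel 2514 2, .rel 2137 0, .rel 956 0, .rel 1850 2, .rel 2652 0]) (.node (.cut [2, 35, 36, 38, 42, 54, 97] 100 197 false [.rel 23 1, .rel 167 1, .rel 1544 0, .rel 258 1, .rel 2493 2, .rel 1839 1, .rel 209 2, .rel 2181 1, .rel 1797 0, .rel 1470 1, .rel 3081 1, .rel 1850 0]) .nil .nil) .nil))))
  (.node (.relax 316 2) (.node (.relax 373 0) (.node (.cut [6, 17, 19, 23, 43, 45] 100 197 false [.rel 316 2, .rel 9 0, .rel 96 0, .rel 98 2, .rel 174 0, .rel 492 1, .rel 1290 1, .rel 1296 1, .rel 413 0, .rel 419 0, .rel 172 2, .rel 406 0, .rel 1479 0]) (.node (.relax 921 2) (.node (.cut [2, 31, 38, 54, 97, 100] 100 197 false [.rel 747 0, .rel 2150 2, .rel 2461 1, .rel 1964 1, .rel 1333 0, .rel 741 2, .rel 1544 0, .rel 2493 2, .rel 955 1, .rel 756 2, .rel 1255 2, .rel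 2148 2, .rel 949 1]) .nil .nil) (.node (.cut [17, 22, 24, 36, 44, 47] 100 197 false [.rel 1844 0, .rel 316 1, .rel 139 2, .rel 1484 0, .rel 2926 2, .rel 2277 1, .rel 1917 2, .rel 499 1, .rel 1103 0, .rel 2468 0, .rel 2922 1]) .nil .nil)) (.node (.cut [3, 19, 39, 43, 47, 95, 97] 100 197 false [.rel 108 0, .rel 400 1, .rel 23 2, .rel 200 1, .rel 745 1, .rel 397 1, .rel 199 1, .rel 21 1, .rel 1256 0, .rel 1871 2, .rel 464 1, .rel 757 0, .rel 756 2, .rel 909 0, .rel 2924 2]) (.node (.cut [16, 22, 26, 27, 28, 34, 36, 68] 100 197 false [.rel 1787 1, .rel 706 0, .rel 1181 0, .rel 671 1, .rel 2827 0, .rel 2370 2, .rel 2374 1, .rel 1762 1, .rel 1783 1, .rel 2655 2]) .nil .nil) (.node (.cut [31, 43, 44, 89, 115] 100 197 false [.rel 1349 2, .rel 1343 1, .rel 973 2, .rel 978 2, .rel 2165 1, .rel 413 0, .rel 2670 0, .rel 2471 2, .rel 756 2, .rel 2924 2]) .nil .nil))) (.node (.relax 1053 0) (.node (.relax 2367 0) (.node (.relax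 1393 2) .nil .nil) (.node (.relax 1211 0) .nil .nil)) (.node (.relax 2267 2) (.node (.cut [18, 27, 30, 36, 48, 58] 100 197 false [.rel 2382 2, .rel 729 1, .rel 833 1, .rel 2415 2, .rel 1395 1, .rel 2047 0, .rel 2452 2, .rel 1777 2, .rel 1775 1, .rel 1883 2, .rel 2655 2]) .nil .nil) .nil))) (.node (.cut [6, 18, 19, 23, 41, 44, 47] 100 197 false [.rel 316 1, .rel 9 0, .rel 492 1, .rel 413 0, .rel 1289 1, .rel 490 2, .rel 1296 1, .rel 1477 0, .rel 904 2, .rel 981 1]) (.node (.cut [2, 18, 22, 23, 27, 36, 42] 100 197 false [.rel 188 0, .rel 21 0, .rel 361 0, .rel 729 1, .rel 731 2, .rel 1871 0, .rel 258 1, .rel 524 0, .rel 728 2, .rel 1844 0, .rel 2131 2]) (.node (.relax 1775 2) (.node (.relax 2107 2) .nil .nil) (.node (.cut [2, 6, 31, 32, 44, 50] 100 197 false [.rel 209 1, .rel 1556 2, .rel 1341 1, .rel 870 2, .rel 862 1, .rel 399 1, .rel 172 0, .rel 1340 2, .rel 2515 2]) .nil .nil)) (.node (.cut [2, 18, 23, 29,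 35, 36, 47] 100 197 false [.rel 23 1, .rel 1256 2, .rel 72 1, .rel 745 1, .rel 741 0, .rel 955 0, .rel 1255 2, .rel 188 0, .rel 1859 1, .rel 2447 0, .rel 2652 2]) (.node (.cut [26, 36, 42, 76, 110, 113] 100 197 false [.rel 2356 1, .rel 2433 0, .rel 1844 2, .rel 2431 0, .rel 1787 2, .rel 1885 2, .rel 258 1, .rel 524 0, .rel 728 2, .rel 2131 2]) .nil .nil) (.node (.cut [6, 29, 31, 36, 39, 43] 100 197 false [.rel 1879 2, .rel 2150 1, .rel 2948 1, .rel 955 0, .rel 2653 2, .rel 1850 0, .rel 909 0, .rel 1477 2, .rel 2924 1]) .nil .nil))) (.node (.relax 2798 2) (.node (.relax 2041 0) (.node (.cut [2, 23, 35, 36, 42, 44, 47] 100 197 false [.rel 23 1, .rel 316 1, .rel 1667 2, .rel 204 0, .rel 690 1, .rel 167 1, .rel 452 0, .rel 1859 1, .rel 209 2, .rel 2724 1, .rel 1242 0, .rel 124 2]) .nil .nil) (.node (.relax 1806 1) .nil .nil)) (.node (.relax 690 0) (.node (.relax 1831 2) .nil .nil) .nil))))) (.node (.relax 258 2)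 (.node (.relax 607 2) (.node (.relax 1556 0) (.node (.cut [13, 17, 21, 22, 23, 33, 47, 48] 100 197 false [.rel 2845 1, .rel 2559 1, .rel 1844 0, .rel 18 0, .rel 1745 0, .rel 139 0, .rel 336 1, .rel 1814 0, .rel 1716 1, .rel 825 0, .rel 2982 2, .rel 3113 0, .rel 442 0, .rel 2986 1, .rel 3116 1]) (.node (.relax 516 2) (.node (.relax 1910 2) .nil .nil) (.node (.relax 2208 2) .nil .nil)) (.node (.relax 793 2) (.node (.cut [17, 18, 22, 26, 62, 68] 100 197 false [.rel 1844 0, .rel 706 2, .rel 1263 0, .rel 2433 2, .rel 2431 0, .rel 768 1, .rel 1317 2, .rel 2134 2]) .nil .nil) (.node (.relax 13 1) .nil .nil))) (.node (.relax 132 1) (.node (.relax 2606 2) (.node (.cut [23, 26, 35, 36, 64, 68] 100 197 false [.rel 1859 0, .rel 1245 0, .rel 172 2, .rel 525 1,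
  .rel 375 2, .rel 1231 1, .rel 1850 2, .rel 2428 0]) .nil .nil) (.node (.relax 2085 2) .nil .nil)) (.node (.cut [2, 27, 29, 30, 34, 36, 42] 100 197 false [.rel 706 0, .rel 23 1, .rel 167 1, .rel 848 2, .rel 709 1, .rel 370 1, .rel 193 2, .rel 832 0, .rel 258 1, .rel 1413 0, .rel 2109 1, .rel 2071 2, .rel 90 2]) (.node (.relax 955 1) .nil .nil) (.node (.relax 667 2) .nil .nil)))) (.node (.relax 1806 2) (.node (.cut [6, 10, 23, 35, 36, 44, 47] 100 197 false [.rel 316 1, .rel 1667 2, .rel 724 1, .rel 4 0, .rel 23 1, .rel 773 1, .rel 613 2, .rel 1666 1, .rel 1484 0, .rel 2254 1]) (.node (.relax 600 0) (.node (.cut [3, 32, 39, 42, 47, 95, 97] 100 197 false [.rel 108 0, .rel 400 1, .rel 23 2, .rel 200 1, .rel 83 1, .rel 28 1, .rel 453 2, .rel 208 1, .rel 209 2, .rel 167 1, .rel 439 1, .rel 445 0, .rel 1705 2, .rel 1423 0, .rel 2722 2]) .nil .nil) (.node (.cut [3, 32, 39, 43, 44, 47, 95] 100 197 false [.rel 1556 0,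 .rel 316 1, .rel 793 2, .rel 1341 1, .rel 185 1, .rel 27 0, .rel 790 0, .rel 2737 0, .rel 862 2, .rel 2762 2, .rel 756 2, .rel 1477 0]) .nil .nil)) (.node (.cut [2, 30, 31, 35, 39, 43] 100 197 false [.rel 1556 0, .rel 2514 2, .rel 1341 1, .rel 1955 0, .rel 215 0, .rel 2282 2, .rel 2512 0, .rel 3104 1, .rel 756 2, .rel 2689 1, .rel 2924 2]) (.node (.relax 25 2) .nil .nil) (.node (.cut [6, 30, 32, 42, 43, 44, 47] 100 197 false [.rel 209 1, .rel 690 1, .rel 833 0, .rel 1211 0, .rel 657 2, .rel 607 1, .rel 878 2, .rel 2245 0, .rel 435 1, .rel 219 0, .rel 340 0, .rel 44 2, .rel 90 2]) .nil .nil))) (.node (.relax 1445 2) (.node (.relax 432 2) (.node (.cut [2, 6, 19, 32, 36, 39, 44, 47] 100 197 false [.rel 499 0, .rel 9 0, .rel 94 1, .rel 209 1, .rel 268 1, .rel 500 1, .rel 215 0, .rel 23 1, .rel 400 0, .rel 501 2, .rel 909 0, .rel 2100 0, .rel 1483 0, .rel 92 2]) .nil .nil) (.node (.relax 1486 2) .nil .nil)) (.node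 (.cut [18, 23, 33, 35, 42, 52] 100 197 false [.rel 172 0, .rel 1309 2, .rel 139 0, .rel 425 2, .rel 730 1, .rel 1667 0, .rel 1671 1, .rel 1859 1, .rel 2449 2, .rel 1305 0, .rel 1076 1, .rel 1854 2, .rel 2428 2]) (.node (.cut [28, 30, 35, 36, 60, 68] 100 197 false [.rel 1787 1, .rel 1955 0, .rel 1834 2, .rel 2575 2, .rel 2580 0, .rel 2452 2, .rel 2040 1, .rel 1317 2, .rel 2655 2]) .nil .nil) .nil)))) (.node (.relax 1600 0) (.node (.relax 151 1) (.node (.relax 1544 0) (.node (.relax 2210 0) (.node (.relax 2658 2) .nil .nil) (.node (.cut [3, 32, 36, 39, 43, 95, 117] 100 197 false [.rel 108 0, .rel 976 0, .rel 1548 0, .rel 1544 2, .rel 2167 0, .rel 1556 0, .rel 3028 1, .rel 2084 1, .rel 862 2, .rel 2762 2, .rel 756 2, .rel 1477 0]) .nil .nil)) (.node (.cut [3, 6, 39, 43, 47, 95, 117] 100 197 false [.rel 108 0, .rel 976 0, .rel 1284 1, .rel 747 2, .rel 1904 0, .rel 1556 0, .rel 2139 0, .rel 2459 0, .rel 398 2, .rel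 2283 2]) (.node (.cut [18, 28, 30, 36, 47, 60] 100 197 false [.rel 1884 2, .rel 729 1, .rel 757 0, .rel 1952 2, .rel 1305 0, .rel 2452 2, .rel 1254 0, .rel 373 0, .rel 2655 2]) .nil .nil) (.node (.cut [2, 19, 23, 36, 39, 43, 44, 47] 100 197 false [.rel 21 0, .rel 499 0, .rel 23 1, .rel 24 0, .rel 316 1, .rel 185 1, .rel 181 0, .rel 413 0, .rel 955 0, .rel 1556 0, .rel 2943 1, .rel 814 1, .rel 188 1, .rel 757 0, .rel 756 2, .rel 909 0, .rel 2924 2]) .nil .nil))) (.node (.relax 1196 1) (.node (.relax 2414 2) (.node (.cut [16, 17, 18, 34, 36, 42, 78] 100 197 false [.rel 671 1, .rel 258 1, .rel 524 0, .rel 172 0, .rel 1238 2, .rel 2119 1, .rel 1168 0, .rel 1230 2, .rel 1849 0]) .nil .nil) (.node (.relax 256 2) .nil .nil)) (.node (.cut [2, 18, 27, 30, 35, 42, 68] 100 197 false [.rel 172 0, .rel 1263 0, .rel 1321 2, .rel 1864 0, .rel 1955 0, .rel 1235 2, .rel 2749 1, .rel 721 1, .rel 1862 0, .rel 124 2]) (.node (.cut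 [2, 18, 29, 31, 36, 38, 42] 100 197 false [.rel 258 1, .rel 2662 2, .rel 2171 1, .rel 756 0, .rel 1519 0, .rel 175 0, .rel 23 1, .rel 1260 1, .rel 742 2, .rel 741 2, .rel 1903 2]) .nil .nil) .nil))) (.node (.tree 197 [0] 100 [2, 13, 0] (.pd 2 (.pge 2 (.fin 7 8414208 0)) (.leaf [2, 13, 0] 100 197 false [(0,
  1)] [.md 124 2 1]))) (.node (.relax 33 2) (.node (.cut [2, 18, 26, 35, 36, 106] 100 197 false [.rel 23 1, .rel 2437 2, .rel 1881 0, .rel 1890 2, .rel 1893 2, .rel 2827 1, .rel 525 1, .rel 2657 2]) (.node (.cut [2, 26, 29, 37, 64, 76] 100 197 false [.rel 945 1, .rel 1878 2, .rel 2828 1, .rel 1854 0, .rel 728 2, .rel 1250 0, .rel 2446 2, .rel 2131 2]) .nil .nil) (.node (.relax 548 2) .nil .nil)) (.node (.relax 1399 0) (.node (.tree 197 [0] 100 [21, 32, 0] (.unc 90 0 (.leaf [21, 32, 0] 100 197 false [(0, 1)] [.rel 1995 2, .md 90 2 1]))) .nil .nil) (.node (.cut [6, 23, 30, 39, 42, 43, 47] 100 197 false [.rel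 814 0, .rel 413 2, .rel 690 1, .rel 607 1, .rel 9 0, .rel 566 0, .rel 481 2, .rel 1556 0, .rel 213 0, .rel 968 1, .rel 1808 0, .rel 1378 0, .rel 419 0, .rel 461 0, .rel 2598 0]) .nil .nil))) (.node (.relax 2147 0) (.node (.cut [18, 28, 35, 36, 42, 58, 68] 100 197 false [.rel 2382 1, .rel 1762 0, .rel 258 1, .rel 524 0, .rel 671 2, .rel 2119 1, .rel 1850 2, .rel 2934 1]) (.node (.cut [16, 18, 28, 34, 36, 60, 68] 100 197 false [.rel 1787 1, .rel 768 1, .rel 373 0, .rel 671 1, .rel 1886 2, .rel 1782 0, .rel 2452 2, .rel 2655 2]) .nil .nil) (.node (.relax 1641 2) .nil .nil)) (.node (.cut [16, 23, 28, 33, 34, 47] 100 197 false [.rel 139 0, .rel 175 2, .rel 715 0, .rel 361 2, .rel 671 1, .rel 1162 0, .rel 1174 0, .rel 768 0, .rel 373 0, .rel 1243 0, .rel 605 1, .rel 172 0, .rel 375 1, .rel 2348 0, .rel 1854 2, .rel 2428 2]) (.node (.relax 2716 0) .nil .nil) .nil))))))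

def JJ_aaab : JT :=
  (.node (.relax 1689 2) (.node (.relax 1617 2) (.node (.relax 761 1) (.node (.relax 494 2) (.node (.relax 2382 0) (.node (.cut [17, 18, 23, 27, 34, 60, 68] 100 197 false [.rel 768 1, .rel 139 0, .rel 1263 0, .rel 1265 0, .rel 23 2, .rel 202 0, .rel 73 2, .rel 770 0, .rel 630 0, .rel 495 2, .rel 92 2]) (.node (.cut [18, 30, 33, 35, 36, 38, 42] 100 197 false [.rel 1955 0, .rel 2492 0, .rel 258 1, .rel 524 0, .rel 909 2, .rel 2083 1, .rel 1941 0, .rel 1850 2, .rel 2927 0]) .nil .nil) (.node (.relax 1135 2) .nil .nil)) (.node (.relax 955 2) (.node (.relax 1743 2) .nil .nil) (.node (.relax 137 2) .nil .nil))) (.node (.relax 1062 1) (.node (.relax 2408 0) (.node (.cut [3, 6, 38, 39, 43, 64, 97] 100 197 false [.rel 108 0, .rel 976 0, .rel 1544 0, .rel 974 2, .rel 2167 0, .rel 964 0, .rel 962 2]) .nil .nil) (.node (.relax 215 2) .nil .nil)) (.node (.relax 21 1) (.node (.relax 2170 2) .nil .nil)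 (.node (.relax 265 2) .nil .nil)))) (.node (.relax 1440 2) (.node (.relax 194 2) (.node (.cut [2, 18, 28, 29, 36, 42, 106] 100 197 false [.rel 172 0, .rel 2385 0, .rel 2795 0, .rel 23 1, .rel 2454 0, .rel 1881 0, .rel 258 1, .rel 524 0, .rel 728 2, .rel 2827 1, .rel 1177 1, .rel 729 0, .rel 188 0, .rel 2446 2, .rel 2131 2]) (.node (.relax 738 1) .nil .nil) (.node (.cut [2, 6, 19, 39, 43, 47, 83] 100 197 false [.rel 9 0, .rel 27 2, .rel 0 0, .rel 1556 0, .rel 1341 1, .rel 407 0, .rel 184 1, .rel 172 2, .rel 406 0, .rel 265 2, .rel 96 0, .rel 1479 0]) .nil .nil)) (.node (.cut [2, 30, 31, 39, 43, 54] 100 197 false [.rel 1556 0, .rel 2150 2, .rel 2847 1, .rel 413 2, .rel 1309 1, .rel 195 1, .rel 2470 0, .rel 21 0, .rel 1310 0, .rel 3033 1, .rel 756 2, .rel 2147 2, .rel 2084 1, .rel 2924 2]) (.node (.relax 2497 2) .nil .nil) (.node (.cut [3, 6, 18, 36, 39, 42, 43] 100 197 false [.rel 108 0, .rel 976 0, .rel 258 1,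 .rel 524 0, .rel 172 0, .rel 974 2, .rel 526 2, .rel 1534 1, .rel 1556 0, .rel 2137 0]) .nil .nil))) (.node (.relax 2356 0) (.node (.relax 97 2) (.node (.relax 1582 2) .nil .nil) (.node (.relax 2667 2) .nil .nil)) (.node (.relax 1255 2) (.node (.relax 2761 2) .nil .nil) .nil)))) (.node (.relax 1482 2) (.node (.relax 2330 2) (.node (.cut [14, 18, 22, 23, 36, 42] 100 197 false [.rel 258 1, .rel 524 0, .rel 172 0, .rel 20 2, .rel 1844 0, .rel 2132 2, .rel 1250 1, .rel 1845 1, .rel 1247 2, .rel 188 1, .rel 1869 1, .rel 2130 0]) (.node (.relax 302 2) (.node (.relax 1263 2) .nil .nil) (.node (.relax 1440 0) .nil .nil)) (.node (.cut [3, 31, 39, 43, 47, 97, 117] 100 197 false [.rel 108 0, .rel 786 0, .rel 83 1, .rel 184 1, .rel 764 2, .rel 790 0, .rel 1311 0, .rel 215 1, .rel 195 2, .rel 2471 2, .rel 756 2, .rel 316 1, .rel 793 2, .rel 2924 2]) (.node (.cut [18, 23, 28, 33, 35, 48] 100 197 false [.rel 442 0, .rel 1950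 2, .rel 361 2, .rel 1777 0, .rel 769 1, .rel 175 0, .rel 1884 1, .rel 1883 0, .rel 605 1, .rel 172 0, .rel 375 1, .rel 690 0, .rel 1859 1, .rel 1854 2, .rel 2428 2]) .nil .nil) (.node (.relax 747 1) .nil .nil))) (.node (.relax 361 2) (.node (.cut [2, 18, 22, 30, 42, 58] 100 197 false [.rel 3012 2, .rel 1854 0, .rel 172 0, .rel 2795 1, .rel 1890 2, .rel 2456 2, .rel 945 1, .rel 3027 2, .rel 728 2, .rel 949 1]) (.node (.relax 1326 0) .nil .nil) (.node (.relax 3118 1) .nil .nil)) (.node (.cut [26, 27, 29, 30, 35, 64] 100 197 false [.rel 1875 2, .rel 172 2, .rel 730 1, .rel 1955 0, .rel 1953 1, .rel 1305 0, .rel 2486 0, .rel 2449 2, .rel 1884 0, .rel 1859 0, .rel 388 1, .rel 375 1, .rel 1854 2, .rel 2428 2]) (.node (.cut [2, 17, 30, 37, 47, 48] 100 197 false [.rel 18 0, .rel 258 2, .rel 168 0, .rel 166 2, .rel 360 0, .rel 690 0, .rel 23 1, .rel 745 1, .rel 164 2, .rel 77 0, .rel 79 2, .rel 451 0, .rel 710 2, .rel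 90 2]) .nil .nil) .nil))) (.node (.relax 2463 2) (.node (.relax 166 1) (.node (.relax 2241 1) (.node (.relax 1259 2) .nil .nil) (.node (.cut [3, 6, 36, 39, 43, 52] 100 197 false [.rel 108 0, .rel 976 0, .rel 1979 2, .rel 785 0, .rel 172 2, .rel 525 1, .rel 9 0, .rel 526 2, .rel 1534 1, .rel 1556 0, .rel 2137 0]) .nil .nil))
  (.node (.cut [2, 18, 31, 38, 42, 54] 100 197 false [.rel 172 0, .rel 2150 2, .rel 1308 1, .rel 1964 1, .rel 1333 2, .rel 525 1, .rel 2143 2, .rel 23 1, .rel 383 1, .rel 380 1, .rel 2665 1, .rel 741 2, .rel 1903 2]) (.node (.relax 644 2) .nil .nil) (.node (.relax 185 2) .nil .nil))) (.node (.relax 474 2) (.node (.relax 3083 2) (.node (.cut [2, 16, 18, 28, 36, 42, 68] 100 197 false [.rel 1787 1, .rel 172 0, .rel 23 1, .rel 383 1, .rel 167 1, .rel 1789 2, .rel 382 2, .rel 1793 0, .rel 1185 0, .rel 258 1, .rel 1193 2]) .nil .nil) (.node (.relax 1491 1) .nil .nil)) (.node (.cut [18, 21, 26,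 33, 36, 42] 100 197 false [.rel 258 1, .rel 1508 2, .rel 496 1, .rel 1917 1, .rel 1413 0, .rel 605 1, .rel 1844 2, .rel 2990 0, .rel 768 0, .rel 1955 2, .rel 3000 1, .rel 2427 0]) (.node (.relax 1832 2) .nil .nil) .nil))))) (.node (.relax 388 2) (.node (.relax 679 2) (.node (.relax 1140 2) (.node (.cut [10, 19, 20, 32, 44, 46, 47] 100 197 false [.rel 119 0, .rel 1084 1, .rel 413 0, .rel 1289 1, .rel 1085 2, .rel 316 1, .rel 2755 1, .rel 1689 0, .rel 3096 0, .rel 2005 2, .rel 3016 1, .rel 3074 0]) (.node (.relax 399 2) (.node (.relax 2863 0) .nil .nil) (.node (.cut [17, 22, 23, 34, 47, 48, 71] 100 197 false [.rel 1844 0, .rel 18 0, .rel 1745 0, .rel 1167 2, .rel 1950 0, .rel 671 1, .rel 2789 1, .rel 667 1, .rel 662 2, .rel 158 0, .rel 1151 0, .rel 1153 0]) .nil .nil)) (.node (.cut [2, 3, 6, 36, 39, 42, 95] 100 197 false [.rel 108 0, .rel 23 1, .rel 167 1, .rel 258 1, .rel 400 2, .rel 549 0, .rel 200 1, .rel 79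 2, .rel 208 1, .rel 1219 1, .rel 1107 2, .rel 90 2]) (.node (.cut [2, 16, 17, 27, 28, 34, 36, 68] 100 197 false [.rel 1787 1, .rel 706 0, .rel 1181 0, .rel 671 1, .rel 23 1, .rel 1180 2, .rel 2374 1, .rel 1783 1, .rel 670 0, .rel 680 2]) .nil .nil) (.node (.relax 2031 2) .nil .nil))) (.node (.relax 478 2) (.node (.cut [2, 18, 28, 35, 36, 58, 68] 100 197 false [.rel 2382 1, .rel 1762 0, .rel 671 2, .rel 718 1, .rel 23 1, .rel 1267 2, .rel 2373 0, .rel 680 2]) (.node (.cut [16, 23, 30, 35, 42, 76] 100 197 false [.rel 728 1, .rel 1891 1, .rel 1890 2, .rel 1177 2, .rel 1238 1, .rel 1237 2, .rel 1878 1, .rel 1854 2, .rel 2428 2]) .nil .nil) (.node (.relax 2992 2) .nil .nil)) (.node (.tree 197 [0] 100 [26, 32, 0] (.pd 32 (.pge 32 (.fin 7 8414208 0)) (.leaf [26, 32, 0] 100 197 false [(0, 1)] [.rel 1854 2, .md 3063 2 1]))) (.node (.relax 2894 2) .nil .nil) (.node (.cut [14, 17, 22, 23, 25, 33, 47, 48] 100 197 false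 [.rel 139 0, .rel 18 0, .rel 336 1, .rel 338 1, .rel 1845 1, .rel 20 1, .rel 59 0, .rel 666 0, .rel 664 0, .rel 442 0, .rel 769 1, .rel 665 2, .rel 1153 2]) .nil .nil)))) (.node (.relax 134 2) (.node (.relax 1482 1) (.node (.relax 1787 1) (.node (.cut [13, 19, 23, 33, 42, 44, 47] 100 197 false [.rel 413 0, .rel 316 1, .rel 613 2, .rel 172 0, .rel 1653 0, .rel 605 0, .rel 657 0, .rel 139 0, .rel 2713 0, .rel 1440 0, .rel 1847 2, .rel 2429 1, .rel 2237 1, .rel 2425 0]) .nil .nil) (.node (.cut [6, 19, 32, 39, 40, 44, 47, 83] 100 197 false [.rel 973 1, .rel 209 1, .rel 413 0, .rel 1441 0, .rel 909 1, .rel 9 0, .rel 268 1, .rel 923 0, .rel 501 2, .rel 1500 1, .rel 499 0, .rel 94 1, .rel 96 0, .rel 912 1, .rel 92 2]) .nil .nil)) (.node (.cut [6, 18, 30, 31, 42, 103] 100 197 false [.rel 172 0, .rel 23 2, .rel 383 1, .rel 399 0, .rel 400 2, .rel 780 0, .rel 24 2, .rel 178 0, .rel 20 0, .rel 198 2, .rel 92 2]) (.node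 (.relax 2388 2) .nil .nil) (.node (.cut [18, 23, 30, 34, 35, 43] 100 197 false [.rel 1309 0, .rel 1859 1, .rel 2449 2, .rel 605 2, .rel 1955 0, .rel 2590 0, .rel 2282 0, .rel 756 0, .rel 2239 1, .rel 1667 0, .rel 613 1, .rel 1854 2, .rel 2428 2]) .nil .nil))) (.node (.relax 2741 2) (.node (.relax 1328 2) (.node (.cut [2, 27, 30, 34, 35, 37] 100 197 false [.rel 706 0, .rel 258 2, .rel 168 0, .rel 848 2, .rel 23 1, .rel 709 1, .rel 1955 0, .rel 445 1, .rel 193 2, .rel 1422 0, .rel 1413 0, .rel 2109 1, .rel 2071 2, .rel 90 2]) .nil .nil) (.node (.relax 964 2) .nil .nil)) (.node (.relax 1906 2) (.node (.relax 853 2) .nil .nil) .nil))))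
  (.node (.relax 2195 1) (.node (.relax 808 2) (.node (.cut [2, 23, 35, 36, 42, 44, 48] 100 197 false [.rel 23 1, .rel 167 1, .rel 607 1, .rel 2239 2, .rel 1222 1, .rel 1859 1, .rel 209 2, .rel 2724 1, .rel 1242 0, .rel 124 2]) (.node (.relax 14 1) (.node (.relax 679 0) .nil .nil) (.node (.relax 61 2) .nil .nil)) (.node (.cut [3, 6, 19, 32, 39, 43, 44] 100 197 false [.rel 209 1, .rel 413 0, .rel 1441 0, .rel 108 0, .rel 976 0, .rel 9 0, .rel 268 1, .rel 1012 2, .rel 1007 2, .rel 1556 0, .rel 2188 0, .rel 96 0, .rel 1554 0, .rel 535 2]) (.node (.relax 499 1) .nil .nil) (.node (.relax 760 1) .nil .nil))) (.node (.relax 1546 2) (.node (.cut [3, 30, 35, 36, 43, 100] 100 197 false [.rel 741 0, .rel 1332 0, .rel 1333 2, .rel 747 2, .rel 2460 2, .rel 955 1, .rel 23 1, .rel 1897 0, .rel 756 2, .rel 400 0, .rel 2462 2, .rel 2924 2]) (.node (.cut [16, 17, 18, 23, 27, 33, 34, 42] 100 197 false [.rel 605 1, .rel 172 0,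 .rel 375 1, .rel 373 0, .rel 667 1, .rel 665 0, .rel 768 0, .rel 1238 1, .rel 1232 2, .rel 1849 2]) .nil .nil) (.node (.relax 994 0) .nil .nil)) (.node (.cut [2, 23, 30, 36, 39, 64] 100 197 false [.rel 814 0, .rel 413 2, .rel 21 0, .rel 172 2, .rel 525 1, .rel 1969 1, .rel 23 1, .rel 383 1, .rel 379 0, .rel 2654 1, .rel 2607 2]) (.node (.relax 2375 2) .nil .nil) .nil))) (.node (.relax 9 0) (.node (.relax 1438 2) (.node (.cut [2, 18, 29, 30, 35, 37, 0] 100 197 false [.rel 258 2, .rel 168 0, .rel 23 1, .rel 381 0, .rel 1955 0, .rel 2504 2, .rel 1890 2, .rel 1893 2, .rel 524 0, .rel 2457 2, .rel 2657 2]) (.node (.cut [6, 18, 19, 27, 35, 42] 100 197 false [.rel 172 0, .rel 188 2, .rel 730 1, .rel 9 0, .rel 525 1, .rel 526 2, .rel 1528 1, .rel 949 2, .rel 721 0, .rel 1230 2, .rel 2131 0]) .nil .nil) (.node (.relax 1487 2) .nil .nil)) (.node (.cut [18, 23, 29, 30, 36, 39, 42] 100 197 false [.rel 814 0, .rel 258 1,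 .rel 524 0, .rel 172 0, .rel 413 2, .rel 2654 1, .rel 1250 1, .rel 1844 2, .rel 2446 1, .rel 2607 2]) (.node (.relax 2990 2) .nil .nil) (.node (.relax 652 2) .nil .nil))) (.node (.relax 900 2) (.node (.relax 671 1) (.node (.cut [17, 22, 23, 27, 34, 71, 80] 100 197 false [.rel 706 0, .rel 1159 2, .rel 701 1, .rel 667 1, .rel 1174 0, .rel 657 1, .rel 671 1, .rel 673 1, .rel 1844 0, .rel 2345 2, .rel 1751 2]) .nil .nil) (.node (.cut [4, 19, 23, 33, 45, 48] 100 197 false [.rel 139 0, .rel 137 2, .rel 21 0, .rel 31 0, .rel 316 2, .rel 1290 1, .rel 2275 1, .rel 417 1, .rel 194 2, .rel 836 1, .rel 496 0, .rel 495 2, .rel 393 0, .rel 92 2]) .nil .nil)) (.node (.cut [3, 18, 36, 38, 42, 43, 97] 100 197 false [.rel 172 0, .rel 955 1, .rel 388 1, .rel 1544 0, .rel 258 1, .rel 524 0, .rel 1546 2, .rel 952 2, .rel 1533 1, .rel 103 2]) (.node (.relax 747 0) .nil .nil) .nil))))))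

def JJ_aaba : JT :=
  (.node (.relax 1018 2) (.node (.relax 1194 2) (.node (.relax 1169 2) (.node (.relax 17 1) (.node (.relax 1732 2) (.node (.relax 657 0) (.node (.cut [3, 31, 32, 36, 39, 42, 43] 100 197 false [.rel 1399 0, .rel 2150 1, .rel 108 0, .rel 976 0, .rel 1979 2, .rel 2147 2, .rel 2669 1, .rel 1556 0, .rel 3118 0, .rel 258 1, .rel 2629 0, .rel 3063 2]) .nil .nil) (.node (.relax 388 0) .nil .nil)) (.node (.relax 2074 0) (.node (.cut [17, 23, 27, 34, 48, 71, 80] 100 197 false [.rel 706 0, .rel 1159 2, .rel 701 1, .rel 667 1, .rel 1174 0, .rel 657 1, .rel 671 1, .rel 673 1, .rel 18 0, .rel 1157 2, .rel 1751 2]) .nil .nil) (.node (.cut [2, 4, 6, 40, 41, 45] 100 197 false [.rel 501 0, .rel 793 0, .rel 794 2, .rel 921 2, .rel 2100 0, .rel 1483 0, .rel 92 2]) .nil .nil))) (.node (.relax 1493 2) (.node (.cut [18, 35, 42, 58, 103, 106] 100 197 false [.rel 172 0, .rel 2454 0, .rel 2437 0, .rel 23 2, .rel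 1881 0, .rel 1890 2, .rel 1893 2, .rel 2827 1, .rel 525 1, .rel 2657 2]) (.node (.relax 733 2) .nil .nil) (.node (.cut [6, 19, 27, 39, 42, 44, 47] 100 197 false [.rel 188 2, .rel 413 0, .rel 814 1, .rel 9 0, .rel 96 0, .rel 258 1, .rel 896 0, .rel 478 2, .rel 361 0, .rel 918 1, .rel 1367 1, .rel 2071 0, .rel 909 0, .rel 499 0, .rel 94 1, .rel 486 1, .rel 917 1, .rel 3 1, .rel 1456 0]) .nil .nil)) (.node (.relax 1936 2) (.node (.relax 833 2) .nil .nil) (.node (.relax 187 1) .nil .nil)))) (.node (.relax 2362 2) (.node (.relax 1508 2) (.node (.cut [2, 6, 18, 28, 35, 36, 42] 100 197 false [.rel 23 1, .rel 167 1, .rel 166 0, .rel 18 2, .rel 1166 0, .rel 172 0, .rel 383 1, .rel 721 0, .rel 671 2, .rel 1184 1, .rel 258 1, .rel 524 0, .rel 2119 1]) (.node (.relax 736 1) .nil .nil) (.node (.cut [6, 19, 32, 39, 43, 44, 47] 100 197 false [.rel 1556 0, .rel 316 1, .rel 9 0, .rel 492 1, .rel 209 1, .rel 268 1, .rel 1562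 0, .rel 413 0, .rel 1441 0, .rel 2168 2, .rel 2189 2, .rel 2932 1, .rel 96 0, .rel 2088 0]) .nil .nil)) (.node (.cut [2, 18, 33, 35, 36, 42, 43] 100 197 false [.rel 1667 0, .rel 316 2, .rel 23 1, .rel 204 0, .rel 172 0, .rel 388 1, .rel 383 1, .rel 380 1, .rel 499 1, .rel 258 1, .rel 524 0, .rel 949 1]) (.node (.cut [2, 18, 28, 36, 42, 58, 60] 100 197 false [.rel 2798 1, .rel 23 1, .rel 1881 0, .rel 258 1, .rel 524 0, .rel 2454 1, .rel 1890 2, .rel 2385 0, .rel 728 2, .rel 2827 1, .rel 2936 2, .rel 2132 1, .rel 2131 2]) .nil .nil) (.node (.relax 30 2) .nil .nil))) (.node (.relax 2845 2) (.node (.relax 3027 1) (.node (.cut [16, 18, 22, 34, 42, 78, 113] 100 197 false [.rel 2356 0, .rel 1787 2, .rel 671 1, .rel 718 1, .rel 1263 2, .rel 1182 0, .rel 1179 0, .rel 172 0, .rel 1168 0, .rel 2431 2, .rel 1849 2]) .nil .nil) (.node (.relax 1546 1) .nil .nil)) (.node (.relax 2990 1) (.node (.relax 742 2) .nil .nil) .nil))))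 (.node (.relax 501 0) (.node (.relax 1384 2) (.node (.cut [16, 23, 33, 34, 36, 42, 47] 100 197 false [.rel 605 1, .rel 499 1, .rel 175 2, .rel 258 1, .rel 524 0, .rel 949 1, .rel 657 0, .rel 139 0, .rel 1300 1, .rel 715 0, .rel 1855 1, .rel 172 0, .rel 375 1, .rel 768 0, .rel 373 0, .rel 1243 0, .rel 1850 2, .rel 2428 0]) (.node (.cut [15, 22, 24, 32] 100 197 false [.rel 18 2, .rel 2338 1, .rel 139 2, .rel 336 1, .rel 1814 0, .rel 825 0, .rel 1391 2, .rel 1815 2, .rel 2549 2, .rel 2885 0, .rel 3047 1, .rel 442 0, .rel 2020 2, .rel 1512 2]) (.node (.cut [2, 18, 36, 39, 42, 97, 100] 100 197 false [.rel 215 1, .rel 258 1, .rel 1439 1, .rel 23 1, .rel 204 1, .rel 768 0, .rel 172 0, .rel 383 1, .rel 778 2, .rel 721 2, .rel 1273 1, .rel 1674 2]) .nil .nil) (.node (.relax 1341 2) .nil .nil)) (.node (.cut [6, 19, 32, 43, 91, 97] 100 197 false [.rel 464 1, .rel 209 1, .rel 453 0, .rel 108 2, .rel 976 0, .rel 9 0, .rel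 268 1, .rel 1012 2, .rel 278 2, .rel 563 1, .rel 77 1, .rel 550 2, .rel 90 2]) (.node (.cut [27, 28, 33, 34, 48, 86] 100 197 false [.rel 706 0, .rel 848 1, .rel 1844 2, .rel 2786 0, .rel 2001 1, .rel 1743 2, .rel 442 0, .rel 2986 1, .rel 2407 2]) .nil .nil) (.node (.cut [3, 32, 39, 43, 47, 83, 95] 100 197 false [.rel 184 1, .rel
  108 0, .rel 976 0, .rel 410 2, .rel 980 1, .rel 788 1, .rel 27 2, .rel 1340 2, .rel 533 2, .rel 862 2, .rel 2762 2, .rel 756 2, .rel 1477 0]) .nil .nil))) (.node (.tree 197 [0] 100 [45, 77, 0] (.unc 90 0 (.leaf [45, 77, 0] 100 197 false [(0, 1)] [.rel 316 2, .rel 143 2, .md 90 2 1]))) (.node (.relax 2047 0) (.node (.relax 746 2) .nil .nil) (.node (.relax 995 1) .nil .nil)) (.node (.cut [18, 26, 27, 29, 42, 44] 100 197 false [.rel 2449 0, .rel 172 0, .rel 1875 2, .rel 730 1, .rel 1309 2, .rel 1877 1, .rel 1859 2, .rel 1257 1, .rel 375 1, .rel 1854 2, .rel 2428 2]) (.node (.cut [2, 16,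 18, 28, 34, 35, 36] 100 197 false [.rel 671 1, .rel 1762 2, .rel 718 1, .rel 2382 0, .rel 23 1, .rel 1267 2, .rel 2373 0, .rel 680 2]) .nil .nil) .nil))) (.node (.tree 197 [0] 100 [20, 31, 0] (.pd 31 (.pge 31 (.fin 7 8414208 0)) (.unc 1920 1 (.leaf [20, 31, 0] 100 197 false [(0, 1)] [.rel 756 2, .rel 1920 2, .md 92 2 1])))) (.node (.relax 662 2) (.node (.relax 1737 2) (.node (.cut [19, 29, 30, 36, 43, 64] 100 197 false [.rel 1872 2, .rel 1309 0, .rel 172 2, .rel 525 1, .rel 2147 0, .rel 2517 1, .rel 955 1, .rel 388 1, .rel 1871 2, .rel 2652 2]) .nil .nil) (.node (.cut [31, 44, 50, 93, 117] 100 197 false [.rel 209 2, .rel 870 2, .rel 862 1, .rel 399 1, .rel 172 0, .rel 1340 2, .rel 2515 2]) .nil .nil)) (.node (.relax 85 2) (.node (.relax 605 1) .nil .nil) (.node (.relax 2847 0) .nil .nil))) (.node (.cut [3, 6, 23, 32, 39, 44, 47] 100 197 false [.rel 209 1, .rel 21 2, .rel 435 1, .rel 215 0, .rel 27 0, .rel 221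 0, .rel 316 1, .rel 185 1, .rel 28 2, .rel 84 0, .rel 9 0, .rel 4 1, .rel 41 2, .rel 29 0, .rel 273 2, .rel 90 2]) (.node (.relax 1368 0) (.node (.cut [16, 36, 47, 78, 113] 100 197 false [.rel 2433 0, .rel 1844 2, .rel 175 2, .rel 2422 0, .rel 1263 2, .rel 1513 2, .rel 2451 1, .rel 1848 0]) .nil .nil) (.node (.relax 1588 2) .nil .nil)) (.node (.relax 1859 2) (.node (.relax 1891 1) .nil .nil) .nil))))) (.node (.relax 1558 2) (.node (.relax 2287 1) (.node (.relax 1576 2) (.node (.relax 2308 2) (.node (.relax 158 2) (.node (.relax 2042 2) .nil .nil) (.node (.relax 1484 0) .nil .nil)) (.node (.relax 2552 2) (.node (.cut [16, 17, 18, 26, 27, 34, 35] 100 197 false [.rel 671 1, .rel 1762 2, .rel 721 1, .rel 706 0, .rel 1181 0, .rel 18 0, .rel 718 1, .rel 684 1, .rel 23 2, .rel 175 1, .rel 1263 0, .rel 1882 1, .rel 1881 0, .rel 1242 0, .rel 124 2]) .nil .nil) (.node (.tree 197 [0] 100 [18, 81, 0] (.pd 18 (.pge 18 (.fin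 7 8414208 0)) (.unc 92 0 (.leaf [18, 81, 0] 100 197 false [(0, 1)] [.rel 181 2, .md 92 2 1])))) .nil .nil))) (.node (.relax 1300 2) (.node (.cut [17, 18, 29, 42, 103, 106] 100 197 false [.rel 172 0, .rel 23 2, .rel 383 1, .rel 1272 0, .rel 1890 0, .rel 525 1, .rel 728 2, .rel 1899 2, .rel 2131 2]) (.node (.relax 2666 2) .nil .nil) (.node (.relax 2510 2) .nil .nil)) (.node (.tree 197 [0] 100 [26, 31, 0] (.pd 31 (.pge 31 (.fin 7 8414208 0)) (.leaf [26, 31, 0] 100 197 false [(0, 1)] [.rel 1854 2, .rel 756 2, .md 2924 2 1]))) (.node (.relax 3001 2) .nil .nil) (.node (.relax 2877 2) .nil .nil)))) (.node (.cut [10, 20, 23, 27, 44, 46, 47] 100 197 false [.rel 417 2, .rel 119 0, .rel 1084 1, .rel 1085 2, .rel 318 0, .rel 316 1, .rel 1290 1, .rel 2755 1, .rel 1025 1, .rel 313 1, .rel 139 2, .rel 288 1, .rel 577 0]) (.node (.relax 1294 2) (.node (.relax 2581 1) (.node (.relax 1023 2) .nil .nil) (.node (.relax 1448 0)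 .nil .nil)) (.node (.cut [2, 18, 30, 35, 36, 44, 47] 100 197 false [.rel 1955 0, .rel 316 1, .rel 23 1, .rel 1667 2, .rel 773 1, .rel 204 0, .rel 399 2, .rel 1958 1, .rel 499 1, .rel 1326 1, .rel 1674 2]) (.node (.cut [17, 18, 26, 28, 36, 42, 60] 100 197 false [.rel 258 1, .rel 524 0, .rel 2827 1, .rel 1844 0, .rel 2132 2, .rel 2798 0, .rel 2936 0, .rel 172 0, .rel 2437 1, .rel 1890 0, .rel 2122 0, .rel 728 2, .rel 2131 2]) .nil .nil) (.node (.cut [23, 36, 39, 43, 45, 83] 100 197 false [.rel 316 2, .rel 195 2, .rel 27 2, .rel 499 0, .rel 1667 1, .rel 955 0, .rel 747 1, .rel 741 0, .rel 413 2, .rel 2653 0, .rel 909 0, .rel 793 0,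
  .rel 403 0, .rel 764 0, .rel 756 2, .rel 2924 2]) .nil .nil))) (.node (.cut [17, 18, 22, 23, 42, 48, 82] 100 197 false [.rel 172 0, .rel 18 0, .rel 715 2, .rel 157 0, .rel 1844 0, .rel 1745 0, .rel 1152 0, .rel 660 2, .rel 59 1, .rel 1151 0, .rel 1156 0, .rel 667 2, .rel 1150 0]) (.node (.relax 2750 0) (.node (.cut [2, 23, 27, 35, 36, 42, 47, 48] 100 197 false [.rel 188 0, .rel 21 0, .rel 690 0, .rel 23 1, .rel 745 1, .rel 741 0, .rel 955 0, .rel 1256 0, .rel 1776 2, .rel 1859 1, .rel 2447 0, .rel 2652 2]) .nil .nil) (.node (.relax 956 0) .nil .nil)) (.node (.cut [2, 18, 29, 36, 38, 42, 52] 100 197 false [.rel 258 1, .rel 2461 2, .rel 2591 1, .rel 2150 0, .rel 756 0, .rel 1520 1, .rel 955 1, .rel 175 0, .rel 747 1, .rel 742 2, .rel 741 2, .rel 1903 2]) (.node (.relax 1469 2) .nil .nil) .nil)))) (.node (.relax 2773 2) (.node (.relax 175 0) (.node (.cut [18, 23, 29, 42, 44, 60] 100 197 false [.rel 1875 0, .rel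 2449 0, .rel 172 0, .rel 730 1, .rel 1309 2, .rel 1877 1, .rel 1859 2, .rel 1257 1, .rel 375 1, .rel 1854 2, .rel 2428 2]) (.node (.tree 197 [0] 100 [5, 0] (.pd 5 (.pge 5 (.fin 7 8414208 0)) (.leaf [5, 0] 100 197 false [(0, 1)] [.md 90 2 1]))) (.node (.relax 741 2) .nil .nil) (.node (.cut [2, 6, 19, 32, 36, 42, 47] 100 197 false [.rel 209 1, .rel 9 0, .rel 268 1, .rel 23 1, .rel 167 1, .rel 452 2, .rel 1192 1, .rel 555 2, .rel 258 1, .rel 1519 1, .rel 2127 1, .rel 952 1, .rel 103 2]) .nil .nil)) (.node (.cut [3, 23, 39, 42, 47, 117] 100 197 false [.rel 21 2, .rel 786 2, .rel 108 0, .rel 464 1, .rel 1309 0, .rel 83 1, .rel 690 1, .rel 220 1, .rel 197 2, .rel 1400 0, .rel 761 0, .rel 189 2, .rel 419 2, .rel 535 2]) (.node (.cut [16, 18, 26, 28, 34, 35] 100 197 false [.rel 671 1, .rel 1762 2, .rel 718 1, .rel 2382 0, .rel 2798 2, .rel 2373 0, .rel 673 1, .rel 1854 2, .rel 2428 2]) .nil .nil) (.node (.relax 459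 2) .nil .nil))) (.node (.cut [2, 18, 23, 28, 36, 58] 100 197 false [.rel 23 1, .rel 361 2, .rel 72 1, .rel 167 1, .rel 729 1, .rel 731 2, .rel 1794 0, .rel 258 1, .rel 524 0, .rel 728 2, .rel 188 0, .rel 1249 2, .rel 2131 2]) (.node (.relax 174 1) (.node (.relax 175 2) .nil .nil) (.node (.relax 1491 2) .nil .nil)) (.node (.cut [2, 18, 29, 33, 35, 36, 38] 100 197 false [.rel 2492 0, .rel 23 1, .rel 909 2, .rel 1315 0, .rel 399 2, .rel 1260 1, .rel 1338 1, .rel 742 0, .rel 1529 1]) (.node (.relax 142 2) .nil .nil) .nil))) (.node (.relax 197 2) (.node (.relax 459 1) (.node (.relax 2936 1) (.node (.relax 731 2) .nil .nil) (.node (.cut [2, 18, 36, 43, 44, 48] 100 197 false [.rel 690 2, .rel 175 0, .rel 172 0, .rel 375 1, .rel 23 1, .rel 745 1, .rel 742 2, .rel 724 2, .rel 1246 0, .rel 955 0, .rel 1851 1]) .nil .nil)) (.node (.cut [2, 17, 23, 33, 35, 39] 100 197 false [.rel 139 0, .rel 499 2, .rel 215 0, .rel 77 2,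 .rel 631 1, .rel 721 0, .rel 768 2, .rel 396 1, .rel 52 0, .rel 11 2, .rel 1475 0]) (.node (.cut [2, 30, 35, 36, 42, 44, 47] 100 197 false [.rel 23 1, .rel 316 1, .rel 1667 2, .rel 204 0, .rel 690 1, .rel 167 1, .rel 452 0, .rel 1955 0, .rel 209 2, .rel 2043 1, .rel 499 1, .rel 1326 1, .rel 1674 2]) .nil .nil) (.node (.relax 28 2) .nil .nil))) (.node (.relax 1590 2) (.node (.cut [2, 27, 33, 37, 68] 100 197 false [.rel 258 2, .rel 768 2, .rel 605 1, .rel 23 1, .rel 204 0, .rel 1263 0, .rel 1265 2, .rel 77 2, .rel 1323 1, .rel 738 1, .rel 680 2]) (.node (.relax 2745 2) .nil .nil) (.node (.cut [14, 18, 22, 23, 33, 44, 48] 100 197 false [.rel 442 0, .rel 20 2, .rel 769 1, .rel 175 0, .rel 667 1, .rel 1845 1, .rel 14 1, .rel 1067 1, .rel 1068 2, .rel 139 0, .rel 1657 1, .rel 1654 0]) .nil .nil)) (.node (.cut [2, 19, 36, 42, 47, 117] 100 197 false [.rel 786 2, .rel 690 1, .rel 23 1, .rel 167 1, .rel 452 0, .rel 209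 2, .rel 872 1, .rel 745 1, .rel 555 2, .rel 955 0, .rel 2127 1, .rel 9 0, .rel 952 1, .rel 103 2]) (.node (.cut [26, 28, 36, 48, 62, 78] 100 197 false [.rel 2347 0, .rel 1819 2, .rel 2352 0, .rel 2338 2, .rel 2790 0, .rel 706 2, .rel 1147 2, .rel 258 1, .rel 2116 2]) .nil .nil) .nil))))))

def JJ_aabb : JT :=
  (.node (.relax 1615 2) (.node (.relax 189 0) (.node (.relax 238 2) (.node (.cut [17, 18, 22, 23, 34, 48, 71] 100 197 false [.rel 1844 0, .rel 18 0, .rel 1745 0, .rel 373 2, .rel 768 0, .rel 671 1, .rel 2341 1, .rel 667 1, .rel 662 2, .rel 59 1, .rel 1151 0, .rel 1153 0]) (.node (.relax 1787 2) (.node (.relax 1508 0) (.node (.cut [2, 18, 37, 38, 54, 124] 100 197 false [.rel 1964 0, .rel 258 2, .rel 2591 1, .rel 2150 0, .rel 756 0, .rel 1333 2, .rel 524 0, .rel 2143 2, .rel 168 0, .rel 23 1, .rel 381 0, .rel 380 1, .rel 2665 1, .rel 741 2, .rel 1903 2]) .nil .nil) (.node (.relax 745 1) .nil .nil)) (.node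 (.relax 267 2) (.node (.relax 2352 2) .nil .nil) (.node (.relax 479 2) .nil .nil))) (.node (.relax 163 2) (.node (.cut [2, 26, 36, 58, 68, 76] 100 197 false [.rel 23 1, .rel 2798 2, .rel 1881 0, .rel 2810 2, .rel 728 2, .rel 1786 2, .rel 258 1, .rel 2827 1, .rel 3077 2, .rel 2119 1]) (.node (.relax 2151 2) .nil .nil) (.node (.relax 1970 2) .nil .nil)) (.node (.relax 760 2) (.node (.cut [2, 30, 33, 36, 42, 43, 52] 100 197 false [.rel 23 1, .rel 167 1, .rel 1309 1, .rel 139 0, .rel 425 2, .rel 202 0, .rel 204 0, .rel 72 1, .rel 76 0, .rel 27 0, .rel 193 2, .rel 838 0, .rel 499 1, .rel 188 0, .rel 1058 1, .rel 361 0, .rel 1203 1, .rel 2071 2, .rel 90 2]) .nil .nil) (.node (.cut [14, 23, 33, 46, 47, 48, 86] 100 197 false [.rel 132 1, .rel 1844 2, .rel 2892 1, .rel 20 1, .rel 139 0, .rel 825 0, .rel 1301 0, .rel 2559 2, .rel 1845 1, .rel 2740 0, .rel 442 0, .rel 201 0, .rel 395 0, .rel 2731 0]) .nil .nil)))) (.node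 (.relax 501 2) (.node (.cut [6, 20, 23, 36, 44, 47, 48] 100 197 false [.rel 496 2, .rel 121 0, .rel 9 0, .rel 232 1, .rel 188 1, .rel 479 2, .rel 1365 1, .rel 1567 0, .rel 316 1, .rel 1484 0, .rel 487 0, .rel 495 0, .rel 68 1, .rel 2064 1]) (.node (.relax 1955 0) (.node (.cut [18, 19, 23, 36, 42, 46, 47] 100 197 false [.rel 172 0, .rel 188 1, .rel 730 1, .rel 607 2, .rel 175 0, .rel 1254 1, .rel 413 0, .rel 1248 1, .rel 690 0, .rel 1847 2, .rel 2444 1, .rel 258 1, .rel 1519 1, .rel 2649 0]) .nil .nil) (.node (.cut [2, 31, 39, 43, 47, 83] 100 197 false [.rel 1556 0, .rel 27 2, .rel 1341 1, .rel 184 1, .rel 764 2, .rel 790 0, .rel 1311 0, .rel 195 2, .rel 2471 2, .rel 756 2, .rel 316 1, .rel 793 2, .rel 2924 2]) .nil .nil)) (.node (.cut [2, 29, 36, 39, 43, 54] 100 197 false [.rel 2948 1, .rel 2461 0, .rel 747 1, .rel 2653 2, .rel 2460 1, .rel 2150 0, .rel 756 2, .rel 1556 0, .rel 2084 1, .rel 2924 2]) (.node (.cut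 [18, 34, 36, 58, 60, 68, 76] 100 197 false [.rel 2454 1, .rel 768 1, .rel 2499 1, .rel 1955 2, .rel 2456 0, .rel 2452 2, .rel 1891 0, .rel 373 0, .rel 2655 2]) .nil .nil) (.node (.relax 2550 2) .nil .nil))) (.node (.cut [16, 17, 18, 22, 25, 42, 48] 100 197 false [.rel 172 0, .rel 18 0, .rel 157 0, .rel 175 1, .rel 1844 0, .rel 2422 0, .rel 661 1, .rel 657 2, .rel 1159 0, .rel 660 2, .rel 1745 0, .rel 1752 1, .rel 671 1, .rel 1748 0]) (.node (.relax 193 2) (.node (.cut [16, 17, 22, 25, 42, 47] 100 197 false [.rel 1844 0, .rel 175 2, .rel 2422 0, .rel 2786 0, .rel 1747 1, .rel 657 2, .rel 1159 0, .rel 660 2, .rel 1752 1, .rel 671 1, .rel 1748 0]) .nil .nil) (.node (.tree 197 [0] 100 [4, 18, 0] (.pd 4 (.pge 4 (.fin 7 8414208 0)) (.leaf [4, 18, 0] 100 197 false [(0, 1)] [.md 92 2 1]))) .nil .nil)) (.node (.cut [2, 19, 29, 35, 42, 43, 47] 100 197 false [.rel 1872 2, .rel 21 0, .rel 747 1, .rel 741 0, .rel 690 1,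 .rel 1776 2, .rel 2653 0, .rel 2652 2]) (.node (.cut [2, 18, 30, 31, 42, 124] 100 197 false [.rel 172 0, .rel 1334 2, .rel 1308 1, .rel 1333 2, .rel 1964 2, .rel 1330 2, .rel 2864 2, .rel 1955 2, .rel 383 1, .rel 1961 2, .rel 3035 2, .rel 2927 2]) .nil .nil) .nil)))) (.node (.relax 1680 0) (.node (.cut [18, 23, 26, 33, 48, 60] 100 197 false [.rel 139 0, .rel 825 0, .rel 2484 2, .rel 1301 0, .rel 1884 2, .rel 442 0, .rel 769 1, .rel 2432 0, .rel 1861 1, .rel 1854 2, .rel 2428 2]) (.node (.relax 16 2) (.node (.cut [14, 15, 21, 22, 23, 33, 46] 100 197 false [.rel 641 0, .rel 132 1, .rel 1614 1, .rel 139 0, .rel 18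
  2, .rel 336 1, .rel 1615 2, .rel 825 0, .rel 1644 1, .rel 2533 1, .rel 1384 1, .rel 696 0, .rel 149 1, .rel 442 0, .rel 1622 1, .rel 2028 1, .rel 1503 1]) (.node (.relax 1263 0) .nil .nil) (.node (.relax 2926 2) .nil .nil)) (.node (.cut [3, 32, 38, 39, 43, 95, 97] 100 197 false [.rel 108 0, .rel 976 0, .rel 1544 0, .rel 1548 2, .rel 2167 0, .rel 1556 0, .rel 3028 1, .rel 2084 1, .rel 862 2, .rel 2762 2, .rel 756 2, .rel 1477 0]) (.node (.relax 500 2) .nil .nil) (.node (.cut [2, 6, 36, 39, 43, 47, 83] 100 197 false [.rel 27 2, .rel 955 0, .rel 1556 0, .rel 2514 0, .rel 23 1, .rel 745 1, .rel 741 0, .rel 909 0, .rel 215 0, .rel 400 0, .rel 398 2, .rel 2283 2]) .nil .nil))) (.node (.relax 2404 0) (.node (.relax 413 0) (.node (.relax 1898 2) .nil .nil) (.node (.relax 2406 2) .nil .nil)) (.node (.cut [18, 27, 29, 30, 36, 42, 43] 100 197 false [.rel 172 0, .rel 1256 1, .rel 388 1, .rel 730 1, .rel 728 1, .rel 955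 0, .rel 188 0, .rel 1871 2, .rel 2652 2]) (.node (.cut [2, 18, 30, 36, 42, 47, 97] 100 197 false [.rel 172 0, .rel 23 1, .rel 383 1, .rel 400 0, .rel 399 2, .rel 780 0, .rel 24 2, .rel 178 0, .rel 20 0, .rel 198 2, .rel 92 2]) .nil .nil) .nil))) (.node (.relax 195 2) (.node (.cut [13, 23, 27, 33, 48, 86] 100 197 false [.rel 442 0, .rel 1844 2, .rel 2986 1, .rel 2786 0, .rel 2344 1, .rel 1815 2, .rel 665 0, .rel 1716 1, .rel 1813 2, .rel 2782 2]) (.node (.cut [28, 36, 42, 106, 0] 100 197 false [.rel 1890 2, .rel 1787 1, .rel 2385 0, .rel 728 2, .rel 1786 2, .rel 258 1, .rel 2812 2, .rel 3077 2, .rel 2119 1]) (.node (.cut [2, 6, 18, 19, 35, 37] 100 197 false [.rel 258 2, .rel 168 0, .rel 23 1, .rel 381 0, .rel 9 0, .rel 524 0, .rel 526 2, .rel 1528 1, .rel 721 0, .rel 949 2, .rel 1278 0]) .nil .nil) (.node (.relax 208 2) .nil .nil)) (.node (.cut [3, 18, 38, 39, 43, 52, 97] 100 197 false [.rel 108 0, .rel 976 0,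 .rel 1544 0, .rel 1979 2, .rel 2167 0, .rel 1556 0, .rel 1308 2, .rel 3028 1, .rel 2653 0, .rel 2942 2]) (.node (.cut [2, 17, 24, 36, 47, 48] 100 197 false [.rel 18 0, .rel 139 2, .rel 336 1, .rel 338 2, .rel 825 0, .rel 1386 1, .rel 23 1, .rel 25 2, .rel 149 1, .rel 442 0, .rel 845 0, .rel 681 1, .rel 348 1, .rel 124 2]) .nil .nil) (.node (.relax 2013 2) .nil .nil))) (.node (.relax 1429 2) (.node (.relax 998 2) (.node (.cut [16, 27, 28, 34, 36, 60, 68] 100 197 false [.rel 1787 1, .rel 706 0, .rel 1181 0, .rel 671 1, .rel 2370 2, .rel 2374 1, .rel 1762 1, .rel 2452 2, .rel 1783 1, .rel 2655 2]) .nil .nil) (.node (.relax 334 2) .nil .nil)) (.node (.relax 187 2) (.node (.tree 197 [0] 100 [71, 103, 0] (.pd 103 (.pge 103 (.fin 7 8414208 0)) (.leaf [71, 103, 0] 100 197 false [(0, 1)] [.md 680 2 1]))) .nil .nil) .nil))))) (.node (.relax 945 2) (.node (.cut [2, 6, 18, 19, 23, 36, 39, 43] 100 197 false [.rel 21 0, .rel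 108 0, .rel 4 1, .rel 23 1, .rel 5 0, .rel 20 2, .rel 40 1, .rel 176 1, .rel 19 1, .rel 95 1, .rel 235 1]) (.node (.relax 2833 0) (.node (.cut [6, 19, 20, 23, 34, 44, 47] 100 197 false [.rel 413 0, .rel 605 2, .rel 1028 1, .rel 814 1, .rel 121 0, .rel 9 0, .rel 96 0, .rel 230 1, .rel 478 2, .rel 1806 1, .rel 2071 0, .rel 496 0, .rel 909 0, .rel 486 1, .rel 917 1, .rel 3 1, .rel 1456 0]) (.node (.relax 1160 1) (.node (.relax 1305 2) .nil .nil) (.node (.cut [16, 17, 22, 23, 25, 33, 47] 100 197 false [.rel 1844 0, .rel 175 2, .rel 2422 0, .rel 1159 0, .rel 2786 0, .rel 139 0, .rel 715 0, .rel 1753 1, .rel 373 0, .rel 665 2, .rel 1153 2]) .nil .nil)) (.node (.cut [3, 6, 39, 42, 44, 47, 95] 100 197 false [.rel 316 1, .rel 793 2, .rel 27 0, .rel 909 1, .rel 108 0, .rel 110 0, .rel 28 1, .rel 215 0, .rel 79 2, .rel 208 1, .rel 1606 1, .rel 605 0, .rel 1107 2, .rel 90 2]) (.node (.cut [2, 16, 27, 28, 34, 36, 42] 100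 197 false [.rel 671 1, .rel 361 1, .rel 23 1, .rel 72 1, .rel 167 1, .rel 353 1, .rel 706 0, .rel 258 1, .rel 2109 1, .rel 188 0, .rel 1769 0, .rel 2116 2]) .nil .nil) (.node (.relax 742 0) .nil .nil))) (.node (.cut [2, 18, 30, 38, 39, 43, 52] 100 197 false [.rel 1309 1, .rel 814 0, .rel 413 2, .rel 21 0,
  .rel 1556 0, .rel 2514 0, .rel 747 1, .rel 741 0, .rel 1308 2, .rel 2943 1, .rel 2942 2]) (.node (.relax 4 2) (.node (.cut [2, 18, 28, 35, 42, 68, 76] 100 197 false [.rel 1787 1, .rel 172 0, .rel 2355 1, .rel 1235 2, .rel 1862 0, .rel 375 2, .rel 1237 1, .rel 721 1, .rel 124 2]) .nil .nil) (.node (.cut [18, 19, 23, 39, 42, 43, 44, 47] 100 197 false [.rel 1556 0, .rel 413 0, .rel 2472 1, .rel 172 0, .rel 316 1, .rel 1076 1, .rel 690 1, .rel 175 0, .rel 660 0, .rel 1847 2, .rel 2831 0, .rel 2940 1]) .nil .nil)) (.node (.relax 74 2) (.node (.relax 400 0) .nil .nil) .nil))) (.node (.relax 1355 2) (.node (.cut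 [2, 18, 23, 27, 36, 42, 44] 100 197 false [.rel 188 0, .rel 21 0, .rel 27 0, .rel 361 0, .rel 729 1, .rel 172 0, .rel 731 2, .rel 74 2, .rel 759 1, .rel 38 2, .rel 378 0, .rel 103 2]) (.node (.relax 452 2) (.node (.relax 2447 2) .nil .nil) (.node (.cut [18, 39, 42, 44, 47, 117] 100 197 false [.rel 172 0, .rel 316 1, .rel 1970 2, .rel 1556 2, .rel 1076 1, .rel 785 2, .rel 724 2, .rel 215 2, .rel 1668 1, .rel 2255 1]) .nil .nil)) (.node (.cut [2, 23, 29, 30, 33, 36, 42] 100 197 false [.rel 23 1, .rel 167 1, .rel 139 0, .rel 425 2, .rel 202 0, .rel 204 0, .rel 72 1, .rel 76 0, .rel 193 2, .rel 832 0, .rel 499 1, .rel 188 0, .rel 1058 1, .rel 1203 1, .rel 2071 2, .rel 90 2]) (.node (.relax 721 1) .nil .nil) (.node (.relax 2420 0) .nil .nil))) (.node (.cut [18, 23, 26, 27, 33, 34, 48] 100 197 false [.rel 706 0, .rel 139 0, .rel 825 0, .rel 2484 2, .rel 1105 0, .rel 1301 0, .rel 1300 1, .rel 1299 0, .rel 442 0, .rel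 1950 0, .rel 769 1, .rel 1063 0, .rel 768 0, .rel 1072 0, .rel 1854 2, .rel 2428 2]) (.node (.relax 3028 2) (.node (.relax 188 0) .nil .nil) (.node (.relax 380 2) .nil .nil)) (.node (.relax 3071 2) (.node (.cut [2, 30, 36, 38, 42, 54, 97] 100 197 false [.rel 2147 1, .rel 464 0, .rel 23 1, .rel 167 1, .rel 258 1, .rel 108 2, .rel 549 0, .rel 193 2, .rel 1571 1, .rel 711 1, .rel 697 2, .rel 2071 2, .rel 90 2]) .nil .nil) .nil)))) (.node (.relax 2168 0) (.node (.relax 582 0) (.node (.relax 1776 2) (.node (.relax 1381 2) (.node (.relax 1265 2) .nil .nil) (.node (.relax 2168 2) .nil .nil)) (.node (.cut [2, 19, 27, 42, 43, 44, 47] 100 197 false [.rel 188 2, .rel 1256 0, .rel 413 0, .rel 195 1, .rel 690 1, .rel 21 0, .rel 220 1, .rel 197 2, .rel 1826 0, .rel 38 2, .rel 734 0, .rel 103 2]) (.node (.cut [2, 18, 35, 36, 42, 58, 60] 100 197 false [.rel 2798 1, .rel 23 1, .rel 1881 0, .rel 2454 1, .rel 1890 2, .rel 1893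 2, .rel 2827 1, .rel 258 1, .rel 524 0, .rel 2657 2]) .nil .nil) (.node (.cut [6, 19, 47, 50, 83, 89] 100 197 false [.rel 533 2, .rel 1556 2, .rel 2139 1, .rel 978 1, .rel 977 1, .rel 9 0, .rel 531 2, .rel 1552 2]) .nil .nil))) (.node (.relax 1570 2) (.node (.relax 2380 1) (.node (.relax 355 0) .nil .nil) (.node (.cut [6, 18, 29, 35, 36, 42, 54] 100 197 false [.rel 258 1, .rel 524 0, .rel 1546 1, .rel 2493 2, .rel 2664 1, .rel 742 0, .rel 949 1]) .nil .nil)) (.node (.cut [18, 23, 30, 35, 36, 39, 42] 100 197 false [.rel 814 0, .rel 258 1, .rel 524 0, .rel 172 0, .rel 413 2, .rel 2654 1, .rel 1955 0, .rel 1969 1, .rel 1844 2, .rel 3000 1, .rel 2427 0]) (.node (.relax 745 2) .nil .nil) .nil))) (.node (.relax 209 1) (.node (.cut [3, 23, 36, 40, 43, 44] 100 197 false [.rel 909 2, .rel 499 0, .rel 21 2, .rel 23 1, .rel 24 0, .rel 27 0, .rel 184 1, .rel 181 0, .rel 413 0, .rel 955 0, .rel 1556 0, .rel 2943 1, .rel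 215 0, .rel 196 1, .rel 188 1, .rel 757 0, .rel 756 2, .rel 2924 2]) (.node (.relax 403 0) (.node (.cut [2, 30, 35, 38, 64, 97] 100 197 false [.rel 1544 0, .rel 2493 2, .rel 1336 1, .rel 1955 0, .rel 785 2, .rel 2512 0, .rel 1326 1, .rel 1674 2]) .nil .nil) (.node (.relax 488 2) .nil .nil)) (.node (.cut [2, 18, 27, 30, 34, 35, 36] 100 197 false [.rel 1955 0, .rel 706 0, .rel 848 2, .rel 1318 0, .rel 768 0, .rel 23 1, .rel 1265 2, .rel 2498 1, .rel 1886 1, .rel 721 1, .rel 680 2]) (.node (.relax 2750 2) .nil .nil) (.node (.relax 318 2) .nil .nil))) (.node (.cut [2, 30, 36, 38, 43, 54, 97] 100 197 false [.rel 2147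
  1, .rel 464 0, .rel 747 1, .rel 1544 0, .rel 108 2, .rel 1547 0, .rel 1906 0, .rel 1871 2, .rel 23 1, .rel 200 1, .rel 199 1, .rel 755 0, .rel 756 2, .rel 955 1, .rel 909 0, .rel 2924 2]) (.node (.relax 2819 2) (.node (.cut [16, 17, 22, 27, 34, 48, 78] 100 197 false [.rel 1844 0, .rel 18 0, .rel 1745 0, .rel 706 0, .rel 1181 0, .rel 2352 2, .rel 2345 0, .rel 671 1, .rel 1179 2, .rel 2118 2]) .nil .nil) (.node (.relax 1536 2) .nil .nil)) (.node (.relax 204 1) (.node (.relax 2030 0) .nil .nil) .nil))))))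

def JJ_abaa : JT :=
  (.node (.relax 364 2) (.node (.cut [18, 23, 29, 30, 36, 42, 47] 100 197 false [.rel 172 0, .rel 1256 2, .rel 388 1, .rel 730 1, .rel 728 1, .rel 955 0, .rel 188 0, .rel 1871 2, .rel 2652 2]) (.node (.relax 108 2) (.node (.relax 673 2) (.node (.cut [17, 22, 23, 33, 42, 46, 47] 100 197 false [.rel 1844 0, .rel 607 2, .rel 2969 1, .rel 139 0, .rel 690 0, .rel 316 1, .rel 2260 0, .rel 1716 2, .rel 1058 1, .rel 2975 0, .rel 1667 1, .rel 605 0, .rel 2973 1]) (.node (.cut [23, 29, 34, 60, 64] 100 197 false [.rel 1875 0, .rel 172 2, .rel 730 1, .rel 657 0, .rel 361 0, .rel 2019 1, .rel 833 2, .rel 1395 1, .rel 2798 0, .rel 2382 2, .rel 1211 2, .rel 1775 1, .rel 375 1, .rel 1854 2, .rel 2428 2]) (.node (.cut [31, 38, 39, 42, 95, 97] 100 197 false [.rel 1544 0, .rel 1548 2, .rel 870 0, .rel 209 2, .rel 862 1, .rel 2159 2, .rel 399 1, .rel 258 1, .rel 524 0, .rel 2612 2]) .nil .nil) (.node (.relax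 729 2) .nil .nil)) (.node (.relax 2419 1) (.node (.cut [16, 17, 25, 27, 34, 71, 78] 100 197 false [.rel 706 0, .rel 1181 0, .rel 1732 1, .rel 2262 2, .rel 2371 0, .rel 671 1, .rel 1319 0, .rel 1763 1, .rel 1232 2, .rel 1849 2]) .nil .nil) (.node (.cut [6, 19, 32, 33, 44, 47, 48] 100 197 false [.rel 209 1, .rel 9 0, .rel 268 1, .rel 442 0, .rel 555 2, .rel 1583 2, .rel 1584 1, .rel 316 1, .rel 1448 1, .rel 1450 1, .rel 469 1, .rel 94 1, .rel 492 1, .rel 904 1]) .nil .nil))) (.node (.relax 1052 2) (.node (.cut [29, 30, 35, 37, 58, 76] 100 197 false [.rel 1955 0, .rel 2385 2, .rel 2456 0, .rel 1891 0, .rel 2382 1, .rel 2381 2, .rel 2812 2, .rel 2934 2]) (.node (.relax 378 2) .nil .nil) (.node (.relax 1391 0) .nil .nil)) (.node (.cut [2, 18, 27, 33, 39, 42] 100 197 false [.rel 499 2, .rel 215 0, .rel 172 0, .rel 1074 0, .rel 1263 0, .rel 23 1, .rel 1265 2, .rel 77 2, .rel 1323 1, .rel 738 1, .rel 680 2]) (.node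 (.cut [2, 23, 30, 33, 36, 42, 47] 100 197 false [.rel 23 1, .rel 167 1, .rel 139 0, .rel 425 2, .rel 202 0, .rel 204 0, .rel 72 1, .rel 76 0, .rel 757 0, .rel 193 2, .rel 428 1, .rel 499 1, .rel 188 0, .rel 1058 1, .rel 361 0, .rel 1203 1, .rel 2071 2, .rel 90 2]) .nil .nil) (.node (.relax 1484 2) .nil .nil)))) (.node (.relax 129 2) (.node (.relax 1871 2) (.node (.relax 567 2) (.node (.cut [2, 3, 18, 19, 36, 39, 42] 100 197 false [.rel 108 0, .rel 258 1, .rel 21 1, .rel 698 1, .rel 23 1, .rel 72 0, .rel 729 1, .rel 524 0, .rel 731 2, .rel 266 2, .rel 1537 1, .rel 951 0, .rel 103 2]) .nil .nil) (.node (.relax 392 2) .nil .nil)) (.node (.relax 172 0) (.node (.cut [18, 28, 30, 42, 47, 60] 100 197 false [.rel 1884 2, .rel 729 1, .rel 757 0, .rel 1952 2, .rel 1305 0, .rel 361 1, .rel 1256 2, .rel 1254 0, .rel 1875 0, .rel 1858 2, .rel 1854 2, .rel 2428 2]) .nil .nil) (.node (.relax 2872 2) .nil .nil))) (.node (.cut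 [18, 23, 28, 34, 48, 71] 100 197 false [.rel 373 2, .rel 361 2, .rel 605 1, .rel 172 0, .rel 375 1, .rel 667 1, .rel 665 0, .rel 175 1, .rel 768 0, .rel 1243 0, .rel 1238 1, .rel 1855 1, .rel 1854 2, .rel 2428 2]) (.node (.relax 969 2) (.node (.cut [17, 18, 22, 23, 26, 71] 100 197 false [.rel 1844 0, .rel 373 2, .rel 667 1, .rel 1855 2, .rel 2431 0, .rel 665 2, .rel 2422 0, .rel 1153 2]) .nil .nil) (.node (.relax 743 0) .nil .nil)) (.node (.relax 2052 0) (.node (.cut [2, 6, 31, 32, 37, 39] 100 197 false [.rel 209 1, .rel 258 2, .rel 1399 0, .rel 23 1, .rel 1334 0, .rel 168 0, .rel 452 2, .rel 2171 0, .rel 2864 1, .rel 1955 2, .rel 2043 1, .rel 1326 1, .rel 1674 2]) .nil .nil) .nil)))) (.node (.relax 1209 2) (.node (.relax 1784 2) (.node (.relax 121 0) (.node (.relax 2484 2) (.node (.cut [18, 37, 52, 100, 124] 100 197 false [.rel 258 2, .rel 1964 2, .rel 2591 1, .rel 2150 0, .rel 756 0, .rel 168 0, .rel 23 1,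 .rel 381 0, .rel 1333 2, .rel 778 2, .rel 2665 2, .rel 741 2, .rel 1277 2, .rel 1903 2]) .nil .nil) (.node (.cut [2, 6, 19, 32, 36, 43, 47] 100 197 false [.rel 209 1, .rel 9 0, .rel 268 1, .rel 23 1, .rel 745 1, .rel 1337 2, .rel 555 2, .rel 955 0, .rel 2127 1, .rel 952 1, .rel 103 2]) .nil .nil)) (.node (.cut [6, 31, 32, 43, 44,
  97] 100 197 false [.rel 209 1, .rel 215 2, .rel 786 1, .rel 870 2, .rel 862 1, .rel 1556 0, .rel 399 1, .rel 172 0, .rel 1340 2, .rel 2515 2]) (.node (.relax 700 2) .nil .nil) (.node (.relax 688 0) .nil .nil))) (.node (.relax 2250 0) (.node (.relax 1875 0) (.node (.relax 2665 2) .nil .nil) (.node (.relax 814 0) .nil .nil)) (.node (.cut [23, 33, 39, 43, 47, 83] 100 197 false [.rel 499 2, .rel 195 2, .rel 27 2, .rel 316 1, .rel 1667 1, .rel 955 0, .rel 747 1, .rel 741 0, .rel 413 2, .rel 2653 0, .rel 909 0, .rel 793 0, .rel 403 0, .rel 764 0, .rel 756 2, .rel 2924 2]) (.node (.relax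 2809 0) .nil .nil) .nil))) (.node (.relax 419 1) (.node (.relax 1169 0) (.node (.relax 1737 0) (.node (.relax 2313 2) .nil .nil) (.node (.relax 1413 2) .nil .nil)) (.node (.cut [18, 29, 39, 42, 54, 100] 100 197 false [.rel 2948 1, .rel 2665 2, .rel 2653 2, .rel 2460 1, .rel 172 0, .rel 2517 2, .rel 2925 2]) (.node (.cut [2, 18, 26, 27, 33, 34, 36] 100 197 false [.rel 23 1, .rel 768 0, .rel 1263 0, .rel 1265 2, .rel 1881 0, .rel 1317 2, .rel 1235 0, .rel 1232 2, .rel 2134 2]) .nil .nil) (.node (.cut [6, 19, 32, 33, 43, 44, 47] 100 197 false [.rel 316 1, .rel 9 0, .rel 492 1, .rel 209 1, .rel 268 1, .rel 1562 0, .rel 1667 1, .rel 2168 2, .rel 2776 2, .rel 3044 1, .rel 2521 1]) .nil .nil))) (.node (.relax 722 2) (.node (.relax 3083 0) (.node (.cut [18, 27, 28, 35, 42, 48, 68] 100 197 false [.rel 1762 0, .rel 729 1, .rel 1787 1, .rel 671 2, .rel 1786 0, .rel 172 0, .rel 1168 0, .rel 361 1, .rel 1238 1, .rel 688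 1, .rel 1857 1, .rel 1854 2, .rel 2428 2]) .nil .nil) (.node (.relax 1012 2) .nil .nil)) (.node (.cut [26, 27, 33, 35, 42, 76] 100 197 false [.rel 729 2, .rel 361 1, .rel 1859 0, .rel 1667 0, .rel 316 2, .rel 139 0, .rel 425 0, .rel 172 0, .rel 388 1, .rel 728 1, .rel 1076 1, .rel 1854 2, .rel 2428 2]) (.node (.relax 1260 1) .nil .nil) .nil))))) (.node (.relax 1740 2) (.node (.cut [18, 19, 29, 30, 36, 42, 43] 100 197 false [.rel 1872 2, .rel 1309 0, .rel 258 1, .rel 524 0, .rel 172 0, .rel 2147 0, .rel 2517 1, .rel 1520 1, .rel 955 1, .rel 175 0, .rel 1871 2, .rel 2652 2]) (.node (.relax 1041 2) (.node (.relax 1300 1) (.node (.cut [16, 18, 23, 34, 36, 42, 86] 100 197 false [.rel 258 1, .rel 524 0, .rel 2132 2, .rel 698 1, .rel 172 0, .rel 671 1, .rel 1168 0, .rel 657 0, .rel 1159 0, .rel 1161 0, .rel 2119 1]) (.node (.relax 2460 2) .nil .nil) (.node (.relax 2562 2) .nil .nil)) (.node (.cut [6, 19, 32, 39, 48,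 95] 100 197 false [.rel 209 1, .rel 9 0, .rel 268 1, .rel 555 2, .rel 1470 0, .rel 258 2, .rel 1580 1, .rel 108 0, .rel 1544 2, .rel 1581 1, .rel 964 0, .rel 962 2]) (.node (.cut [16, 17, 23, 27, 34, 42, 48, 68] 100 197 false [.rel 361 0, .rel 18 0, .rel 671 1, .rel 670 0, .rel 166 1, .rel 657 0, .rel 1159 0, .rel 168 2, .rel 1195 0, .rel 672 0, .rel 124 2]) .nil .nil) (.node (.relax 2404 1) .nil .nil))) (.node (.relax 2024 2) (.node (.relax 1834 2) (.node (.cut [18, 30, 35, 36, 42, 44, 76] 100 197 false [.rel 172 0, .rel 1876 0, .rel 258 1, .rel 524 0, .rel 1238 2, .rel 2435 1, .rel 1955 0, .rel 1844 2, .rel 3000 1, .rel 2427 0]) .nil .nil) (.node (.relax 2190 2) .nil .nil)) (.node (.relax 1606 0) (.node (.cut [2, 23, 30, 33, 36, 43, 47] 100 197 false [.rel 139 0, .rel 425 2, .rel 1256 0, .rel 23 1, .rel 202 0, .rel 757 0, .rel 72 1, .rel 755 1, .rel 630 0, .rel 188 0, .rel 2469 0, .rel 756 2, .rel 499 1, .rel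 909 0, .rel 2924 2]) .nil .nil) (.node (.cut [13, 17, 18, 22, 25, 48, 71] 100 197 false [.rel 18 0, .rel 373 2, .rel 59 1, .rel 1732 1, .rel 149 1, .rel 1733 2, .rel 1137 1, .rel 1844 0, .rel 1745 0, .rel 1151 0, .rel 664 0, .rel 151 0, .rel 663 1]) .nil .nil)))) (.node (.relax 1682 2) (.node (.relax 1034 2) (.node (.relax 238 1) (.node (.relax 2141 2) .nil .nil) (.node (.relax 1349 2) .nil .nil)) (.node (.cut [2, 18, 29, 36, 42, 43, 54] 100 197 false [.rel 2461 0, .rel 258 1, .rel 2591 1, .rel 2150 0, .rel 756 0, .rel 1520 1, .rel 955 1, .rel 175 0, .rel 747 1, .rel 742 2, .rel 741 2, .rel 1903 2]) (.node (.cut [16, 18, 26, 34, 36,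
  42, 68] 100 197 false [.rel 172 0, .rel 671 1, .rel 1168 0, .rel 768 1, .rel 373 0, .rel 662 1, .rel 1862 2, .rel 1850 2, .rel 2428 0]) .nil .nil) (.node (.relax 1855 0) .nil .nil))) (.node (.cut [17, 22, 23, 25, 33, 48, 71, 82] 100 197 false [.rel 1844 0, .rel 18 0, .rel 1745 0, .rel 139 0, .rel 1732 1, .rel 2266 0, .rel 667 0, .rel 1159 0, .rel 2345 0, .rel 665 2, .rel 442 0, .rel 2986 1, .rel 1749 0, .rel 1153 2]) (.node (.relax 1235 2) (.node (.relax 757 0) .nil .nil) (.node (.cut [2, 3, 18, 30, 36, 39, 42] 100 197 false [.rel 108 0, .rel 172 0, .rel 23 1, .rel 383 1, .rel 464 2, .rel 258 1, .rel 524 0, .rel 959 1, .rel 266 2, .rel 1279 1, .rel 728 2, .rel 103 2]) .nil .nil)) (.node (.cut [2, 38, 47, 54, 64] 100 197 false [.rel 955 2, .rel 172 2, .rel 388 1, .rel 747 1, .rel 742 2, .rel 525 1, .rel 2143 1, .rel 741 2, .rel 1903 2]) (.node (.cut [2, 30, 36, 48, 97, 100] 100 197 false [.rel 23 1, .rel 1192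 2, .rel 452 0, .rel 209 2, .rel 453 0, .rel 164 2, .rel 451 0, .rel 364 2, .rel 77 1, .rel 18 0, .rel 710 2, .rel 90 2]) .nil .nil) .nil)))) (.node (.relax 1460 0) (.node (.cut [6, 17, 19, 23, 44, 47, 48] 100 197 false [.rel 9 0, .rel 96 0, .rel 413 0, .rel 98 2, .rel 419 0, .rel 18 0, .rel 17 2, .rel 38 0, .rel 62 0, .rel 20 1, .rel 6 0, .rel 3 1, .rel 253 1, .rel 36 1, .rel 229 0]) (.node (.relax 1470 2) (.node (.relax 1689 0) (.node (.relax 2952 2) .nil .nil) (.node (.relax 2197 2) .nil .nil)) (.node (.cut [7, 31, 32, 39, 47, 95] 100 197 false [.rel 9 2, .rel 209 1, .rel 399 1, .rel 398 1, .rel 1349 1, .rel 533 2, .rel 909 1, .rel 530 2, .rel 1552 2]) (.node (.cut [18, 28, 33, 35, 48, 103] 100 197 false [.rel 442 0, .rel 1950 2, .rel 769 1, .rel 2382 0, .rel 175 0, .rel 671 1, .rel 1267 2, .rel 2373 0, .rel 23 2, .rel 680 2]) .nil .nil) (.node (.relax 862 2) .nil .nil))) (.node (.relax 3073 2) (.node (.relax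 2581 2) (.node (.relax 1659 2) .nil .nil) (.node (.relax 1986 2) .nil .nil)) (.node (.cut [2, 6, 18, 27, 35, 36, 42] 100 197 false [.rel 23 1, .rel 25 0, .rel 20 2, .rel 722 1, .rel 172 0, .rel 383 1, .rel 721 0, .rel 373 2, .rel 737 0, .rel 258 1, .rel 524 0, .rel 1527 0]) (.node (.relax 963 0) .nil .nil) .nil))) (.node (.relax 481 1) (.node (.relax 762 2) (.node (.relax 233 0) (.node (.cut [2, 23, 35, 38, 44, 64] 100 197 false [.rel 2514 1, .rel 1556 2, .rel 1341 1, .rel 1859 1, .rel 785 2, .rel 2516 1, .rel 1242 0, .rel 124 2]) .nil .nil) (.node (.cut [6, 19, 32, 39, 45, 48] 100 197 false [.rel 316 2, .rel 9 0, .rel 96 0, .rel 209 1, .rel 268 1, .rel 559 1, .rel 555 2, .rel 1470 0, .rel 258 2, .rel 2112 1, .rel 690 0, .rel 1525 1, .rel 219 0, .rel 492 1, .rel 896 0, .rel 241 1, .rel 898 0, .rel 885 1]) .nil .nil)) (.node (.relax 757 2) (.node (.relax 1396 2) .nil .nil) (.node (.relax 1845 1) .nil .nil)))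 (.node (.relax 2179 0) (.node (.relax 1007 2) (.node (.relax 768 1) .nil .nil) (.node (.relax 593 2) .nil .nil)) (.node (.relax 698 2) (.node (.cut [2, 33, 34, 36, 48, 78] 100 197 false [.rel 442 0, .rel 1235 2, .rel 2745 0, .rel 23 1, .rel 201 0, .rel 368 2, .rel 1732 2, .rel 1215 1, .rel 1138 1, .rel 124 2]) .nil .nil) .nil))))))

def JJ_abab : JT :=
  (.node (.relax 529 1) (.node (.relax 172 2) (.node (.relax 1460 2) (.node (.relax 105 2) (.node (.cut [17, 20, 22, 23, 33, 46, 48] 100 197 false [.rel 139 0, .rel 825 0, .rel 1689 0, .rel 1844 0, .rel 1917 2, .rel 2292 2, .rel 1381 0, .rel 2994 1, .rel 2843 1, .rel 1298 1, .rel 442 0, .rel 2030 1, .rel 2081 0]) (.node (.relax 953 0) (.node (.cut [2, 18, 29, 36, 38, 42, 124] 100 197 false [.rel 172 0, .rel 2665 1, .rel 23 1, .rel 1942 0, .rel 1964 0, .rel 1308 1, .rel 1260 0, .rel 747 0, .rel 388 1, .rel 742 2, .rel 741 2, .rel 1903 2]) .nil .nil) (.node (.relax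 773 2) .nil .nil)) (.node (.relax 2160 2) (.node (.cut [16, 17, 18, 22, 27, 34, 48] 100 197 false [.rel 706 0, .rel 1181 0, .rel 175 1, .rel 1844 0, .rel 2422 0, .rel 18 0, .rel 1745 0, .rel 2352 2, .rel 1513 2, .rel 2369 0, .rel 671 1, .rel 1750 0]) .nil .nil) (.node (.cut [3, 27, 31, 35, 36] 100 197 false [.rel 757 2, .rel 1884 1, .rel 1952 2, .rel 199 2, .rel 1269 1, .rel 2658 1, .rel 756 2, .rel 496 1, .rel 2144 2, .rel 2924 2]) .nil .nil))) (.node (.cut [23, 96, 0] 100 197 false [.rel 1049 2, .rel 590 2]) (.node (.relax 730 2) (.node (.cut [2, 18, 36, 38, 42, 54, 100] 100 197 false [.rel 747 0, .rel 258 1, .rel 1520 1, .rel 23 1, .rel 745 0, .rel 175 0, .rel 742 2, .rel 524 0, .rel 2143 1, .rel 741 2, .rel 1903 2]) .nil .nil) (.node (.tree 197 [0] 100 [64, 115, 0] (.pd 64 (.pge 64 (.fin 7 8414208 0)) (.unc 535 1 (.leaf [64, 115, 0] 100 197 false [(0, 1)] [.rel 977 2, .md 535 2 1])))) .nil .nil)) (.node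 (.relax 1824 2) (.node (.relax 2150 0) .nil .nil) (.node (.relax 117 0) .nil .nil)))) (.node (.relax 1845 2) (.node (.relax 1583 1) (.node (.relax 4 1) (.node (.cut [2, 18, 19, 28, 39, 42] 100 197 false [.rel 698 2, .rel 21 0, .rel 108 0, .rel 172 0, .rel 1177 0, .rel 945 1, .rel 731 2, .rel 266 2, .rel 1537 1, .rel 951 0, .rel 103 2]) .nil .nil) (.node (.cut [6, 19, 31, 39, 43, 44, 47] 100 197 false [.rel 1556 0, .rel 316 1, .rel 9 0, .rel 492 1, .rel 96 0, .rel 413 0, .rel 1289 1, .rel 1927 2, .rel 2088 0, .rel 3100 1, .rel 1477 2, .rel 2924 1]) .nil .nil)) (.node (.relax 945 1) (.node (.cut [2, 16, 26, 28, 36, 60, 68] 100 197 false [.rel 2827 1, .rel 1854 0, .rel 1787 1, .rel 1786 2, .rel 2577 2, .rel 1782 2, .rel 3056 2, .rel 1515 0]) .nil .nil) (.node (.tree 197 [0] 100 [64, 83, 0] (.pd 83 (.pge 83 (.fin 7 8414208 0)) (.leaf [64, 83, 0] 100 197 false [(0, 1)] [.md 535 2 1]))) .nil .nil))) (.node (.relax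 20 2) (.node (.relax 963 2) (.node (.relax 2233 2) .nil .nil) (.node (.relax 1517 1) .nil .nil)) (.node (.relax 1875 2) (.node (.relax 2898 1) .nil .nil) .nil)))) (.node (.relax 132 2) (.node (.relax 2862 1) (.node (.relax 801 2) (.node (.cut [14, 17, 22, 25, 33, 46, 48] 100 197 false [.rel 442 0, .rel 2243 2, .rel 18 0, .rel 149 1, .rel 151 0, .rel 1060 0, .rel 1061 1, .rel 150 0, .rel 1844 0, .rel 2986 1, .rel 3092 0, .rel 1716 2, .rel 1134 0, .rel 1132 1]) (.node (.relax 2030 2) .nil .nil) (.node (.relax 2492 2) .nil .nil)) (.node (.relax 1973 2) (.node (.cut [18, 23, 26, 33, 34, 36, 48] 100 197 false [.rel 442 0, .rel 139 0, .rel 825 0, .rel 2484 2, .rel 769 1, .rel 1063 0, .rel 768 0, .rel 1072 0, .rel 662 1, .rel 1950 0, .rel 1850 2, .rel 2428 0]) .nil .nil) (.node (.relax 2187 2) .nil .nil))) (.node (.relax 1381 1) (.node (.relax 2415 2) (.node (.cut [18, 23, 26, 27, 35, 42, 68] 100 197 false [.rel 361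 0, .rel 729 1, .rel 1859 0, .rel 172 0, .rel 1245 0, .rel 1238 1, .rel 375 2, .rel 1237 1, .rel 1854 2, .rel 2428 2]) .nil .nil) (.node (.relax 274 2) .nil .nil)) (.node (.cut [2, 18, 27, 30, 34, 36, 42] 100 197 false [.rel 706 0, .rel 23 1, .rel 167 1, .rel 848 2, .rel 709 1, .rel 172 0, .rel 383 1, .rel 445 1, .rel 370 1, .rel 207 0, .rel 258 1, .rel 2109 1, .rel 729 1, .rel 946 1, .rel 2000 0, .rel 1413 0, .rel 2607 2]) (.node (.relax 1329 2) .nil .nil) .nil))) (.node (.relax 1093 1) (.node (.cut [17, 22, 23, 27, 33, 42, 48] 100 197 false [.rel 361 0, .rel 1844 0, .rel 18 0, .rel 1745 0, .rel 139 0, .rel 336 1, .rel 1814 0, .rel 1815 2, .rel 1203 2, .rel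
  1818 0, .rel 2364 0, .rel 188 2, .rel 1512 2]) (.node (.relax 338 2) (.node (.relax 2470 2) .nil .nil) (.node (.cut [18, 23, 30, 39, 42, 43, 47] 100 197 false [.rel 1309 0, .rel 814 0, .rel 690 1, .rel 175 0, .rel 172 0, .rel 413 2, .rel 1248 1, .rel 1847 2, .rel 2831 0, .rel 1556 0, .rel 2940 1]) .nil .nil)) (.node (.cut [3, 38, 39, 42, 43, 52, 97] 100 197 false [.rel 108 0, .rel 976 0, .rel 1544 0, .rel 1979 2, .rel 2167 0, .rel 1556 0, .rel 1398 2, .rel 3028 1, .rel 2653 0, .rel 2942 2]) (.node (.relax 2018 2) .nil .nil) (.node (.relax 765 2) .nil .nil))) (.node (.relax 2540 2) (.node (.cut [2, 17, 36, 42, 44, 58] 100 197 false [.rel 23 1, .rel 167 1, .rel 1789 1, .rel 1787 2, .rel 1437 2, .rel 712 0, .rel 77 2, .rel 1428 0, .rel 1185 0, .rel 258 1, .rel 1193 2]) (.node (.cut [2, 18, 27, 28, 36, 48, 68] 100 197 false [.rel 729 1, .rel 1263 0, .rel 23 1, .rel 1265 2, .rel 2370 0, .rel 1181 2, .rel 1785 0,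 .rel 18 0, .rel 59 1, .rel 25 2, .rel 1262 1, .rel 1178 2, .rel 663 1]) .nil .nil) (.node (.relax 469 2) .nil .nil)) (.node (.cut [18, 23, 27, 33, 35, 42, 48] 100 197 false [.rel 361 0, .rel 442 0, .rel 1950 2, .rel 1777 0, .rel 769 1, .rel 175 0, .rel 1884 1, .rel 1883 0, .rel 605 1, .rel 172 0, .rel 375 1, .rel 690 0, .rel 1859 1, .rel 1854 2, .rel 2428 2]) (.node (.relax 1073 2) .nil .nil) .nil))))) (.node (.relax 2241 2) (.node (.relax 442 2) (.node (.cut [17, 18, 22, 24, 34, 42, 48] 100 197 false [.rel 139 2, .rel 768 0, .rel 172 0, .rel 1238 1, .rel 1844 0, .rel 18 0, .rel 1745 0, .rel 605 1, .rel 2705 1, .rel 1716 2, .rel 657 0, .rel 2710 0, .rel 2707 0]) (.node (.cut [18, 20, 23, 36, 42, 44, 47] 100 197 false [.rel 496 2, .rel 172 0, .rel 1074 0, .rel 258 1, .rel 524 0, .rel 2132 1, .rel 316 1, .rel 188 1, .rel 139 0, .rel 1304 1, .rel 1844 2, .rel 425 0, .rel 2468 0, .rel 1484 0, .rel 499 1, .rel 2922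 1]) (.node (.relax 398 2) (.node (.relax 1969 2) .nil .nil) (.node (.relax 715 0) .nil .nil)) (.node (.relax 1316 2) (.node (.relax 2356 2) .nil .nil) (.node (.relax 988 0) .nil .nil))) (.node (.relax 464 2) (.node (.relax 2028 2) (.node (.relax 1279 2) .nil .nil) (.node (.cut [6, 19, 29, 33, 39, 47] 100 197 false [.rel 499 2, .rel 909 0, .rel 2141 2, .rel 496 1, .rel 2144 1, .rel 9 0, .rel 94 1, .rel 1476 1, .rel 2923 0, .rel 1477 2, .rel 2924 1]) .nil .nil)) (.node (.relax 439 2) (.node (.relax 3017 0) .nil .nil) .nil))) (.node (.cut [2, 6, 19, 20, 23, 41, 44, 47] 100 197 false [.rel 4 1, .rel 481 1, .rel 119 0, .rel 1459 1, .rel 1460 2, .rel 117 1, .rel 316 1, .rel 9 0, .rel 492 1, .rel 413 0, .rel 1289 1, .rel 2609 1, .rel 1481 0, .rel 92 0]) (.node (.relax 3064 2) (.node (.cut [2, 18, 34, 35, 36, 42, 47] 100 197 false [.rel 23 1, .rel 167 1, .rel 1950 1, .rel 442 2, .rel 445 1, .rel 175 0, .rel 172 0, .rel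 383 1, .rel 380 1, .rel 258 1, .rel 1413 0, .rel 524 0, .rel 949 1]) (.node (.relax 1074 0) .nil .nil) (.node (.relax 2164 2) .nil .nil)) (.node (.cut [18, 30, 35, 36, 42, 44, 47] 100 197 false [.rel 1955 0, .rel 316 1, .rel 1667 2, .rel 499 1, .rel 172 0, .rel 388 1, .rel 258 1, .rel 524 0, .rel 949 1, .rel 1074 0, .rel 1850 2, .rel 2927 0]) (.node (.relax 2796 2) .nil .nil) (.node (.relax 2260 2) .nil .nil))) (.node (.relax 1058 2) (.node (.relax 2505 0) (.node (.cut [17, 18, 29, 35, 47, 103] 100 197 false [.rel 20 0, .rel 25 2, .rel 722 1, .rel 373 2, .rel 1884 1, .rel 1883 0, .rel 23 2, .rel 680 2]) .nil .nil) (.node (.relax 962 2) .nil .nil)) (.node (.relax 1906 1) (.node (.relax 2571 2) .nil .nil) .nil)))) (.node (.relax 649 2) (.node (.cut [18, 19, 21, 23, 33, 44, 47] 100 197 false [.rel 413 0, .rel 1806 2, .rel 1917 1, .rel 139 0, .rel 1289 1, .rel 316 1, .rel 2275 1, .rel 1844 2, .rel 1096 0, .rel 2468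 0, .rel 2203 0, .rel 1028 1, .rel 2922 1]) (.node (.cut [2, 6, 18, 23, 35, 36, 42] 100 197 false [.rel 172 0, .rel 23 1, .rel 383 1, .rel 4 1, .rel 174 2, .rel 724 1, .rel 721 0, .rel 375 2, .rel 723 0, .rel 258 1, .rel 524 0, .rel 1231 1]) (.node (.relax 1602 2) (.node (.relax 46 2) .nil .nil) (.node
  (.relax 909 1) .nil .nil)) (.node (.cut [2, 18, 33, 39, 42, 43] 100 197 false [.rel 1556 0, .rel 499 2, .rel 1341 1, .rel 172 0, .rel 1074 0, .rel 215 0, .rel 785 2, .rel 721 2, .rel 1972 0, .rel 2736 0]) (.node (.relax 2265 2) .nil .nil) (.node (.relax 486 2) .nil .nil))) (.node (.relax 1238 1) (.node (.cut [2, 30, 33, 35, 37, 58] 100 197 false [.rel 258 2, .rel 168 0, .rel 1955 0, .rel 2575 1, .rel 23 1, .rel 2378 0, .rel 1413 0, .rel 2041 2, .rel 3056 1, .rel 2927 2]) (.node (.relax 1852 2) .nil .nil) (.node (.relax 2864 0) .nil .nil)) (.node (.relax 968 0) (.node (.cut [2, 29, 30, 35, 36, 47, 124] 100 197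 false [.rel 1955 0, .rel 23 1, .rel 1897 0, .rel 1963 0, .rel 2500 1, .rel 1952 2, .rel 756 2, .rel 1945 2, .rel 1338 2, .rel 399 2, .rel 680 2]) .nil .nil) .nil))) (.node (.relax 1194 0) (.node (.relax 724 2) (.node (.relax 1306 0) (.node (.relax 535 2) .nil .nil) (.node (.relax 2097 2) .nil .nil)) (.node (.cut [2, 18, 23, 30, 33, 35, 42] 100 197 false [.rel 139 0, .rel 172 0, .rel 425 2, .rel 1660 1, .rel 1955 0, .rel 1074 0, .rel 1235 2, .rel 2749 1, .rel 721 1, .rel 1862 0, .rel 124 2]) (.node (.relax 2722 2) .nil .nil) (.node (.relax 617 2) .nil .nil))) (.node (.cut [2, 30, 38, 42, 47, 97] 100 197 false [.rel 955 2, .rel 786 1, .rel 690 1, .rel 747 1, .rel 1799 1, .rel 209 2, .rel 453 0, .rel 23 1, .rel 167 1, .rel 164 2, .rel 451 0, .rel 258 1, .rel 77 1, .rel 18 0, .rel 710 2, .rel 90 2]) (.node (.relax 2180 2) (.node (.cut [17, 22, 25, 34, 48, 71, 78] 100 197 false [.rel 1844 0, .rel 18 0, .rel 1745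 0, .rel 1732 1, .rel 2262 2, .rel 2345 0, .rel 1735 2, .rel 2730 0, .rel 2320 2]) .nil .nil) (.node (.cut [7, 23, 32, 36, 47, 81] 100 197 false [.rel 9 2, .rel 546 1, .rel 188 1, .rel 752 2, .rel 989 0, .rel 31 2, .rel 817 1, .rel 227 0, .rel 106 0, .rel 8 2, .rel 38 1, .rel 69 0, .rel 92 2]) .nil .nil)) (.node (.cut [2, 3, 30, 38, 39, 42, 43] 100 197 false [.rel 108 0, .rel 464 2, .rel 83 1, .rel 747 1, .rel 786 1, .rel 787 1, .rel 1556 0, .rel 21 1, .rel 1309 0, .rel 1398 2, .rel 1906 0, .rel 2147 0, .rel 2948 1, .rel 2942 2]) (.node (.relax 2567 2) .nil .nil) .nil))))))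

def JJ_abba : JT :=
  (.node (.relax 956 1) (.node (.relax 2854 2) (.node (.relax 1964 2) (.node (.relax 14 2) (.node (.relax 706 0) (.node (.relax 2658 0) (.node (.cut [2, 3, 30, 36, 38, 39, 43] 100 197 false [.rel 108 0, .rel 23 1, .rel 464 2, .rel 200 1, .rel 747 1, .rel 955 1, .rel 400 0, .rel 397 1, .rel 1906 0, .rel 2147 0, .rel 2948 1, .rel 199 1, .rel 757 0, .rel 756 2, .rel 909 0, .rel 2924 2]) .nil .nil) (.node (.cut [2, 16, 17, 27, 34, 36, 42] 100 197 false [.rel 706 0, .rel 1181 0, .rel 23 1, .rel 167 1, .rel 671 1, .rel 1180 2, .rel 166 2, .rel 1187 0, .rel 684 0, .rel 680 2]) .nil .nil)) (.node (.relax 499 2) (.node (.cut [2, 26, 36, 48, 62, 70] 100 197 false [.rel 23 1, .rel 1784 1, .rel 1781 2, .rel 1881 0, .rel 1756 1, .rel 1157 2, .rel 1179 2, .rel 2118 2]) .nil .nil) (.node (.relax 1337 1) .nil .nil))) (.node (.relax 121 2) (.node (.cut [2, 18, 28, 30, 36, 42, 68] 100 197 false [.rel 1787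 1, .rel 172 0, .rel 23 1, .rel 383 1, .rel 167 1, .rel 1834 2, .rel 1793 0, .rel 258 1, .rel 524 0, .rel 2935 0, .rel 2180 0, .rel 2607 2]) (.node (.cut [2, 3, 19, 39, 64, 66] 100 197 false [.rel 108 0, .rel 386 1, .rel 21 1, .rel 733 0, .rel 731 2, .rel 266 2, .rel 1537 1, .rel 951 0, .rel 103 2]) .nil .nil) (.node (.relax 809 2) .nil .nil)) (.node (.relax 1968 2) (.node (.cut [3, 24, 36, 43, 44, 47] 100 197 false [.rel 139 2, .rel 316 1, .rel 1667 1, .rel 21 2, .rel 955 0, .rel 747 1, .rel 741 0, .rel 2653 0, .rel 1484 0, .rel 793 0, .rel 185 1, .rel 764 0, .rel 756 2, .rel 2924 2]) .nil .nil) (.node (.relax 972 0) .nil .nil)))) (.node (.cut [10, 19, 23, 33, 41, 44, 46, 47] 100 197 false [.rel 481 1, .rel 877 2, .rel 4 0, .rel 1473 0, .rel 413 0, .rel 1289 1, .rel 316 1, .rel 2770 0, .rel 2311 1, .rel 13 1, .rel 612 1, .rel 124 0]) (.node (.relax 182 2) (.node (.cut [2, 17, 18, 35, 36, 42, 48] 100 197 false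 [.rel 18 0, .rel 23 1, .rel 167 1, .rel 166 2, .rel 1166 0, .rel 172 0, .rel 383 1, .rel 721 0, .rel 671 2, .rel 1184 1, .rel 258 1, .rel 524 0, .rel 2119 1]) (.node (.relax 2122 2) .nil .nil) (.node (.relax 2157 2) .nil .nil)) (.node (.cut [2, 6, 18, 19, 30, 36, 42] 100 197 false [.rel 9 0, .rel 258 1, .rel 524 0, .rel 526 2, .rel 266 1, .rel 172 0, .rel 23 1, .rel 383 1, .rel 77 0, .rel 108 2, .rel 959 1, .rel 522 0, .rel 103 2]) (.node (.cut [18, 28, 30, 34, 35, 42, 60] 100 197 false [.rel 1955 0, .rel 2575 2, .rel 2416 1, .rel 768 0, .rel 2041 0, .rel 2382 1, .rel 1762 0, .rel 605 1, .rel 1639 0, .rel 2798 1, .rel 1854 2, .rel 2428 2]) .nil .nil) (.node (.relax 1572 2) .nil .nil))) (.node (.relax 1815 1) (.node (.relax 1554 2) (.node (.relax 952 2) .nil .nil) (.node (.cut [30, 31, 36, 64, 124] 100 197 false [.rel 1942 2, .rel 2150 2, .rel 172 2, .rel 1308 1, .rel 1333 2, .rel 1330 2, .rel 2864 2, .rel 1955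 2, .rel 23 2, .rel 383 1, .rel 1961 2, .rel 3035 2, .rel 2927 2]) .nil .nil)) (.node (.relax 1879 2) (.node (.relax 425 1) .nil .nil) .nil)))) (.node (.relax 1177 2) (.node (.relax 2760 0) (.node (.relax 2120 2) (.node (.relax 1015 2) (.node (.cut [2, 18, 36, 38, 39, 42, 97] 100 197 false [.rel 215 1, .rel 258 1, .rel 1439 1, .rel 23 1, .rel 204 1, .rel 768 0, .rel 1544 0, .rel 524 0, .rel 1546 2, .rel 721 2, .rel 2673 0, .rel 2136 1]) .nil .nil) (.node (.relax 780 1) .nil .nil)) (.node (.relax 113 2) (.node (.cut [17, 23, 28, 33, 35, 48] 100 197 false [.rel 18 0, .rel 149 1, .rel 361 2, .rel 442 0, .rel 1950 2, .rel 341 1, .rel 139 0, .rel 336 1, .rel 335 1, .rel 690 0, .rel 1859 1, .rel 657 0, .rel 653 2, .rel 1148 1, .rel 825 0, .rel 1391 1, .rel 1388 1, .rel 1124 2, .rel 90 2]) .nil .nil) (.node (.relax 2706 2) .nil .nil))) (.node (.cut [6, 18, 27, 30, 42, 44] 100 197 false [.rel 425 1, .rel 172 0, .rel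 139 2, .rel 1660 1, .rel 1074 0, .rel 721 2, .rel 77 0, .rel 215 2, .rel 1676 0, .rel 719 0, .rel 124 2]) (.node (.cut [18, 19, 30, 42, 44, 103] 100 197 false [.rel 23 2, .rel 413 0, .rel 814 2, .rel 21 0, .rel 172 0, .rel 525 1, .rel 1969 1, .rel 383 1, .rel 379 0, .rel 2654 1, .rel 2607 2]) (.node (.cut [6, 18, 23, 30, 35, 42,
  43] 100 197 false [.rel 1309 0, .rel 172 0, .rel 785 1, .rel 1859 1, .rel 2449 2, .rel 1341 2, .rel 2516 1, .rel 1242 0, .rel 124 2]) .nil .nil) (.node (.relax 2186 0) .nil .nil)) (.node (.cut [18, 27, 30, 34, 35, 36, 42] 100 197 false [.rel 706 0, .rel 258 1, .rel 848 2, .rel 2109 1, .rel 729 1, .rel 946 1, .rel 2000 0, .rel 1955 0, .rel 768 0, .rel 1844 2, .rel 3000 1, .rel 2427 0]) (.node (.relax 1074 1) .nil .nil) .nil))) (.node (.relax 2614 2) (.node (.relax 1823 1) (.node (.relax 90 0) (.node (.relax 1238 2) .nil .nil) (.node (.cut [18, 30, 35, 36, 39, 42, 43] 100 197 false [.rel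 1955 0, .rel 1556 0, .rel 258 1, .rel 524 0, .rel 172 0, .rel 2514 2, .rel 2137 0, .rel 1969 1, .rel 1850 2, .rel 2927 0]) .nil .nil)) (.node (.cut [2, 19, 54, 64, 97] 100 197 false [.rel 2147 2, .rel 464 0, .rel 108 2, .rel 83 1, .rel 760 2, .rel 1976 1, .rel 21 1, .rel 189 2, .rel 864 2, .rel 535 2]) (.node (.relax 630 0) .nil .nil) (.node (.relax 2770 1) .nil .nil))) (.node (.relax 254 2) (.node (.relax 1105 1) (.node (.cut [16, 23, 26, 27, 33, 68] 100 197 false [.rel 768 2, .rel 1263 0, .rel 139 0, .rel 715 0, .rel 1855 2, .rel 373 0, .rel 1860 1, .rel 1243 0, .rel 1240 0, .rel 1854 2, .rel 2428 2]) .nil .nil) (.node (.relax 1112 2) .nil .nil)) (.node (.relax 2714 2) (.node (.relax 361 1) .nil .nil) .nil))))) (.node (.relax 641 2) (.node (.cut [3, 18, 20, 23, 39, 43] 100 197 false [.rel 1556 0, .rel 21 2, .rel 918 2, .rel 2472 1, .rel 496 2, .rel 23 1, .rel 24 0, .rel 189 0, .rel 814 1, .rel 392 2, .rel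 762 1, .rel 917 2, .rel 92 2]) (.node (.relax 1655 2) (.node (.relax 613 2) (.node (.relax 764 1) (.node (.relax 1269 2) .nil .nil) (.node (.relax 1853 2) .nil .nil)) (.node (.relax 2552 0) (.node (.relax 718 2) .nil .nil) (.node (.relax 1169 1) .nil .nil))) (.node (.relax 2701 2) (.node (.cut [2, 18, 28, 36, 42, 58, 76] 100 197 false [.rel 258 1, .rel 729 0, .rel 946 1, .rel 361 1, .rel 21 0, .rel 23 1, .rel 167 1, .rel 731 2, .rel 1794 0, .rel 524 0, .rel 728 2, .rel 1249 2, .rel 2131 2]) (.node (.relax 2499 2) .nil .nil) (.node (.relax 2016 2) .nil .nil)) (.node (.relax 2449 0) (.node (.relax 2988 2) .nil .nil) (.node (.relax 1520 2) .nil .nil)))) (.node (.cut [10, 20, 23, 27, 43, 48] 100 197 false [.rel 119 0, .rel 417 2, .rel 800 1, .rel 801 2, .rel 1365 1, .rel 1369 0, .rel 690 2, .rel 176 1, .rel 22 1, .rel 224 0, .rel 2542 0, .rel 188 2, .rel 10 1, .rel 516 0]) (.node (.relax 2391 2) (.node (.relax 50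 1) (.node (.relax 1315 2) .nil .nil) (.node (.relax 1884 1) .nil .nil)) (.node (.cut [2, 18, 30, 32, 42, 54] 100 197 false [.rel 172 0, .rel 2591 2, .rel 1398 0, .rel 1964 1, .rel 1333 2, .rel 1330 2, .rel 2864 2, .rel 1955 2, .rel 945 1, .rel 386 1, .rel 1961 2, .rel 3035 2, .rel 2927 2]) (.node (.cut [2, 16, 28, 36, 42, 60, 68] 100 197 false [.rel 23 1, .rel 167 1, .rel 1787 1, .rel 1789 2, .rel 2378 0, .rel 1786 2, .rel 258 1, .rel 3056 1, .rel 1844 0, .rel 2637 2]) .nil .nil) (.node (.relax 670 2) .nil .nil))) (.node (.relax 331 2) (.node (.relax 2336 1) (.node (.cut [2, 6, 19, 27, 35, 42] 100 197 false [.rel 188 2, .rel 4 1, .rel 258 1, .rel 9 0, .rel 105 0, .rel 18 2, .rel 1166 0, .rel 21 0, .rel 23 1, .rel 167 1, .rel 671 2, .rel 353 1, .rel 942 1]) .nil .nil) (.node (.cut [17, 18, 29, 30, 36, 38, 42] 100 197 false [.rel 258 1, .rel 524 0, .rel 526 0, .rel 9 2, .rel 266 1, .rel 108 2, .rel 2147 0, .rel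 2149 1, .rel 1532 1, .rel 103 2]) .nil .nil)) (.node (.relax 1256 1) (.node (.relax 1415 2) .nil .nil) .nil)))) (.node (.relax 188 1) (.node (.cut [6, 17, 19, 20, 23, 47, 48] 100 197 false [.rel 9 0, .rel 18 0, .rel 692 0, .rel 641 2, .rel 10 2, .rel 38 0, .rel 1365 1, .rel 1993 1, .rel 158 1, .rel 941 0, .rel 103 0]) (.node (.cut [18, 23, 33, 35, 36, 42, 43] 100 197 false [.rel 1667 0, .rel 316 2, .rel 499 1, .rel 172 0, .rel 388 1, .rel 258 1, .rel 524 0, .rel 949 1, .rel 1859 1, .rel 1076 1, .rel 1850 2, .rel 2428 0]) (.node (.relax 665 2) (.node (.cut [18, 23, 30, 36, 42, 43, 100] 100 197 false [.rel 1309 0, .rel 258 1, .rel 747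
  2, .rel 1520 1, .rel 955 1, .rel 175 0, .rel 172 0, .rel 742 2, .rel 1258 0, .rel 4 1, .rel 1259 0, .rel 0 2, .rel 103 2]) .nil .nil) (.node (.relax 276 2) .nil .nil)) (.node (.relax 400 1) (.node (.cut [2, 27, 34, 35, 60, 76] 100 197 false [.rel 729 2, .rel 1884 0, .rel 1950 1, .rel 442 2, .rel 706 0, .rel 848 1, .rel 175 0, .rel 728 1, .rel 1881 2, .rel 769 1, .rel 1267 2, .rel 1863 2, .rel 124 2]) .nil .nil) (.node (.relax 778 0) .nil .nil))) (.node (.cut [18, 26, 35, 58, 103] 100 197 false [.rel 23 2, .rel 2798 2, .rel 1881 0, .rel 2454 1, .rel 1890 2, .rel 1893 2, .rel 2827 1, .rel 258 1, .rel 524 0, .rel 2657 2]) (.node (.cut [2, 30, 35, 36, 42, 44, 58] 100 197 false [.rel 23 1, .rel 167 1, .rel 1955 0, .rel 2912 1, .rel 2389 1, .rel 258 1, .rel 1439 0, .rel 2041 2, .rel 3012 0, .rel 2927 2]) (.node (.cut [16, 17, 18, 24, 28, 34] 100 197 false [.rel 139 2, .rel 373 0, .rel 361 2, .rel 671 1, .rel 673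 1, .rel 715 0, .rel 665 0, .rel 768 0, .rel 1162 0, .rel 1233 1, .rel 1232 2, .rel 1849 2]) .nil .nil) (.node (.relax 909 2) .nil .nil)) (.node (.cut [18, 30, 35, 36, 39, 42, 47] 100 197 false [.rel 1955 0, .rel 909 0, .rel 258 1, .rel 524 0, .rel 2492 2, .rel 2083 1, .rel 1941 0, .rel 1850 2, .rel 2927 0]) (.node (.relax 738 2) .nil .nil) .nil))) (.node (.cut [17, 19, 22, 23, 33, 44, 47] 100 197 false [.rel 1844 0, .rel 139 0, .rel 413 0, .rel 1289 1, .rel 2833 2, .rel 316 1, .rel 2275 1, .rel 1917 2, .rel 1096 0, .rel 2468 0, .rel 2203 0, .rel 1028 1, .rel 2922 1]) (.node (.cut [18, 23, 36, 42, 44, 97] 100 197 false [.rel 258 1, .rel 215 2, .rel 1439 1, .rel 499 0, .rel 768 0, .rel 172 0, .rel 1238 1, .rel 1235 2, .rel 77 2, .rel 1676 0, .rel 719 0, .rel 124 2]) (.node (.relax 403 2) (.node (.relax 956 2) .nil .nil) (.node (.cut [6, 27, 39, 43, 47, 61] 100 197 false [.rel 413 2, .rel 188 2, .rel 814 1, .rel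 757 0, .rel 213 0, .rel 9 0, .rel 241 1, .rel 491 1, .rel 904 1, .rel 918 1, .rel 1289 1, .rel 2833 1, .rel 909 0, .rel 1477 2, .rel 2924 1]) .nil .nil)) (.node (.relax 2485 2) (.node (.cut [2, 19, 29, 35, 36, 42, 47] 100 197 false [.rel 23 1, .rel 2141 2, .rel 199 0, .rel 1260 1, .rel 741 0, .rel 258 1, .rel 1519 0, .rel 1776 2, .rel 2653 0, .rel 2652 2]) .nil .nil) (.node (.relax 1136 2) .nil .nil))) (.node (.relax 1457 2) (.node (.tree 197 [0] 100 [6, 106, 0] (.pd 106 (.pge 106 (.fin 7 8414208 0)) (.unc 90 0 (.unc 1893 0 (.unc 16 1 (.leaf [6, 106, 0] 100 197 false [(0, 1)] [.rel 1890 2, .rel 721 2, .rel 1893 2, .rel 1274 1, .rel 379 2, .md 103 2 1])))))) (.node (.cut [17, 22, 23, 25, 26, 27, 34, 48] 100 197 false [.rel 1844 0, .rel 18 0, .rel 1745 0, .rel 657 1, .rel 361 0, .rel 1817 2, .rel 2790 0, .rel 1744 2, .rel 2116 2]) .nil .nil) (.node (.cut [2, 23, 34, 36, 45, 48] 100 197 false [.rel 316 2, .rel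 23 1, .rel 605 2, .rel 204 0, .rel 167 1, .rel 452 0, .rel 139 0, .rel 690 0, .rel 2260 0, .rel 1667 1, .rel 209 2, .rel 2724 1, .rel 1242 0, .rel 124 2]) .nil .nil)) (.node (.relax 72 0) (.node (.relax 1905 2) .nil .nil) .nil))))))

def JJ_abbb : JT :=
  (.node (.cut [1, 0] 100 197 false []) (.node (.cut [18, 19, 30, 36, 42, 43, 44] 100 197 false [.rel 413 0, .rel 814 2, .rel 1309 0, .rel 258 1, .rel 524 0, .rel 172 0, .rel 2654 1, .rel 1844 2, .rel 2848 1, .rel 1556 0, .rel 3041 1]) (.node (.relax 2937 0) (.node (.relax 1520 0) (.node (.cut [13, 17, 21, 23, 33, 78] 100 197 false [.rel 1716 1, .rel 139 0, .rel 1300 2, .rel 1658 2, .rel 2217 2, .rel 2710 0, .rel 1664 2, .rel 1063 2, .rel 2707 0]) (.node (.cut [16, 18, 23, 34, 35, 36, 42] 100 197 false [.rel 671 1, .rel 258 1, .rel 524 0, .rel 1762 2, .rel 2119 1, .rel 172 0, .rel 1238 1, .rel 688 1, .rel 1168 0, .rel 1857 1, .rel 1850 2, .rel 2428 0]) (.node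 (.relax 1258 2) .nil .nil) (.node (.relax 2772 2) .nil .nil)) (.node (.relax 1538 2) (.node (.cut [16, 17, 27, 28, 34, 68, 78] 100 197 false [.rel 1787 1, .rel 706 0, .rel 1181 0, .rel 671 1, .rel 2356 2, .rel 2374 1, .rel 1783 1, .rel 673 1, .rel 1232 2, .rel 1849 2]) .nil .nil) (.node (.tree 197 [0] 100 [59, 123, 0] (.pd 123 (.pge 123 (.fin 7 8414208 0)) (.leaf [59, 123, 0] 100 197 false [(0, 1)] [.md 2097 2 1]))) .nil .nil))) (.node (.cut [2, 18, 36, 43, 48, 54] 100 197 false [.rel 690 2, .rel 175 0, .rel 23 1, .rel 745 1, .rel 742 2, .rel 258 1, .rel 524 0, .rel 2143 1, .rel 741 2, .rel 1903 2]) (.node (.relax 2413 2) (.node (.cut [6, 17, 18, 27, 35, 42, 47] 100 197 false [.rel 172 0, .rel 721 0, .rel 20 0, .rel 374 0, .rel 373 2, .rel 720 1, .rel 25 1, .rel 23 2, .rel 346 1, .rel 662 1]) .nil .nil) (.node (.relax 967 2) .nil .nil)) (.node (.relax 731 0) (.node (.relax 2863 1) .nil .nil) (.node (.cut [14,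 18, 22, 23, 25, 33, 48] 100 197 false [.rel 20 2, .rel 1845 1, .rel 175 0, .rel 1159 0, .rel 18 0, .rel 1151 2, .rel 442 0, .rel 769 1, .rel 667 1, .rel 1753 1, .rel 665 2, .rel 1153 2]) .nil .nil)))) (.node (.relax 581 2) (.node (.cut [6, 10, 19, 31, 41, 44, 47] 100 197 false [.rel 316 1, .rel 9 0, .rel 492 1, .rel 413 0, .rel 1289 1, .rel 1927 2, .rel 1296 1, .rel 481 1, .rel 2066 0, .rel 904 2, .rel 490 1, .rel 981 1]) (.node (.relax 1789 2) (.node (.relax 2596 2) .nil .nil) (.node (.cut [3, 6, 19, 31, 32, 39, 43] 100 197 false [.rel 209 1, .rel 9 0, .rel 268 1, .rel 108 0, .rel 976 0, .rel 1012 2, .rel 1572 0, .rel 958 1, .rel 172 0, .rel 977 2, .rel 1556 0, .rel 2138 2]) .nil .nil)) (.node (.cut [2, 19, 44, 54, 64] 100 197 false [.rel 413 0, .rel 2147 2, .rel 814 2, .rel 195 1, .rel 215 0, .rel 21 0, .rel 83 2, .rel 760 2, .rel 1976 1, .rel 864 2, .rel 535 2]) (.node (.cut [28, 29, 30, 35, 36, 42, 106]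 100 197 false [.rel 2385 0, .rel 1955 0, .rel 2456 0, .rel 1891 0, .rel 2382 1, .rel 2381 2, .rel 258 1, .rel 2812 2, .rel 2934 2]) .nil .nil) (.node (.relax 1667 1) .nil .nil))) (.node (.relax 1646 2) (.node (.relax 1950 1) (.node (.cut [2, 6, 19, 32, 33, 47, 83] 100 197 false [.rel 209 1, .rel 9 0, .rel 27 2, .rel 0 0, .rel 85 1, .rel 13 1, .rel 141 0, .rel 184 1, .rel 142 2, .rel 316 1, .rel 635 1, .rel 11 2, .rel 314 0, .rel 92 2]) .nil .nil) (.node (.cut [2, 18, 36, 42, 43, 54, 97] 100 197 false [.rel 172 0, .rel 786 1, .rel 785 2, .rel 258 1, .rel 524 0, .rel 2517 1, .rel 1546 1, .rel 1544 2, .rel 1964 1, .rel 23 1, .rel 383 1, .rel 778 1, .rel 741 2, .rel 380 2, .rel 1903 2]) .nil .nil)) (.node (.relax 1667 0) (.node (.relax 2798 1) .nil .nil) .nil)))) (.node (.relax 1056 2) (.node (.relax 417 2) (.node (.cut [2, 17, 19, 23, 44, 47, 48] 100 197 false [.rel 21 0, .rel 27 0, .rel 18 0, .rel 74 2, .rel 17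 2, .rel 62 0, .rel 20 1, .rel 6 0, .rel 3 1, .rel 413 0, .rel 419 2, .rel 38 2, .rel 253 1, .rel 36 1, .rel 229 0]) (.node (.relax 129 1) (.node (.cut [2, 18, 29, 36, 42, 54, 100] 100 197 false [.rel 172 0, .rel 23 1, .rel 2665 2, .rel 1942 0, .rel 1964 0, .rel 1308 1, .rel 1260 0, .rel 747 0, .rel 388 1, .rel 742 2, .rel 741 2, .rel 1903 2]) .nil .nil) (.node (.relax 1340 2) .nil .nil)) (.node (.cut [3, 6, 32, 36, 39, 43, 117] 100 197 false [.rel 108 0, .rel 976 0, .rel 209 1, .rel 870 2, .rel 1548 0, .rel 1544 2, .rel 2167 0, .rel 1556 0, .rel 258 1, .rel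
  2629 0, .rel 3028 1, .rel 2722 2]) (.node (.cut [17, 22, 27, 33, 35, 48] 100 197 false [.rel 1844 0, .rel 442 0, .rel 2986 1, .rel 1950 2, .rel 1884 1, .rel 706 0, .rel 2827 2, .rel 2404 2, .rel 3052 1, .rel 3053 0]) .nil .nil) (.node (.relax 2988 0) .nil .nil))) (.node (.relax 1125 1) (.node (.relax 1280 2) (.node (.cut [16, 18, 23, 27, 34, 35, 42] 100 197 false [.rel 361 0, .rel 172 0, .rel 671 1, .rel 1762 2, .rel 1168 0, .rel 657 0, .rel 1159 0, .rel 1161 0, .rel 1238 1, .rel 688 1, .rel 1857 1, .rel 1854 2, .rel 2428 2]) .nil .nil) (.node (.relax 2407 2) .nil .nil)) (.node (.cut [2, 18, 27, 29, 30, 42, 43] 100 197 false [.rel 172 0, .rel 1256 1, .rel 388 1, .rel 730 1, .rel 728 1, .rel 1253 2, .rel 1859 2, .rel 1858 2, .rel 1854 2, .rel 2428 2]) (.node (.relax 1265 1) .nil .nil) .nil))) (.node (.relax 288 2) (.node (.relax 105 0) (.node (.relax 1716 1) (.node (.cut [6, 18, 19, 30, 35, 36, 42] 100 197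 false [.rel 9 0, .rel 258 1, .rel 524 0, .rel 526 2, .rel 266 1, .rel 1528 1, .rel 962 1]) .nil .nil) (.node (.cut [3, 6, 19, 32, 33, 39, 47] 100 197 false [.rel 9 0, .rel 499 2, .rel 94 1, .rel 209 1, .rel 268 1, .rel 500 1, .rel 108 0, .rel 532 0, .rel 501 2, .rel 909 0, .rel 1496 0, .rel 907 1, .rel 92 2]) .nil .nil)) (.node (.cut [2, 18, 35, 36, 39, 42, 47] 100 197 false [.rel 23 1, .rel 909 0, .rel 2492 2, .rel 439 0, .rel 258 1, .rel 524 0, .rel 953 1, .rel 172 0, .rel 383 1, .rel 380 1, .rel 2083 1]) (.node (.relax 2501 1) .nil .nil) (.node (.cut [2, 23, 35, 36, 44, 47, 48] 100 197 false [.rel 316 1, .rel 1667 2, .rel 1448 0, .rel 23 1, .rel 442 0, .rel 855 0, .rel 1859 1, .rel 209 2, .rel 2724 1, .rel 1242 0, .rel 124 2]) .nil .nil))) (.node (.cut [2, 6, 19, 23, 32, 39, 43] 100 197 false [.rel 209 1, .rel 4 1, .rel 85 1, .rel 1556 0, .rel 21 0, .rel 978 1, .rel 9 0, .rel 268 1, .rel 1012 2, .rel 220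 2, .rel 1013 1, .rel 541 0, .rel 41 2, .rel 535 2]) (.node (.relax 490 0) (.node (.cut [16, 18, 26, 27, 28, 34, 68] 100 197 false [.rel 671 1, .rel 729 1, .rel 1787 1, .rel 1786 0, .rel 1263 0, .rel 2434 2, .rel 1854 2, .rel 2827 2, .rel 768 1, .rel 373 0, .rel 1241 2, .rel 662 1]) .nil .nil) (.node (.relax 2406 0) .nil .nil)) (.node (.relax 393 2) (.node (.relax 53 0) .nil .nil) .nil))))) (.node (.relax 197 1) (.node (.relax 2408 2) (.node (.relax 188 2) (.node (.cut [6, 18, 19, 23, 42, 44, 47] 100 197 false [.rel 172 0, .rel 316 1, .rel 9 0, .rel 492 1, .rel 413 0, .rel 1289 1, .rel 490 2, .rel 1296 1, .rel 96 0, .rel 419 0, .rel 174 2, .rel 406 0, .rel 1479 0]) (.node (.relax 1301 2) (.node (.cut [2, 18, 30, 32, 33, 35, 36] 100 197 false [.rel 1955 0, .rel 2042 2, .rel 756 0, .rel 768 0, .rel 23 1, .rel 1956 2, .rel 1948 2, .rel 1326 2, .rel 680 2]) .nil .nil) (.node (.relax 2264 2) .nil .nil)) (.node (.relax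 533 2) (.node (.cut [2, 16, 27, 28, 33, 36, 68] 100 197 false [.rel 768 2, .rel 729 1, .rel 373 0, .rel 1263 0, .rel 1261 1, .rel 23 1, .rel 1265 2, .rel 738 2, .rel 680 2]) .nil .nil) (.node (.cut [2, 29, 35, 36, 39, 42, 43] 100 197 false [.rel 1556 0, .rel 2514 2, .rel 215 0, .rel 258 1, .rel 1520 1, .rel 23 1, .rel 167 1, .rel 452 0, .rel 209 2, .rel 747 1, .rel 1837 0, .rel 2629 0, .rel 3079 1, .rel 1850 0]) .nil .nil))) (.node (.relax 151 2) (.node (.relax 2812 0) (.node (.cut [16, 18, 27, 30, 35, 42, 68] 100 197 false [.rel 1263 0, .rel 1321 2, .rel 728 1, .rel 172 0, .rel 1074 1, .rel 375 1, .rel 1864 0, .rel 1891 1, .rel 2436 1, .rel 1854 2, .rel 2428 2]) .nil .nil) (.node (.relax 742 1) .nil .nil)) (.node (.tree 197 [0] 100 [31, 81, 0] (.pd 81 (.pge 81 (.fin 7 8414208 0)) (.unc 181 0 (.leaf [31, 81, 0] 100 197 false [(0, 1)] [.rel 756 2, .rel 181 2, .md 92 2 1])))) (.node (.relax 1180 2) .nil .nil)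 .nil))) (.node (.relax 1914 2) (.node (.relax 811 2) (.node (.cut [2, 18, 29, 36, 42, 58, 76] 100 197 false [.rel 172 0, .rel 2385 2, .rel 2795 0, .rel 23 1, .rel 2454 0, .rel 1881 0, .rel 258 1, .rel 524 0, .rel 728 2, .rel 2827 1, .rel 1177 1, .rel 729 0, .rel 188 0, .rel 2446 2, .rel 2131 2]) (.node (.relax
  1850 0) .nil .nil) (.node (.relax 2513 2) .nil .nil)) (.node (.cut [2, 6, 18, 27, 30, 36, 42] 100 197 false [.rel 172 0, .rel 23 1, .rel 383 1, .rel 25 0, .rel 20 2, .rel 73 1, .rel 77 0, .rel 24 2, .rel 178 0, .rel 198 2, .rel 92 2]) (.node (.cut [2, 26, 28, 34, 37, 68] 100 197 false [.rel 258 2, .rel 168 0, .rel 1787 1, .rel 1789 2, .rel 2389 1, .rel 1832 2, .rel 1235 0, .rel 1232 2, .rel 2637 2]) .nil .nil) (.node (.cut [6, 23, 29, 36, 39, 44, 47] 100 197 false [.rel 316 1, .rel 1256 2, .rel 499 0, .rel 139 0, .rel 1304 1, .rel 1667 1, .rel 188 0, .rel 9 0, .rel 955 0, .rel 1528 1, .rel 2653 0, .rel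 909 0, .rel 1477 2, .rel 2924 1]) .nil .nil))) (.node (.relax 1784 1) (.node (.relax 2575 1) (.node (.cut [2, 18, 27, 35, 36, 42, 68] 100 197 false [.rel 1263 0, .rel 23 1, .rel 1265 2, .rel 1886 1, .rel 172 0, .rel 383 1, .rel 373 2, .rel 737 0, .rel 258 1, .rel 524 0, .rel 1527 0]) .nil .nil) (.node (.cut [18, 30, 35, 38, 97, 103] 100 197 false [.rel 1955 0, .rel 1544 0, .rel 23 2, .rel 2493 2, .rel 1316 1, .rel 399 2, .rel 1958 1, .rel 1326 1, .rel 1674 2]) .nil .nil)) (.node (.relax 2937 2) (.node (.cut [2, 3, 31, 36, 39, 52] 100 197 false [.rel 108 0, .rel 23 1, .rel 1334 0, .rel 1332 2, .rel 464 2, .rel 2150 1, .rel 2161 0, .rel 200 1, .rel 2147 2, .rel 530 0, .rel 756 2, .rel 958 2, .rel 199 1, .rel 757 2, .rel 2666 0, .rel 1255 2, .rel 103 2]) .nil .nil) .nil)))) (.node (.relax 22 0) (.node (.relax 1918 2) (.node (.cut [2, 23, 27, 35, 36, 43, 48] 100 197 false [.rel 188 0, .rel 21 0, .rel 23 1, .rel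 690 2, .rel 745 1, .rel 741 0, .rel 955 0, .rel 1256 0, .rel 1776 2, .rel 1859 1, .rel 2447 0, .rel 2652 2]) (.node (.relax 1512 2) (.node (.relax 1884 2) .nil .nil) (.node (.relax 1351 2) .nil .nil)) (.node (.cut [2, 19, 33, 39, 42, 43, 47] 100 197 false [.rel 499 2, .rel 215 0, .rel 690 1, .rel 442 0, .rel 605 0, .rel 23 1, .rel 853 0, .rel 955 0, .rel 496 1, .rel 909 0, .rel 2923 0, .rel 316 1, .rel 1667 1, .rel 209 2, .rel 2980 0, .rel 1850 0]) (.node (.cut [2, 18, 28, 30, 33, 35, 36] 100 197 false [.rel 1955 0, .rel 848 0, .rel 706 2, .rel 1318 0, .rel 768 0, .rel 23 1, .rel 1265 2, .rel 2498 1, .rel 1886 1, .rel 721 1, .rel 680 2]) .nil .nil) (.node (.cut [3, 10, 19, 39, 40, 43, 47] 100 197 false [.rel 909 1, .rel 38 2, .rel 10 0, .rel 176 1, .rel 533 1, .rel 955 0, .rel 175 2, .rel 954 0, .rel 1529 1]) .nil .nil))) (.node (.relax 1907 1) (.node (.cut [2, 18, 27, 28, 36, 42, 58] 100 197 false [.rel 361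 1, .rel 23 1, .rel 72 1, .rel 167 1, .rel 729 1, .rel 731 2, .rel 1794 0, .rel 258 1, .rel 524 0, .rel 728 2, .rel 188 0, .rel 1249 2, .rel 2131 2]) (.node (.relax 103 2) .nil .nil) (.node (.cut [6, 18, 30, 36, 42, 54, 100] 100 197 false [.rel 258 1, .rel 524 0, .rel 1546 1, .rel 1544 2, .rel 2160 0, .rel 108 2, .rel 1547 0, .rel 2147 1, .rel 9 0, .rel 952 1, .rel 103 2]) .nil .nil)) (.node (.cut [2, 18, 30, 35, 38, 42, 44] 100 197 false [.rel 2514 1, .rel 1556 2, .rel 1341 1, .rel 1955 0, .rel 215 0, .rel 172 0, .rel 785 2, .rel 2512 0, .rel 1326 1, .rel 1674 2]) (.node (.cut [2, 30, 37, 100, 0] 100 197 false [.rel 741 2, .rel 1332 0, .rel 258 2, .rel 168 0, .rel 1430 2, .rel 1333 2, .rel 778 2, .rel 1194 2, .rel 1955 0, .rel 1961 2, .rel 1277 2, .rel 1278 2]) .nil .nil) .nil))) (.node (.relax 1544 2) (.node (.relax 1675 0) (.node (.cut [2, 17, 18, 35, 36, 42, 58] 100 197 false [.rel 23 1, .rel 167 1, .rel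 1789 1, .rel 1787 2, .rel 2377 0, .rel 172 0, .rel 383 1, .rel 671 2, .rel 1184 1, .rel 258 1, .rel 524 0, .rel 2119 1]) (.node (.relax 848 2) .nil .nil) (.node (.cut [2, 29, 33, 39, 42, 48] 100 197 false [.rel 499 2, .rel 215 0, .rel 442 0, .rel 605 0, .rel 23 1, .rel 853 0, .rel 209 2, .rel 2415 0, .rel 167 1, .rel 2382 2, .rel 2417 0, .rel 1790 1, .rel 258 1, .rel 1193 2]) .nil .nil)) (.node (.cut [18, 23, 29, 30, 33, 36, 42] 100 197 false [.rel 139 0, .rel 425 2, .rel 188 0, .rel 172 0, .rel 1660 1, .rel 730 1, .rel 1870 1, .rel 1844 2, .rel 2446 1, .rel 499 1, .rel 2607 2]) (.node (.relax 2041 2) .nil .nil) (.node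
  (.relax 437 2) .nil .nil))) (.node (.relax 1647 2) (.node (.relax 1591 2) (.node (.cut [26, 33, 36, 48, 62, 78] 100 197 false [.rel 2347 0, .rel 2262 0, .rel 1732 2, .rel 2406 1, .rel 442 0, .rel 2893 2, .rel 3057 0, .rel 706 2, .rel 2407 2]) .nil .nil) (.node (.cut [6, 19, 32, 36, 43, 44, 47] 100 197 false [.rel 316 1, .rel 9 0, .rel 492 1, .rel 209 1, .rel 268 1, .rel 1562 0, .rel 955 0, .rel 2168 2, .rel 2186 2, .rel 2938 1, .rel 2090 0]) .nil .nil)) (.node (.relax 2159 2) (.node (.relax 2330 1) .nil .nil) .nil))))))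

def JJ_baaa : JT :=
  (.node (.relax 90 2) (.node (.relax 785 1) (.node (.relax 2195 2) (.node (.cut [3, 23, 36, 39, 43, 48] 100 197 false [.rel 21 2, .rel 188 1, .rel 690 2, .rel 1256 0, .rel 108 0, .rel 258 1, .rel 553 1, .rel 546 2, .rel 955 0, .rel 2646 0, .rel 1532 1, .rel 103 2]) (.node (.cut [23, 33, 36, 42, 48, 86] 100 197 false [.rel 442 0, .rel 1844 2, .rel 2986 1, .rel 258 1, .rel 2786 0, .rel 2404 2, .rel 1508 2, .rel 2627 1, .rel 188 1, .rel 2635 0, .rel 1512 1]) (.node (.cut [18, 23, 28, 36, 48, 68] 100 197 false [.rel 361 2, .rel 188 0, .rel 1263 0, .rel 729 1, .rel 2140 1, .rel 1844 2, .rel 2786 0, .rel 1769 2, .rel 2365 0, .rel 258 1, .rel 524 0, .rel 2636 1]) (.node (.cut [3, 18, 36, 38, 39, 42, 43] 100 197 false [.rel 108 0, .rel 172 0, .rel 955 1, .rel 388 1, .rel 258 1, .rel 524 0, .rel 523 0, .rel 949 1]) .nil .nil) (.node (.relax 736 2) .nil .nil)) (.node (.cut [2, 18, 33, 39, 42, 47]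 100 197 false [.rel 172 0, .rel 499 2, .rel 1074 0, .rel 215 0, .rel 23 1, .rel 400 0, .rel 399 2, .rel 721 2, .rel 1325 1, .rel 909 0, .rel 2611 1]) (.node (.relax 729 1) .nil .nil) (.node (.cut [6, 23, 32, 33, 38, 48] 100 197 false [.rel 209 1, .rel 139 0, .rel 825 0, .rel 442 0, .rel 1391 2, .rel 878 2, .rel 2044 1, .rel 1583 2, .rel 1519 2, .rel 435 1, .rel 272 1, .rel 1003 1, .rel 467 0, .rel 145 2, .rel 509 2]) .nil .nil))) (.node (.cut [17, 22, 23, 25, 33, 36, 48] 100 197 false [.rel 1844 0, .rel 442 0, .rel 2986 1, .rel 2404 2, .rel 1743 0, .rel 18 0, .rel 1745 0, .rel 139 0, .rel 336 1, .rel 1814 0, .rel 706 2, .rel 2410 1, .rel 2818 0, .rel 1512 2]) (.node (.relax 85 1) (.node (.cut [2, 3, 30, 38, 39, 64] 100 197 false [.rel 108 0, .rel 464 2, .rel 2147 0, .rel 83 1, .rel 760 2, .rel 1976 1, .rel 21 1, .rel 189 2, .rel 864 2, .rel 535 2]) .nil .nil) (.node (.cut [2, 27, 35, 36, 42, 44, 47] 100 197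 false [.rel 23 1, .rel 316 1, .rel 1667 2, .rel 204 0, .rel 690 1, .rel 167 1, .rel 452 0, .rel 1884 1, .rel 209 2, .rel 2574 1, .rel 1267 1, .rel 680 2]) .nil .nil)) (.node (.relax 2501 2) (.node (.cut [2, 17, 33, 37, 43, 47] 100 197 false [.rel 258 2, .rel 168 0, .rel 690 1, .rel 18 0, .rel 149 1, .rel 166 2, .rel 151 2, .rel 23 1, .rel 367 0, .rel 158 1, .rel 61 1, .rel 16 1, .rel 939 0, .rel 104 0, .rel 250 1]) .nil .nil) (.node (.relax 110 1) .nil .nil)))) (.node (.cut [10, 14, 21, 23, 33, 46, 47] 100 197 false [.rel 139 0, .rel 132 1, .rel 130 2, .rel 50 0, .rel 641 0, .rel 1614 1, .rel 1615 2, .rel 825 0, .rel 1059 1, .rel 829 1, .rel 32 1, .rel 302 1, .rel 13 0, .rel 442 0, .rel 1042 0, .rel 294 1]) (.node (.cut [2, 29, 33, 36, 42, 46] 100 197 false [.rel 607 2, .rel 23 1, .rel 204 0, .rel 167 1, .rel 452 0, .rel 605 0, .rel 209 2, .rel 2415 0, .rel 2382 2, .rel 2417 0, .rel 1790 1, .rel 258 1, .rel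 1193 2]) (.node (.relax 1391 2) (.node (.relax 2416 2) .nil .nil) (.node (.cut [2, 19, 32, 36, 39, 43, 44, 47] 100 197 false [.rel 413 0, .rel 955 0, .rel 1556 0, .rel 2943 1, .rel 215 0, .rel 23 1, .rel 400 0, .rel 499 0, .rel 316 1, .rel 1667 1, .rel 909 0, .rel 3072 2, .rel 2763 0, .rel 3063 2]) .nil .nil)) (.node (.cut [2, 30, 35, 39, 43, 64] 100 197 false [.rel 1556 0, .rel 2514 2, .rel 1341 1, .rel 1955 0, .rel 215 0, .rel 785 2, .rel 2512 0, .rel 1326 1, .rel 1674 2]) (.node (.cut [18, 28, 30, 33, 35, 36, 42] 100 197 false [.rel 848 0, .rel 258 1, .rel 706 2, .rel 2109 1, .rel 729 1, .rel 946 1, .rel 2000 0, .rel 1955 0, .rel 768 0, .rel 1844 2, .rel 3000 1, .rel 2427 0]) .nil .nil) (.node (.relax 919 2) .nil .nil))) (.node (.cut [18, 23, 27, 34, 42, 48, 71] 100 197 false [.rel 361 0, .rel 373 2, .rel 706 0, .rel 848 1, .rel 729 1, .rel 728 1, .rel 175 1, .rel 768 0, .rel 1243 0, .rel 605 1, .rel 172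 0, .rel 375 1, .rel 657 0, .rel 1159 0, .rel 667 1, .rel 2348 0, .rel 1854 2, .rel 2428 2]) (.node (.relax 786 1) (.node (.cut [16, 18, 22, 27, 33, 35, 42] 100 197 false [.rel 373 0, .rel 1243 2, .rel 1884 1, .rel 172 0, .rel 720 1, .rel 2827 2, .rel 1863 1, .rel 662 1]) .nil .nil) (.node (.relax 375 1) .nil .nil)) (.node (.relax 2385
  2) (.node (.cut [2, 3, 35, 36, 42, 124] 100 197 false [.rel 1332 2, .rel 741 0, .rel 23 1, .rel 167 1, .rel 1430 2, .rel 1333 2, .rel 778 2, .rel 258 1, .rel 1194 2, .rel 1955 0, .rel 1961 2, .rel 1277 2, .rel 1278 2]) .nil .nil) .nil)))) (.node (.relax 1028 2) (.node (.relax 1812 2) (.node (.cut [17, 19, 23, 35, 42, 44, 47] 100 197 false [.rel 316 1, .rel 1667 2, .rel 605 0, .rel 657 0, .rel 413 0, .rel 1289 1, .rel 2540 0, .rel 799 1, .rel 1440 1, .rel 129 0, .rel 642 2, .rel 1141 1, .rel 1051 0, .rel 339 0, .rel 46 1, .rel 1122 0, .rel 153 1, .rel 294 1]) (.node (.relax 1072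 1) (.node (.cut [3, 18, 37, 38, 52, 97] 100 197 false [.rel 258 2, .rel 524 0, .rel 172 0, .rel 1544 0, .rel 1546 2, .rel 2517 1, .rel 1547 2, .rel 964 2, .rel 1533 2, .rel 103 2]) .nil .nil) (.node (.relax 2625 2) .nil .nil)) (.node (.cut [3, 19, 39, 43, 47, 95, 117] 100 197 false [.rel 108 0, .rel 976 0, .rel 1284 1, .rel 747 2, .rel 1904 0, .rel 1906 0, .rel 1871 2, .rel 1338 0, .rel 756 2, .rel 1556 0, .rel 2139 0, .rel 2924 2]) (.node (.cut [28, 34, 36, 48, 68, 78] 100 197 false [.rel 1787 1, .rel 2356 2, .rel 2433 0, .rel 1844 2, .rel 2786 0, .rel 258 1, .rel 2419 2, .rel 2813 0, .rel 2341 1]) .nil .nil) (.node (.relax 1413 1) .nil .nil))) (.node (.relax 877 2) (.node (.relax 1736 2) (.node (.cut [6, 19, 35, 54, 64] 100 197 false [.rel 9 0, .rel 2147 2, .rel 1528 1, .rel 2653 0, .rel 2948 2, .rel 2137 2, .rel 2925 0]) .nil .nil) (.node (.relax 969 1) .nil .nil)) (.node (.cut [2, 29, 31, 44, 50] 100 197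 false [.rel 1556 2, .rel 1341 1, .rel 1879 2, .rel 2449 1, .rel 1859 2, .rel 2516 1, .rel 2992 0, .rel 756 2, .rel 316 1, .rel 2737 1, .rel 2924 2]) (.node (.relax 1734 2) .nil .nil) .nil))) (.node (.relax 2217 2) (.node (.cut [18, 23, 27, 33, 42, 46, 47] 100 197 false [.rel 607 2, .rel 139 0, .rel 425 0, .rel 175 0, .rel 361 0, .rel 729 1, .rel 728 1, .rel 690 0, .rel 316 1, .rel 1667 1, .rel 172 0, .rel 375 1, .rel 2260 0, .rel 1854 2, .rel 2428 2]) (.node (.relax 1955 2) (.node (.cut [2, 6, 19, 32, 39, 47, 83] 100 197 false [.rel 27 2, .rel 215 0, .rel 209 1, .rel 9 0, .rel 268 1, .rel 108 0, .rel 465 1, .rel 184 1, .rel 28 2, .rel 0 0, .rel 85 1, .rel 84 0, .rel 96 0, .rel 29 0, .rel 273 2, .rel 90 2]) .nil .nil) (.node (.cut [18, 36, 38, 42, 44, 50, 52] 100 197 false [.rel 258 1, .rel 1556 2, .rel 2629 0, .rel 2084 1, .rel 1477 0, .rel 172 0, .rel 2514 0, .rel 1850 2, .rel 2942 0]) .nil .nil)) (.node (.cut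 [2, 31, 38, 39, 54, 97] 100 197 false [.rel 215 1, .rel 2150 2, .rel 2869 1, .rel 1544 0, .rel 1955 2, .rel 2955 1, .rel 3071 1, .rel 756 2, .rel 499 0, .rel 2492 0, .rel 2924 2]) (.node (.relax 2936 0) .nil .nil) (.node (.relax 2047 2) .nil .nil))) (.node (.cut [18, 23, 33, 35, 36, 42, 48] 100 197 false [.rel 258 1, .rel 442 0, .rel 1950 2, .rel 1413 0, .rel 175 0, .rel 524 0, .rel 949 1, .rel 690 0, .rel 1859 1, .rel 605 1, .rel 172 0, .rel 375 1, .rel 1850 2, .rel 2428 0]) (.node (.relax 2870 2) (.node (.relax 1167 2) .nil .nil) (.node (.cut [3, 7, 32, 39, 44, 81] 100 197 false [.rel 108 0, .rel 184 2, .rel 459 1, .rel 9 2, .rel 546 1, .rel 209 1, .rel 465 1, .rel 28 2, .rel 27 1, .rel 222 0, .rel 84 0, .rel 96 0, .rel 107 1, .rel 273 2, .rel 90 2]) .nil .nil)) (.node (.cut [2, 27, 33, 36, 42, 76] 100 197 false [.rel 258 1, .rel 729 2, .rel 946 1, .rel 361 1, .rel 21 0, .rel 23 1, .rel 24 0, .rel 731 2, .rel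 73 2, .rel 391 1, .rel 496 1, .rel 495 2, .rel 92 2]) (.node (.cut [2, 17, 33, 38, 42, 47] 100 197 false [.rel 955 2, .rel 23 1, .rel 167 1, .rel 690 1, .rel 18 0, .rel 149 1, .rel 166 2, .rel 151 2, .rel 367 0, .rel 158 1, .rel 61 1, .rel 16 1, .rel 258 1, .rel 939 0, .rel 104 0, .rel 250 1]) .nil .nil) .nil))))) (.node (.cut [18, 23, 30, 36, 39, 42, 43] 100 197 false [.rel 1309 0, .rel 814 0, .rel 258 1, .rel 524 0, .rel 172 0, .rel 413 2, .rel 2654 1, .rel 1844 2, .rel 2848 1, .rel 1556 0, .rel 3041 1]) (.node (.relax 189 2) (.node (.relax 1177 0) (.node (.relax 1242 2) (.node (.cut [2, 18, 23, 34, 36, 44] 100 197 false [.rel 605 2,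
  .rel 768 0, .rel 172 0, .rel 1238 1, .rel 23 1, .rel 204 0, .rel 1235 2, .rel 77 2, .rel 1676 0, .rel 719 0, .rel 124 2]) (.node (.cut [18, 30, 35, 36, 39, 42, 100] 100 197 false [.rel 1955 0, .rel 2493 1, .rel 1544 2, .rel 258 1, .rel 524 0, .rel 1546 2, .rel 2955 1, .rel 1326 1, .rel 1674 2]) .nil .nil) (.node (.relax 1002 2) .nil .nil)) (.node (.cut [3, 6, 19, 32, 39, 43, 95] 100 197 false [.rel 209 1, .rel 9 0, .rel 268 1, .rel 108 0, .rel 976 0, .rel 1012 2, .rel 1001 1, .rel 529 0, .rel 172 0, .rel 977 2, .rel 1556 0, .rel 2138 2]) (.node (.cut [16, 17, 18, 23, 27, 34, 48, 68] 100 197 false [.rel 768 1, .rel 373 0, .rel 667 1, .rel 18 0, .rel 671 1, .rel 670 0, .rel 175 1, .rel 20 0, .rel 25 1, .rel 23 2, .rel 681 1, .rel 348 1, .rel 124 2]) .nil .nil) (.node (.relax 231 2) .nil .nil))) (.node (.cut [13, 14, 17, 21, 22, 23, 33, 48] 100 197 false [.rel 641 0, .rel 1127 1, .rel 1844 0, .rel 18 0, .rel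 1745 0, .rel 139 0, .rel 336 1, .rel 1814 0, .rel 1716 1, .rel 1125 2, .rel 2324 1, .rel 442 0, .rel 2986 1, .rel 149 1, .rel 2321 0]) (.node (.cut [2, 18, 19, 28, 36, 58] 100 197 false [.rel 23 1, .rel 946 2, .rel 199 0, .rel 364 0, .rel 729 1, .rel 731 2, .rel 1794 0, .rel 524 0, .rel 728 2, .rel 1249 2, .rel 2131 2]) (.node (.cut [2, 18, 35, 36, 42, 78] 100 197 false [.rel 172 0, .rel 23 1, .rel 383 1, .rel 1238 2, .rel 1235 2, .rel 1862 0, .rel 375 2, .rel 723 0, .rel 258 1, .rel 524 0, .rel 1231 1]) .nil .nil) (.node (.relax 974 2) .nil .nil)) (.node (.cut [2, 30, 31, 36, 42, 44, 47] 100 197 false [.rel 23 1, .rel 167 1, .rel 757 1, .rel 425 1, .rel 139 2, .rel 202 0, .rel 204 0, .rel 72 1, .rel 76 0, .rel 193 2, .rel 428 1, .rel 499 1, .rel 188 0, .rel 1058 1, .rel 361 0, .rel 1203 1, .rel 2071 2, .rel 90 2]) (.node (.cut [2, 19, 23, 38, 42, 46] 100 197 false [.rel 607 2, .rel 1520 2, .rel 1872 1, .rel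 21 0, .rel 225 1, .rel 197 2, .rel 1826 0, .rel 38 2, .rel 734 0, .rel 103 2]) .nil .nil) (.node (.cut [17, 18, 22, 23, 25, 27, 33, 48] 100 197 false [.rel 139 0, .rel 1300 1, .rel 1844 0, .rel 18 0, .rel 1745 0, .rel 336 1, .rel 1814 0, .rel 1815 2, .rel 2481 1, .rel 1917 0, .rel 630 2, .rel 665 2, .rel 1071 2, .rel 662 1]) .nil .nil)))) (.node (.relax 316 1) (.node (.relax 499 0) (.node (.relax 2419 2) (.node (.cut [18, 19, 39, 42, 47, 95] 100 197 false [.rel 399 2, .rel 1349 1, .rel 172 0, .rel 533 2, .rel 909 1, .rel 525 1, .rel 108 0, .rel 9 0, .rel 526 2, .rel 965 1, .rel 2083 1]) .nil .nil) (.node (.relax 2770 2) .nil .nil)) (.node (.cut [2, 18, 36, 42, 43, 47, 52] 100 197 false [.rel 690 1, .rel 175 0, .rel 172 0, .rel 23 1, .rel 745 1, .rel 742 2, .rel 1258 0, .rel 955 0, .rel 741 2, .rel 1903 2]) (.node (.relax 1777 1) .nil .nil) (.node (.relax 1063 1) .nil .nil))) (.node (.relax 1143 2) (.node (.relax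 1615 0) (.node (.relax 2275 1) .nil .nil) (.node (.cut [2, 18, 36, 38, 42, 43, 54] 100 197 false [.rel 172 0, .rel 955 1, .rel 388 1, .rel 747 1, .rel 742 2, .rel 258 1, .rel 524 0, .rel 2143 1, .rel 741 2, .rel 1903 2]) .nil .nil)) (.node (.relax 2486 2) (.node (.cut [2, 28, 30, 33, 36, 42, 47] 100 197 false [.rel 848 0, .rel 23 1, .rel 167 1, .rel 706 2, .rel 709 1, .rel 757 0, .rel 370 1, .rel 24 0, .rel 193 2, .rel 428 1, .rel 258 1, .rel 1413 0, .rel 2109 1, .rel 2071 2, .rel 90 2]) .nil .nil) .nil)))) (.node (.cut [3, 10, 23, 36, 39, 43, 44] 100 197 false [.rel 1556 0, .rel 21 2, .rel 1341 1, .rel 27 0, .rel 4 2, .rel 407 0, .rel 499 0, .rel 23 1, .rel 24 0, .rel 172 2, .rel 66 1, .rel 38 2, .rel 94 1, .rel 41 2, .rel 484 1]) (.node (.cut [9, 0] 100 197 false [.rel 90 2]) (.node (.relax 526 2) (.node (.relax 1236 2) (.node (.cut [2, 18, 36, 42, 43, 47, 54] 100 197 false [.rel 690 1, .rel 175 0, .rel 23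 1, .rel 745 1, .rel 742 2, .rel 258 1, .rel 524 0, .rel 2143 1, .rel 741 2, .rel 1903 2]) .nil .nil) (.node (.relax 653 2) .nil .nil)) (.node (.relax 1336 2) (.node (.cut [18, 26, 27, 30, 34, 48] 100 197 false [.rel 706 0, .rel 848 2, .rel 833 1, .rel 1318 0, .rel 2552 2, .rel 2036 1, .rel 442 0, .rel 2571 2,
  .rel 2495 1, .rel 1650 2, .rel 768 0, .rel 1072 0, .rel 1854 2, .rel 2428 2]) .nil .nil) (.node (.relax 3072 2) .nil .nil))) (.node (.relax 2518 0) (.node (.cut [2, 17, 30, 36, 48, 58] 100 197 false [.rel 18 0, .rel 2382 2, .rel 360 0, .rel 833 1, .rel 2415 2, .rel 23 1, .rel 709 2, .rel 1835 0, .rel 1791 1, .rel 364 2, .rel 166 2, .rel 1193 2]) (.node (.relax 313 2) .nil .nil) (.node (.cut [4, 6, 19, 32, 45, 46] 100 197 false [.rel 9 0, .rel 316 2, .rel 492 1, .rel 209 1, .rel 268 1, .rel 1562 0, .rel 878 2, .rel 142 0, .rel 501 0, .rel 474 2, .rel 1711 0, .rel 921 2, .rel 2780 1, .rel 904 1]) .nil .nil))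 (.node (.relax 1243 2) (.node (.relax 2069 2) .nil .nil) .nil))) (.node (.relax 239 0) (.node (.relax 112 2) (.node (.cut [2, 18, 26, 28, 36, 58] 100 197 false [.rel 23 1, .rel 2798 2, .rel 1881 0, .rel 258 1, .rel 524 0, .rel 2454 1, .rel 1890 2, .rel 2385 0, .rel 728 2, .rel 2827 1, .rel 2936 2, .rel 2132 1, .rel 2131 2]) (.node (.cut [3, 6, 18, 23, 35, 42] 100 197 false [.rel 21 2, .rel 4 1, .rel 172 0, .rel 174 2, .rel 724 1, .rel 375 2, .rel 58 0, .rel 9 0, .rel 255 0]) .nil .nil) (.node (.relax 766 2) .nil .nil)) (.node (.cut [2, 31, 38, 42, 47, 97] 100 197 false [.rel 955 2, .rel 786 1, .rel 690 1, .rel 747 1, .rel 1799 1, .rel 209 2, .rel 23 1, .rel 400 0, .rel 862 1, .rel 741 2, .rel 399 1, .rel 175 0, .rel 1903 2]) (.node (.cut [2, 30, 33, 35, 36, 42, 48] 100 197 false [.rel 23 1, .rel 167 1, .rel 442 0, .rel 1950 2, .rel 1217 0, .rel 1955 0, .rel 445 1, .rel 209 2, .rel 2043 1, .rel 258 1, .rel 1413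 0, .rel 1326 1, .rel 1674 2]) .nil .nil) (.node (.relax 1096 1) .nil .nil))) (.node (.relax 2597 2) (.node (.relax 370 1) (.node (.relax 1819 2) .nil .nil) (.node (.relax 162 2) .nil .nil)) (.node (.cut [18, 23, 28, 33, 34, 47, 48] 100 197 false [.rel 361 2, .rel 729 1, .rel 175 0, .rel 373 0, .rel 768 0, .rel 1263 0, .rel 1261 1, .rel 442 0, .rel 1950 0, .rel 605 1, .rel 172 0, .rel 375 1, .rel 690 0, .rel 1859 1, .rel 1854 2, .rel 2428 2]) (.node (.relax 682 2) .nil .nil) .nil))))))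

def JJ_baab : JT :=
  (.node (.relax 1459 2) (.node (.relax 2052 2) (.node (.relax 1459 1) (.node (.relax 605 2) (.node (.relax 361 0) (.node (.relax 2452 2) (.node (.cut [2, 18, 30, 36, 42, 54, 124] 100 197 false [.rel 1964 0, .rel 258 1, .rel 2591 1, .rel 23 1, .rel 1334 1, .rel 756 0, .rel 1333 2, .rel 1330 2, .rel 2864 2, .rel 1955 2, .rel 172 0, .rel 383 1, .rel 1961 2, .rel 3035 2, .rel 2927 2]) .nil .nil) (.node (.relax 205 2) .nil .nil)) (.node (.relax 72 2) (.node (.cut [16, 18, 22, 28, 62, 78] 100 197 false [.rel 706 2, .rel 729 1, .rel 1181 0, .rel 1252 2, .rel 1785 0, .rel 1263 2, .rel 1262 1, .rel 361 2, .rel 671 1, .rel 673 1, .rel 2431 2, .rel 1849 2]) .nil .nil) (.node (.cut [2, 10, 19, 32, 33, 44, 47] 100 197 false [.rel 4 2, .rel 197 1, .rel 13 1, .rel 141 0, .rel 413 0, .rel 195 1, .rel 21 0, .rel 184 1, .rel 142 2, .rel 316 1, .rel 635 1, .rel 11 2, .rel 314 0, .rel 92 2]) .nil .nil))) (.node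 (.relax 995 2) (.node (.relax 366 1) (.node (.relax 525 1) .nil .nil) (.node (.relax 1368 2) .nil .nil)) (.node (.relax 918 2) (.node (.cut [2, 36, 38, 42, 43, 54, 97] 100 197 false [.rel 786 1, .rel 258 1, .rel 1544 0, .rel 2056 1, .rel 209 2, .rel 2181 1, .rel 747 1, .rel 741 2, .rel 955 1, .rel 690 1, .rel 2937 1, .rel 742 0, .rel 1903 2]) .nil .nil) (.node (.tree 197 [0] 100 [4, 105, 0] (.pd 105 (.pge 105 (.fin 7 8414208 0)) (.pd 4 (.pge 4 (.fin 7 8414208 0)) (.unc 1564 0 (.leaf [4, 105, 0] 100 197 false [(0, 1)] [.rel 1563 2, .rel 1564 2, .md 1497 2 1]))))) .nil .nil)))) (.node (.cut [4, 19, 23, 33, 41, 45] 100 197 false [.rel 139 0, .rel 316 2, .rel 1290 1, .rel 137 2, .rel 2275 1, .rel 501 0, .rel 1491 2, .rel 2203 0, .rel 2622 0, .rel 2092 0, .rel 92 2]) (.node (.relax 10 0) (.node (.relax 2367 2) (.node (.cut [2, 30, 36, 42, 60, 106] 100 197 false [.rel 258 1, .rel 2454 2, .rel 3056 1, .rel 2798 1,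 .rel 1854 0, .rel 1890 2, .rel 2456 2, .rel 524 0, .rel 3027 2, .rel 728 2, .rel 949 1]) .nil .nil) (.node (.cut [3, 6, 31, 50, 52] 100 197 false [.rel 1556 2, .rel 978 1, .rel 1979 2, .rel 785 0, .rel 172 2, .rel 1308 1, .rel 977 2, .rel 9 0, .rel 2138 2]) .nil .nil)) (.node (.cut [2, 19, 29, 30, 39, 42, 43] 100 197 false [.rel 1872 2, .rel 814 0, .rel 21 0, .rel 189 0, .rel 1556 0, .rel 978 1, .rel 977 1, .rel 1309 0, .rel 1398 2, .rel 2834 0, .rel 2942 2]) (.node (.cut [2, 18, 26, 28, 36, 60, 68] 100 197 false [.rel 2827 1, .rel 1854 0, .rel 1787 1, .rel 2577 2, .rel 3056 2, .rel 524 0, .rel 1885 1, .rel 728 2, .rel 2837 2, .rel 2131 2]) .nil .nil) (.node (.cut [6, 19, 42, 43, 44, 47, 97] 100 197 false [.rel 690 1, .rel 607 1, .rel 9 0, .rel 566 0, .rel 481 2, .rel 215 2, .rel 1556 0, .rel 96 0, .rel 968 1, .rel 470 1, .rel 81 1, .rel 461 0, .rel 2598 0]) .nil .nil))) (.node (.relax 1391 1) (.node (.relax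 24 2) (.node (.cut [16, 17, 22, 25, 47, 78] 100 197 false [.rel 1844 0, .rel 175 2, .rel 2422 0, .rel 1300 0, .rel 139 2, .rel 1159 0, .rel 2786 0, .rel 715 0, .rel 1753 1, .rel 373 0, .rel 665 2, .rel 1153 2]) .nil .nil) (.node (.cut [18, 37, 43, 54, 100] 100 197 false [.rel 258 2, .rel 747 2, .rel 1520 1, .rel 955 1, .rel 175 0, .rel 742 2, .rel 524 0, .rel 2143 1, .rel 741 2, .rel 1903 2]) .nil .nil)) (.node (.cut [2, 26, 27, 29, 35, 37] 100 197 false [.rel 258 2, .rel 1875 2, .rel 2827 1, .rel 1854 0, .rel 1859 0, .rel 1884 0, .rel 955 0, .rel 690 1, .rel 1776 2, .rel 2652 2]) (.node (.relax 2869 2) .nil .nil) .nil)))) (.node (.relax 2319 2) (.node (.cut [18, 23, 26, 27, 33, 36, 48] 100 197 false [.rel 188 0, .rel 442 0, .rel 1569 0, .rel 139 0, .rel 417 0, .rel 825 0, .rel 2484 2, .rel 1918 0, .rel 1845 2, .rel 1301 0, .rel 2430 0, .rel 1512 2]) (.node (.relax 176 2) (.node (.relax 1414 2) (.node (.relax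 1834 1) .nil .nil) (.node (.relax 1519 1) .nil .nil)) (.node (.cut [3, 39, 42, 43, 47, 95, 97] 100 197 false [.rel 108 0, .rel 400 1, .rel 23 2, .rel 200 1, .rel 745 1, .rel 397 1, .rel 690 1, .rel 167 1, .rel 452 0, .rel 209 2, .rel 258 1, .rel 1470 1, .rel 439 1, .rel 1328 0, .rel 2722 2]) (.node (.relax 439 0) .nil .nil)
  (.node (.relax 747 2) .nil .nil))) (.node (.relax 728 2) (.node (.relax 785 2) (.node (.cut [18, 19, 28, 35, 42, 68] 100 197 false [.rel 172 0, .rel 698 2, .rel 1177 0, .rel 1238 1, .rel 1870 1, .rel 1844 2, .rel 2427 0, .rel 945 1, .rel 949 2, .rel 2131 0]) .nil .nil) (.node (.relax 3118 2) .nil .nil)) (.node (.cut [2, 26, 27, 29, 36, 64] 100 197 false [.rel 23 1, .rel 1875 2, .rel 1881 0, .rel 172 2, .rel 525 1, .rel 730 1, .rel 728 2, .rel 2827 1, .rel 188 0, .rel 2446 2, .rel 2131 2]) (.node (.cut [2, 30, 31, 34, 36, 42, 47] 100 197 false [.rel 757 1, .rel 706 0, .rel 23 1, .rel 167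 1, .rel 848 2, .rel 709 1, .rel 370 1, .rel 24 0, .rel 193 2, .rel 428 1, .rel 258 1, .rel 1413 0, .rel 2109 1, .rel 2071 2, .rel 90 2]) .nil .nil) .nil))) (.node (.relax 74 1) (.node (.relax 162 0) (.node (.relax 362 1) (.node (.cut [2, 6, 18, 23, 30, 35, 42] 100 197 false [.rel 4 1, .rel 172 0, .rel 174 2, .rel 74 0, .rel 724 1, .rel 402 1, .rel 124 2]) .nil .nil) (.node (.relax 2670 2) .nil .nil)) (.node (.cut [2, 3, 31, 38, 39, 43, 97] 100 197 false [.rel 108 0, .rel 747 1, .rel 1544 0, .rel 1547 0, .rel 786 1, .rel 1348 2, .rel 756 2, .rel 399 2, .rel 1556 0, .rel 215 1, .rel 1907 0, .rel 2871 2, .rel 1850 0]) (.node (.relax 1220 2) .nil .nil) (.node (.relax 1296 2) .nil .nil))) (.node (.relax 852 2) (.node (.relax 1950 2) (.node (.cut [18, 26, 28, 35, 48, 68] 100 197 false [.rel 2382 0, .rel 2798 2, .rel 2454 1, .rel 1762 0, .rel 671 2, .rel 718 1, .rel 1887 0, .rel 673 1, .rel 1854 2, .rel 2428 2]) .nil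 .nil) (.node (.relax 197 0) .nil .nil)) (.node (.cut [2, 19, 27, 35, 44, 47] 100 197 false [.rel 316 1, .rel 1667 2, .rel 188 2, .rel 21 0, .rel 23 1, .rel 24 0, .rel 413 0, .rel 195 1, .rel 184 1, .rel 181 0, .rel 1859 1, .rel 1256 0, .rel 2447 0, .rel 758 0, .rel 756 2, .rel 1484 0, .rel 2924 2]) (.node (.relax 1203 2) .nil .nil) .nil))))) (.node (.relax 496 2) (.node (.relax 1159 2) (.node (.relax 1605 2) (.node (.relax 1917 2) (.node (.cut [2, 19, 23, 39, 43, 44, 48] 100 197 false [.rel 1556 0, .rel 413 0, .rel 2472 1, .rel 21 0, .rel 27 0, .rel 690 2, .rel 220 1, .rel 197 2, .rel 1400 0, .rel 761 0, .rel 419 2, .rel 535 2]) (.node (.relax 1956 2) .nil .nil) (.node (.relax 1032 2) .nil .nil)) (.node (.relax 38 1) (.node (.cut [16, 26, 27, 28, 34, 68, 113] 100 197 false [.rel 706 0, .rel 1787 1, .rel 2045 0, .rel 1263 1, .rel 729 1, .rel 728 1, .rel 2434 2, .rel 1854 2, .rel 2827 2, .rel 671 1, .rel 718 1,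 .rel 1241 2, .rel 662 1]) .nil .nil) (.node (.cut [19, 29, 30, 42, 43, 97] 100 197 false [.rel 464 0, .rel 108 2, .rel 1872 2, .rel 2147 0, .rel 2149 1, .rel 1556 0, .rel 1309 0, .rel 1398 2, .rel 2948 1, .rel 2942 2]) .nil .nil))) (.node (.cut [2, 18, 36, 38, 39, 42, 43] 100 197 false [.rel 172 0, .rel 955 1, .rel 388 1, .rel 258 1, .rel 524 0, .rel 949 1, .rel 747 1, .rel 742 2, .rel 1528 2, .rel 1903 0]) (.node (.cut [2, 18, 28, 36, 42, 58, 106] 100 197 false [.rel 2454 0, .rel 258 1, .rel 3056 1, .rel 172 0, .rel 2437 0, .rel 1854 0, .rel 524 0, .rel 1890 2, .rel 2385 0, .rel 728 2, .rel 2936 2, .rel 2132 1, .rel 2131 2]) (.node (.relax 3012 2) .nil .nil) (.node (.cut [6, 19, 29, 33, 39, 42] 100 197 false [.rel 499 2, .rel 258 1, .rel 9 0, .rel 94 1, .rel 96 0, .rel 230 1, .rel 478 2, .rel 1470 2, .rel 2642 2, .rel 605 0, .rel 1508 0, .rel 514 2, .rel 1507 1, .rel 944 0, .rel 519 1, .rel 16 1, .rel 2063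 1]) .nil .nil)) (.node (.cut [2, 19, 29, 30, 44, 47] 100 197 false [.rel 413 0, .rel 814 2, .rel 1256 2, .rel 195 1, .rel 21 0, .rel 192 0, .rel 1289 1, .rel 316 1, .rel 765 1, .rel 181 0, .rel 810 1, .rel 757 0, .rel 2469 0, .rel 756 2, .rel 188 2, .rel 909 0, .rel 2924 2]) (.node (.relax 2139 0) .nil .nil) .nil))) (.node (.relax 13 2) (.node (.relax 1465 2) (.node (.relax 1192 2) (.node (.relax 1090 2) .nil .nil) (.node (.relax 1859 1) .nil .nil)) (.node (.cut [18, 23, 30, 39, 43, 103] 100 197 false [.rel 1309 0, .rel 814 0, .rel 413 2, .rel 23 2, .rel 21 0, .rel 499 0, .rel 24 0, .rel 195 1, .rel 392 2, .rel 762 1, .rel 918 1,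
  .rel 917 2, .rel 92 2]) (.node (.cut [26, 58, 68, 76, 113] 100 197 false [.rel 1885 2, .rel 2798 2, .rel 2577 1, .rel 1854 2, .rel 2827 2, .rel 2356 1, .rel 728 2, .rel 172 0, .rel 1237 2, .rel 1261 2, .rel 662 1]) .nil .nil) (.node (.relax 815 2) .nil .nil))) (.node (.cut [18, 26, 27, 36, 42, 78] 100 197 false [.rel 172 0, .rel 1238 2, .rel 188 0, .rel 730 1, .rel 1870 1, .rel 1844 2, .rel 2431 0, .rel 258 1, .rel 524 0, .rel 728 2, .rel 2131 2]) (.node (.relax 2762 2) (.node (.cut [2, 27, 29, 35, 36, 42, 48] 100 197 false [.rel 23 1, .rel 167 1, .rel 1777 2, .rel 1884 1, .rel 2382 0, .rel 2378 0, .rel 258 1, .rel 1519 1, .rel 1776 2, .rel 946 1, .rel 2653 0, .rel 2652 2]) .nil .nil) (.node (.relax 2665 1) .nil .nil)) (.node (.relax 2150 2) (.node (.relax 854 2) .nil .nil) .nil)))) (.node (.relax 671 2) (.node (.relax 2303 2) (.node (.relax 2715 2) (.node (.relax 2199 2) (.node (.relax 1077 2) .nil .nil)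 (.node (.relax 110 2) .nil .nil)) (.node (.cut [2, 19, 27, 31, 35] 100 197 false [.rel 188 2, .rel 21 0, .rel 757 2, .rel 1884 1, .rel 1952 2, .rel 23 1, .rel 1269 1, .rel 2658 1, .rel 756 2, .rel 496 1, .rel 2144 2, .rel 2924 2]) (.node (.cut [18, 23, 29, 33, 35, 48] 100 197 false [.rel 442 0, .rel 1950 2, .rel 769 1, .rel 1256 2, .rel 175 0, .rel 1244 0, .rel 139 0, .rel 825 0, .rel 1301 0, .rel 665 0, .rel 1859 1, .rel 1854 2, .rel 2428 2]) .nil .nil) (.node (.relax 2833 1) .nil .nil))) (.node (.cut [2, 18, 23, 26, 27, 36, 42] 100 197 false [.rel 188 0, .rel 21 0, .rel 361 0, .rel 729 1, .rel 731 2, .rel 1253 0, .rel 258 1, .rel 524 0, .rel 728 2, .rel 1235 0, .rel 1232 2, .rel 2131 2]) (.node (.relax 1246 2) (.node (.cut [16, 17, 23, 27, 33, 34, 78] 100 197 false [.rel 706 0, .rel 139 0, .rel 1300 2, .rel 701 1, .rel 715 0, .rel 1159 0, .rel 1174 0, .rel 768 0, .rel 373 0, .rel 657 1, .rel 671 1, .rel 673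 1, .rel 1232 2, .rel 1849 2]) .nil .nil) (.node (.relax 2869 0) .nil .nil)) (.node (.cut [18, 29, 33, 35, 36, 38, 42] 100 197 false [.rel 2492 0, .rel 258 1, .rel 524 0, .rel 909 2, .rel 2083 1, .rel 953 1, .rel 1850 2, .rel 2652 0]) (.node (.cut [2, 29, 33, 35, 36, 38, 42] 100 197 false [.rel 2492 0, .rel 909 2, .rel 23 1, .rel 439 0, .rel 258 1, .rel 1519 0, .rel 167 1, .rel 452 0, .rel 209 2, .rel 1260 1, .rel 1837 0, .rel 2183 1, .rel 3079 1, .rel 1850 0]) .nil .nil) .nil))) (.node (.relax 559 1) (.node (.relax 605 0) (.node (.relax 1777 2) (.node (.relax 1281 2) .nil .nil) (.node (.cut [4, 6, 19, 32, 43, 44, 47] 100 197 false [.rel 316 1, .rel 9 0, .rel 492 1, .rel 209 1, .rel 268 1, .rel 1562 0, .rel 2168 2, .rel 181 0, .rel 1563 2, .rel 2613 2]) .nil .nil)) (.node (.relax 1879 0) (.node (.relax 2737 1) .nil .nil) (.node (.relax 414 2) .nil .nil))) (.node (.relax 859 2) (.node (.relax 2380 2) (.node (.cut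 [17, 18, 22, 27, 33, 34, 48] 100 197 false [.rel 1844 0, .rel 442 0, .rel 2986 1, .rel 768 0, .rel 1263 0, .rel 706 0, .rel 2433 2, .rel 2404 2, .rel 2858 1, .rel 2732 0]) .nil .nil) (.node (.cut [2, 19, 23, 33, 43, 44, 46] 100 197 false [.rel 21 0, .rel 27 0, .rel 1440 2, .rel 607 2, .rel 220 1, .rel 139 0, .rel 2260 0, .rel 197 2, .rel 2403 1, .rel 4 2, .rel 1239 1, .rel 124 2]) .nil .nil)) (.node (.cut [3, 30, 31, 38, 39, 43] 100 197 false [.rel 108 0, .rel 464 2, .rel 2147 0, .rel 976 0, .rel 2150 2, .rel 2669 1, .rel 1556 0, .rel 3118 0, .rel 756 2, .rel 2084 1, .rel 2924 2]) (.node (.relax 2715 1) .nil .nil) .nil))))))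

def JJ_baba : JT :=
  (.node (.relax 1719 2) (.node (.relax 1745 2) (.node (.relax 1239 2) (.node (.relax 2653 2) (.node (.cut [17, 20, 22, 23, 33, 42, 47] 100 197 false [.rel 139 0, .rel 1844 0, .rel 1917 2, .rel 1806 0, .rel 2422 0, .rel 413 2, .rel 2440 0, .rel 2246 1, .rel 1049 0, .rel 1046 0]) (.node (.cut [18, 23, 27, 34, 36, 44, 47] 100 197 false [.rel 605 2, .rel 172 0, .rel 188 0, .rel 496 1, .rel 413 0, .rel 2442 0, .rel 316 1, .rel 139 0, .rel 1304 1, .rel 1844 2, .rel 425 0, .rel 2468 0, .rel 1484 0, .rel 499 1, .rel 2922 1]) (.node (.cut [2, 36, 38, 42, 91, 117] 100 197 false [.rel 786 2, .rel 108 2, .rel 83 1, .rel 747 1, .rel 787 1, .rel 258 1, .rel 1520 1, .rel 23 1, .rel 167 1, .rel 452 0, .rel 209 2, .rel 1470 1, .rel 215 1, .rel 1907 0, .rel 2722 2]) .nil .nil) (.node (.relax 2484 0) .nil .nil)) (.node (.relax 1890 2) (.node (.cut [17, 23, 26, 27, 33, 34, 48] 100 197 false [.rel 706 0, .rel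 139 0, .rel 18 0, .rel 336 1, .rel 149 1, .rel 825 0, .rel 2484 2, .rel 1145 1, .rel 653 2, .rel 442 0, .rel 2555 1, .rel 1388 1, .rel 658 0, .rel 1124 2, .rel 90 2]) .nil .nil) (.node (.relax 2551 0) .nil .nil))) (.node (.relax 244 2) (.node (.relax 500 1) (.node (.cut [2, 3, 19, 38, 39, 42, 52] 100 197 false [.rel 108 0, .rel 21 1, .rel 1309 2, .rel 420 0, .rel 976 0, .rel 977 1, .rel 1556 0, .rel 1398 2, .rel 1872 1, .rel 814 0, .rel 2834 0, .rel 2942 2]) .nil .nil) (.node (.relax 1108 2) .nil .nil)) (.node (.relax 992 2) (.node (.cut [2, 26, 33, 36, 42, 43] 100 197 false [.rel 1859 2, .rel 1667 0, .rel 316 2, .rel 23 1, .rel 204 0, .rel 690 1, .rel 167 1, .rel 452 0, .rel 209 2, .rel 2724 1, .rel 1242 0, .rel 124 2]) .nil .nil) (.node (.relax 202 2) .nil .nil)))) (.node (.relax 1199 2) (.node (.tree 197 [0] 100 [6, 29, 48, 0] (.pd 29 (.pge 29 (.fin 7 8414208 0)) (.unc 1871 0 (.leaf [6, 29, 48, 0] 100 197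 false [(0, 1)] [.rel 1776 2, .rel 742 1, .rel 741 2, .md 103 2 1])))) (.node (.cut [2, 30, 34, 35, 36, 42, 76] 100 197 false [.rel 1834 1, .rel 1955 0, .rel 1787 2, .rel 23 1, .rel 167 1, .rel 1789 2, .rel 2580 0, .rel 2377 0, .rel 258 1, .rel 721 1, .rel 1193 2]) (.node (.cut [2, 35, 36, 42, 60, 106] 100 197 false [.rel 258 1, .rel 2454 2, .rel 3056 1, .rel 2798 1, .rel 1854 0, .rel 1890 2, .rel 1893 2, .rel 524 0, .rel 2657 2]) .nil .nil) (.node (.relax 2866 2) .nil .nil)) (.node (.relax 2319 1) (.node (.cut [2, 28, 30, 33, 60, 64] 100 197 false [.rel 172 2, .rel 848 0, .rel 706 2, .rel 768 0, .rel 361 1, .rel 1238 1, .rel 1318 0, .rel 1235 2, .rel 2434 1, .rel 1265 0, .rel 23 2, .rel 605 1, .rel 1659 2, .rel 1317 2, .rel 662 1]) .nil .nil) (.node (.relax 82 2) .nil .nil))) (.node (.relax 696 2) (.node (.relax 786 2) (.node (.relax 1886 2) .nil .nil) (.node (.relax 216 2) .nil .nil)) (.node (.cut [2, 19, 29,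 30, 36, 42, 44] 100 197 false [.rel 413 0, .rel 814 2, .rel 21 0, .rel 258 1, .rel 1439 1, .rel 23 1, .rel 167 1, .rel 164 1, .rel 193 2, .rel 832 0, .rel 2108 0, .rel 2071 2, .rel 90 2]) (.node (.relax 2278 2) .nil .nil) .nil)))) (.node (.relax 50 2) (.node (.cut [16, 25, 26, 27, 33, 42] 100 197 false [.rel 657 2, .rel 605 1, .rel 139 0, .rel 425 0, .rel 1159 0, .rel 2347 2, .rel 361 0, .rel 1394 0, .rel 2234 2, .rel 671 1, .rel 1762 1, .rel 2233 1, .rel 1854 2, .rel 2428 2]) (.node (.cut [18, 22, 23, 34, 36, 44, 47] 100 197 false [.rel 605 2, .rel 139 0, .rel 499 1, .rel 316 1, .rel 1484 0, .rel 2926 2, .rel 1103 0, .rel 768 0, .rel 1665 0, .rel 172 0, .rel 1238 1, .rel 1659 0, .rel 2611 1]) (.node (.relax 375 0) (.node (.cut [2, 31, 36, 38, 42, 97, 100] 100 197 false [.rel 747 0, .rel 258 1, .rel 1520 1, .rel 23 1, .rel 167 1, .rel 452 0, .rel 209 2, .rel 1544 0, .rel 1316 1, .rel 862 1, .rel 741 2, .rel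 399 1, .rel 745 0, .rel 175 0, .rel 1903 2]) .nil .nil) (.node (.relax 2171 0) .nil .nil)) (.node (.cut [3, 6, 47, 83, 95, 117] 100 197 false [.rel 184 1, .rel 410 2, .rel 786 2, .rel 790 0, .rel 533 2, .rel 185 2, .rel 27 2, .rel 2271 1, .rel 398 2, .rel 2283 2]) (.node (.cut [17, 18, 28, 33, 35, 36, 48] 100 197 false [.rel 442
  0, .rel 1950 2, .rel 769 1, .rel 20 0, .rel 18 0, .rel 149 1, .rel 151 0, .rel 166 1, .rel 175 0, .rel 671 1, .rel 364 2, .rel 683 1, .rel 1515 0]) .nil .nil) (.node (.cut [6, 31, 32, 39, 40, 44, 83] 100 197 false [.rel 209 1, .rel 973 1, .rel 1975 2, .rel 862 1, .rel 970 2, .rel 399 1, .rel 213 0, .rel 2087 2]) .nil .nil))) (.node (.relax 1939 0) (.node (.relax 2132 2) (.node (.cut [17, 23, 30, 35, 64, 68] 100 197 false [.rel 1238 1, .rel 721 1, .rel 77 0, .rel 1876 2, .rel 215 2, .rel 1676 0, .rel 719 0, .rel 124 2]) .nil .nil) (.node (.relax 2240 2) .nil .nil)) (.node (.cut [14,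 18, 23, 29, 33, 48] 100 197 false [.rel 20 2, .rel 175 0, .rel 1256 2, .rel 732 0, .rel 442 0, .rel 769 1, .rel 667 1, .rel 21 2, .rel 352 1, .rel 176 0, .rel 38 2, .rel 103 2]) (.node (.cut [2, 18, 28, 36, 42, 60, 68] 100 197 false [.rel 23 1, .rel 167 1, .rel 1787 1, .rel 1789 2, .rel 2378 0, .rel 258 1, .rel 524 0, .rel 172 0, .rel 383 1, .rel 1265 1, .rel 1271 1, .rel 728 2, .rel 3056 1, .rel 1844 0, .rel 2131 2]) .nil .nil) .nil))) (.node (.relax 394 2) (.node (.cut [17, 22, 25, 33, 42, 47, 48] 100 197 false [.rel 1844 0, .rel 442 0, .rel 2986 1, .rel 18 0, .rel 1745 0, .rel 657 2, .rel 2323 0, .rel 1950 0, .rel 690 0, .rel 1859 1, .rel 1716 2, .rel 2975 0, .rel 2973 1]) (.node (.cut [2, 28, 36, 106, 0] 100 197 false [.rel 1890 2, .rel 1787 1, .rel 2385 0, .rel 728 2, .rel 1786 2, .rel 23 1, .rel 2378 2, .rel 2452 2, .rel 364 2, .rel 1891 2, .rel 2934 2]) (.node (.relax 1653 0) .nil .nil) (.node (.cut [31,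 50, 89, 115, 117] 100 197 false [.rel 1349 2, .rel 1559 0, .rel 977 2, .rel 2519 2, .rel 756 2, .rel 958 2, .rel 399 2, .rel 1528 1]) .nil .nil)) (.node (.relax 204 2) (.node (.relax 1321 1) .nil .nil) (.node (.cut [18, 29, 32, 43, 44, 47] 100 197 false [.rel 1936 2, .rel 756 0, .rel 316 1, .rel 2450 0, .rel 1859 2, .rel 1448 0, .rel 613 1, .rel 1854 2, .rel 2428 2]) .nil .nil))) (.node (.relax 1808 2) (.node (.relax 649 0) (.node (.cut [18, 23, 28, 35, 47, 68] 100 197 false [.rel 361 2, .rel 729 1, .rel 1243 1, .rel 373 2, .rel 1263 0, .rel 1261 1, .rel 172 0, .rel 720 1, .rel 1238 1, .rel 667 1, .rel 1855 1, .rel 1854 2, .rel 2428 2]) .nil .nil) (.node (.relax 3045 2) .nil .nil)) (.node (.cut [18, 19, 26, 33, 39, 42] 100 197 false [.rel 172 0, .rel 499 2, .rel 1074 0, .rel 525 1, .rel 2132 1, .rel 1844 2, .rel 2990 0, .rel 1955 2, .rel 3000 1, .rel 2427 0]) (.node (.relax 1427 2) .nil .nil) .nil))))) (.node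 (.relax 1844 2) (.node (.cut [6, 19, 27, 39, 43, 83] 100 197 false [.rel 188 2, .rel 9 0, .rel 189 2, .rel 38 1, .rel 1556 0, .rel 978 1, .rel 541 0, .rel 108 0, .rel 110 0, .rel 172 2, .rel 66 1, .rel 918 1, .rel 238 1, .rel 239 0, .rel 484 1]) (.node (.relax 1439 2) (.node (.relax 146 2) (.node (.relax 2675 2) (.node (.cut [18, 30, 35, 36, 42, 44, 54] 100 197 false [.rel 1955 0, .rel 2869 0, .rel 258 1, .rel 524 0, .rel 172 0, .rel 2517 1, .rel 1969 1, .rel 2761 2, .rel 2927 2]) .nil .nil) (.node (.relax 598 2) .nil .nil)) (.node (.cut [2, 3, 6, 32, 39, 42, 47, 95] 100 197 false [.rel 108 0, .rel 209 1, .rel 870 1, .rel 786 2, .rel 83 1, .rel 1284 1, .rel 787 1, .rel 215 1, .rel 690 1, .rel 607 1, .rel 1907 0, .rel 2238 2, .rel 124 2]) (.node (.cut [16, 17, 18, 23, 28, 34, 48] 100 197 false [.rel 175 1, .rel 20 0, .rel 18 0, .rel 361 2, .rel 161 1, .rel 671 1, .rel 1162 0, .rel 21 2, .rel 678 0, .rel 17 1,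 .rel 38 2, .rel 103 2]) .nil .nil) (.node (.relax 2775 1) .nil .nil))) (.node (.relax 320 2) (.node (.cut [2, 18, 23, 29, 36, 42, 58] 100 197 false [.rel 258 1, .rel 2367 0, .rel 3012 0, .rel 1854 0, .rel 524 0, .rel 172 0, .rel 1177 0, .rel 728 2, .rel 698 0, .rel 2446 2, .rel 2131 2]) (.node (.cut [18, 19, 30, 35, 37, 44] 100 197 false [.rel 413 0, .rel 258 2, .rel 524 0, .rel 814 2, .rel 172 0, .rel 2654 1, .rel 1955 0, .rel 1969 1, .rel 1844 2, .rel 3000 1, .rel 2427 0]) .nil .nil) (.node (.cut [6, 23, 30, 39, 40, 43, 47] 100 197 false [.rel 909 1, .rel 814 0, .rel 413 2, .rel 188 1, .rel 757 0, .rel 955 0, .rel 1556 0, .rel 2514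
  0, .rel 9 0, .rel 1528 1, .rel 2943 1, .rel 1477 2, .rel 2924 1]) .nil .nil)) (.node (.relax 1419 2) (.node (.cut [2, 17, 35, 36, 44, 47] 100 197 false [.rel 23 1, .rel 316 1, .rel 1667 2, .rel 204 0, .rel 77 2, .rel 721 0, .rel 773 1, .rel 768 2, .rel 1325 1, .rel 1484 0, .rel 499 1, .rel 2611 1]) .nil .nil) (.node (.relax 3079 0) .nil .nil)))) (.node (.tree 197 [0] 100 [75, 0] (.pd 75 (.pge 75 (.fin 7 8414208 0)) (.unc 32 1 (.leaf [75, 0] 100 197 false [(0, 1)] [.rel 32 2, .md 90 2 1])))) (.node (.relax 641 0) (.node (.relax 1214 2) (.node (.cut [18, 19, 23, 33, 39, 42, 47] 100 197 false [.rel 172 0, .rel 499 2, .rel 1074 0, .rel 525 1, .rel 2132 1, .rel 316 1, .rel 188 1, .rel 139 0, .rel 1304 1, .rel 1844 2, .rel 425 0, .rel 2468 0, .rel 909 0, .rel 2922 1]) .nil .nil) (.node (.cut [3, 6, 39, 43, 44, 47, 95] 100 197 false [.rel 1556 0, .rel 316 1, .rel 793 2, .rel 1341 1, .rel 185 1, .rel 27 0, .rel 790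 0, .rel 2737 0, .rel 398 2, .rel 2283 2]) .nil .nil)) (.node (.cut [2, 6, 18, 30, 36, 42, 54] 100 197 false [.rel 258 1, .rel 524 0, .rel 1546 1, .rel 1544 2, .rel 2160 0, .rel 172 0, .rel 23 1, .rel 383 1, .rel 108 2, .rel 959 1, .rel 2147 1, .rel 9 0, .rel 522 0, .rel 103 2]) (.node (.relax 1969 0) .nil .nil) (.node (.relax 2234 2) .nil .nil))) (.node (.relax 1583 2) (.node (.relax 1614 1) (.node (.cut [17, 23, 27, 35, 42, 44, 47] 100 197 false [.rel 316 1, .rel 1667 2, .rel 1256 0, .rel 1440 1, .rel 1859 1, .rel 690 1, .rel 2804 0, .rel 139 0, .rel 425 0, .rel 193 1, .rel 605 0, .rel 657 0, .rel 653 2, .rel 1388 1, .rel 129 0, .rel 1124 2, .rel 90 2]) .nil .nil) (.node (.relax 2660 2) .nil .nil)) (.node (.relax 1253 0) (.node (.relax 368 2) .nil .nil) .nil)))) (.node (.relax 1125 2) (.node (.cut [6, 20, 23, 33, 42, 46, 47] 100 197 false [.rel 139 0, .rel 121 0, .rel 573 1, .rel 1022 2, .rel 52 1, .rel 607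 2, .rel 690 0, .rel 316 1, .rel 1667 1, .rel 2777 0, .rel 1075 0, .rel 124 0]) (.node (.relax 721 0) (.node (.relax 664 2) (.node (.relax 1939 2) .nil .nil) (.node (.cut [6, 19, 32, 33, 36, 42, 47] 100 197 false [.rel 209 1, .rel 496 1, .rel 1706 1, .rel 258 1, .rel 501 2, .rel 1470 2, .rel 9 0, .rel 268 1, .rel 1495 1, .rel 1004 0, .rel 32 1, .rel 94 1, .rel 477 0, .rel 232 1, .rel 475 1]) .nil .nil)) (.node (.cut [3, 6, 19, 31, 39, 43, 117] 100 197 false [.rel 9 0, .rel 108 0, .rel 976 0, .rel 974 1, .rel 1979 1, .rel 172 2, .rel 1308 1, .rel 977 2, .rel 1556 0, .rel 2138 2]) (.node (.relax 1252 2) .nil .nil) (.node (.cut [2, 19, 38, 39, 47, 83] 100 197 false [.rel 955 2, .rel 27 2, .rel 499 0, .rel 23 1, .rel 24 0, .rel 184 1, .rel 181 0, .rel 413 0, .rel 1556 0, .rel 2943 1, .rel 215 0, .rel 21 1, .rel 196 1, .rel 72 0, .rel 757 0, .rel 756 2, .rel 909 0, .rel 2924 2]) .nil .nil))) (.node (.relax 2382 2)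 (.node (.cut [23, 27, 58, 64, 103] 100 197 false [.rel 23 2, .rel 72 1, .rel 172 2, .rel 167 1, .rel 730 1, .rel 731 2, .rel 1794 0, .rel 525 1, .rel 728 2, .rel 188 0, .rel 1249 2, .rel 2131 2]) (.node (.cut [16, 17, 33, 42, 62, 78] 100 197 false [.rel 706 2, .rel 605 1, .rel 2234 2, .rel 1147 0, .rel 671 1, .rel 1639 0, .rel 1737 0, .rel 1161 0, .rel 1232 2, .rel 1849 2]) .nil .nil) (.node (.cut [4, 6, 10, 19, 32, 41, 44, 47] 100 197 false [.rel 481 1, .rel 245 1, .rel 316 1, .rel 9 0, .rel 492 1, .rel 209 1, .rel 268 1, .rel 1562 0, .rel 501 0, .rel 244 2, .rel 1502 1, .rel 2625 0, .rel 904 1]) .nil .nil)) (.node (.relax 1382 2) (.node (.tree 197 [0] 100 [58, 70, 103, 0] (.pd 70 (.pge 70 (.fin 7 8414208 0)) (.pd 103 (.pge 103 (.fin 7 8414208 0)) (.unc 683 1 (.leaf [58, 70, 103, 0] 100 197 false [(0, 1)] [.rel 2378 2, .md 1193 2 1]))))) .nil .nil) .nil))) (.node (.relax 973 2) (.node (.relax 29 2) (.node (.relax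 607 1) (.node (.relax 1250 2) .nil .nil) (.node (.cut [6, 19, 30, 43, 44, 48] 100 197 false [.rel 690 2, .rel 607 1, .rel 9 0, .rel 566 0, .rel 481 2, .rel 413 0, .rel 814 2, .rel 1556 0, .rel 96 0, .rel 968 1, .rel 1808 0, .rel 1378 0, .rel 419 0, .rel 461 0, .rel 2598 0]) .nil .nil)) (.node (.cut [2, 19,
  30, 35, 44, 47] 100 197 false [.rel 413 0, .rel 814 2, .rel 195 1, .rel 316 1, .rel 1667 2, .rel 1859 1, .rel 1309 0, .rel 1937 0, .rel 1028 0, .rel 1289 1, .rel 2833 1, .rel 139 0, .rel 1671 1, .rel 756 2, .rel 1606 0, .rel 2924 2]) (.node (.relax 1306 2) .nil .nil) (.node (.relax 505 1) .nil .nil))) (.node (.relax 898 2) (.node (.relax 27 2) (.node (.cut [16, 17, 22, 27, 33, 34, 48] 100 197 false [.rel 1844 0, .rel 442 0, .rel 2986 1, .rel 706 0, .rel 1181 0, .rel 18 0, .rel 1745 0, .rel 2352 2, .rel 2404 2, .rel 2806 0, .rel 671 1, .rel 2342 0]) .nil .nil) (.node (.relax 1094 2) .nil .nil)) (.node (.cut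 [2, 3, 31, 36, 39, 43, 97] 100 197 false [.rel 786 1, .rel 108 0, .rel 23 1, .rel 200 1, .rel 215 1, .rel 27 0, .rel 780 2, .rel 408 1, .rel 204 1, .rel 1108 2, .rel 1920 2, .rel 756 2, .rel 1675 2, .rel 2924 2]) (.node (.relax 2442 1) .nil .nil) .nil))))))

def JJ_babb : JT :=
  (.node (.relax 1309 2) (.node (.relax 1093 2) (.node (.relax 21 2) (.node (.relax 289 2) (.node (.cut [17, 19, 22, 23, 33, 44, 48] 100 197 false [.rel 139 0, .rel 413 0, .rel 1844 0, .rel 18 0, .rel 1745 0, .rel 1769 2, .rel 1806 2, .rel 417 1, .rel 2802 0, .rel 2466 1, .rel 1170 0, .rel 496 0, .rel 1511 1]) (.node (.relax 2117 1) (.node (.relax 2948 1) .nil .nil) (.node (.relax 1075 2) .nil .nil)) (.node (.relax 540 2) (.node (.cut [16, 17, 22, 23, 26, 34, 42] 100 197 false [.rel 1844 0, .rel 657 0, .rel 1159 0, .rel 2347 2, .rel 2431 0, .rel 1161 2, .rel 2786 0, .rel 671 1, .rel 1751 2]) .nil .nil) (.node (.cut [2, 23, 29, 35, 36,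 42, 47] 100 197 false [.rel 23 1, .rel 1256 2, .rel 72 1, .rel 745 1, .rel 741 0, .rel 955 0, .rel 690 1, .rel 1776 2, .rel 188 0, .rel 1859 1, .rel 2447 0, .rel 2652 2]) .nil .nil))) (.node (.relax 135 2) (.node (.cut [2, 18, 36, 42, 58, 68, 76] 100 197 false [.rel 172 0, .rel 23 1, .rel 383 1, .rel 1272 2, .rel 167 1, .rel 2383 0, .rel 258 1, .rel 524 0, .rel 728 2, .rel 3077 1, .rel 1844 0, .rel 2131 2]) (.node (.relax 2517 2) .nil .nil) (.node (.relax 912 2) .nil .nil)) (.node (.relax 1158 0) (.node (.cut [2, 18, 33, 35, 36, 43, 52] 100 197 false [.rel 1667 0, .rel 23 1, .rel 316 2, .rel 773 1, .rel 204 0, .rel 745 1, .rel 781 2, .rel 399 2, .rel 1348 1, .rel 1484 0, .rel 499 1, .rel 1556 0, .rel 3101 1, .rel 1850 0]) .nil .nil) (.node (.relax 829 2) .nil .nil)))) (.node (.relax 174 0) (.node (.cut [6, 19, 32, 36, 44, 46, 47] 100 197 false [.rel 209 1, .rel 9 0, .rel 268 1, .rel 878 2, .rel 1583 1, .rel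 442 2, .rel 1584 1, .rel 316 1, .rel 1448 1, .rel 1450 1, .rel 469 1, .rel 94 1, .rel 492 1, .rel 904 1]) (.node (.relax 2385 0) (.node (.cut [2, 18, 19, 23, 42, 44, 47] 100 197 false [.rel 172 0, .rel 21 0, .rel 316 1, .rel 185 1, .rel 27 0, .rel 394 2, .rel 174 2, .rel 406 0, .rel 413 0, .rel 1289 1, .rel 1296 2, .rel 419 2, .rel 1479 0]) .nil .nil) (.node (.cut [6, 32, 39, 43, 47, 83, 89] 100 197 false [.rel 1556 0, .rel 533 2, .rel 2139 1, .rel 978 1, .rel 977 1, .rel 209 1, .rel 1001 2, .rel 2164 2, .rel 398 2, .rel 1477 0]) .nil .nil)) (.node (.relax 2514 2) (.node (.relax 464 0) .nil .nil) (.node (.cut [3, 6, 36, 40, 42, 43, 44] 100 197 false [.rel 909 2, .rel 499 0, .rel 316 1, .rel 1667 1, .rel 108 0, .rel 690 1, .rel 258 1, .rel 553 1, .rel 268 2, .rel 955 0, .rel 2647 1, .rel 1528 1]) .nil .nil))) (.node (.relax 2827 0) (.node (.relax 2351 2) (.node (.relax 2998 2) .nil .nil) (.node (.relax 80 2)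 .nil .nil)) (.node (.cut [18, 26, 33, 36, 42, 43] 100 197 false [.rel 1859 2, .rel 1667 0, .rel 316 2, .rel 499 1, .rel 172 0, .rel 388 1, .rel 258 1, .rel 524 0, .rel 949 1, .rel 1076 1, .rel 1850 2, .rel 2428 0]) (.node (.cut [2, 28, 30, 35, 60, 68] 100 197 false [.rel 1787 1, .rel 1955 0, .rel 1834 2, .rel 2575 2, .rel 2580 0, .rel 1881 2, .rel 2040 1, .rel 1317 2, .rel 1267 2, .rel 1863 2, .rel 124 2]) .nil .nil) .nil)))) (.node (.relax 1062 2) (.node (.relax 706 2) (.node (.cut [3, 6, 23, 32, 36, 44, 47] 100 197 false [.rel 209 1, .rel 21 2, .rel 435 1, .rel 23 1, .rel 212 0, .rel 316 1, .rel 185 1, .rel 31 2, .rel 227 0, .rel 9 0, .rel 4 1, .rel 5 0, .rel 8 2, .rel 69 0, .rel 92 2]) (.node (.tree 197 [0] 100 [13, 125, 0] (.pd 13 (.pge 13 (.fin 7 8414208 0)) (.pd 125 (.pge 125 (.fin 7 8414208 0)) (.unc 2325 0 (.leaf [13, 125, 0] 100 197 false [(0, 1)] [.rel 1813 2, .rel 2325 2, .md 1153 2 1]))))) (.node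 (.relax 1503 2) .nil .nil) (.node (.relax 1348 0) .nil .nil)) (.node (.cut [3, 31, 38, 50, 97, 117] 100 197 false [.rel 1544 0, .rel 1556 2, .rel 3028 1, .rel 1905 0, .rel 741 0, .rel 1348 2, .rel 756 2, .rel 399 2, .rel 2871 2, .rel 1850 0]) (.node (.cut [2, 17, 18, 23, 33, 36, 48] 100 197 false [.rel 139 0, .rel 18 0, .rel 336 1, .rel 338 2, .rel 753 1, .rel 23 1, .rel 25 2, .rel 149 1, .rel 395 0, .rel 681 1, .rel 348 1, .rel 124 2]) .nil .nil) (.node (.relax 1512 0) .nil .nil))) (.node (.cut [18, 23, 27, 30, 35, 42, 47] 100 197 false [.rel 361 0, .rel 729 1, .rel 757 0, .rel 1884 1,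
  .rel 1952 2, .rel 1305 0, .rel 1256 2, .rel 1254 0, .rel 1875 0, .rel 1858 2, .rel 1854 2, .rel 2428 2]) (.node (.relax 1332 2) (.node (.cut [17, 18, 22, 23, 27, 42, 48] 100 197 false [.rel 1844 0, .rel 18 0, .rel 1745 0, .rel 361 0, .rel 729 1, .rel 1870 2, .rel 1769 2, .rel 2365 0, .rel 172 0, .rel 1250 2, .rel 698 2, .rel 2636 1]) .nil .nil) (.node (.relax 3063 2) .nil .nil)) (.node (.cut [18, 26, 27, 29, 33, 42] 100 197 false [.rel 172 0, .rel 1875 2, .rel 730 1, .rel 1952 1, .rel 757 2, .rel 1305 0, .rel 1884 2, .rel 139 0, .rel 425 2, .rel 1254 0, .rel 375 1, .rel 1854 2, .rel 2428 2]) (.node (.cut [2, 6, 29, 30, 32, 36, 42] 100 197 false [.rel 209 1, .rel 23 1, .rel 167 1, .rel 452 2, .rel 453 0, .rel 164 2, .rel 832 0, .rel 258 1, .rel 77 1, .rel 18 0, .rel 710 2, .rel 90 2]) .nil .nil) .nil))) (.node (.relax 2833 2) (.node (.relax 898 0) (.node (.relax 24 0) (.node (.relax 2461 2) .nil .nil) (.node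 (.relax 555 2) .nil .nil)) (.node (.relax 2872 1) (.node (.cut [2, 23, 30, 33, 36, 47, 48] 100 197 false [.rel 139 0, .rel 825 0, .rel 23 1, .rel 442 0, .rel 425 2, .rel 850 0, .rel 757 0, .rel 202 0, .rel 194 2, .rel 836 1, .rel 630 0, .rel 495 2, .rel 393 0, .rel 92 2]) .nil .nil) (.node (.cut [6, 27, 30, 36, 42, 44, 47] 100 197 false [.rel 425 1, .rel 139 2, .rel 630 0, .rel 121 0, .rel 258 1, .rel 499 1, .rel 188 0, .rel 9 0, .rel 477 0, .rel 478 2, .rel 1058 1, .rel 361 0, .rel 1203 1, .rel 2071 0, .rel 316 1, .rel 1484 0, .rel 486 1, .rel 917 1, .rel 3 1, .rel 1456 0]) .nil .nil))) (.node (.relax 307 2) (.node (.relax 909 0) (.node (.relax 701 0) .nil .nil) (.node (.relax 3103 2) .nil .nil)) (.node (.relax 1063 2) (.node (.cut [2, 16, 17, 26, 27, 34, 36] 100 197 false [.rel 1235 0, .rel 23 1, .rel 706 0, .rel 1181 0, .rel 1180 2, .rel 1264 0, .rel 671 1, .rel 1158 0, .rel 1157 2, .rel 1179 2, .rel 2118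 2]) .nil .nil) .nil))))) (.node (.relax 581 1) (.node (.relax 342 2) (.node (.relax 1854 2) (.node (.cut [6, 17, 19, 23, 33, 47, 48] 100 197 false [.rel 9 0, .rel 18 0, .rel 149 1, .rel 151 2, .rel 10 2, .rel 38 0, .rel 442 0, .rel 845 0, .rel 158 1, .rel 155 1, .rel 4 0, .rel 58 0, .rel 517 1]) (.node (.relax 1950 0) (.node (.relax 2928 2) .nil .nil) (.node (.relax 611 2) .nil .nil)) (.node (.cut [3, 23, 36, 39, 42, 95] 100 197 false [.rel 108 0, .rel 21 2, .rel 258 1, .rel 168 0, .rel 23 1, .rel 400 2, .rel 549 0, .rel 464 1, .rel 188 1, .rel 757 0, .rel 200 1, .rel 193 2, .rel 428 1, .rel 698 1, .rel 697 2, .rel 2071 2, .rel 90 2]) (.node (.relax 701 2) .nil .nil) (.node (.relax 2653 0) .nil .nil))) (.node (.relax 1700 1) (.node (.relax 1891 2) (.node (.cut [16, 22, 24, 27, 42, 68] 100 197 false [.rel 139 2, .rel 361 0, .rel 768 2, .rel 729 1, .rel 373 0, .rel 1263 0, .rel 1261 1, .rel 605 1, .rel 172 0,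 .rel 375 1, .rel 1238 1, .rel 2431 2, .rel 1849 2]) .nil .nil) (.node (.cut [6, 19, 29, 39, 42, 43, 44] 100 197 false [.rel 1556 0, .rel 1872 2, .rel 413 0, .rel 2472 1, .rel 2514 0, .rel 9 0, .rel 1528 1, .rel 2187 2, .rel 2943 1, .rel 2942 0]) .nil .nil)) (.node (.relax 1745 0) (.node (.cut [2, 18, 33, 35, 36, 42, 48] 100 197 false [.rel 23 1, .rel 167 1, .rel 442 0, .rel 1950 2, .rel 445 1, .rel 175 0, .rel 172 0, .rel 383 1, .rel 380 1, .rel 258 1, .rel 1413 0, .rel 524 0, .rel 949 1]) .nil .nil) .nil))) (.node (.relax 1365 1) (.node (.cut [18, 23, 35, 36, 42, 44, 47] 100 197 false [.rel 316 1, .rel 1667 2, .rel 499 1, .rel 172 0, .rel 388 1, .rel 258 1, .rel 524 0, .rel 949 1, .rel 1859 1, .rel 1076 1, .rel 1850 2, .rel 2428 0]) (.node (.relax 1762 2) (.node (.relax 2834 2) .nil .nil) (.node (.relax 2192 2) .nil .nil)) (.node (.cut [2, 18, 27, 29, 35, 36, 43] 100 197 false [.rel 1256 1, .rel 23 1, .rel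 72 1, .rel 745 1, .rel 741 0, .rel 955 0, .rel 1255 2, .rel 188 0, .rel 1859 1, .rel 2447 0, .rel 2652 2]) (.node (.cut [2, 16, 37, 110, 113] 100 197 false [.rel 258 2, .rel 2899 0, .rel 2356 1, .rel 1232 1, .rel 1786 2, .rel 1787 2, .rel 2637 2]) .nil .nil) (.node (.relax 2948 0) .nil .nil))) (.node (.relax 2742
  2) (.node (.relax 2270 0) (.node (.cut [2, 19, 27, 30, 35, 47] 100 197 false [.rel 188 2, .rel 21 0, .rel 1884 1, .rel 757 0, .rel 1952 2, .rel 23 1, .rel 1269 1, .rel 2658 1, .rel 756 2, .rel 496 1, .rel 2144 2, .rel 2924 2]) .nil .nil) (.node (.cut [2, 18, 19, 30, 35, 42, 97] 100 197 false [.rel 464 0, .rel 108 2, .rel 83 1, .rel 1955 0, .rel 172 0, .rel 760 2, .rel 1971 1, .rel 21 1, .rel 189 2, .rel 864 2, .rel 535 2]) .nil .nil)) (.node (.relax 2368 2) (.node (.relax 1942 1) .nil .nil) .nil)))) (.node (.relax 2147 2) (.node (.cut [10, 17, 20, 23, 33, 46, 47] 100 197 false [.rel 119 0, .rel 1084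 1, .rel 139 0, .rel 1085 2, .rel 1689 0, .rel 1693 0, .rel 14 2, .rel 318 0, .rel 54 0, .rel 20 1, .rel 3 1, .rel 1709 1, .rel 288 1, .rel 284 0, .rel 229 0]) (.node (.cut [2, 6, 19, 23, 35, 36, 42] 100 197 false [.rel 4 1, .rel 258 1, .rel 9 0, .rel 105 0, .rel 18 2, .rel 1166 0, .rel 21 0, .rel 23 1, .rel 167 1, .rel 671 2, .rel 353 1, .rel 942 1]) (.node (.tree 197 [0] 100 [2, 82, 0] (.pd 2 (.pge 2 (.fin 7 8414208 0)) (.leaf [2, 82, 0] 100 197 false [(0, 1)] [.rel 665 2, .md 124 2 1]))) (.node (.cut [2, 18, 19, 34, 36, 39] 100 197 false [.rel 1413 2, .rel 1508 0, .rel 496 1, .rel 1917 1, .rel 23 1, .rel 439 0, .rel 768 0, .rel 1844 2, .rel 77 2, .rel 2280 1, .rel 1230 0]) .nil .nil) (.node (.cut [2, 19, 39, 40, 43, 47, 83] 100 197 false [.rel 909 1, .rel 955 0, .rel 1556 0, .rel 27 2, .rel 978 1, .rel 977 1, .rel 413 0, .rel 2943 1, .rel 533 1, .rel 21 1, .rel 184 1, .rel 1295 0, .rel 756 2, .rel 2924 2])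 .nil .nil)) (.node (.cut [2, 19, 31, 39, 43, 44, 47] 100 197 false [.rel 215 0, .rel 786 1, .rel 413 0, .rel 1289 1, .rel 1927 2, .rel 316 1, .rel 765 1, .rel 195 1, .rel 793 0, .rel 790 0, .rel 1556 0, .rel 3100 1, .rel 756 2, .rel 2924 2]) (.node (.cut [2, 18, 28, 29, 36, 42, 60] 100 197 false [.rel 258 1, .rel 2047 2, .rel 3056 1, .rel 2798 1, .rel 1854 0, .rel 524 0, .rel 729 1, .rel 728 2, .rel 946 1, .rel 2446 2, .rel 2131 2]) .nil .nil) (.node (.relax 2472 1) .nil .nil))) (.node (.relax 1235 0) (.node (.relax 107 2) (.node (.relax 1152 2) .nil .nil) (.node (.relax 1025 0) .nil .nil)) (.node (.cut [2, 29, 35, 36, 39, 42, 47] 100 197 false [.rel 23 1, .rel 909 0, .rel 2492 2, .rel 439 0, .rel 258 1, .rel 1519 0, .rel 167 1, .rel 452 0, .rel 209 2, .rel 1260 1, .rel 1837 0, .rel 2183 1, .rel 3079 1, .rel 1850 0]) (.node (.cut [30, 36, 42, 47, 97, 100] 100 197 false [.rel 258 1, .rel 1260 2, .rel 1519 0,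 .rel 364 0, .rel 452 0, .rel 209 2, .rel 453 0, .rel 164 2, .rel 451 0, .rel 77 1, .rel 18 0, .rel 710 2, .rel 90 2]) .nil .nil) .nil))) (.node (.relax 108 0) (.node (.relax 2300 2) (.node (.tree 197 [0] 100 [6, 28, 29, 30, 101] (.unc 90 0 (.leaf [6, 28, 29, 30, 101] 100 197 false [(0, 1)] [.rel 166 0, .rel 18 2, .rel 360 0, .rel 164 2, .rel 833 1, .rel 832 0, .md 90 2 1]))) (.node (.cut [18, 29, 30, 35, 38, 42, 124] 100 197 false [.rel 1955 0, .rel 2665 1, .rel 1963 0, .rel 3071 1, .rel 2948 2, .rel 172 0, .rel 2517 2, .rel 2925 2]) .nil .nil) (.node (.cut [2, 19, 27, 39, 42, 43, 47] 100 197 false [.rel 188 2, .rel 1256 0, .rel 21 0, .rel 108 0, .rel 690 1, .rel 258 1, .rel 553 1, .rel 546 2, .rel 955 0, .rel 2646 0, .rel 1532 1, .rel 103 2]) .nil .nil)) (.node (.cut [2, 18, 27, 30, 34, 35, 42] 100 197 false [.rel 706 0, .rel 848 2, .rel 768 0, .rel 361 1, .rel 172 0, .rel 1238 1, .rel 1955 0, .rel 1235 2,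 .rel 2749 1, .rel 721 1, .rel 1862 0, .rel 124 2]) (.node (.relax 2863 2) .nil .nil) (.node (.relax 579 2) .nil .nil))) (.node (.cut [18, 30, 36, 43, 97, 100] 100 197 false [.rel 747 2, .rel 955 1, .rel 23 1, .rel 400 0, .rel 399 2, .rel 780 0, .rel 24 2, .rel 397 1, .rel 77 1, .rel 20 0, .rel 198 2, .rel 92 2]) (.node (.cut [2, 18, 22, 33, 36, 58] 100 197 false [.rel 23 1, .rel 3056 2, .rel 2452 0, .rel 524 0, .rel 2454 1, .rel 1890 2, .rel 1941 1, .rel 2499 1, .rel 1955 2, .rel 2927 2]) (.node (.cut [18, 23, 26, 27, 34, 71] 100 197 false [.rel 706 0, .rel 373 2, .rel 1318 0, .rel 667 1, .rel 1855 2, .rel 1860 1, .rel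
  768 0, .rel 1243 0, .rel 1240 0, .rel 1854 2, .rel 2428 2]) .nil .nil) (.node (.relax 836 2) .nil .nil)) (.node (.cut [2, 31, 36, 38, 42, 117] 100 197 false [.rel 786 2, .rel 258 1, .rel 1520 1, .rel 23 1, .rel 167 1, .rel 452 0, .rel 209 2, .rel 955 1, .rel 400 0, .rel 862 1, .rel 747 1, .rel 741 2, .rel 399 1, .rel 175 0, .rel 1903 2]) (.node (.relax 2040 2) .nil .nil) .nil))))))

def JJ_bbaa : JT :=
  (.node (.relax 1607 1) (.node (.relax 233 2) (.node (.relax 119 0) (.node (.relax 98 2) (.node (.relax 1228 2) (.node (.relax 1203 1) (.node (.cut [3, 31, 36, 38, 39, 43, 97] 100 197 false [.rel 108 0, .rel 955 1, .rel 532 0, .rel 1544 0, .rel 1349 2, .rel 1549 0, .rel 909 0, .rel 2928 1, .rel 2653 0, .rel 756 2, .rel 2924 2]) .nil .nil) (.node (.relax 2659 2) .nil .nil)) (.node (.relax 18 0) (.node (.relax 1219 0) .nil .nil) (.node (.cut [4, 23, 40, 41, 45, 61] 100 197 false [.rel 1605 1, .rel 1927 1, .rel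 501 0, .rel 1928 2, .rel 1491 2, .rel 2622 0, .rel 2092 0, .rel 92 2]) .nil .nil))) (.node (.cut [13, 21, 44, 47, 48, 51] 100 197 false [.rel 1716 1, .rel 316 1, .rel 834 2, .rel 825 2, .rel 613 2, .rel 2742 1, .rel 1647 0, .rel 2701 2, .rel 2975 0, .rel 442 2, .rel 2270 1, .rel 1065 1, .rel 2973 1]) (.node (.cut [2, 17, 18, 30, 36, 42, 58] 100 197 false [.rel 23 1, .rel 167 1, .rel 1789 1, .rel 172 0, .rel 383 1, .rel 1787 2, .rel 1834 2, .rel 1793 0, .rel 258 1, .rel 524 0, .rel 2935 0, .rel 2180 0, .rel 2607 2]) (.node (.cut [2, 18, 36, 38, 39, 42, 100] 100 197 false [.rel 747 0, .rel 1556 0, .rel 258 1, .rel 524 0, .rel 172 0, .rel 2137 0, .rel 1520 1, .rel 23 1, .rel 745 0, .rel 175 0, .rel 742 2, .rel 1528 2, .rel 1903 0]) .nil .nil) (.node (.cut [6, 19, 28, 34, 42, 43, 47] 100 197 false [.rel 9 0, .rel 698 2, .rel 513 1, .rel 1508 0, .rel 690 1, .rel 940 2, .rel 1507 1, .rel 1520 0, .rel 944 0, .rel 519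 1, .rel 16 1, .rel 2063 1]) .nil .nil)) (.node (.cut [2, 18, 19, 27, 42, 44] 100 197 false [.rel 413 0, .rel 188 2, .rel 195 1, .rel 172 0, .rel 730 1, .rel 21 0, .rel 731 2, .rel 74 2, .rel 759 1, .rel 38 2, .rel 378 0, .rel 103 2]) (.node (.relax 1260 2) .nil .nil) (.node (.relax 1606 2) .nil .nil)))) (.node (.cut [10, 23, 33, 41, 44, 47, 48] 100 197 false [.rel 481 1, .rel 442 0, .rel 1583 2, .rel 877 2, .rel 4 0, .rel 316 1, .rel 2270 1, .rel 1448 1, .rel 2825 0, .rel 724 1, .rel 124 0]) (.node (.relax 2496 2) (.node (.relax 1022 2) (.node (.relax 3056 2) .nil .nil) (.node (.relax 2189 2) .nil .nil)) (.node (.cut [2, 18, 23, 29, 30, 42, 47] 100 197 false [.rel 172 0, .rel 1256 2, .rel 388 1, .rel 730 1, .rel 728 1, .rel 1253 2, .rel 1859 2, .rel 1858 2, .rel 1854 2, .rel 2428 2]) (.node (.cut [18, 28, 30, 34, 35, 36, 60] 100 197 false [.rel 1955 0, .rel 2575 2, .rel 2416 1, .rel 768 0, .rel 2041 0, .rel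 2452 2, .rel 848 0, .rel 1946 1, .rel 1317 2, .rel 2655 2]) .nil .nil) (.node (.cut [4, 6, 23, 33, 43, 44, 47] 100 197 false [.rel 139 0, .rel 316 1, .rel 2260 0, .rel 1667 1, .rel 137 2, .rel 1242 0, .rel 613 2, .rel 48 0, .rel 121 0, .rel 287 1]) .nil .nil))) (.node (.cut [6, 18, 19, 27, 33, 48] 100 197 false [.rel 9 0, .rel 442 0, .rel 188 2, .rel 554 1, .rel 479 2, .rel 1569 0, .rel 1567 0, .rel 20 2, .rel 94 1, .rel 496 1, .rel 495 0, .rel 68 1, .rel 485 0]) (.node (.relax 399 0) (.node (.relax 1267 2) .nil .nil) (.node (.relax 2148 1) .nil .nil)) (.node (.relax 1779 0) (.node (.relax 1952 2) .nil .nil) .nil)))) (.node (.cut [2, 10, 19, 36, 39, 43, 97] 100 197 false [.rel 786 1, .rel 215 1, .rel 4 2, .rel 21 0, .rel 27 0, .rel 407 0, .rel 23 1, .rel 204 1, .rel 24 0, .rel 172 2, .rel 66 1, .rel 9 0, .rel 94 1, .rel 96 0, .rel 484 1]) (.node (.relax 2404 2) (.node (.cut [2, 18, 33, 38, 42, 47] 100 197 false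 [.rel 172 0, .rel 955 2, .rel 388 1, .rel 373 0, .rel 747 1, .rel 742 2, .rel 722 2, .rel 23 1, .rel 1268 0, .rel 2135 0]) (.node (.relax 1733 1) (.node (.cut [38, 39, 42, 52, 97, 124] 100 197 false [.rel 1964 2, .rel 2864 1, .rel 1544 0, .rel 1955 2, .rel 2955 1, .rel 215 1, .rel 2514 1, .rel 1398 2, .rel 3071 1, .rel 2942 2]) .nil .nil) (.node (.relax 878 2) .nil .nil)) (.node (.cut [2, 3, 32, 39, 47, 95, 117] 100 197 false [.rel 108 0, .rel 786 2, .rel 83 1, .rel 1284 1, .rel 787 1, .rel 215 1, .rel 1907 0, .rel 316 1, .rel 793 2, .rel 862 2, .rel 2762 2, .rel 756 2, .rel 1477 0]) (.node (.relax 1762 0) .nil .nil) (.node (.cut [6, 47, 50, 95, 111] 100 197 false [.rel 1343 2, .rel 987 0, .rel 1556 2, .rel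
  2139 1, .rel 985 0, .rel 2514 0, .rel 398 2, .rel 2283 2]) .nil .nil))) (.node (.relax 1617 1) (.node (.relax 1736 0) (.node (.relax 2864 2) .nil .nil) (.node (.relax 1290 1) .nil .nil)) (.node (.relax 1667 2) (.node (.cut [2, 18, 28, 34, 48, 60, 68] 100 197 false [.rel 768 1, .rel 442 0, .rel 2571 2, .rel 848 1, .rel 1947 0, .rel 1946 1, .rel 1317 1, .rel 1881 2, .rel 1267 2, .rel 1863 2, .rel 124 2]) .nil .nil) .nil))) (.node (.relax 3106 2) (.node (.relax 490 2) (.node (.cut [28, 29, 30, 35, 103, 106] 100 197 false [.rel 2385 0, .rel 1955 0, .rel 2456 0, .rel 1891 0, .rel 2382 1, .rel 2381 2, .rel 2378 2, .rel 2373 2, .rel 1790 2, .rel 23 2, .rel 680 2]) (.node (.cut [6, 32, 40, 42, 47, 61] 100 197 false [.rel 209 1, .rel 413 2, .rel 1441 0, .rel 1007 2, .rel 2189 1, .rel 872 1, .rel 1565 0, .rel 1556 2, .rel 2932 1, .rel 213 0, .rel 9 0, .rel 491 1, .rel 2088 0]) .nil .nil) (.node (.cut [6, 31, 32, 38,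 42, 44, 50] 100 197 false [.rel 209 1, .rel 1399 0, .rel 2514 0, .rel 2910 2, .rel 1442 1, .rel 3108 1, .rel 1850 0]) .nil .nil)) (.node (.cut [2, 30, 38, 64, 97, 100] 100 197 false [.rel 747 0, .rel 786 1, .rel 785 2, .rel 1346 1, .rel 27 2, .rel 787 1, .rel 1309 1, .rel 4 1, .rel 0 2, .rel 387 0, .rel 103 2]) (.node (.cut [16, 22, 27, 28, 34, 36, 68, 113] 100 197 false [.rel 706 0, .rel 1787 1, .rel 2045 0, .rel 1263 1, .rel 729 1, .rel 728 1, .rel 671 1, .rel 718 1, .rel 2837 2, .rel 2134 2]) .nil .nil) (.node (.relax 129 0) .nil .nil))) (.node (.relax 1166 2) (.node (.relax 2822 2) (.node (.relax 2433 2) .nil .nil) (.node (.relax 2528 2) .nil .nil)) (.node (.cut [2, 18, 33, 36, 42, 47, 48] 100 197 false [.rel 175 0, .rel 373 0, .rel 690 0, .rel 23 1, .rel 745 1, .rel 742 2, .rel 722 2, .rel 1268 0, .rel 955 0, .rel 2135 0]) (.node (.relax 366 2) .nil .nil) .nil))))) (.node (.relax 559 2) (.node (.cut [2,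 18, 19, 23, 37, 44] 100 197 false [.rel 21 0, .rel 27 0, .rel 258 2, .rel 698 1, .rel 188 1, .rel 729 1, .rel 172 0, .rel 731 2, .rel 74 2, .rel 759 1, .rel 38 2, .rel 378 0, .rel 103 2]) (.node (.relax 1769 2) (.node (.cut [2, 20, 23, 36, 44, 46, 47] 100 197 false [.rel 1689 0, .rel 496 2, .rel 139 0, .rel 1100 1, .rel 316 1, .rel 188 1, .rel 1304 1, .rel 21 0, .rel 23 1, .rel 24 0, .rel 626 2, .rel 1698 0, .rel 290 2, .rel 1080 1, .rel 92 2]) (.node (.relax 351 2) (.node (.cut [18, 30, 35, 36, 38, 42, 97] 100 197 false [.rel 1955 0, .rel 1544 0, .rel 258 1, .rel 524 0, .rel 1546 2, .rel 2955 1, .rel 1326 1, .rel 1674 2]) .nil .nil) (.node (.tree 197 [0] 100 [26, 46, 0] (.pd 26 (.pge 26 (.fin 7 8414208 0)) (.unc 1854 0 (.leaf [26, 46, 0] 100 197 false [(0, 1)] [.rel 2714 2, .rel 1854 2, .md 124 2 1])))) .nil .nil)) (.node (.cut [3, 6, 19, 32, 47, 83, 95] 100 197 false [.rel 209 1, .rel 9 0, .rel 268 1, .rel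 184 1, .rel 410 2, .rel 1001 1, .rel 181 2, .rel 529 0, .rel 0 0, .rel 265 2, .rel 981 2]) (.node (.cut [2, 16, 27, 34, 36, 42, 48] 100 197 false [.rel 706 0, .rel 1181 0, .rel 23 1, .rel 167 1, .rel 671 1, .rel 1781 2, .rel 166 2, .rel 1187 0, .rel 684 0, .rel 680 2]) .nil .nil) (.node (.cut [23, 30, 35, 36, 43, 124] 100 197 false [.rel 1859 1, .rel 1309 0, .rel 2449 2, .rel 1964 2, .rel 1955 0, .rel 2853 1, .rel 3034 0, .rel 2150 0, .rel 756 2, .rel 2869 0, .rel 2461 0, .rel 3069 2, .rel 2924 2]) .nil .nil))) (.node (.cut [14, 17, 21, 23, 33, 46, 47, 48] 100 197 false [.rel 641 0, .rel 132 1, .rel 1614 1, .rel 139 0, .rel 18 0, .rel 336 1, .rel 1615 2, .rel 825 0, .rel 1644 1, .rel 302 1, .rel 1056 1, .rel 46 1, .rel 149 1, .rel 442 0, .rel 1622 1, .rel 603 0, .rel 294 1]) (.node (.cut [2, 18, 27, 29, 36, 42, 58] 100 197 false [.rel 2047 0, .rel 258 1, .rel 3056 1, .rel 2798 1, .rel 1854 0, .rel 524 0, .rel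 729 1, .rel 728 2, .rel 946 1, .rel 2446 2, .rel 2131 2]) (.node (.cut [18, 26, 29, 42, 56, 68] 100 197 false [.rel 172 0, .rel 2753 2, .rel 1890 0, .rel 1955 2, .rel 2269 2, .rel 1854 2, .rel 2428 2]) .nil .nil) (.node (.relax 1398 2) .nil .nil)) (.node (.cut [2, 23, 29, 33, 36, 42, 47] 100 197 false [.rel 139
  0, .rel 23 1, .rel 1256 2, .rel 202 0, .rel 690 1, .rel 72 1, .rel 31 0, .rel 194 2, .rel 1397 0, .rel 188 0, .rel 106 2, .rel 732 1, .rel 103 2]) (.node (.cut [2, 26, 33, 36, 42, 44, 47] 100 197 false [.rel 316 1, .rel 23 1, .rel 773 1, .rel 605 0, .rel 204 0, .rel 2267 2, .rel 1423 1, .rel 209 2, .rel 2724 1, .rel 1242 0, .rel 124 2]) .nil .nil) (.node (.relax 1172 2) .nil .nil)))) (.node (.cut [10, 19, 22, 23, 33, 44, 47] 100 197 false [.rel 139 0, .rel 413 0, .rel 1289 1, .rel 2833 2, .rel 316 1, .rel 2275 1, .rel 1847 1, .rel 1914 2, .rel 2832 1, .rel 2203 0, .rel 2941 0]) (.node (.relax 3032 2)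 (.node (.cut [2, 18, 29, 30, 35, 36, 42, 0] 100 197 false [.rel 172 0, .rel 23 1, .rel 383 1, .rel 1955 0, .rel 2504 2, .rel 1890 2, .rel 1893 2, .rel 258 1, .rel 524 0, .rel 2457 2, .rel 2657 2]) (.node (.relax 2537 2) .nil .nil) (.node (.cut [2, 3, 6, 32, 36, 39, 42, 43] 100 197 false [.rel 108 0, .rel 23 1, .rel 167 1, .rel 258 1, .rel 209 1, .rel 452 2, .rel 549 0, .rel 1196 1, .rel 451 0, .rel 1470 1, .rel 1219 1, .rel 2076 2, .rel 90 2]) .nil .nil)) (.node (.cut [2, 30, 35, 36, 39, 42, 43] 100 197 false [.rel 1556 0, .rel 2514 2, .rel 215 0, .rel 258 1, .rel 1520 1, .rel 23 1, .rel 167 1, .rel 452 0, .rel 1955 0, .rel 209 2, .rel 2043 1, .rel 1326 1, .rel 1674 2]) (.node (.relax 2798 0) .nil .nil) (.node (.relax 2263 2) .nil .nil))) (.node (.relax 2791 0) (.node (.relax 994 2) (.node (.relax 1815 2) .nil .nil) (.node (.relax 907 2) .nil .nil)) (.node (.cut [18, 19, 29, 33, 39, 42] 100 197 false [.rel 172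 0, .rel 499 2, .rel 1074 0, .rel 525 1, .rel 2132 1, .rel 1844 2, .rel 2948 0, .rel 2147 2, .rel 2953 0, .rel 2651 0]) (.node (.relax 1324 2) .nil .nil) .nil)))) (.node (.cut [2, 18, 19, 27, 39, 42] 100 197 false [.rel 188 2, .rel 21 0, .rel 108 0, .rel 172 0, .rel 730 1, .rel 525 1, .rel 731 2, .rel 266 2, .rel 1537 1, .rel 951 0, .rel 103 2]) (.node (.cut [14, 19, 24, 42, 46, 47] 100 197 false [.rel 132 1, .rel 607 2, .rel 818 1, .rel 819 2, .rel 139 2, .rel 825 0, .rel 436 0, .rel 690 0, .rel 1375 0, .rel 2542 0, .rel 1447 1, .rel 301 1, .rel 442 0, .rel 223 0, .rel 300 0]) (.node (.cut [6, 29, 42, 43, 44, 100] 100 197 false [.rel 742 0, .rel 688 2, .rel 375 1, .rel 724 2, .rel 747 2, .rel 1246 0, .rel 1851 1]) (.node (.relax 1917 0) (.node (.cut [19, 43, 54, 64, 103] 100 197 false [.rel 23 2, .rel 2147 2, .rel 955 1, .rel 172 2, .rel 388 1, .rel 747 1, .rel 742 2, .rel 525 1, .rel 2143 1, .rel 9 0, .rel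 103 2]) .nil .nil) (.node (.relax 1058 1) .nil .nil)) (.node (.relax 442 0) (.node (.relax 1817 2) .nil .nil) (.node (.cut [3, 23, 36, 39, 43, 44, 47] 100 197 false [.rel 499 0, .rel 316 1, .rel 1667 1, .rel 21 2, .rel 955 0, .rel 747 1, .rel 741 0, .rel 2653 0, .rel 909 0, .rel 793 0, .rel 185 1, .rel 764 0, .rel 756 2, .rel 2924 2]) .nil .nil))) (.node (.cut [2, 18, 23, 33, 39, 42] 100 197 false [.rel 139 0, .rel 172 0, .rel 499 2, .rel 1660 1, .rel 215 0, .rel 1074 0, .rel 1235 2, .rel 77 2, .rel 1676 0, .rel 719 0, .rel 124 2]) (.node (.cut [2, 27, 30, 35, 47, 100] 100 197 false [.rel 1884 1, .rel 757 0, .rel 1952 2, .rel 745 2, .rel 1896 1, .rel 747 2, .rel 23 2, .rel 2947 1, .rel 756 2, .rel 2492 0, .rel 2924 2]) (.node (.cut [16, 18, 23, 26, 34, 113] 100 197 false [.rel 671 1, .rel 1263 2, .rel 718 1, .rel 667 1, .rel 1855 2, .rel 1860 1, .rel 1243 0, .rel 1240 0, .rel 1854 2, .rel 2428 2]) .nil .nil)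 (.node (.relax 1490 2) .nil .nil)) (.node (.cut [18, 19, 29, 30, 36, 42, 47] 100 197 false [.rel 2141 2, .rel 757 0, .rel 258 1, .rel 524 0, .rel 2147 0, .rel 2148 1, .rel 1519 0, .rel 175 0, .rel 1871 2, .rel 2652 2]) (.node (.relax 924 2) .nil .nil) .nil))) (.node (.relax 1592 0) (.node (.relax 39 0) (.node (.relax 2699 0) (.node (.cut [19, 35, 64, 68, 76] 100 197 false [.rel 1250 2, .rel 2132 1, .rel 1844 2, .rel 2427 0, .rel 949 2, .rel 2131 0]) .nil .nil) (.node (.relax 1437 0) .nil .nil)) (.node (.cut [2, 18, 19, 27, 33, 34] 100 197 false [.rel 188 2, .rel 21 0, .rel 23 1, .rel 24 0, .rel 768 0, .rel 1263 0,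
  .rel 1265 2, .rel 73 2, .rel 770 0, .rel 496 1, .rel 495 2, .rel 92 2]) (.node (.relax 1395 2) .nil .nil) (.node (.relax 752 2) .nil .nil))) (.node (.relax 566 2) (.node (.relax 1591 1) (.node (.cut [18, 26, 27, 28, 36, 42, 68] 100 197 false [.rel 1263 0, .rel 258 1, .rel 1787 1, .rel 2899 0, .rel 361 1, .rel 172 0, .rel 1238 1, .rel 1844 2, .rel 2431 0, .rel 524 0, .rel 729 1, .rel 728 2, .rel 2131 2]) .nil .nil) (.node (.relax 1601 2) .nil .nil)) (.node (.cut [2, 3, 31, 36, 39, 43, 47] 100 197 false [.rel 108 0, .rel 532 0, .rel 23 1, .rel 745 1, .rel 1349 2, .rel 955 0, .rel 1551 1, .rel 1906 0, .rel 1871 2, .rel 756 2, .rel 909 0, .rel 2924 2]) (.node (.relax 2355 2) .nil .nil) .nil))))))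

def JJ_bbab : JT :=
  (.node (.relax 23 2) (.node (.relax 1600 2) (.node (.cut [18, 23, 29, 30, 36, 38, 42] 100 197 false [.rel 1872 0, .rel 1309 0, .rel 258 1, .rel 524 0, .rel 172 0, .rel 2147 0, .rel 2517 1, .rel 1520 1, .rel 955 1, .rel 175 0, .rel 1871 2, .rel 2652 2]) (.node (.cut [17, 18, 19, 22, 23, 34, 48] 100 197 false [.rel 1844 0, .rel 18 0, .rel 1745 0, .rel 1769 2, .rel 1842 0, .rel 1508 1, .rel 258 2, .rel 2115 1, .rel 1747 1, .rel 590 0]) (.node (.relax 1671 2) (.node (.relax 1309 0) (.node (.cut [2, 18, 33, 38, 39, 42] 100 197 false [.rel 172 0, .rel 499 2, .rel 1074 0, .rel 215 0, .rel 1544 0, .rel 525 1, .rel 1546 2, .rel 721 2, .rel 2673 0, .rel 2136 1]) .nil .nil) (.node (.cut [2, 19, 36, 42, 43, 47, 97] 100 197 false [.rel 690 1, .rel 23 1, .rel 167 1, .rel 452 0, .rel 209 2, .rel 872 1, .rel 745 1, .rel 555 2, .rel 955 0, .rel 2127 1, .rel 9 0, .rel 952 1, .rel 103 2]) .nil .nil)) (.node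 (.relax 22 2) (.node (.relax 2347 2) .nil .nil) (.node (.relax 164 2) .nil .nil))) (.node (.cut [4, 10, 19, 20, 44, 46, 47] 100 197 false [.rel 119 0, .rel 1084 1, .rel 413 0, .rel 1289 1, .rel 1085 2, .rel 316 1, .rel 2755 1, .rel 117 2, .rel 1025 1, .rel 313 1, .rel 577 0]) (.node (.cut [2, 27, 37, 58, 76] 100 197 false [.rel 729 2, .rel 258 2, .rel 946 1, .rel 361 1, .rel 21 0, .rel 168 0, .rel 731 2, .rel 1794 0, .rel 524 0, .rel 728 2, .rel 1249 2, .rel 2131 2]) (.node (.relax 2493 2) .nil .nil) (.node (.relax 486 0) .nil .nil)) (.node (.relax 1158 2) (.node (.relax 1979 0) .nil .nil) (.node (.relax 24 1) .nil .nil)))) (.node (.relax 1256 0) (.node (.relax 1197 2) (.node (.cut [2, 18, 28, 35, 36, 42, 68] 100 197 false [.rel 1787 1, .rel 23 1, .rel 167 1, .rel 1789 2, .rel 2377 0, .rel 172 0, .rel 383 1, .rel 671 2, .rel 1184 1, .rel 258 1, .rel 524 0, .rel 2119 1]) (.node (.cut [2, 18, 36, 39, 43, 48] 100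 197 false [.rel 690 2, .rel 909 0, .rel 175 0, .rel 955 0, .rel 1529 1, .rel 23 1, .rel 745 1, .rel 742 2, .rel 1528 2, .rel 1903 0]) .nil .nil) (.node (.cut [3, 6, 47, 83, 95, 115] 100 197 false [.rel 184 1, .rel 976 2, .rel 410 2, .rel 980 1, .rel 533 2, .rel 788 1, .rel 27 2, .rel 1340 2, .rel 398 2, .rel 2283 2]) .nil .nil)) (.node (.cut [2, 18, 38, 39, 42, 47] 100 197 false [.rel 172 0, .rel 955 2, .rel 388 1, .rel 525 1, .rel 949 1, .rel 747 1, .rel 742 2, .rel 1528 2, .rel 1903 0]) (.node (.relax 729 0) .nil .nil) (.node (.cut [3, 6, 36, 39, 42, 43, 44, 47] 100 197 false [.rel 499 0, .rel 316 1, .rel 1667 1, .rel 108 0, .rel 690 1, .rel 258 1, .rel 553 1, .rel 268 2, .rel 955 0, .rel 2647 1, .rel 1528 1]) .nil .nil))) (.node (.cut [16, 18, 25, 27, 33, 42, 48] 100 197 false [.rel 657 2, .rel 361 0, .rel 373 0, .rel 667 1, .rel 1159 0, .rel 1174 0, .rel 175 1, .rel 442 0, .rel 1950 0, .rel 605 1, .rel 172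 0, .rel 375 1, .rel 388 0, .rel 1859 1, .rel 1854 2, .rel 2428 2]) (.node (.relax 2505 2) (.node (.cut [17, 22, 23, 36, 42, 47, 48] 100 197 false [.rel 1844 0, .rel 18 0, .rel 1745 0, .rel 690 0, .rel 955 0, .rel 2653 2, .rel 1872 1, .rel 258 1, .rel 698 1, .rel 1769 2, .rel 2803 1, .rel 2933 1]) .nil .nil) (.node (.cut [17, 30, 36, 43, 47, 64] 100 197 false [.rel 174 1, .rel 172 2, .rel 20 0, .rel 10 1, .rel 9 2, .rel 266 1, .rel 388 1, .rel 108 2, .rel 525 1, .rel 523 0, .rel 949 1]) .nil .nil)) (.node (.cut [2, 18, 22, 35, 42, 60] 100 197 false [.rel 2827 2, .rel 1854 0, .rel 172 0, .rel 2437 1, .rel 1890 2, .rel 1893 2, .rel 525 1, .rel 2657 2]) (.node (.relax 2145 2) .nil .nil) .nil)))) (.node (.relax 930 0) (.node (.cut [2, 18, 19, 27, 33, 42] 100 197 false [.rel 172 0, .rel 188 2, .rel 730 1, .rel 21 0, .rel 23 1, .rel 24 0, .rel 731 2, .rel 73 2, .rel 391 1, .rel 496 1, .rel 495 2, .rel 92 2]) (.node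 (.relax 1607 2) (.node (.relax 2243 2) (.node (.relax 1739 2) .nil .nil) (.node (.relax 955 0) .nil .nil)) (.node (.cut [3, 6, 32, 39, 43, 47, 117] 100 197 false [.rel 108 0, .rel 976 0, .rel 209 1, .rel 870 2, .rel 1284 1, .rel 747 2, .rel 1904 0, .rel 1556 0, .rel 690 1, .rel 2640 1, .rel 2459 0, .rel 2722 2]) (.node (.cut
  [18, 27, 28, 33, 35, 36, 48] 100 197 false [.rel 442 0, .rel 1950 2, .rel 1777 0, .rel 769 1, .rel 175 0, .rel 1884 1, .rel 1883 0, .rel 2452 2, .rel 2655 2]) .nil .nil) (.node (.cut [2, 6, 39, 40, 43, 47, 83] 100 197 false [.rel 909 1, .rel 955 0, .rel 1556 0, .rel 27 2, .rel 978 1, .rel 977 1, .rel 499 0, .rel 316 1, .rel 1667 1, .rel 215 0, .rel 23 1, .rel 400 0, .rel 398 2, .rel 2283 2]) .nil .nil))) (.node (.relax 1249 2) (.node (.cut [3, 35, 42, 103, 124] 100 197 false [.rel 1332 2, .rel 741 0, .rel 23 2, .rel 167 1, .rel 1430 2, .rel 1333 2, .rel 778 2, .rel 258 1, .rel 1194 2,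 .rel 1955 0, .rel 1961 2, .rel 1277 2, .rel 1278 2]) (.node (.cut [16, 18, 23, 27, 30, 35, 42] 100 197 false [.rel 361 0, .rel 729 1, .rel 728 1, .rel 1891 1, .rel 1890 2, .rel 172 0, .rel 1238 1, .rel 1237 2, .rel 1878 1, .rel 1854 2, .rel 2428 2]) .nil .nil) (.node (.relax 1733 2) .nil .nil)) (.node (.cut [2, 18, 23, 30, 33, 36, 42] 100 197 false [.rel 172 0, .rel 23 1, .rel 383 1, .rel 139 0, .rel 425 2, .rel 202 0, .rel 204 0, .rel 72 1, .rel 178 0, .rel 188 0, .rel 1660 1, .rel 730 1, .rel 1870 1, .rel 499 1, .rel 2607 2]) (.node (.relax 897 2) .nil .nil) .nil))) (.node (.relax 333 2) (.node (.relax 1230 2) (.node (.relax 657 2) (.node (.relax 174 2) .nil .nil) (.node (.cut [6, 19, 30, 35, 44, 47] 100 197 false [.rel 316 1, .rel 1667 2, .rel 413 0, .rel 814 2, .rel 139 0, .rel 1671 1, .rel 9 0, .rel 96 0, .rel 505 1, .rel 492 1, .rel 904 1, .rel 1028 0, .rel 1289 1, .rel 2833 1, .rel 1606 0, .rel 1477 2,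 .rel 2924 1]) .nil .nil)) (.node (.relax 215 1) (.node (.relax 1650 2) .nil .nil) (.node (.relax 2033 0) .nil .nil))) (.node (.cut [2, 10, 19, 32, 40, 41, 47] 100 197 false [.rel 4 2, .rel 197 1, .rel 21 0, .rel 533 1, .rel 481 1, .rel 9 0, .rel 282 1, .rel 113 2, .rel 1553 0, .rel 955 2, .rel 1524 0, .rel 2630 1]) (.node (.cut [18, 36, 42, 48, 58, 68] 100 197 false [.rel 2382 2, .rel 1762 0, .rel 258 1, .rel 524 0, .rel 671 2, .rel 2119 1, .rel 1850 2, .rel 2934 1]) (.node (.relax 1319 2) .nil .nil) (.node (.relax 904 2) .nil .nil)) (.node (.cut [23, 35, 42, 44, 47, 97] 100 197 false [.rel 316 1, .rel 215 2, .rel 1667 2, .rel 1081 1, .rel 786 1, .rel 870 0, .rel 1859 1, .rel 209 2, .rel 2724 1, .rel 1242 0, .rel 124 2]) (.node (.relax 2409 2) .nil .nil) .nil))))) (.node (.relax 1847 2) (.node (.relax 1592 2) (.node (.relax 2654 2) (.node (.relax 973 1) (.node (.relax 2720 2) (.node (.relax 1326 2) .nil .nil)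 (.node (.cut [16, 17, 22, 23, 33, 48, 68] 100 197 false [.rel 1844 0, .rel 18 0, .rel 1745 0, .rel 768 2, .rel 671 1, .rel 2341 1, .rel 139 0, .rel 715 0, .rel 373 0, .rel 662 2, .rel 59 1, .rel 1151 0, .rel 1153 0]) .nil .nil)) (.node (.relax 397 2) (.node (.cut [16, 26, 27, 28, 34, 48, 68] 100 197 false [.rel 1787 1, .rel 671 1, .rel 2380 0, .rel 706 0, .rel 1181 0, .rel 2798 2, .rel 2808 0, .rel 1762 1, .rel 2375 0, .rel 673 1, .rel 1854 2, .rel 2428 2]) .nil .nil) (.node (.cut [2, 30, 38, 39, 47, 124] 100 197 false [.rel 955 2, .rel 747 1, .rel 1332 1, .rel 108 0, .rel 23 1, .rel 464 2, .rel 200 1, .rel 400 0, .rel 397 1, .rel 1906 0, .rel 2147 0, .rel 2948 1, .rel 199 1, .rel 757 0, .rel 756 2, .rel 909 0, .rel 2924 2]) .nil .nil))) (.node (.cut [2, 23, 36, 39, 42, 52] 100 197 false [.rel 1309 2, .rel 814 0, .rel 413 2, .rel 21 0, .rel 258 1, .rel 1439 1, .rel 23 1, .rel 167 1, .rel 164 1, .rel 195 1, .rel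 193 2, .rel 838 0, .rel 2108 0, .rel 2071 2, .rel 90 2]) (.node (.relax 2415 1) (.node (.relax 728 1) .nil .nil) (.node (.relax 688 2) .nil .nil)) (.node (.cut [2, 18, 23, 29, 39, 52] 100 197 false [.rel 1309 2, .rel 814 0, .rel 413 2, .rel 21 0, .rel 2449 1, .rel 1253 0, .rel 1556 0, .rel 1308 2, .rel 2834 0, .rel 2942 2]) (.node (.relax 1180 1) .nil .nil) .nil))) (.node (.relax 814 1) (.node (.relax 721 2) (.node (.relax 2386 2) (.node (.relax 1481 1) .nil .nil) (.node (.relax 2773 1) .nil .nil)) (.node (.cut [2, 27, 30, 35, 36, 42, 44] 100 197 false [.rel 23 1, .rel 167 1, .rel 425 1, .rel 139 2, .rel 202 0, .rel 204 0, .rel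
  72 1, .rel 76 0, .rel 1955 0, .rel 193 2, .rel 1422 0, .rel 499 1, .rel 188 0, .rel 1058 1, .rel 361 0, .rel 1203 1, .rel 2071 2, .rel 90 2]) (.node (.relax 1885 2) .nil .nil) (.node (.cut [6, 23, 39, 43, 44, 47, 81] 100 197 false [.rel 316 1, .rel 765 2, .rel 4 1, .rel 1556 0, .rel 1341 1, .rel 403 2, .rel 407 0, .rel 172 2, .rel 406 0, .rel 791 0, .rel 81 2, .rel 1479 0]) .nil .nil))) (.node (.relax 2793 2) (.node (.relax 848 0) (.node (.cut [2, 17, 27, 35, 36, 42, 48] 100 197 false [.rel 18 0, .rel 23 1, .rel 167 1, .rel 166 2, .rel 1166 0, .rel 370 1, .rel 671 2, .rel 353 1, .rel 258 1, .rel 946 1, .rel 9 0, .rel 942 1]) .nil .nil) (.node (.relax 778 1) .nil .nil)) (.node (.relax 2754 2) (.node (.cut [17, 22, 27, 34, 35, 47] 100 197 false [.rel 1844 0, .rel 1950 1, .rel 442 2, .rel 2986 1, .rel 1884 1, .rel 706 0, .rel 2827 2, .rel 2404 2, .rel 3052 1, .rel 3053 0]) .nil .nil) .nil)))) (.node (.relax 1060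 2) (.node (.relax 2764 2) (.node (.cut [6, 18, 19, 23, 36, 42, 44] 100 197 false [.rel 9 0, .rel 96 0, .rel 258 1, .rel 524 0, .rel 526 2, .rel 98 2, .rel 38 0, .rel 172 0, .rel 1478 0, .rel 260 1, .rel 103 0]) (.node (.relax 1403 2) (.node (.relax 2122 0) .nil .nil) (.node (.relax 184 2) .nil .nil)) (.node (.cut [3, 27, 31, 39, 43] 100 197 false [.rel 108 0, .rel 757 2, .rel 464 2, .rel 188 2, .rel 545 1, .rel 955 0, .rel 532 0, .rel 530 1, .rel 1256 0, .rel 988 0, .rel 2469 0, .rel 756 2, .rel 909 0, .rel 2924 2]) (.node (.cut [2, 18, 28, 30, 33, 36, 42] 100 197 false [.rel 848 0, .rel 23 1, .rel 167 1, .rel 706 2, .rel 709 1, .rel 172 0, .rel 383 1, .rel 445 1, .rel 370 1, .rel 207 0, .rel 258 1, .rel 2109 1, .rel 729 1, .rel 946 1, .rel 2000 0, .rel 1413 0, .rel 2607 2]) .nil .nil) (.node (.relax 968 1) .nil .nil))) (.node (.relax 164 1) (.node (.relax 2823 1) (.node (.relax 528 2) .nil .nil) (.node (.cut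 [2, 6, 35, 36, 54, 64] 100 197 false [.rel 23 1, .rel 172 2, .rel 383 1, .rel 525 1, .rel 1546 1, .rel 1544 2, .rel 2493 2, .rel 1900 0, .rel 1280 1, .rel 949 1]) .nil .nil)) (.node (.relax 577 2) (.node (.cut [18, 30, 34, 35, 47, 103] 100 197 false [.rel 1950 1, .rel 442 2, .rel 769 1, .rel 1955 0, .rel 768 0, .rel 1267 2, .rel 1948 0, .rel 23 2, .rel 680 2]) .nil .nil) .nil))) (.node (.cut [6, 13, 0] 100 197 false [.rel 124 2]) (.node (.relax 2186 2) (.node (.relax 1605 1) (.node (.cut [2, 29, 35, 39, 64, 100] 100 197 false [.rel 2493 1, .rel 1544 2, .rel 1336 1, .rel 785 2, .rel 1909 1, .rel 215 1, .rel 1341 2, .rel 742 0, .rel 1530 1]) .nil .nil) (.node (.relax 982 2) .nil .nil)) (.node (.cut [18, 19, 30, 35, 36, 42, 44] 100 197 false [.rel 413 0, .rel 258 1, .rel 524 0, .rel 814 2, .rel 172 0, .rel 2654 1, .rel 1955 0, .rel 1969 1, .rel 1844 2, .rel 3000 1, .rel 2427 0]) (.node (.relax 2575 2) .nil .nil)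 (.node (.relax 416 2) .nil .nil))) (.node (.relax 1517 2) (.node (.cut [2, 6, 18, 35, 36, 42, 58] 100 197 false [.rel 23 1, .rel 167 1, .rel 1790 1, .rel 172 0, .rel 383 1, .rel 1762 2, .rel 671 2, .rel 1184 1, .rel 258 1, .rel 524 0, .rel 2119 1]) (.node (.cut [17, 22, 27, 33, 48, 68] 100 197 false [.rel 1844 0, .rel 442 0, .rel 2986 1, .rel 768 2, .rel 1263 0, .rel 706 0, .rel 2433 2, .rel 2404 2, .rel 2858 1, .rel 2732 0]) .nil .nil) (.node (.relax 42 2) .nil .nil)) (.node (.cut [2, 3, 18, 38, 39, 52, 97] 100 197 false [.rel 215 1, .rel 27 0, .rel 1544 0, .rel 1346 2, .rel 108 0, .rel 1345 0, .rel 1970 2, .rel 1308 2, .rel 866 2, .rel 2471 2, .rel 2942 2]) (.node (.relax 2140 2) .nil .nil) .nil))))))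

def JJ_bbba : JT :=
  (.node (.relax 1872 2) (.node (.relax 9 2) (.node (.relax 1085 1) (.node (.relax 2943 2) (.node (.relax 2478 2) (.node (.cut [2, 18, 23, 28, 34, 36] 100 197 false [.rel 361 2, .rel 729 1, .rel 23 1, .rel 72 1, .rel 167 1, .rel 164 1, .rel 731 2, .rel 360 2, .rel 427 1, .rel 188 0, .rel 657 0, .rel 1203 1, .rel 258 1, .rel 1507 2, .rel 90 2]) (.node (.cut [18, 35, 42, 54, 103, 124] 100 197 false [.rel 172 0, .rel 23 2, .rel 1942 0, .rel 1964 0, .rel 1308 1, .rel 1333 2, .rel 1963 2, .rel 2864 2, .rel 383 1, .rel 1277 2, .rel 525 1, .rel 949 1]) .nil .nil) (.node (.tree 197 [0] 100 [2, 36, 71, 0] (.pd 2 (.pge 2 (.fin 7 8414208 0)) (.pd 71 (.pge 71 (.fin 7 8414208 0)) (.unc 346 1 (.leaf [2, 36, 71, 0] 100 197 false [(0, 1)] [.rel 23 1, .md 680 2 1]))))) .nil .nil)) (.node (.relax 111 2) (.node (.cut [17, 18, 23, 27, 34, 48, 71] 100 197 false [.rel 373 2, .rel 667 1, .rel 706 0, .rel 18 0,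 .rel 59 1, .rel 149 1, .rel 366 0, .rel 23 2, .rel 681 1, .rel 151 0, .rel 348 1, .rel 124 2]) .nil .nil) (.node (.cut [3, 6, 23, 32, 40, 44, 47] 100 197 false [.rel 209 1, .rel 21 2, .rel 435 1, .rel 316 1, .rel 793 0, .rel 185 1, .rel 466 1, .rel 181 2, .rel 4 1, .rel 183 0, .rel 9 0, .rel 265 2, .rel 981 2]) .nil .nil))) (.node (.relax 874 2) (.node (.relax 139 0) (.node (.relax 377 2) .nil .nil) (.node (.relax 2465 1) .nil .nil)) (.node (.cut [2, 3, 6, 19, 32, 39, 43] 100 197 false [.rel 209 1, .rel 21 1, .rel 435 1, .rel 108 0, .rel 976 0, .rel 9 0, .rel 268 1, .rel 1012 2, .rel 220 2, .rel 1013 1, .rel 0 0, .rel 541 0, .rel 41 2, .rel 535 2]) (.node (.cut [2, 23, 27, 36, 44, 47, 49] 100 197 false [.rel 188 0, .rel 21 0, .rel 23 1, .rel 442 2, .rel 211 1, .rel 316 1, .rel 139 0, .rel 1304 1, .rel 24 0, .rel 194 2, .rel 836 1, .rel 496 1, .rel 495 2, .rel 393 0, .rel 92 2]) .nil .nil) (.node (.cut [3, 4,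 6, 19, 32, 33, 81] 100 197 false [.rel 209 1, .rel 9 0, .rel 268 1, .rel 24 1, .rel 23 2, .rel 440 1, .rel 184 2, .rel 222 0, .rel 227 0, .rel 94 1, .rel 39 0, .rel 0 0, .rel 69 0, .rel 92 2]) .nil .nil)))) (.node (.relax 803 2) (.node (.relax 234 2) (.node (.relax 1790 2) (.node (.cut [2, 18, 19, 27, 42, 60] 100 197 false [.rel 188 2, .rel 21 0, .rel 172 0, .rel 730 1, .rel 731 2, .rel 23 1, .rel 1269 1, .rel 525 1, .rel 728 2, .rel 1249 2, .rel 2131 2]) .nil .nil) (.node (.cut [6, 23, 39, 43, 44, 47, 83] 100 197 false [.rel 195 2, .rel 4 1, .rel 1556 0, .rel 1341 1, .rel 407 0, .rel 316 1, .rel 403 0, .rel 172 2, .rel 406 0, .rel 411 2, .rel 213 0, .rel 1479 0]) .nil .nil)) (.node (.cut [2, 18, 31, 35, 42, 54] 100 197 false [.rel 172 0, .rel 2150 2, .rel 1308 1, .rel 1964 1, .rel 1333 2, .rel 1963 2, .rel 2864 2, .rel 23 1, .rel 383 1, .rel 1277 2, .rel 525 1, .rel 949 1]) (.node (.relax 833 1) .nil .nil)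 (.node (.cut [3, 30, 36, 39, 42, 43, 47] 100 197 false [.rel 955 0, .rel 108 0, .rel 464 2, .rel 2147 0, .rel 690 1, .rel 258 1, .rel 553 1, .rel 546 2, .rel 2172 1, .rel 1541 0, .rel 962 2]) .nil .nil))) (.node (.relax 1946 2) (.node (.relax 711 0) (.node (.relax 2886 2) .nil .nil) (.node (.cut [6, 18, 36, 42, 44, 54] 100 197 false [.rel 258 1, .rel 524 0, .rel 1546 1, .rel 1544 2, .rel 215 2, .rel 172 0, .rel 1969 1, .rel 721 2, .rel 2673 0, .rel 2136 1]) .nil .nil)) (.node (.cut [18, 23, 30, 33, 35, 36, 42] 100 197 false [.rel 139 0, .rel 425 2, .rel 188 0, .rel 172 0, .rel 1660 1, .rel 730 1, .rel 1870 1, .rel 1955 0, .rel 1074 0, .rel 1844 2, .rel 3000 1, .rel 2427 0]) (.node (.relax 2351 1) .nil .nil) .nil)))) (.node (.relax 1448 2) (.node (.tree 197 [0] 100 [13, 26, 0] (.pd 13 (.pge 13 (.fin 7 8414208 0)) (.unc 124 0 (.leaf [13, 26, 0] 100 197 false [(0, 1)] [.rel 1854 2, .md 124 2 1])))) (.node (.relax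 1229 2) (.node (.relax 1018 1) (.node (.cut [2, 3, 19, 33, 39, 43, 47] 100 197 false [.rel 499 2, .rel 27 0, .rel 955 0, .rel 108 0, .rel 976 0, .rel 977 1, .rel 496 1, .rel 909 0, .rel 2923 0, .rel 316 1, .rel 21 1, .rel 188 1, .rel 139 0, .rel 1304 1, .rel 756 2, .rel 2924 2]) .nil .nil) (.node (.relax 530 2) .nil .nil)) (.node
  (.cut [3, 31, 36, 39, 47, 117] 100 197 false [.rel 108 0, .rel 532 0, .rel 1349 2, .rel 1548 0, .rel 1544 2, .rel 1549 0, .rel 909 0, .rel 2928 1, .rel 2653 0, .rel 756 2, .rel 2924 2]) (.node (.cut [18, 26, 28, 30, 33, 48] 100 197 false [.rel 833 1, .rel 848 0, .rel 706 2, .rel 2552 2, .rel 2038 2, .rel 756 0, .rel 442 0, .rel 2571 2, .rel 768 0, .rel 2573 2, .rel 1650 2, .rel 2235 0, .rel 1854 2, .rel 2428 2]) .nil .nil) (.node (.relax 2074 2) .nil .nil))) (.node (.relax 642 2) (.node (.cut [22, 35, 58, 64, 103] 100 197 false [.rel 23 2, .rel 172 2, .rel 3012 2, .rel 1854 0, .rel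 3056 2, .rel 2437 1, .rel 1890 2, .rel 1893 2, .rel 525 1, .rel 2657 2]) (.node (.relax 92 2) .nil .nil) (.node (.relax 1470 0) .nil .nil)) (.node (.cut [2, 18, 26, 30, 33, 35, 36] 100 197 false [.rel 23 1, .rel 1955 0, .rel 2750 2, .rel 1881 0, .rel 499 1, .rel 1954 2, .rel 2827 1, .rel 2927 2]) (.node (.cut [2, 34, 36, 42, 47, 60] 100 197 false [.rel 23 1, .rel 167 1, .rel 1884 2, .rel 1950 1, .rel 442 2, .rel 1217 0, .rel 209 2, .rel 2574 1, .rel 1267 1, .rel 680 2]) .nil .nil) .nil))) (.node (.relax 2203 2) (.node (.relax 2827 2) (.node (.relax 1740 0) (.node (.cut [2, 19, 29, 35, 43, 64] 100 197 false [.rel 1872 2, .rel 21 0, .rel 747 1, .rel 741 0, .rel 1258 2, .rel 2653 0, .rel 2652 2]) .nil .nil) (.node (.cut [6, 19, 38, 42, 44, 50, 52] 100 197 false [.rel 2514 0, .rel 9 0, .rel 1528 1, .rel 2187 2, .rel 2653 0, .rel 2942 0]) .nil .nil)) (.node (.relax 77 2) (.node (.relax 1929 2) .nil .nil) (.node (.relax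 1028 0) .nil .nil))) (.node (.cut [3, 6, 23, 32, 40, 95] 100 197 false [.rel 209 1, .rel 21 2, .rel 435 1, .rel 793 1, .rel 316 2, .rel 185 1, .rel 466 1, .rel 181 2, .rel 4 1, .rel 183 0, .rel 9 0, .rel 492 1, .rel 981 2]) (.node (.relax 2048 2) (.node (.relax 1072 2) .nil .nil) (.node (.relax 561 2) .nil .nil)) (.node (.relax 1934 2) (.node (.cut [2, 28, 35, 36, 42, 68, 76] 100 197 false [.rel 1787 1, .rel 23 1, .rel 167 1, .rel 1789 2, .rel 2377 0, .rel 671 2, .rel 1786 0, .rel 258 1, .rel 721 1, .rel 1193 2]) .nil .nil) .nil))))) (.node (.relax 1614 2) (.node (.relax 690 2) (.node (.cut [17, 18, 22, 23, 36, 42, 48] 100 197 false [.rel 1844 0, .rel 18 0, .rel 1745 0, .rel 258 1, .rel 524 0, .rel 172 0, .rel 2132 2, .rel 1250 1, .rel 698 1, .rel 1769 2, .rel 2365 0, .rel 2636 1]) (.node (.cut [2, 10, 19, 20, 41, 44, 47] 100 197 false [.rel 481 1, .rel 119 0, .rel 1459 1, .rel 1460 2, .rel 4 2, .rel 117 1,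 .rel 413 0, .rel 213 0, .rel 9 0, .rel 491 1, .rel 1289 1, .rel 2609 1, .rel 1481 0, .rel 92 0]) (.node (.cut [3, 19, 39, 43, 44, 47, 95] 100 197 false [.rel 1556 0, .rel 316 1, .rel 793 2, .rel 1341 1, .rel 185 1, .rel 27 0, .rel 790 0, .rel 413 0, .rel 1289 1, .rel 3100 1, .rel 21 1, .rel 764 0, .rel 756 2, .rel 2924 2]) (.node (.relax 1954 2) .nil .nil) (.node (.relax 673 0) .nil .nil)) (.node (.cut [3, 6, 32, 36, 39, 42, 47, 95] 100 197 false [.rel 108 0, .rel 532 0, .rel 258 1, .rel 209 1, .rel 1580 1, .rel 1544 2, .rel 1549 0, .rel 909 0, .rel 2183 1, .rel 2928 1, .rel 2722 2]) (.node (.cut [13, 17, 22, 23, 33, 34, 48, 82] 100 197 false [.rel 1844 0, .rel 18 0, .rel 1745 0, .rel 139 0, .rel 336 1, .rel 1733 1, .rel 149 1, .rel 1732 2, .rel 1736 1, .rel 1755 1, .rel 1157 1, .rel 658 0, .rel 1136 1, .rel 150 2, .rel 124 2]) .nil .nil) (.node (.relax 866 2) .nil .nil))) (.node (.cut [6, 23, 30, 36, 39, 43,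 47] 100 197 false [.rel 814 0, .rel 413 2, .rel 188 1, .rel 757 0, .rel 955 0, .rel 1556 0, .rel 2514 0, .rel 9 0, .rel 1528 1, .rel 2943 1, .rel 909 0, .rel 1477 2, .rel 2924 1]) (.node (.cut [2, 16, 30, 36, 42, 106] 100 197 false [.rel 1891 2, .rel 728 1, .rel 1890 2, .rel 23 1, .rel 167 1, .rel 2383 2, .rel 2379 2, .rel 258 1, .rel 1274 2, .rel 1193 2]) (.node (.relax 1272 2) .nil .nil) (.node (.relax 2949 2) .nil .nil)) (.node (.relax 1675 2) (.node (.relax 3024 2) .nil .nil) (.node (.relax 2484 1) .nil .nil)))) (.node (.relax 1256 2) (.node (.relax 2538 2) (.node (.cut [2, 30, 34, 35, 36, 42, 100] 100 197 false [.rel 23 1,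
  .rel 167 1, .rel 1429 0, .rel 1955 0, .rel 452 2, .rel 209 2, .rel 2043 1, .rel 258 1, .rel 1219 2, .rel 1326 1, .rel 1674 2]) (.node (.relax 2234 1) .nil .nil) (.node (.cut [6, 19, 32, 40, 44, 47, 81, 83] 100 197 false [.rel 209 1, .rel 9 0, .rel 268 1, .rel 973 1, .rel 316 1, .rel 1678 0, .rel 184 0, .rel 533 1, .rel 1001 1, .rel 181 2, .rel 529 0, .rel 492 1, .rel 981 2]) .nil .nil)) (.node (.cut [18, 29, 30, 36, 42, 43, 54] 100 197 false [.rel 2461 0, .rel 258 1, .rel 2591 1, .rel 2150 0, .rel 756 0, .rel 1520 1, .rel 955 1, .rel 175 0, .rel 2147 1, .rel 1871 2, .rel 2652 2]) (.node (.cut [2, 16, 34, 60, 76, 110] 100 197 false [.rel 1834 0, .rel 728 1, .rel 671 1, .rel 1787 2, .rel 2577 2, .rel 2377 2, .rel 1881 2, .rel 23 2, .rel 1854 2, .rel 1782 2, .rel 2655 2]) .nil .nil) (.node (.relax 25 0) .nil .nil))) (.node (.relax 715 2) (.node (.relax 1328 1) (.node (.cut [2, 17, 23, 27, 33, 35, 36] 100 197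 false [.rel 139 0, .rel 23 1, .rel 202 0, .rel 73 2, .rel 25 2, .rel 721 0, .rel 206 2, .rel 768 2, .rel 396 1, .rel 188 0, .rel 417 0, .rel 495 2, .rel 988 2, .rel 1475 0]) .nil .nil) (.node (.relax 2659 1) .nil .nil)) (.node (.cut [18, 29, 31, 42, 43, 44] 100 197 false [.rel 172 0, .rel 1879 2, .rel 1308 1, .rel 2449 1, .rel 1859 2, .rel 388 1, .rel 375 1, .rel 1854 2, .rel 2428 2]) (.node (.relax 847 2) .nil .nil) .nil)))) (.node (.relax 18 2) (.node (.relax 2292 2) (.node (.relax 1844 0) (.node (.cut [14, 21, 46, 48, 74, 82] 100 197 false [.rel 641 0, .rel 132 1, .rel 1614 1, .rel 1136 2, .rel 1615 2, .rel 342 2, .rel 1060 2, .rel 1644 1, .rel 845 2, .rel 302 1, .rel 1056 1, .rel 46 1, .rel 1622 1, .rel 603 0, .rel 294 1]) (.node (.relax 2000 0) .nil .nil) (.node (.relax 1477 2) .nil .nil)) (.node (.relax 919 0) (.node (.cut [18, 23, 28, 33, 103] 100 197 false [.rel 361 2, .rel 729 1, .rel 139 0, .rel 23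 2, .rel 202 0, .rel 72 1, .rel 731 2, .rel 73 2, .rel 391 1, .rel 630 0, .rel 495 2, .rel 92 2]) .nil .nil) (.node (.relax 2171 2) .nil .nil))) (.node (.relax 166 0) (.node (.relax 2493 1) (.node (.relax 1880 2) .nil .nil) (.node (.tree 197 [0] 100 [56, 97, 127, 0] (.pd 127 (.pge 127 (.fin 7 8414208 0)) (.unc 379 0 (.leaf [56, 97, 127, 0] 100 197 false [(0, 1)] [.rel 1955 2, .rel 1961 2, .rel 1326 2, .rel 380 2, .rel 1330 2, .md 103 2 1])))) .nil .nil)) (.node (.cut [2, 18, 35, 37, 39, 43] 100 197 false [.rel 1556 0, .rel 2514 2, .rel 215 0, .rel 258 2, .rel 524 0, .rel 172 0, .rel 956 0, .rel 168 0, .rel 23 1, .rel 381 0, .rel 380 1, .rel 2137 0]) (.node (.relax 156 2) .nil .nil) .nil))) (.node (.relax 364 0) (.node (.relax 1481 2) (.node (.relax 496 1) (.node (.cut [18, 23, 27, 30, 35, 42, 43] 100 197 false [.rel 1309 0, .rel 361 0, .rel 729 1, .rel 172 0, .rel 1859 1, .rel 2449 2, .rel 1877 1, .rel 1257 1,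 .rel 375 1, .rel 1854 2, .rel 2428 2]) .nil .nil) (.node (.relax 25 1) .nil .nil)) (.node (.relax 761 2) (.node (.cut [2, 29, 30, 35, 36, 47, 52] 100 197 false [.rel 1879 0, .rel 1955 0, .rel 2754 0, .rel 23 1, .rel 2500 1, .rel 1881 0, .rel 2827 1, .rel 756 2, .rel 2450 2, .rel 1952 2, .rel 1484 0, .rel 2924 2]) .nil .nil) (.node (.relax 583 2) .nil .nil))) (.node (.relax 1014 2) (.node (.relax 1279 0) (.node (.cut [17, 22, 23, 25, 47, 48, 71] 100 197 false [.rel 18 0, .rel 1167 2, .rel 158 0, .rel 1159 0, .rel 667 1, .rel 668 1, .rel 1844 0, .rel 1745 0, .rel 1151 0, .rel 664 0, .rel 665 2, .rel 1153 2]) .nil .nil) (.node (.cut [2, 19, 27, 32, 34, 47, 48] 100 197 false [.rel 706 0, .rel 188 2, .rel 21 0, .rel 1831 2, .rel 23 1, .rel 369 0, .rel 211 1, .rel 32 1, .rel 1521 1, .rel 1777 0, .rel 2537 1, .rel 946 2, .rel 2110 0, .rel 3063 2]) .nil .nil)) (.node (.cut [2, 18, 30, 36, 38, 42, 97] 100 197 false [.rel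 1544 0, .rel 258 1, .rel 524 0, .rel 1546 2, .rel 2160 0, .rel 172 0, .rel 23 1, .rel 383 1, .rel 108 2, .rel 959 1, .rel 2147 1, .rel 9 0, .rel 522 0, .rel 103 2]) (.node (.relax 2421 2) .nil .nil) .nil))))))

def JJ_bbbb : JT :=
  (.node (.relax 1680 2) (.node (.relax 2210 2) (.node (.relax 2471 2) (.node (.cut [17, 18, 21, 22, 23, 34, 42, 48] 100 197 false [.rel 657 0, .rel 1844 0, .rel 18 0, .rel 1745 0, .rel 172 0, .rel 2538 0, .rel 413 2, .rel 2802 0, .rel 2705 1, .rel 1727 0, .rel 1720 0]) (.node (.relax 425 2) (.node (.relax 938 2) (.node (.cut [2, 35, 36, 39, 64, 100] 100 197 false [.rel 23 1, .rel 172 2, .rel 383 1, .rel 2493 1, .rel 1544 2, .rel 525 1, .rel 1900 0, .rel 1280 1, .rel 949 1]) .nil .nil) (.node (.relax 533 1) .nil .nil)) (.node (.cut [3, 6, 32, 36, 42, 83, 95] 100 197 false [.rel 258 1, .rel 209 1, .rel 1580 1, .rel 870 1, .rel 1544 2, .rel 83 2, .rel 1345 0, .rel 786 2, .rel 1344 2,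 .rel 978 2, .rel 1579 2, .rel 108 2, .rel 869 2, .rel 2137 0]) (.node (.cut [16, 17, 22, 23, 27, 34, 64] 100 197 false [.rel 172 2, .rel 730 1, .rel 671 1, .rel 1162 0, .rel 1844 0, .rel 1870 2, .rel 361 0, .rel 1774 0, .rel 1758 1, .rel 698 2, .rel 1155 0]) .nil .nil) (.node (.relax 1991 2) .nil .nil))) (.node (.relax 372 2) (.node (.relax 1789 1) (.node (.cut [26, 27, 68, 76, 106] 100 197 false [.rel 729 2, .rel 1263 0, .rel 2437 2, .rel 2453 1, .rel 1854 2, .rel 2827 2, .rel 1864 0, .rel 728 2, .rel 1237 2, .rel 1261 2, .rel 662 1]) .nil .nil) (.node (.cut [2, 19, 35, 39, 43, 64] 100 197 false [.rel 1556 0, .rel 2514 2, .rel 1341 1, .rel 2653 0, .rel 785 2, .rel 2871 0, .rel 1850 0]) .nil .nil)) (.node (.relax 1542 2) (.node (.relax 1399 2) .nil .nil) (.node (.relax 291 2) .nil .nil)))) (.node (.relax 930 2) (.node (.relax 2082 2) (.node (.relax 1186 2) (.node (.relax 946 0) .nil .nil) (.node (.cut [2, 3,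 6, 32, 36, 39, 43, 47] 100 197 false [.rel 108 0, .rel 532 0, .rel 23 1, .rel 745 1, .rel 209 1, .rel 1337 2, .rel 955 0, .rel 1551 1, .rel 909 0, .rel 2186 0, .rel 2462 1, .rel 2722 2]) .nil .nil)) (.node (.cut [2, 18, 29, 39, 42, 43, 44] 100 197 false [.rel 215 0, .rel 786 1, .rel 172 0, .rel 785 2, .rel 2449 1, .rel 1859 2, .rel 2516 1, .rel 1242 0, .rel 124 2]) (.node (.cut [2, 28, 29, 35, 36, 42, 47] 100 197 false [.rel 23 1, .rel 167 1, .rel 1777 1, .rel 1884 1, .rel 2382 0, .rel 2378 0, .rel 258 1, .rel 1519 1, .rel 1776 2, .rel 946 1, .rel 2653 0, .rel 2652 2]) .nil .nil) (.node (.cut [3, 6, 30, 36, 39, 43, 47] 100 197 false [.rel 108 0, .rel 532 0, .rel 464 2, .rel 77 1, .rel 955 0, .rel 9 0, .rel 526 1, .rel 524 2, .rel 965 1, .rel 909 0, .rel 2083 1]) .nil .nil))) (.node (.tree 197 [0] 100 [26, 82, 0] (.pd 82 (.pge 82 (.fin 7 8414208 0)) (.unc 664 0 (.leaf [26, 82, 0] 100 197 false [(0, 1)] [.rel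 665 2, .rel 1854 2, .md 124 2 1])))) (.node (.relax 2859 2) (.node (.cut [6, 23, 32, 33, 45, 48] 100 197 false [.rel 209 1, .rel 139 0, .rel 825 0, .rel 316 2, .rel 1391 2, .rel 2742 1, .rel 442 0, .rel 2270 1, .rel 878 2, .rel 2724 1, .rel 1242 0, .rel 124 2]) .nil .nil) (.node (.cut [18, 36, 42, 43, 44, 97] 100 197 false [.rel 215 2, .rel 786 1, .rel 258 1, .rel 1439 1, .rel 499 0, .rel 768 0, .rel 172 0, .rel 785 2, .rel 721 2, .rel 1972 0, .rel 1556 0, .rel 2736 0]) .nil .nil)) (.node (.cut [18, 36, 42, 43, 54, 100] 100 197 false [.rel 258 1, .rel 747 2, .rel 1520 1, .rel 955 1, .rel 175 0, .rel 742 2, .rel 524 0, .rel 2143 1, .rel 741 2, .rel 1903 2]) (.node (.relax 2370 0) .nil .nil) .nil)))) (.node (.cut [2, 6, 19, 23, 38, 39, 47] 100 197 false [.rel 4 1, .rel 9 0, .rel 955 2, .rel 528 1, .rel 21 0, .rel 108 0, .rel 532 0, .rel 175 2, .rel 954 0, .rel 909 0, .rel 1529 1]) (.node (.cut [18, 20, 23, 26,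 27, 42, 44] 100 197 false [.rel 417 2, .rel 172 0, .rel 1660 1, .rel 361 0, .rel 729 1, .rel 1870 1, .rel 1844 2, .rel 2431 0, .rel 188 2, .rel 139 2, .rel 499 1, .rel 2607 2]) (.node (.relax 487 2) (.node (.relax 768 2) (.node (.cut [6, 18, 19, 29, 30, 36, 42] 100 197 false [.rel 9 0, .rel 258 1, .rel 524 0, .rel 526 2, .rel 266 1, .rel 108 2, .rel 2147 0, .rel 2149 1, .rel 1532 1, .rel 103 2]) .nil .nil) (.node (.relax 772 2) .nil .nil)) (.node (.relax 787 2) (.node (.cut [2, 27, 33, 35, 48, 64] 100 197 false [.rel 442 0, .rel 1950 2,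
  .rel 1884 1, .rel 172 2, .rel 605 1, .rel 175 0, .rel 375 1, .rel 1242 2, .rel 769 1, .rel 1863 1, .rel 124 2]) .nil .nil) (.node (.relax 793 0) .nil .nil))) (.node (.relax 344 2) (.node (.relax 712 2) (.node (.relax 1437 2) .nil .nil) (.node (.relax 3100 2) .nil .nil)) (.node (.cut [2, 18, 30, 33, 35, 42, 43] 100 197 false [.rel 1955 0, .rel 172 0, .rel 1667 0, .rel 316 2, .rel 1076 1, .rel 1074 0, .rel 1242 2, .rel 2269 1, .rel 124 2]) (.node (.cut [2, 18, 29, 36, 42, 97, 100] 100 197 false [.rel 172 0, .rel 23 1, .rel 383 1, .rel 778 2, .rel 1333 0, .rel 258 1, .rel 524 0, .rel 742 0, .rel 1280 2, .rel 741 2, .rel 1903 2]) .nil .nil) .nil))) (.node (.cut [4, 6, 10, 19, 23, 41, 44, 47] 100 197 false [.rel 481 1, .rel 245 1, .rel 413 0, .rel 4 0, .rel 195 1, .rel 9 0, .rel 0 1, .rel 184 1, .rel 316 1, .rel 492 1, .rel 244 2, .rel 927 0, .rel 488 0, .rel 92 2]) (.node (.cut [6, 19, 23, 36, 39, 43, 44, 47]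 100 197 false [.rel 413 0, .rel 814 1, .rel 188 1, .rel 757 0, .rel 499 0, .rel 9 0, .rel 94 1, .rel 316 1, .rel 492 1, .rel 904 1, .rel 955 0, .rel 1556 0, .rel 2943 1, .rel 909 0, .rel 1477 2, .rel 2924 1]) (.node (.relax 342 1) (.node (.relax 1254 2) .nil .nil) (.node (.relax 1705 2) .nil .nil)) (.node (.cut [2, 3, 31, 33, 39, 42] 100 197 false [.rel 499 2, .rel 27 0, .rel 258 1, .rel 108 0, .rel 278 0, .rel 23 1, .rel 24 0, .rel 215 0, .rel 780 2, .rel 193 2, .rel 428 1, .rel 605 0, .rel 1704 2, .rel 2071 2, .rel 90 2]) (.node (.cut [2, 17, 33, 36, 42, 47, 48] 100 197 false [.rel 23 1, .rel 167 1, .rel 18 0, .rel 149 1, .rel 166 2, .rel 151 2, .rel 367 0, .rel 158 1, .rel 61 1, .rel 16 1, .rel 258 1, .rel 939 0, .rel 104 0, .rel 250 1]) .nil .nil) (.node (.relax 603 2) .nil .nil))) (.node (.relax 104 2) (.node (.relax 379 2) (.node (.cut [2, 18, 28, 34, 36, 42, 68] 100 197 false [.rel 1787 1, .rel 768 1,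 .rel 605 1, .rel 23 1, .rel 204 0, .rel 167 1, .rel 1789 2, .rel 77 2, .rel 1428 0, .rel 1185 0, .rel 258 1, .rel 1193 2]) .nil .nil) (.node (.relax 3049 2) .nil .nil)) (.node (.cut [2, 18, 22, 23, 33, 42, 44] 100 197 false [.rel 139 0, .rel 172 0, .rel 1660 1, .rel 1235 2, .rel 1854 0, .rel 605 0, .rel 768 0, .rel 1659 2, .rel 1844 0, .rel 1849 2]) (.node (.relax 1876 2) .nil .nil) .nil))))) (.node (.relax 375 2) (.node (.relax 600 2) (.node (.relax 1167 1) (.node (.relax 1810 2) (.node (.relax 753 2) (.node (.cut [18, 36, 38, 39, 42, 52, 97] 100 197 false [.rel 258 1, .rel 524 0, .rel 172 0, .rel 1544 0, .rel 1546 2, .rel 2517 1, .rel 2159 2, .rel 2612 2]) .nil .nil) (.node (.cut [13, 18, 19, 22, 23, 33, 34] 100 197 false [.rel 139 0, .rel 768 0, .rel 1072 2, .rel 1664 1, .rel 373 2, .rel 660 0, .rel 1074 2, .rel 2424 2, .rel 1852 1, .rel 1846 0]) .nil .nil)) (.node (.cut [2, 19, 31, 39, 43, 47, 97] 100 197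 false [.rel 786 1, .rel 215 1, .rel 413 0, .rel 1289 1, .rel 1927 2, .rel 316 1, .rel 765 1, .rel 195 1, .rel 793 0, .rel 790 0, .rel 1556 0, .rel 3100 1, .rel 756 2, .rel 2924 2]) (.node (.cut [2, 17, 26, 28, 34, 36, 68] 100 197 false [.rel 1235 0, .rel 23 1, .rel 1787 1, .rel 2356 2, .rel 1264 0, .rel 1832 2, .rel 2433 0, .rel 258 1, .rel 2637 2]) .nil .nil) (.node (.cut [6, 29, 30, 31, 39, 43] 100 197 false [.rel 1556 0, .rel 1879 2, .rel 2847 1, .rel 413 2, .rel 213 0, .rel 1872 2, .rel 9 0, .rel 2086 0, .rel 2834 0, .rel 757 1, .rel 188 2, .rel 909 0, .rel 1477 2, .rel 2924 1]) .nil .nil))) (.node (.cut [3, 6, 23, 39, 43, 44, 47] 100 197 false [.rel 21 2, .rel 4 1, .rel 1556 0, .rel 1341 1, .rel 27 0, .rel 407 0, .rel 316 1, .rel 185 1, .rel 172 2, .rel 406 0, .rel 9 0, .rel 265 2, .rel 41 2, .rel 1479 0]) (.node (.relax 2022 2) (.node (.relax 2948 2) .nil .nil) (.node (.cut [2, 6, 29, 38, 44, 47] 100 197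 false [.rel 955 2, .rel 747 1, .rel 742 0, .rel 316 1, .rel 175 2, .rel 725 0, .rel 724 2, .rel 1246 0, .rel 1851 1]) .nil .nil)) (.node (.cut [2, 23, 29, 35, 39, 47] 100 197 false [.rel 1256 2, .rel 1556 0, .rel 2514 2, .rel 1859 1, .rel 2829 1, .rel 1854 0, .rel 2449 0, .rel 1879 0, .rel 756 2, .rel 2139 0,
  .rel 2924 2]) (.node (.cut [2, 27, 30, 34, 35, 36, 42] 100 197 false [.rel 706 0, .rel 23 1, .rel 167 1, .rel 848 2, .rel 709 1, .rel 1955 0, .rel 445 1, .rel 193 2, .rel 1422 0, .rel 258 1, .rel 1413 0, .rel 2109 1, .rel 2071 2, .rel 90 2]) .nil .nil) .nil))) (.node (.relax 2544 2) (.node (.relax 21 0) (.node (.tree 197 [0] 100 [17, 30, 35, 48, 101] (.unc 90 0 (.leaf [17, 30, 35, 48, 101] 100 197 false [(0, 1)] [.rel 18 0, .rel 166 2, .rel 1166 0, .rel 360 0, .rel 371 1, .md 90 2 1]))) (.node (.relax 176 0) .nil .nil) (.node (.relax 690 1) .nil .nil)) (.node (.cut [2, 29, 30, 31, 35, 36, 43] 100 197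 false [.rel 1955 0, .rel 1879 2, .rel 2754 0, .rel 23 1, .rel 2500 1, .rel 1881 0, .rel 2827 1, .rel 756 2, .rel 2450 2, .rel 1952 2, .rel 1484 0, .rel 2924 2]) (.node (.relax 1176 2) .nil .nil) (.node (.cut [6, 19, 29, 35, 44, 47] 100 197 false [.rel 316 1, .rel 1667 2, .rel 1872 2, .rel 1256 2, .rel 139 0, .rel 1304 1, .rel 9 0, .rel 1528 1, .rel 2653 0, .rel 2523 1, .rel 1477 2, .rel 2924 1]) .nil .nil))) (.node (.relax 373 2) (.node (.relax 445 2) (.node (.cut [2, 16, 34, 36, 42, 47] 100 197 false [.rel 671 1, .rel 175 2, .rel 690 0, .rel 23 1, .rel 745 1, .rel 167 1, .rel 742 2, .rel 1166 2, .rel 1792 1, .rel 258 1, .rel 1519 1, .rel 2639 0]) .nil .nil) (.node (.relax 400 2) .nil .nil)) (.node (.relax 869 2) (.node (.cut [3, 27, 33, 36, 48, 100] 100 197 false [.rel 199 2, .rel 1192 2, .rel 1270 0, .rel 442 0, .rel 211 1, .rel 194 2, .rel 1397 0, .rel 106 2, .rel 732 1, .rel 103 2]) .nil .nil) .nil)))) (.node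 (.relax 187 0) (.node (.cut [99, 0] 100 197 false [.rel 590 2]) (.node (.relax 1732 1) (.node (.relax 2229 2) (.node (.relax 977 2) .nil .nil) (.node (.relax 870 2) .nil .nil)) (.node (.cut [2, 17, 18, 35, 36, 42, 47] 100 197 false [.rel 20 0, .rel 23 1, .rel 25 2, .rel 722 1, .rel 172 0, .rel 383 1, .rel 721 0, .rel 373 2, .rel 737 0, .rel 258 1, .rel 524 0, .rel 1527 0]) (.node (.cut [2, 18, 28, 30, 33, 35, 42] 100 197 false [.rel 848 0, .rel 706 2, .rel 768 0, .rel 361 1, .rel 172 0, .rel 1238 1, .rel 1955 0, .rel 1235 2, .rel 2749 1, .rel 721 1, .rel 1862 0, .rel 124 2]) .nil .nil) (.node (.relax 258 1) .nil .nil))) (.node (.relax 949 2) (.node (.relax 20 0) (.node (.relax 1947 2) .nil .nil) (.node (.cut [2, 6, 18, 36, 42, 54, 124] 100 197 false [.rel 1964 0, .rel 258 1, .rel 2591 1, .rel 23 1, .rel 1334 1, .rel 756 0, .rel 172 0, .rel 785 1, .rel 786 2, .rel 383 1, .rel 778 1, .rel 747 2, .rel 741 2, .rel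 380 2, .rel 1903 2]) .nil .nil)) (.node (.relax 2447 0) (.node (.cut [30, 35, 36, 47, 97, 101] 100 197 false [.rel 364 2, .rel 400 0, .rel 1328 2, .rel 861 0, .rel 1955 0, .rel 209 2, .rel 2043 1, .rel 439 2, .rel 1326 1, .rel 1674 2]) .nil .nil) .nil))) (.node (.relax 268 1) (.node (.cut [16, 18, 23, 25, 33, 48, 86] 100 197 false [.rel 175 1, .rel 1844 2, .rel 2422 0, .rel 1159 0, .rel 2786 0, .rel 373 0, .rel 667 1, .rel 1753 1, .rel 665 2, .rel 1153 2]) (.node (.relax 2022 1) (.node (.cut [18, 29, 30, 35, 39, 42, 0] 100 197 false [.rel 1955 0, .rel 2761 2, .rel 2948 0, .rel 3071 2, .rel 172 0, .rel 2517 2, .rel 2925 2]) .nil .nil) (.node (.relax 507 2) .nil .nil)) (.node (.cut [2, 26, 27, 29, 30, 35, 36] 100 197 false [.rel 23 1, .rel 1875 2, .rel 1881 0, .rel 2827 1, .rel 1955 0, .rel 1953 1, .rel 756 2, .rel 1884 0, .rel 188 0, .rel 1859 0, .rel 2835 2, .rel 2832 2, .rel 590 2]) (.node (.relax 1936 1) .nil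 .nil) (.node (.tree 197 [0] 100 [41, 81, 0] (.pd 81 (.pge 81 (.fin 7 8414208 0)) (.unc 182 0 (.leaf [41, 81, 0] 100 197 false [(0, 1)] [.rel 181 2, .rel 2168 0, .rel 1563 2, .md 1523 2 1])))) .nil .nil))) (.node (.cut [26, 28, 33, 42, 60, 68] 100 197 false [.rel 1787 1, .rel 2798 0, .rel 768 2, .rel 2575 0, .rel 1955 2, .rel 2580 0, .rel 2377 0, .rel 605 1, .rel 1639 0, .rel 1854 2, .rel 2428 2]) (.node (.relax 27 0) (.node (.cut [16, 22, 25, 27, 34, 71, 78] 100 197 false [.rel 706 0, .rel 1181 0, .rel 1732 1, .rel 2262 2, .rel 2371 0, .rel 671 1, .rel 1319 0, .rel 1763 1, .rel 2431 2, .rel 1849 2]) .nil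
  .nil) (.node (.relax 263 2) .nil .nil)) (.node (.cut [2, 36, 38, 42, 43, 52, 97] 100 197 false [.rel 786 1, .rel 258 1, .rel 1544 0, .rel 2056 1, .rel 209 2, .rel 1442 1, .rel 747 1, .rel 741 2, .rel 785 0, .rel 955 1, .rel 690 1, .rel 688 0, .rel 1903 2]) (.node (.relax 1318 2) .nil .nil) .nil))))))

def JJ : JT :=
  (.node (.relax 2287 2) (.node (.relax 481 2) (.node (.relax 239 2) (.node (.relax 268 2) JJ_aaaa JJ_aaab) (.node (.relax 209 2) JJ_aaba JJ_aabb)) (.node (.relax 1007 0) (.node (.relax 119 2) JJ_abaa JJ_abab) (.node (.cut [6, 18, 26, 30, 42, 43] 100 197 false [.rel 1859 2, .rel 1309 0, .rel 172 0, .rel 785 1, .rel 2449 2, .rel 1341 2, .rel 2516 1, .rel 1242 0, .rel 124 2]) JJ_abba JJ_abbb))) (.node (.relax 244 1) (.node (.relax 1556 2) (.node (.relax 413 2) JJ_baaa JJ_baab) (.node (.relax 1700 2) JJ_baba JJ_babb)) (.node (.relax 139 2) (.node (.relax 582 2) JJ_bbaa JJ_bbab) (.node (.relax 2699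 2) JJ_bbba JJ_bbbb))))

def cN : Ctx := ⟨0, 0x1ffffffffffffffffffffffffffffffff, 1, 0, []⟩

theorem jj_ok : JJ.ok RR.get cN = true := by decide +kernel

end Pool.Agent.Lib.MP_755cca_al.Cnt.T48
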